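import Pool.Agent.Helper1.LG2.Defs

set_option autoImplicit false

/-!
LG2-Q. The boosted probability (`BoostMass` in `LG2/Defs.lean`).

Let `F j = cs² f j ≤ f0 2^j/2^J'`, `∑_j F j ≤ f0`. Let `N' = ∑_{ψ ∈ adm, ψ i = none} ∏_{i' ≠ i} evb (ψ i')`.
* `Nb ≤ (f0 + ∑_j F j) N' ≤ 2 f0 N'` (split off the value at `i`; removing a mode keeps `adm`).
* For `j < J'`: `∑_{ψ, ψ i = none} card (cls ψ j) ∏_{i'≠i} evb ≤ (k - 1) (F j/f0) N' ≤ k 2^(j-J') N'` (for every `i'`
  with `ψ i' = j` replace the mode by `none`: factor `F j/f0`), so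
  `∑_{ψ} [card (cls ψ j) ≥ kb j] ∏ ≤ (k 2^(j-J')/kb j) N' ≤ N'/16`.
* So `∑_ψ ∏ · #{j : card (cls ψ j) < kb j} ≥ (15/16) J' N'`, and by Cauchy-Schwarz
  `Pb i ≥ ∑_ψ ∏ (cs #)² ≥ N' (15/16)² cs² J'² ≥ N' cs² J'²/2 ≥ Nb cs² J'²/(4 f0)`.
-/

open Finset

namespace Pool.Agent.Helper1.LG2

open Pool.Agent.Helper1.MT (supp cls pr PS lev)
open Pool.Agent.Helper1.LG (Dt Ex Eq Reg tt PL wl Ps sg Bs Om nu Mn ev SS adm avg dn)

section BoostMassAux

variable {k J' : ℕ}

theorem bm_adm_update {kb : Fin J' → ℕ} {ψ : Fin k → Option (Fin J')} (h : ψ ∈ adm k kb)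
    (i : Fin k) : Function.update ψ i none ∈ adm k kb := by
  rw [adm, mem_filter] at h ⊢
  refine ⟨mem_univ _, fun j => le_trans (card_le_card ?_) (h.2 j)⟩
  intro p hp
  rw [cls, mem_filter] at hp ⊢
  refine ⟨mem_univ _, ?_⟩
  by_cases hpi : p = i
  · subst hpi
    simp at hp
  · simpa [Function.update_of_ne hpi] using hp.2

theorem bm_prod_update (val : Option (Fin J') → ℝ) (ψ : Fin k → Option (Fin J')) (i : Fin k) :
    ∏ i' ∈ univ.erase i, val (Function.update ψ i none i') = ∏ i' ∈ univ.erase i, val (ψ i') := by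
  refine prod_congr rfl fun i' hi' => ?_
  rw [Function.update_of_ne (ne_of_mem_erase hi')]

theorem bm_update_eq {ψ ψ' : Fin k → Option (Fin J')} {i : Fin k}
    (h : Function.update ψ i none = Function.update ψ' i none) (hi : ψ i = ψ' i) : ψ = ψ' := by
  funext p
  by_cases hp : p = i
  · rw [hp, hi]
  · have := congrFun h p
    rwa [Function.update_of_ne hp, Function.update_of_ne hp] at this

/-- Split off the value at `i`. -/
theorem bm_split (kb : Fin J' → ℕ) (val : Option (Fin J') → ℝ) (hv : ∀ o, 0 ≤ val o) (i : Fin k) :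
    ∑ ψ ∈ adm k kb, ∏ i', val (ψ i') ≤
      (∑ o, val o) * ∑ ψ ∈ (adm k kb).filter (fun ψ => ψ i = none),
        ∏ i' ∈ univ.erase i, val (ψ i') := by
  classical
  have hmaps : ∀ ψ ∈ adm k kb, Function.update ψ i none ∈
      (adm k kb).filter (fun ψ => ψ i = none) := by
    intro ψ hψ
    rw [mem_filter]
    exact ⟨bm_adm_update hψ i, by simp⟩
  rw [← sum_fiberwise_of_maps_to hmaps, mul_sum]
  refine sum_le_sum fun χ hχ => ?_
  have h1 : ∀ ψ ∈ (adm k kb).filter (fun ψ => Function.update ψ i none = χ),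
      ∏ i', val (ψ i') = val (ψ i) * ∏ i' ∈ univ.erase i, val (χ i') := by
    intro ψ hψ
    rw [← mul_prod_erase univ (fun i' => val (ψ i')) (mem_univ i), ← (mem_filter.1 hψ).2,
      bm_prod_update]
  rw [sum_congr rfl h1, ← sum_mul]
  refine mul_le_mul_of_nonneg_right ?_ (prod_nonneg fun i' _ => hv _)
  have hinj : Set.InjOn (fun ψ : Fin k → Option (Fin J') => ψ i)
      ((adm k kb).filter (fun ψ => Function.update ψ i none = χ) :
        Finset (Fin k → Option (Fin J'))) := by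
    intro ψ hψ ψ' hψ' he
    have e1 := (mem_filter.1 (mem_coe.1 hψ)).2
    have e2 := (mem_filter.1 (mem_coe.1 hψ')).2
    exact bm_update_eq (e1.trans e2.symm) he
  rw [← sum_image (f := val) hinj]
  exact sum_le_sum_of_subset_of_nonneg (subset_univ _) fun o _ _ => hv o

/-- Remove one mode `j`. -/
theorem bm_remove (kb : Fin J' → ℕ) (val : Option (Fin J') → ℝ) (hv : ∀ o, 0 ≤ val o)
    (h0 : 0 < val none) (i i' : Fin k) (hii : i' ≠ i) (j : Fin J') :
    ∑ ψ ∈ ((adm k kb).filter (fun ψ => ψ i = none)).filter (fun ψ => ψ i' = some j),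
        ∏ p ∈ univ.erase i, val (ψ p) ≤
      val (some j) / val none * ∑ ψ ∈ (adm k kb).filter (fun ψ => ψ i = none),
        ∏ p ∈ univ.erase i, val (ψ p) := by
  classical
  have h1 : ∀ ψ ∈ ((adm k kb).filter (fun ψ => ψ i = none)).filter (fun ψ => ψ i' = some j),
      ∏ p ∈ univ.erase i, val (ψ p) =
        (fun χ : Fin k → Option (Fin J') => val (some j) / val none *
          ∏ p ∈ univ.erase i, val (χ p)) (Function.update ψ i' none) := by
    intro ψ hψ
    have hmem : i' ∈ univ.erase i := mem_erase.2 ⟨hii, mem_univ _⟩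
    have e1 := (mem_filter.1 hψ).2
    simp only
    rw [← mul_prod_erase (univ.erase i) (fun p => val (ψ p)) hmem,
      ← mul_prod_erase (univ.erase i) (fun p => val (Function.update ψ i' none p)) hmem]
    have e2 : ∏ p ∈ (univ.erase i).erase i', val (Function.update ψ i' none p) =
        ∏ p ∈ (univ.erase i).erase i', val (ψ p) := by
      refine prod_congr rfl fun p hp => ?_
      rw [Function.update_of_ne (ne_of_mem_erase hp)]
    rw [e2, e1, Function.update_self]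
    field_simp
  have hinj : Set.InjOn (fun ψ : Fin k → Option (Fin J') => Function.update ψ i' none)
      (((adm k kb).filter (fun ψ => ψ i = none)).filter (fun ψ => ψ i' = some j) :
        Finset (Fin k → Option (Fin J'))) := by
    intro ψ hψ ψ' hψ' he
    have e1 := (mem_filter.1 (mem_coe.1 hψ)).2
    have e2 := (mem_filter.1 (mem_coe.1 hψ')).2
    exact bm_update_eq he (e1.trans e2.symm)
  rw [sum_congr rfl h1, ← sum_image (f := fun χ : Fin k → Option (Fin J') =>
    val (some j) / val none * ∏ p ∈ univ.erase i, val (χ p)) hinj, mul_sum]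
  refine sum_le_sum_of_subset_of_nonneg ?_ fun χ _ _ =>
    mul_nonneg (div_nonneg (hv _) (hv _)) (prod_nonneg fun p _ => hv _)
  intro χ hχ
  obtain ⟨ψ, hψ, rfl⟩ := mem_image.1 hχ
  rw [mem_filter, mem_filter] at hψ
  rw [mem_filter]
  refine ⟨bm_adm_update hψ.1.1 i', ?_⟩
  rw [Function.update_of_ne (Ne.symm hii)]
  exact hψ.1.2

end BoostMassAux

theorem boostMass : BoostMass := by
  classical
  intro Y k J' J1 R hk hJ hf0 hf hcs hF hkb i
  set val : Option (Fin J') → ℝ := evb R.f0 (fun j => R.cs ^ 2 * R.f j) with hval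
  have hFn : ∀ j, 0 ≤ R.cs ^ 2 * R.f j := fun j => mul_nonneg (sq_nonneg _) (hf j)
  have hv : ∀ o, 0 ≤ val o := by
    intro o
    cases o with
    | none => exact hf0.le
    | some j => exact hFn j
  have hvn : val none = R.f0 := rfl
  have hvs : ∀ j, val (some j) = R.cs ^ 2 * R.f j := fun j => rfl
  set A0 := (adm k R.kb).filter (fun ψ => ψ i = none) with hA0
  set G : (Fin k → Option (Fin J')) → ℝ := fun ψ => ∏ i' ∈ univ.erase i, val (ψ i') with hG
  have hGn : ∀ ψ, 0 ≤ G ψ := fun ψ => prod_nonneg fun p _ => hv _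
  set N' := ∑ ψ ∈ A0, G ψ with hN'
  have hN'n : 0 ≤ N' := sum_nonneg fun ψ _ => hGn ψ
  have h2J : (0 : ℝ) < 2 ^ J' := by positivity
  -- step 1
  have hsum : ∑ o, val o ≤ 2 * R.f0 := by
    rw [Fintype.sum_option, hvn]
    have h1 : ∑ j : Fin J', val (some j) ≤ ∑ j : Fin J', R.f0 / 2 ^ J' * 2 ^ (j : ℕ) := by
      refine sum_le_sum fun j _ => ?_
      rw [hvs]
      refine (hF j).trans (le_of_eq ?_)
      ring
    have h2 : ∑ j : Fin J', R.f0 / 2 ^ J' * (2 : ℝ) ^ (j : ℕ) = R.f0 / 2 ^ J' * (2 ^ J' - 1) := by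
      rw [← mul_sum, Fin.sum_univ_eq_sum_range (fun j => (2 : ℝ) ^ j) J', geom_sum_eq (by norm_num)]
      norm_num
    have h3 : R.f0 / 2 ^ J' * (2 ^ J' - 1) ≤ R.f0 := by
      rw [div_mul_eq_mul_div, div_le_iff₀ h2J]
      nlinarith
    linarith
  have hNb : R.Nb ≤ 2 * R.f0 * N' :=
    (bm_split R.kb val hv i).trans (mul_le_mul_of_nonneg_right hsum hN'n)
  -- step 2
  have hstep2 : ∀ j : Fin J', ∑ ψ ∈ A0, ((cls ψ j).card : ℝ) * G ψ ≤
      k * (val (some j) / val none * N') := by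
    intro j
    have h1 : ∀ ψ ∈ A0, ((cls ψ j).card : ℝ) * G ψ =
        ∑ i' : Fin k, if ψ i' = some j then G ψ else 0 := by
      intro ψ _
      rw [← sum_filter, sum_const, nsmul_eq_mul]
      rfl
    rw [sum_congr rfl h1, sum_comm]
    have h2 : ∀ i' ∈ (univ : Finset (Fin k)), (∑ ψ ∈ A0, if ψ i' = some j then G ψ else 0) ≤
        val (some j) / val none * N' := by
      intro i' _
      rw [← sum_filter]
      by_cases hii : i' = i
      · have : A0.filter (fun ψ => ψ i' = some j) = ∅ := by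
          rw [filter_eq_empty_iff]
          intro ψ hψ
          rw [hii, (mem_filter.1 hψ).2]
          simp
        rw [this, sum_empty]
        exact mul_nonneg (div_nonneg (hv _) (hv _)) hN'n
      · exact bm_remove R.kb val hv (by rw [hvn]; exact hf0) i i' hii j
    refine (sum_le_sum h2).trans (le_of_eq ?_)
    rw [sum_const, card_univ, Fintype.card_fin, nsmul_eq_mul]
  have hmark : ∀ j : Fin J', 15 / 16 * N' ≤
      ∑ ψ ∈ A0, (if (cls ψ j).card < R.kb j then G ψ else 0) := by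
    intro j
    have hkp : (0 : ℝ) < R.kb j := by exact_mod_cast (hkb j).1
    have h1 : N' - ∑ ψ ∈ A0, (if (cls ψ j).card < R.kb j then G ψ else 0) ≤
        (∑ ψ ∈ A0, ((cls ψ j).card : ℝ) * G ψ) / R.kb j := by
      rw [hN', ← sum_sub_distrib, sum_div]
      refine sum_le_sum fun ψ _ => ?_
      by_cases hc : (cls ψ j).card < R.kb j
      · rw [if_pos hc, sub_self]
        exact div_nonneg (mul_nonneg (Nat.cast_nonneg _) (hGn _)) hkp.le
      · rw [if_neg hc, sub_zero, le_div_iff₀ hkp]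
        have : (R.kb j : ℝ) ≤ ((cls ψ j).card : ℝ) := by exact_mod_cast not_lt.1 hc
        nlinarith [hGn ψ]
    have h2 : (∑ ψ ∈ A0, ((cls ψ j).card : ℝ) * G ψ) / R.kb j ≤ N' / 16 := by
      rw [div_le_iff₀ hkp]
      refine (hstep2 j).trans ?_
      have h3 : val (some j) / val none ≤ 2 ^ (j : ℕ) / 2 ^ J' := by
        rw [hvn, hvs, div_le_iff₀ hf0]
        refine (hF j).trans (le_of_eq ?_)
        ring
      have h4 : (k : ℝ) * (2 ^ (j : ℕ) / 2 ^ J') ≤ R.kb j / 16 := by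
        have := (hkb j).2
        rw [le_div_iff₀ (by norm_num)]
        refine le_trans (le_of_eq ?_) this
        ring
      calc (k : ℝ) * (val (some j) / val none * N')
          ≤ (k : ℝ) * (2 ^ (j : ℕ) / 2 ^ J' * N') := by
            refine mul_le_mul_of_nonneg_left ?_ (Nat.cast_nonneg _)
            exact mul_le_mul_of_nonneg_right h3 hN'n
        _ = (k : ℝ) * (2 ^ (j : ℕ) / 2 ^ J') * N' := by ring
        _ ≤ R.kb j / 16 * N' := mul_le_mul_of_nonneg_right h4 hN'n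
        _ = N' / 16 * R.kb j := by ring
    linarith
  -- step 3
  set c : ℝ := 15 / 16 * J' with hc
  have hc0 : 0 ≤ c := by positivity
  set nn : (Fin k → Option (Fin J')) → ℝ :=
    fun ψ => ((univ.filter (fun j => (cls ψ j).card < R.kb j)).card : ℝ) with hnn
  have hT : c * N' ≤ ∑ ψ ∈ A0, G ψ * nn ψ := by
    have h1 : ∀ ψ ∈ A0, G ψ * nn ψ = ∑ j : Fin J', if (cls ψ j).card < R.kb j then G ψ else 0 := by
      intro ψ _
      rw [← sum_filter, sum_const, nsmul_eq_mul, mul_comm]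
    rw [sum_congr rfl h1, sum_comm]
    have h2 : ∑ _j : Fin J', 15 / 16 * N' ≤
        ∑ j : Fin J', ∑ ψ ∈ A0, (if (cls ψ j).card < R.kb j then G ψ else 0) :=
      sum_le_sum fun j _ => hmark j
    refine le_trans (le_of_eq ?_) h2
    rw [sum_const, card_univ, Fintype.card_fin, nsmul_eq_mul, hc]
    ring
  have hQ : c ^ 2 * N' ≤ ∑ ψ ∈ A0, G ψ * nn ψ ^ 2 := by
    have h1 : 2 * c * ∑ ψ ∈ A0, G ψ * nn ψ - c ^ 2 * N' ≤ ∑ ψ ∈ A0, G ψ * nn ψ ^ 2 := by
      rw [hN', mul_sum, mul_sum, ← sum_sub_distrib]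
      refine sum_le_sum fun ψ _ => ?_
      nlinarith [mul_nonneg (hGn ψ) (sq_nonneg (nn ψ - c))]
    nlinarith
  have hPb : R.cs ^ 2 * (c ^ 2 * N') ≤ R.Pb i := by
    have h1 : R.cs ^ 2 * ∑ ψ ∈ A0, G ψ * nn ψ ^ 2 ≤ R.Pb i := by
      rw [mul_sum]
      refine sum_le_sum fun ψ _ => ?_
      have hn0 : 0 ≤ nn ψ := Nat.cast_nonneg _
      have : (R.cs * nn ψ) ^ 2 ≤ (1 + R.cs * nn ψ) ^ 2 := by
        have := mul_nonneg hcs hn0
        nlinarith
      calc R.cs ^ 2 * (G ψ * nn ψ ^ 2) = G ψ * (R.cs * nn ψ) ^ 2 := by ring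
        _ ≤ G ψ * (1 + R.cs * nn ψ) ^ 2 := mul_le_mul_of_nonneg_left this (hGn ψ)
    exact (mul_le_mul_of_nonneg_left hQ (sq_nonneg _)).trans h1
  refine le_trans ?_ hPb
  rw [div_le_iff₀ (by linarith)]
  have h1 : R.Nb * (R.cs ^ 2 * (J' : ℝ) ^ 2) ≤ 2 * R.f0 * N' * (R.cs ^ 2 * (J' : ℝ) ^ 2) :=
    mul_le_mul_of_nonneg_right hNb (by positivity)
  refine h1.trans ?_
  have h2 : 0 ≤ R.f0 * N' * (R.cs ^ 2 * (J' : ℝ) ^ 2) := by positivity
  rw [hc]
  nlinarith

end Pool.Agent.Helper1.LG2
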