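import Pool.Agent.Helper1.LG2.Defs
import Pool.Agent.Helper1.LG.Comb

set_option autoImplicit false

/-!
LG2-S4. The sum of the squares of the total weight (`SumFour2` in `LG2/Defs.lean`). Compare LG-C4.

`(∑_τ g_τ²)² = ∑_{τ,τ'} g_τ² g_τ'²`, expand with `(ψ_1, φ_1), (ψ_2, φ_2)` for `τ` and
`(ψ_3, φ_3), (ψ_4, φ_4)` for `τ'`: word at `p`: slot `l` has the letter `lbo (ψ_l i)` if `p = τ_l i`
(`τ_1 = τ_2 = τ`, `τ_3 = τ_4 = τ'`), `lko (φ_l p)` otherwise. `U = UW2 W = rgt τ ∪ rgt τ' ∪ ⋃ supp φ_l`, size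
`≤ 2k + 4 ∑ kk ≤ u0`, level `≤ 4 (k lv b0 + ..) ≤ 1/50`. By `est` each term is at most
`MI (1 + ε2) dn(U) (c5 Plow)^|U| + ε1` (`bound`, `E_blank`, `c5 ≥ 1`, `cs ≤ 1`).
With `P = c5 Plow`, for each `a`: there are `(card adm)^4` choices of the `ψ_l`; for given `τ, τ'` with
values in `B a` the sum over the `φ_l` supported in `B a` of `P^|U|` is at most
`P^|rgt τ ∪ rgt τ'| (J1+1)^(8k) (1 + (J1+1)^4 P)^|B a|` (values of the `φ_l` at the at most `2k` positions of
`rgt τ ∪ rgt τ'`: at most `(J1+1)^(4·2k)` possibilities; elsewhere as in `comb`; or apply `comb` to the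
restrictions), and `∑_{τ,τ'} P^|rgt τ ∪ rgt τ'| ≤ ∑_{V ⊆ B a, |V| ≤ 2k} (2k)^(2k) P^|V| ≤ (2k)^(2k) (1 + P)^|B a|`
(for a given union `V` there are at most `|V|^(2k)` pairs; `∑_{V ⊆ B} P^|V| = (1+P)^|B|`). `k ≥ 1`.
The `ε1` part: `Y^(2k) (card adm k)^4 (card adm Y)^4 = Y^(2k) NN²`.
-/

open Finset

namespace Pool.Agent.Helper1.LG2

open Pool.Agent.Helper1.MT (supp cls)
open Pool.Agent.Helper1.LG (adm avg dn)

namespace SumFour2Aux

variable {Y k J' J1 : ℕ}

/-- The tuple of a slot. -/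
def hf : Fin 4 → Fin 2 := ![0, 0, 1, 1]

/-- The positions of the tuples. -/
def vs (T : Fin 2 → Fin k → Fin Y) : Finset (Fin Y) :=
  univ.image (fun x : Fin 2 × Fin k => T x.1 x.2)

/-- The positions of the killing modes. -/
def ss (Φ : Fin 4 → Fin Y → Option (Fin J1)) : Finset (Fin Y) :=
  univ.filter (fun p => ∃ l, Φ l p ≠ none)

lemma card_vs_le (T : Fin 2 → Fin k → Fin Y) : (vs T).card ≤ 2 * k := by
  refine card_image_le.trans ?_
  simp

lemma sum_phi (V B : Finset (Fin Y)) (hVB : V ⊆ B) (P : ℝ) (hP : 0 ≤ P) :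
    ∑ Φ ∈ univ.filter (fun Φ : Fin 4 → Fin Y → Option (Fin J1) => ss Φ ⊆ B), P ^ (V ∪ ss Φ).card ≤
      (((J1 : ℝ) + 1) ^ 4 * P) ^ V.card * (1 + ((J1 : ℝ) + 1) ^ 4 * P) ^ B.card := by
  classical
  set w : Fin Y → (Fin 4 → Option (Fin J1)) → ℝ :=
    fun i x => if i ∈ V ∨ ∃ l, x l ≠ none then P else 1 with hw
  set T : Fin Y → Finset (Fin 4 → Option (Fin J1)) :=
    fun i => if i ∈ B then univ else {fun _ => none} with hT
  have hw0 : ∀ i x, 0 ≤ w i x := by
    intro i x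
    simp only [hw]
    split_ifs
    · exact hP
    · exact zero_le_one
  set e : (Fin 4 → Fin Y → Option (Fin J1)) ↪ (Fin Y → Fin 4 → Option (Fin J1)) :=
    ⟨fun Φ i l => Φ l i, fun Φ Ψ h => by
      funext l i
      exact congrFun (congrFun h i) l⟩ with he
  have hval : ∀ Φ : Fin 4 → Fin Y → Option (Fin J1), P ^ (V ∪ ss Φ).card = ∏ i, w i (e Φ i) := by
    intro Φ
    simp only [hw, he, Function.Embedding.coeFn_mk]
    rw [prod_ite, prod_const, prod_const_one, mul_one]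
    congr 2
    ext i
    simp [ss]
  calc ∑ Φ ∈ univ.filter (fun Φ : Fin 4 → Fin Y → Option (Fin J1) => ss Φ ⊆ B), P ^ (V ∪ ss Φ).card
      = ∑ Φ ∈ univ.filter (fun Φ : Fin 4 → Fin Y → Option (Fin J1) => ss Φ ⊆ B),
        ∏ i, w i (e Φ i) := sum_congr rfl (fun Φ _ => hval Φ)
    _ = ∑ x ∈ (univ.filter (fun Φ : Fin 4 → Fin Y → Option (Fin J1) => ss Φ ⊆ B)).map e,
        ∏ i, w i (x i) := by rw [sum_map]
    _ ≤ ∑ x ∈ Fintype.piFinset T, ∏ i, w i (x i) := by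
        refine sum_le_sum_of_subset_of_nonneg ?_ (fun x _ _ => prod_nonneg (fun i _ => hw0 _ _))
        intro x hx
        rw [mem_map] at hx
        obtain ⟨Φ, hΦ, rfl⟩ := hx
        rw [Fintype.mem_piFinset]
        intro i
        simp only [hT]
        split_ifs with hi
        · exact mem_univ _
        · rw [mem_singleton]
          funext l
          have h1 := (mem_filter.1 hΦ).2
          by_contra hne
          have hne' : Φ l i ≠ none := hne
          exact hi (h1 (by simp only [ss, mem_filter, mem_univ, true_and]; exact ⟨l, hne'⟩))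
    _ = ∏ i, ∑ x ∈ T i, w i x := (prod_univ_sum T w).symm
    _ ≤ ∏ i : Fin Y, ((if i ∈ V then (((J1 : ℝ) + 1) ^ 4 * P) else 1) *
          (if i ∈ B then (1 + ((J1 : ℝ) + 1) ^ 4 * P) else 1)) := by
        refine prod_le_prod (fun i _ => sum_nonneg (fun x _ => hw0 i x)) ?_
        intro i _
        have hJP : 0 ≤ ((J1 : ℝ) + 1) ^ 4 * P := by positivity
        by_cases hiV : i ∈ V
        · have hiB : i ∈ B := hVB hiV
          simp only [hT, if_pos hiB, if_pos hiV]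
          have h1 : ∀ x, w i x = P := fun x => by
            simp only [hw]
            rw [if_pos (Or.inl hiV)]
          rw [sum_congr rfl (fun x _ => h1 x)]
          simp only [sum_const, card_univ, Fintype.card_pi, Fintype.card_option, Fintype.card_fin,
            prod_const, nsmul_eq_mul]
          push_cast
          nlinarith
        · rw [if_neg hiV, one_mul]
          have h2 : ∀ x, w i x = if ∃ l, x l ≠ none then P else 1 := fun x => by
            simp only [hw, hiV, false_or]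
          simp only [h2, hT]
          split_ifs with hi
          · have hsplit : ∀ x : Fin 4 → Option (Fin J1),
                (if ∃ l, x l ≠ none then P else 1) ≤ (if x = (fun _ => none) then 1 else 0) + P := by
              intro x
              by_cases hx : ∃ l, x l ≠ none
              · rw [if_pos hx]
                split_ifs <;> linarith
              · rw [if_neg hx]
                have : x = fun _ => none := by
                  funext l
                  by_contra hne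
                  exact hx ⟨l, hne⟩
                rw [if_pos this]
                linarith
            calc ∑ x : Fin 4 → Option (Fin J1), (if ∃ l, x l ≠ none then P else 1)
                ≤ ∑ x : Fin 4 → Option (Fin J1), ((if x = (fun _ => none) then 1 else 0) + P) :=
                  sum_le_sum (fun x _ => hsplit x)
              _ = 1 + ((J1 : ℝ) + 1) ^ 4 * P := by
                  rw [sum_add_distrib]
                  simp
          · rw [sum_singleton]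
            simp
    _ = (((J1 : ℝ) + 1) ^ 4 * P) ^ V.card * (1 + ((J1 : ℝ) + 1) ^ 4 * P) ^ B.card := by
        rw [prod_mul_distrib, prod_ite, prod_ite]
        simp

lemma sum_T (B : Finset (Fin Y)) (P : ℝ) (hP : 0 ≤ P) :
    ∑ T ∈ univ.filter (fun T : Fin 2 → Fin k → Fin Y => vs T ⊆ B), P ^ (vs T).card ≤
      ((2 : ℝ) * k) ^ (2 * k) * (1 + P) ^ B.card := by
  classical
  have hmaps : ∀ T ∈ univ.filter (fun T : Fin 2 → Fin k → Fin Y => vs T ⊆ B),
      vs T ∈ B.powerset := fun T hT => mem_powerset.2 (mem_filter.1 hT).2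
  rw [← sum_fiberwise_of_maps_to hmaps]
  have hfib : ∀ V ∈ B.powerset,
      ∑ T ∈ (univ.filter (fun T : Fin 2 → Fin k → Fin Y => vs T ⊆ B)).filter
        (fun T => vs T = V), P ^ (vs T).card ≤ ((2 : ℝ) * k) ^ (2 * k) * P ^ V.card := by
    intro V _
    have h1 : ∑ T ∈ (univ.filter (fun T : Fin 2 → Fin k → Fin Y => vs T ⊆ B)).filter
        (fun T => vs T = V), P ^ (vs T).card =
        (((univ.filter (fun T : Fin 2 → Fin k → Fin Y => vs T ⊆ B)).filter
          (fun T => vs T = V)).card : ℝ) * P ^ V.card := by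
      rw [sum_congr rfl (fun T hT => by rw [(mem_filter.1 hT).2]), sum_const, nsmul_eq_mul]
    rw [h1]
    refine mul_le_mul_of_nonneg_right ?_ (by positivity)
    rcases ((univ.filter (fun T : Fin 2 → Fin k → Fin Y => vs T ⊆ B)).filter
          (fun T => vs T = V)).eq_empty_or_nonempty with h0 | ⟨T0, hT0⟩
    · rw [h0, card_empty]
      simp only [Nat.cast_zero]
      positivity
    · have hV : V.card ≤ 2 * k := by
        rw [← (mem_filter.1 hT0).2]
        exact card_vs_le T0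
      have h2 : ((univ.filter (fun T : Fin 2 → Fin k → Fin Y => vs T ⊆ B)).filter
          (fun T => vs T = V)).card ≤
          (Fintype.piFinset (fun _ : Fin 2 => Fintype.piFinset (fun _ : Fin k => V))).card := by
        refine card_le_card fun T hT => ?_
        rw [Fintype.mem_piFinset]
        intro j
        rw [Fintype.mem_piFinset]
        intro m
        rw [← (mem_filter.1 hT).2]
        exact mem_image.2 ⟨(j, m), mem_univ _, rfl⟩
      rw [Fintype.card_piFinset, prod_const, Fintype.card_piFinset, prod_const] at h2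
      simp only [card_univ, Fintype.card_fin] at h2
      rw [← pow_mul] at h2
      have h3 : V.card ^ (k * 2) ≤ (2 * k) ^ (k * 2) := Nat.pow_le_pow_left hV _
      have h4 : ((((univ.filter (fun T : Fin 2 → Fin k → Fin Y => vs T ⊆ B)).filter
          (fun T => vs T = V)).card : ℕ) : ℝ) ≤ (((2 * k) ^ (k * 2) : ℕ) : ℝ) := by
        exact_mod_cast h2.trans h3
      refine h4.trans (le_of_eq ?_)
      push_cast
      rw [mul_comm k 2]
  refine (sum_le_sum hfib).trans (le_of_eq ?_)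
  rw [← mul_sum]
  congr 1
  have h5 := Finset.sum_pow_mul_eq_add_pow P 1 B
  simp only [one_pow, mul_one] at h5
  rw [h5, add_comm]

lemma mem_TT (w : Fin k → Finset (Fin Y)) (B : Finset (Fin Y)) (τ : Fin k → Fin Y) :
    τ ∈ TT w B ↔ Function.Injective τ ∧ ∀ i, τ i ∈ w i ∧ τ i ∈ B := by
  classical
  unfold TT
  simp

lemma mem_rgt (τ : Fin k → Fin Y) (p : Fin Y) : p ∈ rgt τ ↔ ∃ m, τ m = p := by
  simp [rgt]

lemma mem_vs (T : Fin 2 → Fin k → Fin Y) (p : Fin Y) : p ∈ vs T ↔ ∃ j, p ∈ rgt (T j) := by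
  simp only [vs, mem_image, mem_univ, true_and, Prod.exists, mem_rgt]

lemma hf_surj (j : Fin 2) : ∃ l, hf l = j := by
  fin_cases j
  · exact ⟨0, rfl⟩
  · exact ⟨2, rfl⟩

open Classical in
/-- One slot of the word. -/
noncomputable def wsl (τ : Fin k → Fin Y) (ψ : Fin k → Option (Fin J'))
    (φ : Fin Y → Option (Fin J1)) (p : Fin Y) : Lb J' J1 :=
  if h : ∃ m, τ m = p then lbo (ψ h.choose) else lko (φ p)

lemma wsl_tau {τ : Fin k → Fin Y} (hτ : Function.Injective τ) (ψ : Fin k → Option (Fin J'))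
    (φ : Fin Y → Option (Fin J1)) (m : Fin k) : wsl τ ψ φ (τ m) = lbo (ψ m) := by
  have h : ∃ m', τ m' = τ m := ⟨m, rfl⟩
  unfold wsl
  rw [dif_pos h, hτ h.choose_spec]

lemma wsl_not {τ : Fin k → Fin Y} (ψ : Fin k → Option (Fin J')) (φ : Fin Y → Option (Fin J1))
    {p : Fin Y} (hp : p ∉ rgt τ) : wsl τ ψ φ p = lko (φ p) := by
  unfold wsl
  rw [dif_neg]
  rwa [mem_rgt] at hp

lemma lbo_ne (o : Option (Fin J')) : (lbo o : Lb J' J1) ≠ .one := by
  cases o <;> simp [lbo]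

lemma lko_eq (o : Option (Fin J1)) : (lko o : Lb J' J1) = .one ↔ o = none := by
  cases o <;> simp [lko]

lemma wsl_mem {τ : Fin k → Fin Y} (ψ : Fin k → Option (Fin J')) (φ : Fin Y → Option (Fin J1))
    {p : Fin Y} (hp : p ∈ rgt τ) : wsl τ ψ φ p ≠ .one := by
  rw [mem_rgt] at hp
  unfold wsl
  rw [dif_pos hp]
  exact lbo_ne _

lemma prod_wsl {τ : Fin k → Fin Y} (hτ : Function.Injective τ) (ψ : Fin k → Option (Fin J'))
    (φ : Fin Y → Option (Fin J1)) (hd : ∀ p ∈ rgt τ, φ p = none) (f : Fin Y → Lb J' J1 → ℝ)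
    (hf1 : ∀ p, f p .one = 1) :
    ∏ p, f p (wsl τ ψ φ p) = (∏ m, f (τ m) (lbo (ψ m))) * ∏ p, f p (lko (φ p)) := by
  classical
  rw [← prod_mul_prod_compl (rgt τ) (fun p => f p (wsl τ ψ φ p)),
    ← prod_mul_prod_compl (rgt τ) (fun p => f p (lko (φ p)))]
  have h1 : ∏ p ∈ rgt τ, f p (wsl τ ψ φ p) = ∏ m, f (τ m) (lbo (ψ m)) := by
    unfold rgt
    rw [prod_image (fun a _ b _ h => hτ h)]
    exact prod_congr rfl fun m _ => by rw [wsl_tau hτ]
  have h2 : ∏ p ∈ rgt τ, f p (lko (φ p)) = 1 :=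
    prod_eq_one fun p hp => by rw [hd p hp]; exact hf1 p
  have h3 : ∏ p ∈ (rgt τ)ᶜ, f p (wsl τ ψ φ p) = ∏ p ∈ (rgt τ)ᶜ, f p (lko (φ p)) :=
    prod_congr rfl fun p hp => by rw [wsl_not ψ φ (mem_compl.1 hp)]
  rw [h1, h2, h3, one_mul]

lemma sum_wsl {τ : Fin k → Fin Y} (hτ : Function.Injective τ) (ψ : Fin k → Option (Fin J'))
    (φ : Fin Y → Option (Fin J1)) (hd : ∀ p ∈ rgt τ, φ p = none) (f : Lb J' J1 → ℝ)
    (hf1 : f .one = 0) :
    ∑ p, f (wsl τ ψ φ p) = (∑ m, f (lbo (ψ m))) + ∑ p, f (lko (φ p)) := by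
  classical
  rw [← sum_add_sum_compl (rgt τ) (fun p => f (wsl τ ψ φ p)),
    ← sum_add_sum_compl (rgt τ) (fun p => f (lko (φ p)))]
  have h1 : ∑ p ∈ rgt τ, f (wsl τ ψ φ p) = ∑ m, f (lbo (ψ m)) := by
    unfold rgt
    rw [sum_image (fun a _ b _ h => hτ h)]
    exact sum_congr rfl fun m _ => by rw [wsl_tau hτ]
  have h2 : ∑ p ∈ rgt τ, f (lko (φ p)) = 0 :=
    sum_eq_zero fun p hp => by rw [hd p hp]; exact hf1
  have h3 : ∑ p ∈ (rgt τ)ᶜ, f (wsl τ ψ φ p) = ∑ p ∈ (rgt τ)ᶜ, f (lko (φ p)) :=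
    sum_congr rfl fun p hp => by rw [wsl_not ψ φ (mem_compl.1 hp)]
  rw [h1, h2, h3, zero_add]

/-- The word of a choice. -/
noncomputable def WW (T : Fin 2 → Fin k → Fin Y) (Ψ : Fin 4 → Fin k → Option (Fin J'))
    (Φ : Fin 4 → Fin Y → Option (Fin J1)) : Fin Y → Fin 4 → Lb J' J1 :=
  fun p l => wsl (T (hf l)) (Ψ l) (Φ l) p

/-- The side condition. -/
def side (T : Fin 2 → Fin k → Fin Y) (Φ : Fin 4 → Fin Y → Option (Fin J1)) : Prop :=
  ∀ l, ∀ p ∈ rgt (T (hf l)), Φ l p = none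

lemma UW2_WW (T : Fin 2 → Fin k → Fin Y) (Ψ : Fin 4 → Fin k → Option (Fin J'))
    (Φ : Fin 4 → Fin Y → Option (Fin J1)) : UW2 (WW T Ψ Φ) = vs T ∪ ss Φ := by
  ext p
  simp only [UW2, mem_filter, mem_univ, true_and, mem_union, mem_vs, ss]
  rw [Function.ne_iff]
  constructor
  · rintro ⟨l, hl⟩
    by_cases hp : p ∈ rgt (T (hf l))
    · exact Or.inl ⟨_, hp⟩
    · refine Or.inr ⟨l, fun h => hl ?_⟩
      show wsl (T (hf l)) (Ψ l) (Φ l) p = .one
      rw [wsl_not _ _ hp, h]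
      rfl
  · rintro (⟨j, hj⟩ | ⟨l, hl⟩)
    · obtain ⟨l, rfl⟩ := hf_surj j
      exact ⟨l, wsl_mem _ _ hj⟩
    · by_cases hp : p ∈ rgt (T (hf l))
      · exact ⟨l, wsl_mem _ _ hp⟩
      · refine ⟨l, fun h => hl ?_⟩
        have h' : wsl (T (hf l)) (Ψ l) (Φ l) p = .one := h
        rwa [wsl_not _ _ hp, lko_eq] at h'

lemma prod_WW {T : Fin 2 → Fin k → Fin Y} (hT : ∀ j, Function.Injective (T j))
    (Ψ : Fin 4 → Fin k → Option (Fin J')) {Φ : Fin 4 → Fin Y → Option (Fin J1)} (hs : side T Φ)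
    (v : Fin Y → Lb J' J1 → ℝ) (hv : ∀ p, v p .one = 1) :
    ∏ p, ∏ l, v p (WW T Ψ Φ p l) =
      ∏ l, ((∏ m, v (T (hf l) m) (lbo (Ψ l m))) * ∏ p, v p (lko (Φ l p))) := by
  rw [prod_comm]
  exact prod_congr rfl fun l _ => prod_wsl (hT _) _ _ (hs l) v hv

lemma sum_WW {T : Fin 2 → Fin k → Fin Y} (hT : ∀ j, Function.Injective (T j))
    (Ψ : Fin 4 → Fin k → Option (Fin J')) {Φ : Fin 4 → Fin Y → Option (Fin J1)} (hs : side T Φ)
    (f : Lb J' J1 → ℝ) (hf1 : f .one = 0) :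
    ∑ p, ∑ l, f (WW T Ψ Φ p l) =
      ∑ l, ((∑ m, f (lbo (Ψ l m))) + ∑ p, f (lko (Φ l p))) := by
  rw [sum_comm]
  exact sum_congr rfl fun l _ => sum_wsl (hT _) _ _ (hs l) f hf1

lemma card_supp_le {N J : ℕ} {K : Fin J → ℕ} {φ : Fin N → Option (Fin J)} (h : φ ∈ adm N K) :
    (supp φ).card ≤ ∑ j, K j := by
  unfold adm at h
  simp only [mem_filter, mem_univ, true_and] at h
  have h1 : supp φ ⊆ univ.biUnion (fun j => cls φ j) := by
    intro i hi
    unfold supp at hi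
    simp only [mem_filter, mem_univ, true_and] at hi
    obtain ⟨j, hj⟩ := Option.ne_none_iff_exists'.1 hi
    simp only [mem_biUnion, mem_univ, true_and]
    exact ⟨j, by unfold cls; simp [hj]⟩
  exact ((card_le_card h1).trans card_biUnion_le).trans (sum_le_sum (fun j _ => h j))

lemma sum_opt {N J : ℕ} {K : Fin J → ℕ} {φ : Fin N → Option (Fin J)} (h : φ ∈ adm N K)
    (f : Option (Fin J) → ℝ) (hf0 : ∀ o, 0 ≤ f o) :
    ∑ i, f (φ i) ≤ N * f none + ∑ j, (K j : ℝ) * f (some j) := by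
  unfold adm at h
  simp only [mem_filter, mem_univ, true_and] at h
  have h2 : ∀ i, f (φ i) ≤ f none + ∑ j, if φ i = some j then f (some j) else 0 := by
    intro i
    cases hi : φ i with
    | none => simp
    | some j =>
      simp only [Option.some.injEq]
      rw [Finset.sum_ite_eq]
      simp [hf0]
  calc ∑ i, f (φ i) ≤ ∑ i, (f none + ∑ j, if φ i = some j then f (some j) else 0) :=
        sum_le_sum (fun i _ => h2 i)
    _ = N * f none + ∑ j, ∑ i, if φ i = some j then f (some j) else 0 := by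
        rw [sum_add_distrib, sum_comm]
        simp
    _ = N * f none + ∑ j, ((cls φ j).card : ℝ) * f (some j) := by
        congr 1
        refine sum_congr rfl (fun j _ => ?_)
        rw [← sum_filter, sum_const, nsmul_eq_mul]
        rfl
    _ ≤ N * f none + ∑ j, (K j : ℝ) * f (some j) := by
        gcongr with j _
        · exact hf0 _
        · exact_mod_cast h j

lemma card_ss_le {kk : Fin J1 → ℕ} {Φ : Fin 4 → Fin Y → Option (Fin J1)}
    (h : ∀ l, Φ l ∈ adm Y kk) : (ss Φ).card ≤ 4 * ∑ j, kk j := by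
  have h1 : ss Φ ⊆ univ.biUnion (fun l => supp (Φ l)) := by
    intro p hp
    obtain ⟨l, hl⟩ := (mem_filter.1 hp).2
    exact mem_biUnion.2 ⟨l, mem_univ _, by unfold supp; simp [hl]⟩
  refine ((card_le_card h1).trans card_biUnion_le).trans ?_
  refine (sum_le_sum (fun l _ => card_supp_le (h l))).trans (le_of_eq ?_)
  simp

/-- The sign and the power of `cs` of a choice. -/
noncomputable def sgn (cs : ℝ) (Ψ : Fin 4 → Fin k → Option (Fin J'))
    (Φ : Fin 4 → Fin Y → Option (Fin J1)) : ℝ :=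
  ∏ l, ((-1) ^ (supp (Φ l)).card * cs ^ (supp (Ψ l)).card)

lemma abs_sgn_le {cs : ℝ} (h0 : 0 ≤ cs) (h1 : cs ≤ 1) (Ψ : Fin 4 → Fin k → Option (Fin J'))
    (Φ : Fin 4 → Fin Y → Option (Fin J1)) : |sgn cs Ψ Φ| ≤ 1 := by
  unfold sgn
  rw [abs_prod]
  refine prod_le_one (fun l _ => abs_nonneg _) fun l _ => ?_
  rw [abs_mul, abs_pow, abs_neg, abs_one, one_pow, one_mul, abs_pow, abs_of_nonneg h0]
  exact pow_le_one₀ h0 h1

/-- The boosting part of a slot. -/
noncomputable def ga (cs : ℝ) (v : Fin Y → Lb J' J1 → ℝ) (τ : Fin k → Fin Y)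
    (ψ : Fin k → Option (Fin J')) : ℝ :=
  cs ^ (supp ψ).card * ∏ m, v (τ m) (lbo (ψ m))

/-- The killing part of a slot. -/
noncomputable def gb (B : Finset (Fin Y)) (v : Fin Y → Lb J' J1 → ℝ) (τ : Fin k → Fin Y)
    (φ : Fin Y → Option (Fin J1)) : ℝ :=
  if supp φ ⊆ B \ rgt τ then (-1) ^ (supp φ).card * ∏ p, v p (lko (φ p)) else 0

lemma gt_eq (kb : Fin J' → ℕ) (kk : Fin J1 → ℕ) (cs : ℝ) (τ : Fin k → Fin Y)
    (B : Finset (Fin Y)) (v : Fin Y → Lb J' J1 → ℝ) :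
    gt kb kk cs τ B v = (∑ ψ ∈ adm k kb, ga cs v τ ψ) * ∑ φ ∈ adm Y kk, gb B v τ φ := by
  unfold gt ga gb
  rw [sum_mul_sum]
  refine sum_congr rfl fun ψ _ => ?_
  rw [sum_filter]
  refine sum_congr rfl fun φ _ => ?_
  split_ifs
  · ring
  · rw [mul_zero]

/-- The square of the sum of the squares. -/
lemma sq_eq (kb : Fin J' → ℕ) (kk : Fin J1 → ℕ) (cs : ℝ) (w : Fin k → Finset (Fin Y))
    (B : Finset (Fin Y)) (v : Fin Y → Lb J' J1 → ℝ) :
    (∑ τ ∈ TT w B, gt kb kk cs τ B v ^ 2) ^ 2 =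
      ∑ T ∈ Fintype.piFinset (fun _ : Fin 2 => TT w B),
        ∑ Ψ ∈ Fintype.piFinset (fun _ : Fin 4 => adm k kb),
          ∑ Φ ∈ Fintype.piFinset (fun _ : Fin 4 => adm Y kk),
            ∏ l, (ga cs v (T (hf l)) (Ψ l) * gb B v (T (hf l)) (Φ l)) := by
  have h1 : (∑ τ ∈ TT w B, gt kb kk cs τ B v ^ 2) ^ 2 =
      ∏ _j : Fin 2, ∑ τ ∈ TT w B, gt kb kk cs τ B v ^ 2 := by
    rw [Fin.prod_univ_two, sq]
  rw [h1, prod_univ_sum]
  refine sum_congr rfl fun T _ => ?_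
  have h2 : ∏ j : Fin 2, gt kb kk cs (T j) B v ^ 2 = ∏ l : Fin 4, gt kb kk cs (T (hf l)) B v := by
    rw [Fin.prod_univ_two, Fin.prod_univ_four]
    show gt kb kk cs (T 0) B v ^ 2 * gt kb kk cs (T 1) B v ^ 2 =
      gt kb kk cs (T 0) B v * gt kb kk cs (T 0) B v * gt kb kk cs (T 1) B v *
        gt kb kk cs (T 1) B v
    ring
  rw [h2]
  simp only [gt_eq]
  rw [prod_mul_distrib, prod_univ_sum, prod_univ_sum, sum_mul_sum]
  refine sum_congr rfl fun Ψ _ => sum_congr rfl fun Φ _ => ?_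
  rw [prod_mul_distrib]

lemma prod_gab {cs : ℝ} {T : Fin 2 → Fin k → Fin Y} (hT : ∀ j, Function.Injective (T j))
    (B : Finset (Fin Y)) (v : Fin Y → Lb J' J1 → ℝ) (hv : ∀ p, v p .one = 1)
    (Ψ : Fin 4 → Fin k → Option (Fin J')) (Φ : Fin 4 → Fin Y → Option (Fin J1))
    (hTB : vs T ⊆ B) :
    ∏ l, (ga cs v (T (hf l)) (Ψ l) * gb B v (T (hf l)) (Φ l)) =
      open Classical in
      if side T Φ ∧ UW2 (WW T Ψ Φ) ⊆ B then sgn cs Ψ Φ * ∏ p, ∏ l, v p (WW T Ψ Φ p l) else 0 := by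
  classical
  by_cases h : side T Φ ∧ UW2 (WW T Ψ Φ) ⊆ B
  · rw [if_pos h, prod_WW hT Ψ h.1 v hv, sgn, ← prod_mul_distrib]
    refine prod_congr rfl fun l _ => ?_
    have hsub : supp (Φ l) ⊆ B \ rgt (T (hf l)) := by
      intro p hp
      have hp' : Φ l p ≠ none := by simpa [supp] using hp
      rw [mem_sdiff]
      refine ⟨h.2 ?_, fun hr => hp' (h.1 l p hr)⟩
      rw [UW2_WW]
      exact mem_union_right _ (mem_filter.2 ⟨mem_univ _, l, hp'⟩)
    unfold ga gb
    rw [if_pos hsub]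
    ring
  · rw [if_neg h]
    by_contra hne
    apply h
    have h3 : ∀ l, supp (Φ l) ⊆ B \ rgt (T (hf l)) := by
      intro l
      by_contra hl
      apply hne
      refine prod_eq_zero (mem_univ l) ?_
      unfold gb
      rw [if_neg hl, mul_zero]
    constructor
    · intro l p hp
      by_contra hpn
      have := h3 l (show p ∈ supp (Φ l) by simpa [supp] using hpn)
      exact (mem_sdiff.1 this).2 hp
    · rw [UW2_WW]
      refine union_subset hTB fun p hp => ?_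
      obtain ⟨l, hl⟩ := (mem_filter.1 hp).2
      exact (mem_sdiff.1 (h3 l (show p ∈ supp (Φ l) by simpa [supp] using hl))).1

/-- The index set of the choices. -/
noncomputable def XX (kb : Fin J' → ℕ) (kk : Fin J1 → ℕ) (w : Fin k → Finset (Fin Y)) :
    Finset ((Fin 2 → Fin k → Fin Y) × (Fin 4 → Fin k → Option (Fin J')) ×
      (Fin 4 → Fin Y → Option (Fin J1))) := by
  classical exact ((Fintype.piFinset (fun _ : Fin 2 => TT w univ)) ×ˢ
    (Fintype.piFinset (fun _ : Fin 4 => adm k kb)) ×ˢ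
      (Fintype.piFinset (fun _ : Fin 4 => adm Y kk))).filter (fun x => side x.1 x.2.2)

lemma mem_XX (kb : Fin J' → ℕ) (kk : Fin J1 → ℕ) (w : Fin k → Finset (Fin Y))
    (x : (Fin 2 → Fin k → Fin Y) × (Fin 4 → Fin k → Option (Fin J')) ×
      (Fin 4 → Fin Y → Option (Fin J1))) :
    x ∈ XX kb kk w ↔ (∀ j, x.1 j ∈ TT w univ) ∧ (∀ l, x.2.1 l ∈ adm k kb) ∧
      (∀ l, x.2.2 l ∈ adm Y kk) ∧ side x.1 x.2.2 := by
  classical
  unfold XX
  simp only [mem_filter, mem_product, Fintype.mem_piFinset]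
  tauto

lemma sq_eq' (kb : Fin J' → ℕ) (kk : Fin J1 → ℕ) (cs : ℝ) (w : Fin k → Finset (Fin Y))
    (B : Finset (Fin Y)) (v : Fin Y → Lb J' J1 → ℝ) (hv : ∀ p, v p .one = 1) :
    (∑ τ ∈ TT w B, gt kb kk cs τ B v ^ 2) ^ 2 =
      ∑ x ∈ XX kb kk w, if UW2 (WW x.1 x.2.1 x.2.2) ⊆ B then
        sgn cs x.2.1 x.2.2 * ∏ p, ∏ l, v p (WW x.1 x.2.1 x.2.2 p l) else 0 := by
  classical
  rw [sq_eq]
  have hsub : Fintype.piFinset (fun _ : Fin 2 => TT w B) ⊆
      Fintype.piFinset (fun _ : Fin 2 => TT w univ) := by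
    intro T hT
    rw [Fintype.mem_piFinset] at hT ⊢
    intro j
    have := (mem_TT w B _).1 (hT j)
    exact (mem_TT w univ _).2 ⟨this.1, fun i => ⟨(this.2 i).1, mem_univ _⟩⟩
  have h1 : ∀ T ∈ Fintype.piFinset (fun _ : Fin 2 => TT w univ),
      (if T ∈ Fintype.piFinset (fun _ : Fin 2 => TT w B) then
        ∑ Ψ ∈ Fintype.piFinset (fun _ : Fin 4 => adm k kb),
          ∑ Φ ∈ Fintype.piFinset (fun _ : Fin 4 => adm Y kk),
            ∏ l, (ga cs v (T (hf l)) (Ψ l) * gb B v (T (hf l)) (Φ l)) else 0) =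
      ∑ Ψ ∈ Fintype.piFinset (fun _ : Fin 4 => adm k kb),
        ∑ Φ ∈ Fintype.piFinset (fun _ : Fin 4 => adm Y kk),
          if side T Φ ∧ UW2 (WW T Ψ Φ) ⊆ B then
            sgn cs Ψ Φ * ∏ p, ∏ l, v p (WW T Ψ Φ p l) else 0 := by
    intro T hT
    rw [Fintype.mem_piFinset] at hT
    have hinj : ∀ j, Function.Injective (T j) := fun j => ((mem_TT w univ _).1 (hT j)).1
    have hiff : T ∈ Fintype.piFinset (fun _ : Fin 2 => TT w B) ↔ vs T ⊆ B := by
      rw [Fintype.mem_piFinset]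
      constructor
      · intro h p hp
        obtain ⟨j, hj⟩ := (mem_vs T p).1 hp
        obtain ⟨m, rfl⟩ := (mem_rgt _ _).1 hj
        exact (((mem_TT w B _).1 (h j)).2 m).2
      · intro h j
        have h2 := (mem_TT w univ _).1 (hT j)
        exact (mem_TT w B _).2 ⟨h2.1, fun i => ⟨(h2.2 i).1,
          h ((mem_vs T _).2 ⟨j, (mem_rgt _ _).2 ⟨i, rfl⟩⟩)⟩⟩
    by_cases hB : vs T ⊆ B
    · rw [if_pos (hiff.2 hB)]
      exact sum_congr rfl fun Ψ _ => sum_congr rfl fun Φ _ => prod_gab hinj B v hv Ψ Φ hB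
    · rw [if_neg (fun h => hB (hiff.1 h))]
      symm
      refine sum_eq_zero fun Ψ _ => sum_eq_zero fun Φ _ => if_neg fun h => hB ?_
      have := h.2
      rw [UW2_WW] at this
      exact subset_union_left.trans this
  rw [← inter_eq_right.2 hsub, ← sum_ite_mem, sum_congr rfl h1]
  unfold XX
  rw [sum_filter, sum_product]
  refine sum_congr rfl fun T _ => ?_
  rw [sum_product]
  refine sum_congr rfl fun Ψ _ => sum_congr rfl fun Φ _ => ?_
  by_cases h : side T Φ <;> simp [h]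

lemma card_XX (kb : Fin J' → ℕ) (kk : Fin J1 → ℕ) (w : Fin k → Finset (Fin Y)) :
    ((XX kb kk w).card : ℝ) ≤ (Y : ℝ) ^ (2 * k) *
      (((adm k kb).card : ℝ) ^ 2 * ((adm Y kk).card : ℝ) ^ 2) ^ 2 := by
  classical
  have h1 : (XX kb kk w).card ≤ (((Fintype.piFinset (fun _ : Fin 2 => TT w univ)) ×ˢ
    (Fintype.piFinset (fun _ : Fin 4 => adm k kb)) ×ˢ
      (Fintype.piFinset (fun _ : Fin 4 => adm Y kk)))).card := by
    unfold XX
    exact card_filter_le _ _
  rw [card_product, card_product, Fintype.card_piFinset, Fintype.card_piFinset,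
    Fintype.card_piFinset, prod_const, prod_const, prod_const] at h1
  simp only [card_univ, Fintype.card_fin] at h1
  have h2 : (TT w univ).card ≤ Y ^ k := by
    refine (card_le_univ _).trans (le_of_eq ?_)
    simp
  have h3 : (XX kb kk w).card ≤ (Y ^ k) ^ 2 * ((adm k kb).card ^ 4 * (adm Y kk).card ^ 4) :=
    h1.trans (Nat.mul_le_mul_right _ (Nat.pow_le_pow_left h2 2))
  calc ((XX kb kk w).card : ℝ) ≤
        (((Y ^ k) ^ 2 * ((adm k kb).card ^ 4 * (adm Y kk).card ^ 4) : ℕ) : ℝ) := by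
        exact_mod_cast h3
    _ = _ := by
        push_cast
        ring

/-- The bound for one `a`. -/
lemma sum_a (kb : Fin J' → ℕ) (kk : Fin J1 → ℕ) (w : Fin k → Finset (Fin Y))
    (B : Finset (Fin Y)) (P : ℝ) (hP : 0 ≤ P) :
    ∑ x ∈ XX kb kk w, (if UW2 (WW x.1 x.2.1 x.2.2) ⊆ B then
      P ^ (UW2 (WW x.1 x.2.1 x.2.2)).card else 0) ≤
      ((adm k kb).card : ℝ) ^ 4 * (2 * k) ^ (2 * k) * ((J1 : ℝ) + 1) ^ (8 * k) *
        ((1 + P) ^ B.card * (1 + ((J1 : ℝ) + 1) ^ 4 * P) ^ B.card) := by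
  classical
  have hJP : 0 ≤ ((J1 : ℝ) + 1) ^ 4 * P := by positivity
  calc ∑ x ∈ XX kb kk w, (if UW2 (WW x.1 x.2.1 x.2.2) ⊆ B then
      P ^ (UW2 (WW x.1 x.2.1 x.2.2)).card else 0)
      ≤ ∑ x ∈ (univ : Finset (Fin 2 → Fin k → Fin Y)) ×ˢ
          (Fintype.piFinset (fun _ : Fin 4 => adm k kb)) ×ˢ
            (univ : Finset (Fin 4 → Fin Y → Option (Fin J1))),
          (if UW2 (WW x.1 x.2.1 x.2.2) ⊆ B then
            P ^ (UW2 (WW x.1 x.2.1 x.2.2)).card else 0) := by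
        refine sum_le_sum_of_subset_of_nonneg ?_ fun x _ _ => ?_
        · intro x hx
          rw [mem_XX] at hx
          simp only [mem_product, mem_univ, true_and, and_true, Fintype.mem_piFinset]
          exact hx.2.1
        · split_ifs
          · positivity
          · exact le_rfl
    _ = ∑ T : Fin 2 → Fin k → Fin Y, ∑ _Ψ ∈ Fintype.piFinset (fun _ : Fin 4 => adm k kb),
          ∑ Φ : Fin 4 → Fin Y → Option (Fin J1),
            (if vs T ∪ ss Φ ⊆ B then P ^ (vs T ∪ ss Φ).card else 0) := by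
        rw [sum_product]
        refine sum_congr rfl fun T _ => ?_
        rw [sum_product]
        refine sum_congr rfl fun Ψ _ => sum_congr rfl fun Φ _ => ?_
        simp only [UW2_WW]
    _ = ∑ T ∈ univ.filter (fun T : Fin 2 → Fin k → Fin Y => vs T ⊆ B),
          ((adm k kb).card : ℝ) ^ 4 *
            ∑ Φ ∈ univ.filter (fun Φ : Fin 4 → Fin Y → Option (Fin J1) => ss Φ ⊆ B),
              P ^ (vs T ∪ ss Φ).card := by
        rw [sum_filter]
        refine sum_congr rfl fun T _ => ?_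
        rw [sum_const, Fintype.card_piFinset, prod_const]
        simp only [card_univ, Fintype.card_fin, nsmul_eq_mul]
        split_ifs with h
        · rw [sum_filter]
          push_cast
          congr 1
          refine sum_congr rfl fun Φ _ => ?_
          by_cases h' : ss Φ ⊆ B
          · rw [if_pos h', if_pos (union_subset h h')]
          · rw [if_neg h', if_neg (fun hc => h' (subset_union_right.trans hc))]
        · rw [sum_eq_zero, mul_zero]
          intro Φ _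
          rw [if_neg (fun hc => h (subset_union_left.trans hc))]
    _ ≤ ∑ T ∈ univ.filter (fun T : Fin 2 → Fin k → Fin Y => vs T ⊆ B),
          ((adm k kb).card : ℝ) ^ 4 * (((J1 : ℝ) + 1) ^ (8 * k) *
            (1 + ((J1 : ℝ) + 1) ^ 4 * P) ^ B.card * P ^ (vs T).card) := by
        refine sum_le_sum fun T hT => ?_
        have hTB := (mem_filter.1 hT).2
        refine mul_le_mul_of_nonneg_left ?_ (by positivity)
        refine (sum_phi (vs T) B hTB P hP).trans ?_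
        rw [mul_pow]
        have h1 : (((J1 : ℝ) + 1) ^ 4) ^ (vs T).card ≤ ((J1 : ℝ) + 1) ^ (8 * k) := by
          rw [← pow_mul]
          refine pow_le_pow_right₀ (by linarith [Nat.cast_nonneg (α := ℝ) J1]) ?_
          have := card_vs_le T
          omega
        calc (((J1 : ℝ) + 1) ^ 4) ^ (vs T).card * P ^ (vs T).card *
              (1 + ((J1 : ℝ) + 1) ^ 4 * P) ^ B.card ≤
            ((J1 : ℝ) + 1) ^ (8 * k) * P ^ (vs T).card *
              (1 + ((J1 : ℝ) + 1) ^ 4 * P) ^ B.card := by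
              gcongr
          _ = _ := by ring
    _ = ((adm k kb).card : ℝ) ^ 4 * (((J1 : ℝ) + 1) ^ (8 * k) *
            (1 + ((J1 : ℝ) + 1) ^ 4 * P) ^ B.card) *
          ∑ T ∈ univ.filter (fun T : Fin 2 → Fin k → Fin Y => vs T ⊆ B), P ^ (vs T).card := by
        rw [mul_sum]
        refine sum_congr rfl fun T _ => ?_
        ring
    _ ≤ ((adm k kb).card : ℝ) ^ 4 * (((J1 : ℝ) + 1) ^ (8 * k) *
            (1 + ((J1 : ℝ) + 1) ^ 4 * P) ^ B.card) *
          (((2 : ℝ) * k) ^ (2 * k) * (1 + P) ^ B.card) :=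
        mul_le_mul_of_nonneg_left (sum_T B P hP) (by positivity)
    _ = _ := by ring

/-- The estimate of one term. -/
lemma term_le {R : F2 Y k J' J1} (hR : R.Ok)
    (x : (Fin 2 → Fin k → Fin Y) × (Fin 4 → Fin k → Option (Fin J')) ×
      (Fin 4 → Fin Y → Option (Fin J1))) (hx : x ∈ XX R.kb R.kk R.w) :
    ∑ n ∈ R.F.filter (fun n => UW2 (WW x.1 x.2.1 x.2.2) ⊆ R.B n),
      R.μ n * (sgn R.cs x.2.1 x.2.2 * ∏ p, ∏ l, R.v n p (WW x.1 x.2.1 x.2.2 p l)) ≤
      R.ε1 + R.MI * (1 + R.ε2) * (dn R.Ω R.B (UW2 (WW x.1 x.2.1 x.2.2)) *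
        (R.c5 * R.Plow) ^ (UW2 (WW x.1 x.2.1 x.2.2)).card) := by
  classical
  obtain ⟨T, Ψ, Φ⟩ := x
  obtain ⟨hT, hΨ, hΦ, hs⟩ := (mem_XX _ _ _ _).1 hx
  simp only at hT hΨ hΦ hs ⊢
  have hinj : ∀ j, Function.Injective (T j) := fun j => ((mem_TT _ _ _).1 (hT j)).1
  set W := WW T Ψ Φ with hW
  have hUW : UW2 W = vs T ∪ ss Φ := UW2_WW T Ψ Φ
  have hcard : (UW2 W).card ≤ R.u0 := by
    have h1 := card_vs_le T
    have h2 := card_ss_le hΦ
    have h3 := hR.u0_ge
    have h4 := card_union_le (vs T) (ss Φ)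
    rw [hUW]
    have h5 : 4 * (k + ∑ j, R.kk j) = 4 * k + 4 * ∑ j, R.kk j := by ring
    omega
  have hlev : ∑ i, ∑ l, R.lv (W i l) ≤ 1 / 50 := by
    rw [hW, sum_WW hinj Ψ hs R.lv hR.lv_one]
    have h1 : ∀ l, ∑ m, R.lv (lbo (Ψ l m)) ≤
        k * R.lv .b0 + ∑ j, (R.kb j : ℝ) * R.lv (.bs j) := fun l =>
      sum_opt (hΨ l) (fun o => R.lv (lbo o)) fun o => hR.lv_nonneg _
    have h2 : ∀ l, ∑ p, R.lv (lko (Φ l p)) ≤ ∑ j, (R.kk j : ℝ) * R.lv (.ks j) := fun l => by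
      have := sum_opt (hΦ l) (fun o => R.lv (lko o)) fun o => hR.lv_nonneg _
      simp only [lko, hR.lv_one, mul_zero, zero_add] at this
      exact this
    refine (sum_le_sum fun l _ => add_le_add (h1 l) (h2 l)).trans ?_
    rw [sum_const, card_univ, Fintype.card_fin, nsmul_eq_mul]
    have h3 := hR.lev4
    have h4 := hR.lv_nonneg .mj
    push_cast
    linarith
  have hest := hR.est W hcard hlev
  have hdn : 0 ≤ dn R.Ω R.B (UW2 W) := by
    unfold dn
    positivity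
  have hprod : |∏ i, R.E (W i)| ≤ (R.c5 * R.Plow) ^ (UW2 W).card := by
    rw [abs_prod]
    have h1 : ∏ i, |R.E (W i)| ≤ ∏ i, (if W i ≠ blank J' J1 then R.c5 * R.Plow else 1) := by
      refine prod_le_prod (fun i _ => abs_nonneg _) fun i _ => ?_
      split_ifs with h
      · exact hR.bound _ h
      · rw [not_not.1 h, hR.E_blank, abs_one]
    refine h1.trans (le_of_eq ?_)
    rw [prod_ite, prod_const, prod_const_one, mul_one]
    rfl
  have hc5 := hR.c5_ge
  have hPl := hR.Plow_nonneg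
  have hpow : R.Plow ^ (UW2 W).card ≤ (R.c5 * R.Plow) ^ (UW2 W).card :=
    pow_le_pow_left₀ hPl (by nlinarith) _
  have hMI := hR.MI_nonneg
  have he2 := hR.e2_nonneg
  set S := ∑ n ∈ R.F.filter (fun n => UW2 W ⊆ R.B n), R.μ n * ∏ i, ∏ l, R.v n i (W i l) with hS
  have hSb : |S| ≤ R.ε1 + R.MI * (1 + R.ε2) * (dn R.Ω R.B (UW2 W) *
      (R.c5 * R.Plow) ^ (UW2 W).card) := by
    have h1 : |S| ≤ |R.MI * dn R.Ω R.B (UW2 W) * ∏ i, R.E (W i)| +
        (R.ε1 + R.ε2 * R.MI * dn R.Ω R.B (UW2 W) * R.Plow ^ (UW2 W).card) := by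
      have h2 := abs_sub_abs_le_abs_sub S (R.MI * dn R.Ω R.B (UW2 W) * ∏ i, R.E (W i))
      linarith
    have h3 : |R.MI * dn R.Ω R.B (UW2 W) * ∏ i, R.E (W i)| ≤
        R.MI * dn R.Ω R.B (UW2 W) * (R.c5 * R.Plow) ^ (UW2 W).card := by
      rw [abs_mul, abs_of_nonneg (mul_nonneg hMI hdn)]
      exact mul_le_mul_of_nonneg_left hprod (mul_nonneg hMI hdn)
    have h4 : R.ε2 * R.MI * dn R.Ω R.B (UW2 W) * R.Plow ^ (UW2 W).card ≤
        R.ε2 * R.MI * dn R.Ω R.B (UW2 W) * (R.c5 * R.Plow) ^ (UW2 W).card :=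
      mul_le_mul_of_nonneg_left hpow (mul_nonneg (mul_nonneg he2 hMI) hdn)
    calc |S| ≤ _ := h1
      _ ≤ R.MI * dn R.Ω R.B (UW2 W) * (R.c5 * R.Plow) ^ (UW2 W).card +
          (R.ε1 + R.ε2 * R.MI * dn R.Ω R.B (UW2 W) * (R.c5 * R.Plow) ^ (UW2 W).card) := by
          linarith
      _ = _ := by ring
  have h5 : ∑ n ∈ R.F.filter (fun n => UW2 W ⊆ R.B n),
      R.μ n * (sgn R.cs Ψ Φ * ∏ p, ∏ l, R.v n p (W p l)) = sgn R.cs Ψ Φ * S := by
    rw [hS, mul_sum]
    refine sum_congr rfl fun n _ => ?_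
    ring
  rw [h5]
  have h6 := abs_sgn_le hR.cs_nonneg hR.cs_le Ψ Φ
  calc sgn R.cs Ψ Φ * S ≤ |sgn R.cs Ψ Φ * S| := le_abs_self _
    _ = |sgn R.cs Ψ Φ| * |S| := abs_mul _ _
    _ ≤ 1 * |S| := mul_le_mul_of_nonneg_right h6 (abs_nonneg _)
    _ ≤ _ := by rw [one_mul]; exact hSb

end SumFour2Aux

open SumFour2Aux in
theorem sumFour2 : SumFour2 := by
  intro Y k J' J1 R hR
  classical
  have hP0 : 0 ≤ R.c5 * R.Plow := mul_nonneg (zero_le_one.trans hR.c5_ge) hR.Plow_nonneg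
  have hMI := hR.MI_nonneg
  have he2 := hR.e2_nonneg
  have h1 : ∑ n ∈ R.F, R.μ n * (∑ τ ∈ TT R.w (R.B n), R.g τ n ^ 2) ^ 2 =
      ∑ x ∈ XX R.kb R.kk R.w, ∑ n ∈ R.F.filter (fun n => UW2 (WW x.1 x.2.1 x.2.2) ⊆ R.B n),
        R.μ n * (sgn R.cs x.2.1 x.2.2 * ∏ p, ∏ l, R.v n p (WW x.1 x.2.1 x.2.2 p l)) := by
    unfold F2.g
    simp_rw [sum_filter]
    rw [sum_comm]
    refine sum_congr rfl fun n _ => ?_
    rw [sq_eq' R.kb R.kk R.cs R.w (R.B n) (R.v n) (hR.v_one n), mul_sum]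
    refine sum_congr rfl fun x _ => ?_
    split_ifs
    · rfl
    · rw [mul_zero]
  rw [h1]
  refine (sum_le_sum fun x hx => term_le hR x hx).trans ?_
  rw [sum_add_distrib, sum_const, nsmul_eq_mul, ← mul_sum]
  have h2 : ((XX R.kb R.kk R.w).card : ℝ) * R.ε1 ≤ R.ε1 * (Y : ℝ) ^ (2 * k) * R.NN ^ 2 := by
    have := mul_le_mul_of_nonneg_right (card_XX R.kb R.kk R.w) hR.e1_nonneg
    unfold F2.NN
    linarith
  have h3 : ∑ x ∈ XX R.kb R.kk R.w, dn R.Ω R.B (UW2 (WW x.1 x.2.1 x.2.2)) *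
      (R.c5 * R.Plow) ^ (UW2 (WW x.1 x.2.1 x.2.2)).card =
      avg R.Ω (fun a => ∑ x ∈ XX R.kb R.kk R.w, (if UW2 (WW x.1 x.2.1 x.2.2) ⊆ R.B a then
        (R.c5 * R.Plow) ^ (UW2 (WW x.1 x.2.1 x.2.2)).card else 0)) := by
    unfold avg dn
    rw [sum_comm, sum_div]
    refine sum_congr rfl fun x _ => ?_
    rw [← sum_filter, sum_const, nsmul_eq_mul]
    ring
  have h4 : avg R.Ω (fun a => ∑ x ∈ XX R.kb R.kk R.w, (if UW2 (WW x.1 x.2.1 x.2.2) ⊆ R.B a then
        (R.c5 * R.Plow) ^ (UW2 (WW x.1 x.2.1 x.2.2)).card else 0)) ≤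
      (((adm k R.kb).card : ℝ) ^ 4 * (2 * k) ^ (2 * k) * ((J1 : ℝ) + 1) ^ (8 * k)) *
        avg R.Ω (fun a => (1 + R.c5 * R.Plow) ^ (R.B a).card *
          (1 + ((J1 : ℝ) + 1) ^ 4 * (R.c5 * R.Plow)) ^ (R.B a).card) := by
    unfold avg
    rw [← mul_div_assoc, mul_sum]
    refine div_le_div_of_nonneg_right ?_ (Nat.cast_nonneg _)
    exact sum_le_sum fun a _ => sum_a R.kb R.kk R.w (R.B a) _ hP0
  rw [h3]
  have h5 := mul_le_mul_of_nonneg_left h4 (mul_nonneg hMI (by linarith : (0 : ℝ) ≤ 1 + R.ε2))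
  calc _ ≤ R.ε1 * (Y : ℝ) ^ (2 * k) * R.NN ^ 2 + R.MI * (1 + R.ε2) *
        ((((adm k R.kb).card : ℝ) ^ 4 * (2 * k) ^ (2 * k) * ((J1 : ℝ) + 1) ^ (8 * k)) *
        avg R.Ω (fun a => (1 + R.c5 * R.Plow) ^ (R.B a).card *
          (1 + ((J1 : ℝ) + 1) ^ 4 * (R.c5 * R.Plow)) ^ (R.B a).card)) := add_le_add h2 h5
    _ = _ := by ring

end Pool.Agent.Helper1.LG2
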