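import Pool.Agent.Helper1.LG2.Defs
import Pool.Agent.Helper1.LG.Comb
import Pool.Agent.Helper1.LG.SumOne
import Pool.Agent.Helper1.LG.SumTwo

/-!
LG2-S3. The sum over the `n` with a prime at the position `τ i` (`SumThree2` in `LG2/Defs.lean`).
Compare LG2-S1 (`LG2/SumOne2.lean`, guide in the header).

Fix `i` and `τ`, `q = τ i`. If `νp q n ≠ 0` then `q ∈ B n` and the letters `b0`, `bs j` have the value `1` at
`q` (`nup_mem`), so in `g τ n ^ 2` (expanded over `ψ, ψ', φ, φ'`) the factor of the position `q` is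
`cs^([ψ i ≠ none] + [ψ' i ≠ none])`. Words: `W q = blank`,
`W p = ![lbo (ψ i'), lbo (ψ' i'), .one, .one]` if `p = τ i'`, `i' ≠ i`, `![lko (φ p), lko (φ' p), .one, .one]`
otherwise; `insert q (UW2 W) = rgt τ ∪ supp φ ∪ supp φ'`. Apply `estp q`.
Main term: `φ = φ'`, and `ψ = ψ'` at all `i' ≠ i`; group by `ψ⁰` = the common part with `ψ⁰ i = none`:
`ψ = update ψ⁰ i o` is admissible iff `o ∈ insertNone {j : card (cls ψ⁰ j) < kb j}`, and
`∑_{o,o'} cs^([o≠none]+[o'≠none]) = (1 + cs #{j : card (cls ψ⁰ j) < kb j})²`: this is `Pb i`. With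
`∑_τ #{a ∈ Ω : rgt τ ∪ supp φ ⊆ B a}/N0 ..= (card Ω/N0) avg ∑_{τ ∈ TT (B a)} Pb i · SS kk e (B a \ rgt τ)`.
Error: `ε1 Y^k NN + ε2 MP (card Ω/N0) avg (|B a|^k Plow^(k-1) Xa)` (`|UW2 W| = k - 1 + |supp φ ∪ supp φ'|`).
-/

set_option autoImplicit false

open Finset

namespace Pool.Agent.Helper1.LG2

open Pool.Agent.Helper1.MT (supp cls)
open Pool.Agent.Helper1.LG (adm avg dn SS ev Asg)
open Pool.Agent.Helper1.LG.SumTwoAux (mem_supp mem_cls mem_adm aB mem_aB fr mem_ins fiber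
  cls_update card_supp)

namespace SumThreeAux

variable {Y k J' J1 : ℕ}

theorem mem_TT (w : Fin k → Finset (Fin Y)) (B : Finset (Fin Y)) (τ : Fin k → Fin Y) :
    τ ∈ TT w B ↔ Function.Injective τ ∧ ∀ i, τ i ∈ w i ∧ τ i ∈ B := by
  unfold TT
  simp

theorem mem_rgt (τ : Fin k → Fin Y) (p : Fin Y) : p ∈ rgt τ ↔ ∃ i, τ i = p := by
  simp [rgt]

theorem TT_eq (w : Fin k → Finset (Fin Y)) (B : Finset (Fin Y)) :
    TT w B = (TT w univ).filter (fun τ => rgt τ ⊆ B) := by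
  ext τ
  rw [mem_filter, mem_TT, mem_TT]
  constructor
  · rintro ⟨h1, h2⟩
    refine ⟨⟨h1, fun i => ⟨(h2 i).1, mem_univ _⟩⟩, ?_⟩
    intro p hp
    obtain ⟨i, rfl⟩ := (mem_rgt τ p).1 hp
    exact (h2 i).2
  · rintro ⟨⟨h1, h2⟩, h3⟩
    exact ⟨h1, fun i => ⟨(h2 i).1, h3 ((mem_rgt τ _).2 ⟨i, rfl⟩)⟩⟩

/-- The assignments of killing modes off the tuple. -/
def off (kk : Fin J1 → ℕ) (τ : Fin k → Fin Y) : Finset (Asg Y J1) :=
  (adm Y kk).filter (fun φ => supp φ ⊆ (rgt τ)ᶜ)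

theorem mem_off (kk : Fin J1 → ℕ) (τ : Fin k → Fin Y) (φ : Asg Y J1) :
    φ ∈ off kk τ ↔ φ ∈ adm Y kk ∧ supp φ ⊆ (rgt τ)ᶜ := by
  simp [off]

/-- The word at the position `p`. -/
noncomputable def W3 (τ : Fin k → Fin Y) (i : Fin k) (ψ ψ' : Asg k J') (φ φ' : Asg Y J1)
    (p : Fin Y) : Fin 4 → Lb J' J1 := by
  classical
  exact if h : ∃ i', τ i' = p then
    (if h.choose = i then blank J' J1 else ![lbo (ψ h.choose), lbo (ψ' h.choose), .one, .one])
    else ![lko (φ p), lko (φ' p), .one, .one]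

section word

variable {τ : Fin k → Fin Y} {i : Fin k} {ψ ψ' : Asg k J'} {φ φ' : Asg Y J1}

theorem W3_self (hτ : Function.Injective τ) : W3 τ i ψ ψ' φ φ' (τ i) = blank J' J1 := by
  unfold W3
  have h : ∃ i', τ i' = τ i := ⟨i, rfl⟩
  rw [dif_pos h, if_pos (hτ h.choose_spec)]

theorem W3_ne (hτ : Function.Injective τ) {i' : Fin k} (h' : i' ≠ i) :
    W3 τ i ψ ψ' φ φ' (τ i') = ![lbo (ψ i'), lbo (ψ' i'), .one, .one] := by
  unfold W3
  have h : ∃ i'', τ i'' = τ i' := ⟨i', rfl⟩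
  have hc : h.choose = i' := hτ h.choose_spec
  rw [dif_pos h, if_neg (by rw [hc]; exact h'), hc]

theorem W3_off {p : Fin Y} (hp : p ∉ rgt τ) :
    W3 τ i ψ ψ' φ φ' p = ![lko (φ p), lko (φ' p), .one, .one] := by
  unfold W3
  rw [dif_neg (fun h => hp ((mem_rgt τ p).2 h))]

theorem prodW (hτ : Function.Injective τ) (c : Fin Y → (Fin 4 → Lb J' J1) → ℝ) :
    ∏ p, c p (W3 τ i ψ ψ' φ φ' p) = c (τ i) (blank J' J1) *
      (∏ i' ∈ univ.erase i, c (τ i') ![lbo (ψ i'), lbo (ψ' i'), .one, .one]) *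
      ∏ p ∈ (rgt τ)ᶜ, c p ![lko (φ p), lko (φ' p), .one, .one] := by
  rw [← Finset.prod_mul_prod_compl (rgt τ)]
  congr 1
  · unfold rgt
    rw [Finset.prod_image (fun a _ b _ h => hτ h), ← Finset.mul_prod_erase univ _ (mem_univ i),
      W3_self hτ]
    congr 1
    refine prod_congr rfl fun i' hi' => ?_
    rw [W3_ne hτ (mem_erase.1 hi').1]
  · refine prod_congr rfl fun p hp => ?_
    rw [W3_off (mem_compl.1 hp)]

theorem sumW (hτ : Function.Injective τ) (c : Fin Y → (Fin 4 → Lb J' J1) → ℝ) :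
    ∑ p, c p (W3 τ i ψ ψ' φ φ' p) = c (τ i) (blank J' J1) +
      (∑ i' ∈ univ.erase i, c (τ i') ![lbo (ψ i'), lbo (ψ' i'), .one, .one]) +
      ∑ p ∈ (rgt τ)ᶜ, c p ![lko (φ p), lko (φ' p), .one, .one] := by
  rw [← Finset.sum_add_sum_compl (rgt τ)]
  congr 1
  · unfold rgt
    rw [Finset.sum_image (fun a _ b _ h => hτ h), ← Finset.add_sum_erase univ _ (mem_univ i),
      W3_self hτ]
    congr 1
    refine sum_congr rfl fun i' hi' => ?_
    rw [W3_ne hτ (mem_erase.1 hi').1]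
  · refine sum_congr rfl fun p hp => ?_
    rw [W3_off (mem_compl.1 hp)]

theorem lbo_ne (o : Option (Fin J')) : (lbo o : Lb J' J1) ≠ .one := by
  cases o <;> simp [lbo]

theorem lko_one (o : Option (Fin J1)) : (lko o : Lb J' J1) = .one ↔ o = none := by
  cases o <;> simp [lko]

theorem mem_UW2 (W : Fin Y → Fin 4 → Lb J' J1) (p : Fin Y) :
    p ∈ UW2 W ↔ W p ≠ blank J' J1 := by
  simp [UW2]

theorem lko_blank (o o' : Option (Fin J1)) :
    (![lko o, lko o', .one, .one] : Fin 4 → Lb J' J1) = blank J' J1 ↔ o = none ∧ o' = none := by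
  constructor
  · intro h
    have h0 := congrFun h 0
    have h1 := congrFun h 1
    simp only [blank, Matrix.cons_val_zero, Matrix.cons_val_one] at h0 h1
    exact ⟨(lko_one o).1 h0, (lko_one o').1 h1⟩
  · rintro ⟨rfl, rfl⟩
    funext l
    fin_cases l <;> rfl

theorem UW2_W3 (hτ : Function.Injective τ) (hφ : supp φ ⊆ (rgt τ)ᶜ) (hφ' : supp φ' ⊆ (rgt τ)ᶜ) :
    UW2 (W3 τ i ψ ψ' φ φ') = (univ.erase i).image τ ∪ (supp φ ∪ supp φ') := by
  ext p
  rw [mem_UW2]
  by_cases hp : p ∈ rgt τ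
  · obtain ⟨i', rfl⟩ := (mem_rgt τ p).1 hp
    have h1 : τ i' ∉ supp φ := fun h => mem_compl.1 (hφ h) hp
    have h2 : τ i' ∉ supp φ' := fun h => mem_compl.1 (hφ' h) hp
    by_cases h : i' = i
    · subst h
      rw [W3_self hτ]
      simp only [ne_eq, not_true_eq_false, false_iff, mem_union, not_or]
      refine ⟨?_, h1, h2⟩
      rw [mem_image]
      rintro ⟨j, hj, hj'⟩
      exact (mem_erase.1 hj).1 (hτ hj')
    · rw [W3_ne hτ h]
      constructor
      · intro _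
        exact mem_union_left _ (mem_image_of_mem τ (mem_erase.2 ⟨h, mem_univ _⟩))
      · intro _ hb
        have h0 := congrFun hb 0
        simp only [blank, Matrix.cons_val_zero] at h0
        exact lbo_ne _ h0
  · rw [W3_off hp, ne_eq, lko_blank]
    have h3 : p ∉ (univ.erase i).image τ := by
      intro h
      obtain ⟨j, _, rfl⟩ := mem_image.1 h
      exact hp ((mem_rgt τ _).2 ⟨j, rfl⟩)
    simp only [mem_union, h3, false_or, mem_supp]
    tauto

theorem insert_UW2 (hτ : Function.Injective τ) (hφ : supp φ ⊆ (rgt τ)ᶜ)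
    (hφ' : supp φ' ⊆ (rgt τ)ᶜ) :
    insert (τ i) (UW2 (W3 τ i ψ ψ' φ φ')) = rgt τ ∪ (supp φ ∪ supp φ') := by
  rw [UW2_W3 hτ hφ hφ', ← insert_union, ← image_insert, insert_erase (mem_univ i)]
  rfl

theorem card_UW2 (hτ : Function.Injective τ) (hφ : supp φ ⊆ (rgt τ)ᶜ)
    (hφ' : supp φ' ⊆ (rgt τ)ᶜ) :
    (UW2 (W3 τ i ψ ψ' φ φ')).card = (k - 1) + (supp φ ∪ supp φ').card := by
  rw [UW2_W3 hτ hφ hφ', card_union_of_disjoint, card_image_of_injective _ hτ,
    card_erase_of_mem (mem_univ i), card_univ, Fintype.card_fin]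
  rw [disjoint_left]
  intro p hp hp'
  obtain ⟨j, _, rfl⟩ := mem_image.1 hp
  have h1 : τ j ∈ (rgt τ)ᶜ := by
    rcases mem_union.1 hp' with h | h
    · exact hφ h
    · exact hφ' h
  exact mem_compl.1 h1 ((mem_rgt τ _).2 ⟨j, rfl⟩)

theorem prod_v (hτ : Function.Injective τ) (v : Fin Y → Lb J' J1 → ℝ) (h1 : ∀ p, v p .one = 1)
    (hb : ∀ o, v (τ i) (lbo o) = 1) (hφ : supp φ ⊆ (rgt τ)ᶜ) (hφ' : supp φ' ⊆ (rgt τ)ᶜ) :
    ((∏ i', v (τ i') (lbo (ψ i'))) * ∏ p, v p (lko (φ p))) *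
      ((∏ i', v (τ i') (lbo (ψ' i'))) * ∏ p, v p (lko (φ' p))) =
      ∏ p, ∏ l, v p (W3 τ i ψ ψ' φ φ' p l) := by
  rw [prodW hτ (fun p w => ∏ l, v p (w l))]
  have e1 : ∀ ψ : Asg k J', ∏ i', v (τ i') (lbo (ψ i')) =
      ∏ i' ∈ univ.erase i, v (τ i') (lbo (ψ i')) := by
    intro ψ
    rw [← mul_prod_erase univ _ (mem_univ i), hb, one_mul]
  have e2 : ∀ φ : Asg Y J1, supp φ ⊆ (rgt τ)ᶜ → ∏ p, v p (lko (φ p)) =
      ∏ p ∈ (rgt τ)ᶜ, v p (lko (φ p)) := by
    intro φ hφ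
    symm
    refine prod_subset (subset_univ _) ?_
    intro p _ hp
    have : φ p = none := by
      by_contra h
      exact hp (hφ ((mem_supp φ p).2 h))
    rw [this]
    exact h1 p
  rw [e1, e1, e2 φ hφ, e2 φ' hφ']
  have e3 : ∀ p, ∏ l, v p (blank J' J1 l) = 1 := by
    intro p
    simp [blank, h1]
  have e4 : ∀ p (a b : Lb J' J1), ∏ l, v p ((![a, b, .one, .one] : Fin 4 → Lb J' J1) l) =
      v p a * v p b := by
    intro p a b
    rw [Fin.prod_univ_four]
    simp [h1]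
  simp only [e3, e4, prod_mul_distrib]
  ring

end word

/-- Pairs of assignments. -/
def Pq (kb : Fin J' → ℕ) (kk : Fin J1 → ℕ) (τ : Fin k → Fin Y) :
    Finset (Asg k J' × Asg Y J1) := adm k kb ×ˢ off kk τ

theorem mem_Pq (kb : Fin J' → ℕ) (kk : Fin J1 → ℕ) (τ : Fin k → Fin Y)
    (x : Asg k J' × Asg Y J1) : x ∈ Pq kb kk τ ↔ x.1 ∈ adm k kb ∧ x.2 ∈ adm Y kk ∧
      supp x.2 ⊆ (rgt τ)ᶜ := by
  unfold Pq
  rw [mem_product, mem_off]

/-- The coefficient of a pair. -/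
noncomputable def cc (cs : ℝ) (x : Asg k J' × Asg Y J1) : ℝ :=
  (-1) ^ (supp x.2).card * cs ^ (supp x.1).card

theorem abs_cc {cs : ℝ} (h0 : 0 ≤ cs) (h1 : cs ≤ 1) (x : Asg k J' × Asg Y J1) :
    |cc cs x| ≤ 1 := by
  unfold cc
  rw [abs_mul, abs_pow, abs_neg, abs_one, one_pow, one_mul, abs_pow, abs_of_nonneg h0]
  exact pow_le_one₀ h0 h1

/-- The product of a pair. -/
noncomputable def pv (τ : Fin k → Fin Y) (v : Fin Y → Lb J' J1 → ℝ)
    (x : Asg k J' × Asg Y J1) : ℝ :=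
  (∏ i, v (τ i) (lbo (x.1 i))) * ∏ p, v p (lko (x.2 p))

theorem gt_eq (kb : Fin J' → ℕ) (kk : Fin J1 → ℕ) (cs : ℝ) (τ : Fin k → Fin Y)
    (B : Finset (Fin Y)) (v : Fin Y → Lb J' J1 → ℝ) :
    gt kb kk cs τ B v = ∑ x ∈ Pq kb kk τ, if supp x.2 ⊆ B then cc cs x * pv τ v x else 0 := by
  unfold gt Pq
  rw [sum_product]
  refine sum_congr rfl fun ψ _ => ?_
  have h1 : (adm Y kk).filter (fun φ => supp φ ⊆ B \ rgt τ) =
      (off kk τ).filter (fun φ => supp φ ⊆ B) := by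
    ext φ
    simp only [mem_filter, mem_off, subset_sdiff, and_assoc]
    have h2 : Disjoint (supp φ) (rgt τ) ↔ supp φ ⊆ (rgt τ)ᶜ := by
      rw [subset_compl_iff_disjoint_right]
    rw [h2]
    tauto
  rw [h1, sum_filter]
  rfl

theorem gt_sq (kb : Fin J' → ℕ) (kk : Fin J1 → ℕ) (cs : ℝ) (τ : Fin k → Fin Y)
    (B : Finset (Fin Y)) (v : Fin Y → Lb J' J1 → ℝ) :
    gt kb kk cs τ B v ^ 2 = ∑ x ∈ Pq kb kk τ, ∑ y ∈ Pq kb kk τ,
      if supp x.2 ∪ supp y.2 ⊆ B then cc cs x * cc cs y * (pv τ v x * pv τ v y) else 0 := by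
  rw [gt_eq, sq, sum_mul_sum]
  refine sum_congr rfl fun x _ => sum_congr rfl fun y _ => ?_
  by_cases ha : supp x.2 ⊆ B
  · by_cases hb : supp y.2 ⊆ B
    · rw [if_pos ha, if_pos hb, if_pos (union_subset ha hb)]
      ring
    · rw [if_neg hb, if_neg (fun hc => hb (subset_union_right.trans hc)), mul_zero]
  · rw [if_neg ha, if_neg (fun hc => ha (subset_union_left.trans hc)), zero_mul]

/-- The word of two pairs. -/
noncomputable def Wx (τ : Fin k → Fin Y) (i : Fin k) (x y : Asg k J' × Asg Y J1) :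
    Fin Y → Fin 4 → Lb J' J1 := W3 τ i x.1 y.1 x.2 y.2

theorem nu_gt (R : F2 Y k J' J1) (hR : R.Ok) (i : Fin k) {τ : Fin k → Fin Y}
    (hτ : Function.Injective τ) {n : ℕ} (hn : n ∈ R.F) :
    (if rgt τ ⊆ R.B n then R.νp (τ i) n * R.g τ n ^ 2 else 0) =
      ∑ x ∈ Pq R.kb R.kk τ, ∑ y ∈ Pq R.kb R.kk τ, cc R.cs x * cc R.cs y *
        (if UW2 (Wx τ i x y) ⊆ R.B n then
          R.νp (τ i) n * ∏ p, ∏ l, R.v n p (Wx τ i x y p l) else 0) := by
  by_cases h0 : R.νp (τ i) n = 0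
  · simp [h0]
  · obtain ⟨h1, h2, h3⟩ := hR.nup_mem (τ i) n hn h0
    have hb : ∀ o : Option (Fin J'), R.v n (τ i) (lbo o) = 1 := by
      intro o
      cases o with
      | none => exact h2
      | some j => exact h3 j
    unfold F2.g
    rw [gt_sq]
    have hiff : ∀ x ∈ Pq R.kb R.kk τ, ∀ y ∈ Pq R.kb R.kk τ, (UW2 (Wx τ i x y) ⊆ R.B n ↔
        rgt τ ⊆ R.B n ∧ supp x.2 ∪ supp y.2 ⊆ R.B n) := by
      intro x hx y hy
      have hx' := ((mem_Pq _ _ _ _).1 hx).2.2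
      have hy' := ((mem_Pq _ _ _ _).1 hy).2.2
      rw [← union_subset_iff, ← insert_UW2 (i := i) (ψ := x.1) (ψ' := y.1) hτ hx' hy',
        insert_subset_iff]
      exact ⟨fun h => ⟨h1, h⟩, fun h => h.2⟩
    by_cases hr : rgt τ ⊆ R.B n
    · rw [if_pos hr, mul_sum]
      refine sum_congr rfl fun x hx => ?_
      rw [mul_sum]
      refine sum_congr rfl fun y hy => ?_
      have hx' := ((mem_Pq _ _ _ _).1 hx).2.2
      have hy' := ((mem_Pq _ _ _ _).1 hy).2.2
      by_cases hc : supp x.2 ∪ supp y.2 ⊆ R.B n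
      · rw [if_pos hc, if_pos ((hiff x hx y hy).2 ⟨hr, hc⟩)]
        unfold pv Wx
        rw [prod_v hτ (R.v n) (hR.v_one n) hb hx' hy']
        ring
      · rw [if_neg hc, if_neg (fun h => hc ((hiff x hx y hy).1 h).2)]
        ring
    · rw [if_neg hr]
      symm
      refine sum_eq_zero fun x hx => sum_eq_zero fun y hy => ?_
      rw [if_neg (fun h => hr ((hiff x hx y hy).1 h).1), mul_zero]

/-- The expansion of the sum. -/
theorem expand3 (R : F2 Y k J' J1) (hR : R.Ok) (i : Fin k) :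
    ∑ n ∈ R.F, ∑ τ ∈ TT R.w (R.B n), R.νp (τ i) n * R.g τ n ^ 2 =
      ∑ τ ∈ TT R.w univ, ∑ x ∈ Pq R.kb R.kk τ, ∑ y ∈ Pq R.kb R.kk τ, cc R.cs x * cc R.cs y *
        ∑ n ∈ R.F.filter (fun n => UW2 (Wx τ i x y) ⊆ R.B n),
          R.νp (τ i) n * ∏ p, ∏ l, R.v n p (Wx τ i x y p l) := by
  have h1 : ∀ n ∈ R.F, ∑ τ ∈ TT R.w (R.B n), R.νp (τ i) n * R.g τ n ^ 2 =
      ∑ τ ∈ TT R.w univ, ∑ x ∈ Pq R.kb R.kk τ, ∑ y ∈ Pq R.kb R.kk τ, cc R.cs x * cc R.cs y *
        (if UW2 (Wx τ i x y) ⊆ R.B n then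
          R.νp (τ i) n * ∏ p, ∏ l, R.v n p (Wx τ i x y p l) else 0) := by
    intro n hn
    rw [TT_eq, sum_filter]
    refine sum_congr rfl fun τ hτ => ?_
    exact nu_gt R hR i ((mem_TT _ _ _).1 hτ).1 hn
  rw [sum_congr rfl h1, sum_comm]
  refine sum_congr rfl fun τ _ => ?_
  rw [sum_comm]
  refine sum_congr rfl fun x _ => ?_
  rw [sum_comm]
  refine sum_congr rfl fun y _ => ?_
  rw [← mul_sum, sum_filter]

/-! ### The main term -/

theorem E_b (R : F2 Y k J' J1) (hR : R.Ok) (o o' : Option (Fin J')) :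
    R.E ![lbo o, lbo o', .one, .one] = if o = o' then evb R.f0 R.f o else 0 := by
  cases o with
  | none =>
    cases o' with
    | none => simp only [lbo, evb, if_true]; exact hR.b5
    | some j =>
      rw [if_neg (by simp)]
      exact hR.b1 j
  | some j =>
    cases o' with
    | none =>
      rw [if_neg (by simp)]
      exact hR.b2 j
    | some j' =>
      by_cases h : j = j'
      · subst h
        simp only [lbo, evb, if_true]
        exact hR.b4 j
      · rw [if_neg (by simpa using h)]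
        exact hR.b3 j j' h

theorem E_k (R : F2 Y k J' J1) (hR : R.Ok) (o o' : Option (Fin J1)) :
    R.E ![lko o, lko o', .one, .one] = if o = o' then ev R.e o else 0 := by
  cases o with
  | none =>
    cases o' with
    | none =>
      have h : (![lko (none : Option (Fin J1)), lko (none : Option (Fin J1)), .one, .one] :
          Fin 4 → Lb J' J1) = blank J' J1 := (lko_blank none none).2 ⟨rfl, rfl⟩
      rw [h, hR.E_blank]
      simp [ev]
    | some j =>
      rw [if_neg (by simp)]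
      exact hR.mean2 j
  | some j =>
    cases o' with
    | none =>
      rw [if_neg (by simp)]
      exact hR.mean1 j
    | some j' =>
      by_cases h : j = j'
      · subst h
        simp only [lko, ev, if_true]
        exact hR.sq j
      · rw [if_neg (by simpa using h)]
        exact hR.orth j j' h

/-- The factor of the tuple. -/
noncomputable def Ab (R : F2 Y k J' J1) (i : Fin k) (ψ ψ' : Asg k J') : ℝ :=
  ∏ i' ∈ univ.erase i, if ψ i' = ψ' i' then evb R.f0 R.f (ψ i') else 0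

theorem prodE (R : F2 Y k J' J1) (hR : R.Ok) (i : Fin k) {τ : Fin k → Fin Y}
    (hτ : Function.Injective τ) (x y : Asg k J' × Asg Y J1) (hx : supp x.2 ⊆ (rgt τ)ᶜ)
    (hy : supp y.2 ⊆ (rgt τ)ᶜ) :
    ∏ p, R.E (Wx τ i x y p) =
      Ab R i x.1 y.1 * if x.2 = y.2 then ∏ p, ev R.e (x.2 p) else 0 := by
  unfold Wx
  rw [prodW hτ (fun _ w => R.E w), hR.E_blank, one_mul]
  unfold Ab
  congr 1
  · exact prod_congr rfl fun i' _ => E_b R hR _ _
  · rw [prod_congr rfl fun p _ => E_k R hR (x.2 p) (y.2 p)]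
    by_cases h : x.2 = y.2
    · rw [if_pos h, h]
      simp only [if_true]
      refine prod_subset (subset_univ _) ?_
      intro p _ hp
      have : y.2 p = none := by
        by_contra hc
        exact hp (hy ((mem_supp y.2 p).2 hc))
      rw [this]
      rfl
    · rw [if_neg h]
      obtain ⟨p, hp⟩ := Function.ne_iff.1 h
      have hpr : p ∈ (rgt τ)ᶜ := by
        by_contra hc
        apply hp
        have h1 : x.2 p = none := by
          by_contra hc'
          exact hc (hx ((mem_supp x.2 p).2 hc'))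
        have h2 : y.2 p = none := by
          by_contra hc'
          exact hc (hy ((mem_supp y.2 p).2 hc'))
        rw [h1, h2]
      exact prod_eq_zero hpr (by rw [if_neg hp])

theorem aB_univ (kb : Fin J' → ℕ) : aB kb (univ : Finset (Fin k)) = adm k kb := by
  ext φ
  rw [mem_aB]
  exact ⟨fun h => h.1, fun h => ⟨h, subset_univ _⟩⟩

theorem supp_upd (ψ : Asg k J') (i : Fin k) (hi : ψ i = none) (o : Option (Fin J')) :
    (supp (Function.update ψ i o)).card = (supp ψ).card + if o = none then 0 else 1 := by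
  rw [card_supp, card_supp]
  simp only [cls_update ψ i hi o, sum_add_distrib]
  congr 1
  cases o with
  | none => simp
  | some j =>
    simp only [Option.some.injEq, reduceCtorEq, if_false]
    simp

/-- The double sum over the boosting assignments. -/
theorem PbSum (R : F2 Y k J' J1) (i : Fin k) :
    ∑ ψ ∈ adm k R.kb, ∑ ψ' ∈ adm k R.kb,
      R.cs ^ (supp ψ).card * R.cs ^ (supp ψ').card * Ab R i ψ ψ' = R.Pb i := by
  have hfib : ∀ g : Asg k J' → ℝ, ∑ ψ ∈ adm k R.kb, g ψ =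
      ∑ ψ ∈ (adm k R.kb).filter (fun ψ => ψ i = none),
        ∑ o ∈ insertNone (fr R.kb ψ), g (Function.update ψ i o) := by
    intro g
    have := fiber R.kb (univ : Finset (Fin k)) i (mem_univ i) g
    rwa [aB_univ] at this
  have hAb : ∀ ψ ψ' : Asg k J', ψ i = none → ψ' i = none → ∀ o o' : Option (Fin J'),
      Ab R i (Function.update ψ i o) (Function.update ψ' i o') =
        if ψ = ψ' then ∏ i' ∈ univ.erase i, evb R.f0 R.f (ψ i') else 0 := by
    intro ψ ψ' h h' o o'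
    have h1 : Ab R i (Function.update ψ i o) (Function.update ψ' i o') = Ab R i ψ ψ' := by
      unfold Ab
      refine prod_congr rfl fun i' hi' => ?_
      have := (mem_erase.1 hi').1
      rw [Function.update_of_ne this, Function.update_of_ne this]
    rw [h1]
    unfold Ab
    by_cases he : ψ = ψ'
    · subst he
      simp only [if_true]
    · rw [if_neg he]
      obtain ⟨j, hj⟩ := Function.ne_iff.1 he
      have hji : j ≠ i := by
        rintro rfl
        exact hj (by rw [h, h'])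
      exact prod_eq_zero (mem_erase.2 ⟨hji, mem_univ j⟩) (by rw [if_neg hj])
  rw [hfib]
  unfold F2.Pb
  refine sum_congr rfl fun ψ hψ => ?_
  have hψi : ψ i = none := (mem_filter.1 hψ).2
  have hpow : ∀ (ψ : Asg k J'), ψ i = none → ∀ o : Option (Fin J'),
      R.cs ^ (supp (Function.update ψ i o)).card =
        R.cs ^ (supp ψ).card * (if o = none then 1 else R.cs) := by
    intro ψ hi o
    rw [supp_upd ψ i hi o, pow_add]
    cases o with
    | none => simp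
    | some j => simp
  have hinner : ∀ o : Option (Fin J'), ∑ ψ' ∈ adm k R.kb,
      R.cs ^ (supp (Function.update ψ i o)).card * R.cs ^ (supp ψ').card *
        Ab R i (Function.update ψ i o) ψ' =
      (if o = none then 1 else R.cs) * (((R.cs ^ (supp ψ).card) ^ 2 *
        ∏ i' ∈ univ.erase i, evb R.f0 R.f (ψ i')) *
        ∑ o' ∈ insertNone (fr R.kb ψ), (if o' = none then 1 else R.cs)) := by
    intro o
    rw [hfib]
    have h2 : ∀ ψ' ∈ (adm k R.kb).filter (fun ψ => ψ i = none),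
        ∑ o' ∈ insertNone (fr R.kb ψ'), R.cs ^ (supp (Function.update ψ i o)).card *
          R.cs ^ (supp (Function.update ψ' i o')).card *
          Ab R i (Function.update ψ i o) (Function.update ψ' i o') =
        if ψ = ψ' then (if o = none then 1 else R.cs) * (((R.cs ^ (supp ψ).card) ^ 2 *
          ∏ i' ∈ univ.erase i, evb R.f0 R.f (ψ i')) *
          ∑ o' ∈ insertNone (fr R.kb ψ), (if o' = none then 1 else R.cs)) else 0 := by
      intro ψ' hψ'
      have hψ'i : ψ' i = none := (mem_filter.1 hψ').2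
      by_cases he : ψ = ψ'
      · subst he
        rw [if_pos rfl, mul_sum, mul_sum]
        refine sum_congr rfl fun o' _ => ?_
        rw [hAb ψ ψ hψi hψi, if_pos rfl, hpow ψ hψi, hpow ψ hψi]
        ring
      · rw [if_neg he]
        refine sum_eq_zero fun o' _ => ?_
        rw [hAb ψ ψ' hψi hψ'i, if_neg he, mul_zero]
    rw [sum_congr rfl h2, sum_ite_eq, if_pos hψ]
  rw [sum_congr rfl fun o _ => hinner o, ← sum_mul]
  have hsum : ∑ o ∈ insertNone (fr R.kb ψ), (if o = none then (1 : ℝ) else R.cs) =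
      1 + R.cs * ((univ.filter (fun j => (cls ψ j).card < R.kb j)).card : ℝ) := by
    rw [Finset.sum_insertNone]
    simp only [if_true, reduceCtorEq, if_false, sum_const, nsmul_eq_mul]
    rw [mul_comm R.cs]
    rfl
  rw [hsum]
  have hprod : (R.cs ^ (supp ψ).card) ^ 2 * ∏ i' ∈ univ.erase i, evb R.f0 R.f (ψ i') =
      ∏ i' ∈ univ.erase i, evb R.f0 (fun j => R.cs ^ 2 * R.f j) (ψ i') := by
    have h1 : (R.cs ^ (supp ψ).card) ^ 2 =
        ∏ i' ∈ univ.erase i, (if ψ i' = none then 1 else R.cs ^ 2) := by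
      have h2 : (supp ψ).card = ((univ.erase i).filter (fun i' => ψ i' ≠ none)).card := by
        congr 1
        ext j
        simp only [mem_supp, mem_filter, mem_erase, mem_univ, and_true]
        constructor
        · intro h
          refine ⟨?_, h⟩
          rintro rfl
          exact h hψi
        · exact fun h => h.2
      rw [h2, ← pow_mul, mul_comm, pow_mul, ← prod_const, prod_filter]
      refine prod_congr rfl fun j _ => ?_
      by_cases h : ψ j = none <;> simp [h]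
    rw [h1, ← prod_mul_distrib]
    refine prod_congr rfl fun j _ => ?_
    cases ψ j with
    | none => simp [evb]
    | some j' => simp [evb]
  rw [hprod]
  ring

/-- The number of the `a` with `U ⊆ B a`. -/
noncomputable def Dd (R : F2 Y k J' J1) (U : Finset (Fin Y)) : ℝ :=
  ((R.Ω.filter (fun a => U ⊆ R.B a)).card : ℝ)

theorem Dd_eq (R : F2 Y k J' J1) (U : Finset (Fin Y)) :
    Dd R U = ∑ a ∈ R.Ω, if U ⊆ R.B a then (1 : ℝ) else 0 := by
  unfold Dd
  rw [card_filter]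
  push_cast
  rfl

theorem sign_sq (φ : Asg Y J1) : ((-1 : ℝ) ^ (supp φ).card) * (-1) ^ (supp φ).card = 1 := by
  rw [← pow_add, Even.neg_one_pow ⟨_, rfl⟩]

theorem main_tau (R : F2 Y k J' J1) (hR : R.Ok) (i : Fin k) {τ : Fin k → Fin Y}
    (hτ : Function.Injective τ) :
    ∑ x ∈ Pq R.kb R.kk τ, ∑ y ∈ Pq R.kb R.kk τ, cc R.cs x * cc R.cs y *
      (R.MP * (Dd R (rgt τ ∪ (supp x.2 ∪ supp y.2)) / R.N0) * ∏ p, R.E (Wx τ i x y p)) =
      R.MP / R.N0 * (R.Pb i *
        ∑ φ ∈ off R.kk τ, Dd R (rgt τ ∪ supp φ) * ∏ p, ev R.e (φ p)) := by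
  have h1 : ∀ x ∈ Pq R.kb R.kk τ, ∑ y ∈ Pq R.kb R.kk τ, cc R.cs x * cc R.cs y *
      (R.MP * (Dd R (rgt τ ∪ (supp x.2 ∪ supp y.2)) / R.N0) * ∏ p, R.E (Wx τ i x y p)) =
      (∑ ψ' ∈ adm k R.kb, R.cs ^ (supp x.1).card * R.cs ^ (supp ψ').card * Ab R i x.1 ψ') *
        (R.MP / R.N0 * (Dd R (rgt τ ∪ supp x.2) * ∏ p, ev R.e (x.2 p))) := by
    intro x hx
    have hx2 := (mem_Pq _ _ _ _).1 hx
    have hxo : x.2 ∈ off R.kk τ := (mem_off _ _ _).2 hx2.2
    conv_lhs => unfold Pq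
    rw [sum_product, sum_mul]
    refine sum_congr rfl fun ψ' _ => ?_
    rw [sum_eq_single_of_mem x.2 hxo]
    · rw [prodE R hR i hτ x (ψ', x.2) hx2.2.2 hx2.2.2]
      simp only [if_true, union_self]
      unfold cc
      have := sign_sq x.2
      linear_combination (R.cs ^ (supp x.1).card * R.cs ^ (supp ψ').card * Ab R i x.1 ψ' *
        (R.MP / R.N0 * (Dd R (rgt τ ∪ supp x.2) * ∏ p, ev R.e (x.2 p)))) * this
    · intro φ' hφ' hne
      rw [prodE R hR i hτ x (ψ', φ') hx2.2.2 ((mem_off _ _ _).1 hφ').2,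
        if_neg (fun h => hne h.symm)]
      ring
  rw [sum_congr rfl h1]
  unfold Pq
  rw [sum_product]
  have h2 : ∀ ψ ∈ adm k R.kb, ∑ φ ∈ off R.kk τ,
      (∑ ψ' ∈ adm k R.kb, R.cs ^ (supp ψ).card * R.cs ^ (supp ψ').card * Ab R i ψ ψ') *
        (R.MP / R.N0 * (Dd R (rgt τ ∪ supp φ) * ∏ p, ev R.e (φ p))) =
      (∑ ψ' ∈ adm k R.kb, R.cs ^ (supp ψ).card * R.cs ^ (supp ψ').card * Ab R i ψ ψ') *
        (R.MP / R.N0 * ∑ φ ∈ off R.kk τ, Dd R (rgt τ ∪ supp φ) * ∏ p, ev R.e (φ p)) := by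
    intro ψ _
    rw [← mul_sum, ← mul_sum]
  simp only
  rw [sum_congr rfl h2, ← sum_mul, PbSum]
  ring

theorem SS_off (kk : Fin J1 → ℕ) (e : Fin J1 → ℝ) (τ : Fin k → Fin Y) (B : Finset (Fin Y)) :
    SS kk e (B \ rgt τ) = ∑ φ ∈ off kk τ, if supp φ ⊆ B then ∏ p, ev e (φ p) else 0 := by
  have h1 : (adm Y kk).filter (fun φ => supp φ ⊆ B \ rgt τ) =
      (off kk τ).filter (fun φ => supp φ ⊆ B) := by
    ext φ
    simp only [mem_filter, mem_off, subset_sdiff, and_assoc]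
    have h2 : Disjoint (supp φ) (rgt τ) ↔ supp φ ⊆ (rgt τ)ᶜ := by
      rw [subset_compl_iff_disjoint_right]
    rw [h2]
    tauto
  unfold SS
  rw [h1, sum_filter]

theorem main_all (R : F2 Y k J' J1) (hR : R.Ok) (i : Fin k) :
    ∑ τ ∈ TT R.w univ, R.MP / R.N0 * (R.Pb i *
        ∑ φ ∈ off R.kk τ, Dd R (rgt τ ∪ supp φ) * ∏ p, ev R.e (φ p)) =
      R.MP * ((R.Ω.card : ℝ) / R.N0) *
        avg R.Ω (fun a => ∑ τ ∈ TT R.w (R.B a), R.Pb i * SS R.kk R.e (R.B a \ rgt τ)) := by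
  have hΩ : (R.Ω.card : ℝ) ≠ 0 := by
    have := hR.O_ne.card_pos
    positivity
  have h1 : R.MP * ((R.Ω.card : ℝ) / R.N0) *
        avg R.Ω (fun a => ∑ τ ∈ TT R.w (R.B a), R.Pb i * SS R.kk R.e (R.B a \ rgt τ)) =
      R.MP / R.N0 * ∑ a ∈ R.Ω, ∑ τ ∈ TT R.w (R.B a), R.Pb i * SS R.kk R.e (R.B a \ rgt τ) := by
    unfold avg
    field_simp
  rw [h1, ← mul_sum]
  congr 1
  have h2 : ∀ a ∈ R.Ω, ∑ τ ∈ TT R.w (R.B a), R.Pb i * SS R.kk R.e (R.B a \ rgt τ) =
      ∑ τ ∈ TT R.w univ, ∑ φ ∈ off R.kk τ,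
        R.Pb i * (if rgt τ ∪ supp φ ⊆ R.B a then ∏ p, ev R.e (φ p) else 0) := by
    intro a _
    rw [TT_eq, sum_filter]
    refine sum_congr rfl fun τ _ => ?_
    rw [SS_off, mul_sum]
    by_cases h : rgt τ ⊆ R.B a
    · rw [if_pos h]
      refine sum_congr rfl fun φ _ => ?_
      by_cases h' : supp φ ⊆ R.B a
      · rw [if_pos h', if_pos (union_subset h h')]
      · rw [if_neg h', if_neg (fun hc => h' (subset_union_right.trans hc))]
    · rw [if_neg h]
      symm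
      refine sum_eq_zero fun φ _ => ?_
      rw [if_neg (fun hc => h (subset_union_left.trans hc)), mul_zero]
  rw [sum_congr rfl h2, sum_comm]
  refine sum_congr rfl fun τ _ => ?_
  rw [sum_comm, mul_sum]
  refine sum_congr rfl fun φ _ => ?_
  rw [Dd_eq, sum_mul, mul_sum]
  refine sum_congr rfl fun a _ => ?_
  split_ifs <;> ring

/-! ### The error term -/

theorem card_TT (w : Fin k → Finset (Fin Y)) (B : Finset (Fin Y)) :
    ((TT w B).card : ℝ) ≤ (B.card : ℝ) ^ k := by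
  have h : TT w B ⊆ Fintype.piFinset (fun _ : Fin k => B) := by
    intro τ hτ
    rw [Fintype.mem_piFinset]
    exact fun i => (((mem_TT _ _ _).1 hτ).2 i).2
  have h2 := card_le_card h
  rw [Fintype.card_piFinset_const] at h2
  exact_mod_cast h2

theorem card_Pq (kb : Fin J' → ℕ) (kk : Fin J1 → ℕ) (τ : Fin k → Fin Y) :
    ((Pq kb kk τ).card : ℝ) ≤ ((adm k kb).card : ℝ) * ((adm Y kk).card : ℝ) := by
  have h2 : (Pq kb kk τ).card ≤ (adm k kb).card * (adm Y kk).card := by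
    unfold Pq
    rw [card_product]
    exact Nat.mul_le_mul_left _ (card_le_card (filter_subset _ _))
  exact_mod_cast h2

theorem pair_le (kb : Fin J' → ℕ) (kk : Fin J1 → ℕ) (τ : Fin k → Fin Y) (B : Finset (Fin Y))
    (P : ℝ) (hP : 0 ≤ P) :
    ∑ x ∈ Pq kb kk τ, ∑ y ∈ Pq kb kk τ,
      (if supp x.2 ∪ supp y.2 ⊆ B then P ^ (supp x.2 ∪ supp y.2).card else 0) ≤
      (1 + ((J1 : ℝ) + 1) ^ 2 * P) ^ B.card * ((adm k kb).card : ℝ) ^ 2 := by
  have h1 : ∑ x ∈ Pq kb kk τ, ∑ y ∈ Pq kb kk τ,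
      (if supp x.2 ∪ supp y.2 ⊆ B then P ^ (supp x.2 ∪ supp y.2).card else 0) =
      ((adm k kb).card : ℝ) ^ 2 * ∑ φ ∈ off kk τ, ∑ φ' ∈ off kk τ,
        (if supp φ ∪ supp φ' ⊆ B then P ^ (supp φ ∪ supp φ').card else 0) := by
    unfold Pq
    rw [sum_product]
    simp only [sum_product, sum_const, nsmul_eq_mul]
    rw [← mul_sum]
    ring
  rw [h1, mul_comm]
  refine mul_le_mul_of_nonneg_right ?_ (by positivity)
  have h2 := (LG.comb Y J1 kk).2 2 P hP B
  rw [LG.SumOneAux.sum_fin_two] at h2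
  refine le_trans ?_ h2
  have hpos : ∀ φ φ' : Asg Y J1, 0 ≤
      (if supp φ ∪ supp φ' ⊆ B then P ^ (supp φ ∪ supp φ').card else 0) := by
    intro φ φ'
    split_ifs
    · positivity
    · exact le_rfl
  calc ∑ φ ∈ off kk τ, ∑ φ' ∈ off kk τ,
        (if supp φ ∪ supp φ' ⊆ B then P ^ (supp φ ∪ supp φ').card else 0)
      ≤ ∑ φ ∈ adm Y kk, ∑ φ' ∈ adm Y kk,
        (if supp φ ∪ supp φ' ⊆ B then P ^ (supp φ ∪ supp φ').card else 0) := by
        refine le_trans (sum_le_sum fun φ _ => sum_le_sum_of_subset_of_nonneg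
          (filter_subset _ _) fun φ' _ _ => hpos φ φ') ?_
        exact sum_le_sum_of_subset_of_nonneg (filter_subset _ _)
          fun φ _ _ => sum_nonneg fun φ' _ => hpos φ φ'
    _ = _ := by
        rw [sum_filter]
        refine sum_congr rfl fun φ _ => ?_
        have hU : ∀ φ' : Asg Y J1, supp φ ∪ supp φ' =
            univ.filter (fun i => ∃ l, (![φ, φ'] : Fin 2 → Asg Y J1) l i ≠ none) := by
          intro φ'
          ext p
          simp only [mem_filter, mem_univ, true_and, mem_union, Fin.exists_fin_two,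
            Matrix.cons_val_zero, Matrix.cons_val_one, mem_supp]
        by_cases ha : supp φ ⊆ B
        · rw [if_pos ha, sum_filter]
          refine sum_congr rfl fun φ' _ => ?_
          by_cases hb : supp φ' ⊆ B
          · rw [if_pos hb, if_pos (union_subset ha hb), hU]
          · rw [if_neg hb, if_neg (fun hc => hb (subset_union_right.trans hc))]
        · rw [if_neg ha]
          refine sum_eq_zero fun φ' _ => ?_
          rw [if_neg (fun hc => ha (subset_union_left.trans hc))]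

theorem err_all (R : F2 Y k J' J1) (hR : R.Ok) :
    ∑ τ ∈ TT R.w univ, ∑ x ∈ Pq R.kb R.kk τ, ∑ y ∈ Pq R.kb R.kk τ,
      Dd R (rgt τ ∪ (supp x.2 ∪ supp y.2)) *
        R.Plow ^ ((k - 1) + (supp x.2 ∪ supp y.2).card) ≤
      ∑ a ∈ R.Ω, (R.B a).card * (((R.B a).card * R.Plow) ^ (k - 1) * R.Xa a) := by
  have h1 : ∑ τ ∈ TT R.w univ, ∑ x ∈ Pq R.kb R.kk τ, ∑ y ∈ Pq R.kb R.kk τ,
      Dd R (rgt τ ∪ (supp x.2 ∪ supp y.2)) *
        R.Plow ^ ((k - 1) + (supp x.2 ∪ supp y.2).card) =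
      ∑ a ∈ R.Ω, ∑ τ ∈ TT R.w (R.B a), R.Plow ^ (k - 1) *
        ∑ x ∈ Pq R.kb R.kk τ, ∑ y ∈ Pq R.kb R.kk τ,
        (if supp x.2 ∪ supp y.2 ⊆ R.B a then R.Plow ^ (supp x.2 ∪ supp y.2).card else 0) := by
    have h2 : ∀ a ∈ R.Ω, ∑ τ ∈ TT R.w (R.B a), R.Plow ^ (k - 1) *
        ∑ x ∈ Pq R.kb R.kk τ, ∑ y ∈ Pq R.kb R.kk τ,
        (if supp x.2 ∪ supp y.2 ⊆ R.B a then R.Plow ^ (supp x.2 ∪ supp y.2).card else 0) =
        ∑ τ ∈ TT R.w univ, ∑ x ∈ Pq R.kb R.kk τ, ∑ y ∈ Pq R.kb R.kk τ,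
          (if rgt τ ∪ (supp x.2 ∪ supp y.2) ⊆ R.B a then (1 : ℝ) else 0) *
            R.Plow ^ ((k - 1) + (supp x.2 ∪ supp y.2).card) := by
      intro a _
      rw [TT_eq, sum_filter]
      refine sum_congr rfl fun τ _ => ?_
      by_cases h : rgt τ ⊆ R.B a
      · rw [if_pos h, mul_sum]
        refine sum_congr rfl fun x _ => ?_
        rw [mul_sum]
        refine sum_congr rfl fun y _ => ?_
        by_cases h' : supp x.2 ∪ supp y.2 ⊆ R.B a
        · rw [if_pos h', if_pos (union_subset h h'), one_mul, pow_add]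
        · rw [if_neg h', if_neg (fun hc => h' (subset_union_right.trans hc)), mul_zero,
            zero_mul]
      · rw [if_neg h]
        symm
        refine sum_eq_zero fun x _ => sum_eq_zero fun y _ => ?_
        rw [if_neg (fun hc => h (subset_union_left.trans hc)), zero_mul]
    rw [sum_congr rfl h2]
    symm
    rw [sum_comm]
    refine sum_congr rfl fun τ _ => ?_
    rw [sum_comm]
    refine sum_congr rfl fun x _ => ?_
    rw [sum_comm]
    refine sum_congr rfl fun y _ => ?_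
    rw [Dd_eq, sum_mul]
  rw [h1]
  refine sum_le_sum fun a _ => ?_
  have hP := hR.Plow_nonneg
  have h3 : ∀ τ ∈ TT R.w (R.B a), R.Plow ^ (k - 1) *
      ∑ x ∈ Pq R.kb R.kk τ, ∑ y ∈ Pq R.kb R.kk τ,
      (if supp x.2 ∪ supp y.2 ⊆ R.B a then R.Plow ^ (supp x.2 ∪ supp y.2).card else 0) ≤
      R.Plow ^ (k - 1) * R.Xa a := by
    intro τ _
    exact mul_le_mul_of_nonneg_left (pair_le R.kb R.kk τ (R.B a) R.Plow hP) (by positivity)
  refine le_trans (sum_le_sum h3) ?_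
  rw [sum_const, nsmul_eq_mul]
  have hX : 0 ≤ R.Xa a := by
    unfold F2.Xa
    positivity
  have h4 := mul_le_mul_of_nonneg_right (card_TT R.w (R.B a))
    (mul_nonneg (pow_nonneg hP (k - 1)) hX)
  refine le_trans h4 (le_of_eq ?_)
  have hk : k = (k - 1) + 1 := by
    have := hR.k_pos
    omega
  rw [mul_pow]
  have h5 : ((R.B a).card : ℝ) ^ k = ((R.B a).card : ℝ) * ((R.B a).card : ℝ) ^ (k - 1) := by
    generalize ((R.B a).card : ℝ) = z
    obtain ⟨m, hm⟩ : ∃ m, k = m + 1 := ⟨k - 1, hk⟩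
    subst hm
    simp only [Nat.add_sub_cancel]
    ring
  rw [h5]
  ring

theorem sum_lvb (R : F2 Y k J' J1) (hR : R.Ok) (ψ : Asg k J') (hψ : ψ ∈ adm k R.kb) :
    ∑ i, R.lv (lbo (ψ i)) ≤ k * R.lv .b0 + ∑ j, (R.kb j : ℝ) * R.lv (.bs j) := by
  have h1 : ∀ i, R.lv (lbo (ψ i)) ≤ R.lv .b0 + ∑ j, if ψ i = some j then R.lv (.bs j) else 0 := by
    intro i
    cases h : ψ i with
    | none => simp [lbo]
    | some j =>
      simp only [lbo, Option.some.injEq, sum_ite_eq, mem_univ, if_true]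
      have := hR.lv_nonneg .b0
      linarith
  refine le_trans (sum_le_sum fun i _ => h1 i) ?_
  rw [sum_add_distrib, sum_const, nsmul_eq_mul, card_univ, Fintype.card_fin, sum_comm]
  refine add_le_add_right (sum_le_sum fun j _ => ?_) _
  rw [← sum_filter, sum_const, nsmul_eq_mul]
  refine mul_le_mul_of_nonneg_right ?_ (hR.lv_nonneg _)
  exact_mod_cast (mem_adm _ _).1 hψ j

theorem sum_lvk (R : F2 Y k J' J1) (hR : R.Ok) (φ : Asg Y J1) (hφ : φ ∈ adm Y R.kk) :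
    ∑ p, R.lv (lko (φ p)) ≤ ∑ j, (R.kk j : ℝ) * R.lv (.ks j) := by
  have h1 : ∀ p, R.lv (lko (φ p)) ≤ ∑ j, if φ p = some j then R.lv (.ks j) else 0 := by
    intro p
    cases h : φ p with
    | none => simp [lko, hR.lv_one]
    | some j => simp [lko]
  refine le_trans (sum_le_sum fun i _ => h1 i) ?_
  rw [sum_comm]
  refine sum_le_sum fun j _ => ?_
  rw [← sum_filter, sum_const, nsmul_eq_mul]
  refine mul_le_mul_of_nonneg_right ?_ (hR.lv_nonneg _)
  exact_mod_cast (mem_adm _ _).1 hφ j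

theorem level3 (R : F2 Y k J' J1) (hR : R.Ok) (i : Fin k) {τ : Fin k → Fin Y}
    (hτ : Function.Injective τ) (x y : Asg k J' × Asg Y J1) (hx : x ∈ Pq R.kb R.kk τ)
    (hy : y ∈ Pq R.kb R.kk τ) : ∑ p, ∑ l, R.lv (Wx τ i x y p l) ≤ 1 / 50 := by
  have hx' := (mem_Pq _ _ _ _).1 hx
  have hy' := (mem_Pq _ _ _ _).1 hy
  have e0 : ∑ l, R.lv (blank J' J1 l) = 0 := by
    simp [blank, hR.lv_one]
  have e1 : ∀ a b : Lb J' J1, ∑ l, R.lv ((![a, b, .one, .one] : Fin 4 → Lb J' J1) l) =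
      R.lv a + R.lv b := by
    intro a b
    rw [Fin.sum_univ_four]
    simp [hR.lv_one]
  unfold Wx
  rw [sumW hτ (fun _ w => ∑ l, R.lv (w l))]
  simp only [e0, e1, sum_add_distrib]
  have h1 : ∀ ψ : Asg k J', ∑ i' ∈ univ.erase i, R.lv (lbo (ψ i')) ≤ ∑ i', R.lv (lbo (ψ i')) :=
    fun ψ => sum_le_sum_of_subset_of_nonneg (erase_subset _ _) fun _ _ _ => hR.lv_nonneg _
  have h2 : ∀ φ : Asg Y J1, ∑ p ∈ (rgt τ)ᶜ, R.lv (lko (φ p)) ≤ ∑ p, R.lv (lko (φ p)) :=
    fun φ => sum_le_sum_of_subset_of_nonneg (subset_univ _) fun _ _ _ => hR.lv_nonneg _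
  have a1 := (h1 x.1).trans (sum_lvb R hR x.1 hx'.1)
  have a2 := (h1 y.1).trans (sum_lvb R hR y.1 hy'.1)
  have a3 := (h2 x.2).trans (sum_lvk R hR x.2 hx'.2.1)
  have a4 := (h2 y.2).trans (sum_lvk R hR y.2 hy'.2.1)
  have a5 := hR.lev4
  have a6 := hR.lv_nonneg .mj
  have a7 : 0 ≤ k * R.lv .b0 + ∑ j, (R.kb j : ℝ) * R.lv (.bs j) :=
    add_nonneg (mul_nonneg (Nat.cast_nonneg _) (hR.lv_nonneg _))
      (sum_nonneg fun j _ => mul_nonneg (Nat.cast_nonneg _) (hR.lv_nonneg _))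
  have a8 : 0 ≤ ∑ j, (R.kk j : ℝ) * R.lv (.ks j) :=
    sum_nonneg fun j _ => mul_nonneg (Nat.cast_nonneg _) (hR.lv_nonneg _)
  linarith

theorem term3 (R : F2 Y k J' J1) (hR : R.Ok) (i : Fin k) {τ : Fin k → Fin Y}
    (hτ : Function.Injective τ) (x y : Asg k J' × Asg Y J1) (hx : x ∈ Pq R.kb R.kk τ)
    (hy : y ∈ Pq R.kb R.kk τ) :
    cc R.cs x * cc R.cs y * (R.MP * (Dd R (rgt τ ∪ (supp x.2 ∪ supp y.2)) / R.N0) *
      ∏ p, R.E (Wx τ i x y p)) -
      (R.ε1 + R.ε2 * R.MP * (Dd R (rgt τ ∪ (supp x.2 ∪ supp y.2)) / R.N0) *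
        R.Plow ^ ((k - 1) + (supp x.2 ∪ supp y.2).card)) ≤
      cc R.cs x * cc R.cs y * ∑ n ∈ R.F.filter (fun n => UW2 (Wx τ i x y) ⊆ R.B n),
          R.νp (τ i) n * ∏ p, ∏ l, R.v n p (Wx τ i x y p l) := by
  have hx' := (mem_Pq _ _ _ _).1 hx
  have hy' := (mem_Pq _ _ _ _).1 hy
  have hcard : (UW2 (Wx τ i x y)).card = (k - 1) + (supp x.2 ∪ supp y.2).card :=
    card_UW2 hτ hx'.2.2 hy'.2.2
  have hins : insert (τ i) (UW2 (Wx τ i x y)) = rgt τ ∪ (supp x.2 ∪ supp y.2) :=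
    insert_UW2 hτ hx'.2.2 hy'.2.2
  have hu : (UW2 (Wx τ i x y)).card ≤ R.u0 := by
    rw [hcard]
    have h1 := card_union_le (supp x.2) (supp y.2)
    have h2 : (supp x.2).card ≤ ∑ j, R.kk j := by
      rw [card_supp]
      exact sum_le_sum fun j _ => (mem_adm _ _).1 hx'.2.1 j
    have h3 : (supp y.2).card ≤ ∑ j, R.kk j := by
      rw [card_supp]
      exact sum_le_sum fun j _ => (mem_adm _ _).1 hy'.2.1 j
    have h4 := hR.u0_ge
    omega
  have hest := hR.estp (τ i) (Wx τ i x y) (W3_self hτ) hu (level3 R hR i hτ x y hx hy)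
  rw [hins, hcard] at hest
  have hc : |cc R.cs x * cc R.cs y| ≤ 1 := by
    rw [abs_mul]
    exact mul_le_one₀ (abs_cc hR.cs_nonneg hR.cs_le x) (abs_nonneg _)
      (abs_cc hR.cs_nonneg hR.cs_le y)
  have key : ∀ c A M e : ℝ, |c| ≤ 1 → |A - M| ≤ e → c * M - e ≤ c * A := by
    intro c A M e hc he
    have h1 : |c * (A - M)| ≤ e := by
      rw [abs_mul]
      calc |c| * |A - M| ≤ 1 * |A - M| := mul_le_mul_of_nonneg_right hc (abs_nonneg _)
        _ ≤ e := by rw [one_mul]; exact he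
    have h2 := (abs_le.1 h1).1
    linarith [mul_sub c A M]
  exact key _ _ _ _ hc hest

end SumThreeAux

open SumThreeAux

theorem sumThree2 : SumThree2 := by
  intro Y k J' J1 R hR i
  rw [expand3 R hR i]
  have h1 : ∀ τ ∈ TT R.w univ, ∀ x ∈ Pq R.kb R.kk τ, ∀ y ∈ Pq R.kb R.kk τ, _ :=
    fun τ hτ x hx y hy => term3 R hR i ((mem_TT _ _ _).1 hτ).1 x y hx hy
  refine le_trans ?_ (sum_le_sum fun τ hτ => sum_le_sum fun x hx => sum_le_sum fun y hy =>
    h1 τ hτ x hx y hy)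
  simp only [sum_sub_distrib, sum_add_distrib]
  rw [sum_congr rfl fun τ hτ => main_tau R hR i ((mem_TT _ _ _).1 hτ).1, main_all R hR i]
  refine sub_le_sub_left (add_le_add ?_ ?_) _
  · -- the first error term
    have h2 : ∀ τ ∈ TT R.w univ, ∑ x ∈ Pq R.kb R.kk τ, ∑ y ∈ Pq R.kb R.kk τ, R.ε1 ≤
        R.ε1 * R.NN := by
      intro τ _
      simp only [sum_const, nsmul_eq_mul]
      have h3 := card_Pq R.kb R.kk τ
      have h4 : ((Pq R.kb R.kk τ).card : ℝ) * (((Pq R.kb R.kk τ).card : ℝ) * R.ε1) =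
          R.ε1 * ((Pq R.kb R.kk τ).card : ℝ) ^ 2 := by ring
      rw [h4]
      refine mul_le_mul_of_nonneg_left ?_ hR.e1_nonneg
      unfold F2.NN
      rw [← mul_pow]
      exact pow_le_pow_left₀ (Nat.cast_nonneg _) h3 2
    refine le_trans (sum_le_sum h2) ?_
    rw [sum_const, nsmul_eq_mul]
    have h5 := card_TT R.w (univ : Finset (Fin Y))
    rw [card_univ, Fintype.card_fin] at h5
    have h6 : 0 ≤ R.ε1 * R.NN := by
      refine mul_nonneg hR.e1_nonneg ?_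
      unfold F2.NN
      positivity
    calc ((TT R.w univ).card : ℝ) * (R.ε1 * R.NN) ≤ (Y : ℝ) ^ k * (R.ε1 * R.NN) :=
          mul_le_mul_of_nonneg_right h5 h6
      _ = R.ε1 * Y ^ k * R.NN := by ring
  · -- the second error term
    have hΩ : (R.Ω.card : ℝ) ≠ 0 := by
      have := hR.O_ne.card_pos
      positivity
    have h2 : ∑ τ ∈ TT R.w univ, ∑ x ∈ Pq R.kb R.kk τ, ∑ y ∈ Pq R.kb R.kk τ,
        R.ε2 * R.MP * (Dd R (rgt τ ∪ (supp x.2 ∪ supp y.2)) / R.N0) *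
          R.Plow ^ ((k - 1) + (supp x.2 ∪ supp y.2).card) =
        R.ε2 * R.MP / R.N0 * ∑ τ ∈ TT R.w univ, ∑ x ∈ Pq R.kb R.kk τ, ∑ y ∈ Pq R.kb R.kk τ,
          Dd R (rgt τ ∪ (supp x.2 ∪ supp y.2)) *
            R.Plow ^ ((k - 1) + (supp x.2 ∪ supp y.2).card) := by
      rw [mul_sum]
      refine sum_congr rfl fun τ _ => ?_
      rw [mul_sum]
      refine sum_congr rfl fun x _ => ?_
      rw [mul_sum]
      refine sum_congr rfl fun y _ => ?_
      ring
    have h3 : R.ε2 * R.MP * ((R.Ω.card : ℝ) / R.N0) *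
        avg R.Ω (fun a => (R.B a).card * (((R.B a).card * R.Plow) ^ (k - 1) * R.Xa a)) =
        R.ε2 * R.MP / R.N0 * ∑ a ∈ R.Ω, (R.B a).card *
          (((R.B a).card * R.Plow) ^ (k - 1) * R.Xa a) := by
      unfold avg
      generalize ∑ a ∈ R.Ω, ((R.B a).card : ℝ) *
          ((((R.B a).card : ℝ) * R.Plow) ^ (k - 1) * R.Xa a) = z
      field_simp
    rw [h2, h3]
    refine mul_le_mul_of_nonneg_left (err_all R hR) ?_
    exact div_nonneg (mul_nonneg hR.e2_nonneg hR.MP_nonneg) hR.N0_pos.le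

end Pool.Agent.Helper1.LG2
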