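import Pool.Agent.Helper1.LG2.Defs
import Pool.Agent.Helper1.LG.Comb
import Pool.Agent.Helper1.LG.SumTwo

set_option autoImplicit false

/-!
LG2-S2. The sum with the majorants at the other positions (`SumTwo2` in `LG2/Defs.lean`). Compare
LG-C3 (`LG/SumTwo.lean`, proved) and LG2-S1 (`LG2/SumOne2.lean`, guide in the header).

Expand over `τ`, `q ∉ rgt τ`, `ψ, ψ' ∈ adm k kb`, `φ, φ' ∈ adm Y kk` supported off `rgt τ`: words
`W p = ![lbo (ψ i), lbo (ψ' i), .one, .one]` if `p = τ i`,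
`![lko (φ p), lko (φ' p), if p = q then .mj else .one, .one]` otherwise, `UW2 W = rgt τ ∪ {q} ∪ supp φ ∪ supp φ'`.
Main term: `ψ = ψ'` (orthogonality, sum `Nb`), `φ p = φ' p` for `p ≠ q`; for fixed `τ` and `a` this is exactly
the computation of LG-C3 for the set `B a \ rgt τ` (`quad`, full modes, Markov), giving
`Nb · |B| Pall ((∑_j |B| e j/kk j)/J1 + t2) SS kk e (B a \ rgt τ)` (`|B a \ rgt τ| ≤ |B a|`).
Error: `Y^(k+1) NN ε1`, and `ε2 MI avg (|B a| · |B a|^k Plow^k ..)` (`Plow ≤ 1`).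
-/

open Finset

namespace Pool.Agent.Helper1.LG2

open Pool.Agent.Helper1.MT (supp cls)
open Pool.Agent.Helper1.LG (Asg Fr Lt ofO adm avg dn ev SS)
open Pool.Agent.Helper1.LG.SumTwoAux (aB mem_aB mem_supp mem_cls mem_adm wW avg_le)

/-! ### The data of LG for the killing modes -/

/-- The letter of LG2 of a letter of LG. -/
private def lift1 {J' J1 : ℕ} : Lt J1 → Lb J' J1
  | .one => .one
  | .maj => .mj
  | .md j => .ks j

private lemma lift_word {J' J1 : ℕ} (a b c d : Lt J1) :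
    (fun l => (lift1 ((![a, b, c, d] : Fin 4 → Lt J1) l) : Lb J' J1)) =
      ![lift1 a, lift1 b, lift1 c, lift1 d] := by
  funext l
  fin_cases l <;> rfl

private lemma lift1_ofO {J' J1 : ℕ} (o : Option (Fin J1)) :
    (lift1 (ofO o) : Lb J' J1) = lko o := by
  cases o <;> rfl

private lemma lift1_ne {J' J1 : ℕ} (a : Lt J1) (h : (lift1 a : Lb J' J1) = .one) : a = .one := by
  cases a with
  | one => rfl
  | maj => simp [lift1] at h
  | md j => simp [lift1] at h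

/-- The data of LG for the killing modes. -/
private noncomputable def R1 {Y k J' J1 : ℕ} (R : F2 Y k J' J1) : Fr Y J1 where
  K := R.kk
  F := ∅
  Ω := {0}
  ν := fun _ => 0
  B := fun _ => ∅
  v := fun _ _ _ => 1
  E := fun W => R.E (fun l => lift1 (W l))
  e := R.e
  lv := fun _ => 0
  u0 := 4 * ∑ j, R.kk j + 1
  M := 0
  Plow := R.Plow
  Pall := R.Pall
  c5 := R.c5
  t2 := R.t2
  ε1 := 0
  ε2 := 0

private lemma R1_ok {Y k J' J1 : ℕ} (R : F2 Y k J' J1) (hR : R.Ok) : (R1 R).Ok where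
  J_pos := hR.J1_pos
  K_pos := hR.kk_pos
  nu_nonneg := fun _ _ => le_rfl
  v_one := fun _ _ => rfl
  v_maj := fun _ _ => zero_le_one
  O_ne := Finset.singleton_nonempty 0
  E_blank := hR.E_blank
  mean1 := fun j => by
    change R.E (fun l => lift1 ((![.md j, .one, .one, .one] : Fin 4 → Lt J1) l)) = 0
    rw [lift_word]
    exact hR.mean1 j
  mean2 := fun j => by
    change R.E (fun l => lift1 ((![.one, .md j, .one, .one] : Fin 4 → Lt J1) l)) = 0
    rw [lift_word]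
    exact hR.mean2 j
  orth := fun i j hij => by
    change R.E (fun l => lift1 ((![.md i, .md j, .one, .one] : Fin 4 → Lt J1) l)) = 0
    rw [lift_word]
    exact hR.orth i j hij
  sq := fun j => by
    change R.E (fun l => lift1 ((![.md j, .md j, .one, .one] : Fin 4 → Lt J1) l)) = R.e j
    rw [lift_word]
    exact hR.sq j
  e_nonneg := hR.e_nonneg
  bound := fun W hW => by
    refine hR.bound _ fun h => hW ?_
    funext l
    exact lift1_ne _ (congrFun h l)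
  quad := fun s => by
    have h := hR.quad s
    have h2 : ∀ o o' : Option (Fin J1), (R1 R).E ![ofO o, ofO o', .maj, .one] =
        R.E ![lko o, lko o', .mj, .one] := by
      intro o o'
      change R.E (fun l => lift1 ((![ofO o, ofO o', .maj, .one] : Fin 4 → Lt J1) l)) = _
      rw [lift_word, lift1_ofO, lift1_ofO]
      rfl
    simp only [h2]
    exact h
  M_nonneg := le_rfl
  Plow_nonneg := hR.Plow_nonneg
  Plow_le := hR.Plow_le
  Pall_nonneg := hR.Pall_nonneg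
  c5_ge := hR.c5_ge
  t2_nonneg := hR.t2_nonneg
  e1_nonneg := le_rfl
  e2_nonneg := le_rfl
  lv_nonneg := fun _ => le_rfl
  lv_one := rfl
  u0_ge := le_rfl
  lev4 := by
    simp only [R1]
    norm_num
  lev2 := by
    simp only [R1]
    norm_num
  est := fun W _ _ => by
    simp [R1]

/-! ### Tuples -/

private lemma mem_rgt {Y k : ℕ} (τ : Fin k → Fin Y) (p : Fin Y) : p ∈ rgt τ ↔ ∃ i, τ i = p := by
  simp [rgt]

private lemma mem_TT {Y k : ℕ} (w : Fin k → Finset (Fin Y)) (B : Finset (Fin Y))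
    (τ : Fin k → Fin Y) : τ ∈ TT w B ↔ Function.Injective τ ∧ ∀ i, τ i ∈ w i ∧ τ i ∈ B := by
  unfold TT
  rw [mem_filter]
  simp

private lemma rgt_card {Y k : ℕ} {τ : Fin k → Fin Y} (hτ : Function.Injective τ) :
    (rgt τ).card = k := by
  unfold rgt
  rw [card_image_of_injective _ hτ, card_univ, Fintype.card_fin]

private lemma TT_card {Y k : ℕ} (w : Fin k → Finset (Fin Y)) (B : Finset (Fin Y)) :
    (TT w B).card ≤ B.card ^ k := by
  have h1 : TT w B ⊆ Fintype.piFinset (fun _ : Fin k => B) := by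
    intro τ hτ
    rw [Fintype.mem_piFinset]
    exact fun i => (((mem_TT w B τ).1 hτ).2 i).2
  refine le_trans (card_le_card h1) ?_
  rw [Fintype.card_piFinset]
  simp

private lemma prod_split {M : Type} [CommMonoid M] {Y k : ℕ} {τ : Fin k → Fin Y}
    (hτ : Function.Injective τ) (f : Fin Y → M) :
    ∏ p, f p = (∏ i, f (τ i)) * ∏ p ∈ univ \ rgt τ, f p := by
  rw [← Finset.prod_sdiff (subset_univ (rgt τ)), mul_comm]
  congr 1
  unfold rgt
  rw [Finset.prod_image (fun i _ j _ h => hτ h)]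

private lemma sum_split {Y k : ℕ} {τ : Fin k → Fin Y}
    (hτ : Function.Injective τ) (f : Fin Y → ℝ) :
    ∑ p, f p = (∑ i, f (τ i)) + ∑ p ∈ univ \ rgt τ, f p := by
  rw [← Finset.sum_sdiff (subset_univ (rgt τ)), add_comm]
  congr 1
  unfold rgt
  rw [Finset.sum_image (fun i _ j _ h => hτ h)]

/-- The words of the killing modes. -/
private def KW {Y J' J1 : ℕ} (q : Fin Y) (φ φ' : Asg Y J1) (p : Fin Y) : Fin 4 → Lb J' J1 :=
  ![lko (φ p), lko (φ' p), if p = q then .mj else .one, .one]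

open Classical in
/-- The words. -/
private noncomputable def WW {Y k J' J1 : ℕ} (τ : Fin k → Fin Y) (ψ ψ' : Asg k J') (q : Fin Y)
    (φ φ' : Asg Y J1) (p : Fin Y) : Fin 4 → Lb J' J1 :=
  if h : ∃ i, τ i = p then ![lbo (ψ h.choose), lbo (ψ' h.choose), .one, .one] else KW q φ φ' p

private lemma WW_tau {Y k J' J1 : ℕ} {τ : Fin k → Fin Y} (hτ : Function.Injective τ)
    (ψ ψ' : Asg k J') (q : Fin Y) (φ φ' : Asg Y J1) (i : Fin k) :
    WW τ ψ ψ' q φ φ' (τ i) = ![lbo (ψ i), lbo (ψ' i), .one, .one] := by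
  have h : ∃ i', τ i' = τ i := ⟨i, rfl⟩
  unfold WW
  rw [dif_pos h, hτ h.choose_spec]

private lemma WW_not {Y k J' J1 : ℕ} {τ : Fin k → Fin Y} (ψ ψ' : Asg k J') (q : Fin Y)
    (φ φ' : Asg Y J1) {p : Fin Y} (hp : p ∉ rgt τ) :
    WW τ ψ ψ' q φ φ' p = KW q φ φ' p := by
  unfold WW
  rw [dif_neg fun h => hp ((mem_rgt τ p).2 h)]

private lemma KW_blank {Y J' J1 : ℕ} {q : Fin Y} {φ φ' : Asg Y J1} {p : Fin Y} (h1 : φ p = none)
    (h2 : φ' p = none) (h3 : p ≠ q) : (KW q φ φ' p : Fin 4 → Lb J' J1) = blank J' J1 := by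
  unfold KW
  rw [h1, h2, if_neg h3]
  funext l
  fin_cases l <;> rfl

private lemma KW_blank_iff {Y J' J1 : ℕ} (q : Fin Y) (φ φ' : Asg Y J1) (p : Fin Y) :
    (KW q φ φ' p : Fin 4 → Lb J' J1) = blank J' J1 ↔ φ p = none ∧ φ' p = none ∧ p ≠ q := by
  refine ⟨fun h => ?_, fun h => KW_blank h.1 h.2.1 h.2.2⟩
  have h0 : lko (φ p) = (.one : Lb J' J1) := congrFun h 0
  have h1 : lko (φ' p) = (.one : Lb J' J1) := congrFun h 1
  have h2 : (if p = q then .mj else .one) = (.one : Lb J' J1) := congrFun h 2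
  refine ⟨?_, ?_, ?_⟩
  · cases h3 : φ p with
    | none => rfl
    | some j => rw [h3] at h0; simp [lko] at h0
  · cases h3 : φ' p with
    | none => rfl
    | some j => rw [h3] at h1; simp [lko] at h1
  · intro h3
    rw [if_pos h3] at h2
    simp at h2

/-- A product over the positions splits into a product over the tuple and a product over the
other positions. -/
private lemma factor {Y k J' J1 : ℕ} {τ : Fin k → Fin Y} (hτ : Function.Injective τ)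
    (ψ ψ' : Asg k J') {q : Fin Y} {φ φ' : Asg Y J1} {B : Finset (Fin Y)} (hq : q ∈ B \ rgt τ)
    (hφ : supp φ ⊆ B \ rgt τ) (hφ' : supp φ' ⊆ B \ rgt τ) (G : Fin Y → (Fin 4 → Lb J' J1) → ℝ)
    (hG : ∀ p, G p (blank J' J1) = 1) :
    ∏ p, G p (WW τ ψ ψ' q φ φ' p) =
      (∏ i, G (τ i) ![lbo (ψ i), lbo (ψ' i), .one, .one]) * ∏ p, G p (KW q φ φ' p) := by
  rw [prod_split hτ]
  congr 1
  · exact Finset.prod_congr rfl fun i _ => by rw [WW_tau hτ]
  · rw [prod_split hτ (fun p => G p (KW q φ φ' p))]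
    have h1 : ∏ i, G (τ i) (KW q φ φ' (τ i)) = 1 := by
      refine Finset.prod_eq_one fun i _ => ?_
      have hi : τ i ∈ rgt τ := (mem_rgt τ _).2 ⟨i, rfl⟩
      rw [KW_blank, hG]
      · by_contra h
        exact (mem_sdiff.1 (hφ ((mem_supp φ _).2 h))).2 hi
      · by_contra h
        exact (mem_sdiff.1 (hφ' ((mem_supp φ' _).2 h))).2 hi
      · intro h
        rw [h] at hi
        exact (mem_sdiff.1 hq).2 hi
    rw [h1, one_mul]
    refine Finset.prod_congr rfl fun p hp => ?_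
    rw [WW_not ψ ψ' q φ φ' (mem_sdiff.1 hp).2]

/-! ### The index set -/

/-- The indices. -/
private abbrev Ix (Y k J' J1 : ℕ) : Type :=
  Σ _ : Fin k → Fin Y, (Asg k J' × Asg k J') × (Fin Y × (Asg Y J1 × Asg Y J1))

/-- The fibre of the index set. -/
private def XF {Y k J' J1 : ℕ} (R : F2 Y k J' J1) (B : Finset (Fin Y)) (τ : Fin k → Fin Y) :
    Finset ((Asg k J' × Asg k J') × (Fin Y × (Asg Y J1 × Asg Y J1))) :=
  (adm k R.kb ×ˢ adm k R.kb) ×ˢ
    ((B \ rgt τ) ×ˢ (aB R.kk (B \ rgt τ) ×ˢ aB R.kk (B \ rgt τ)))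

/-- The index set. -/
private noncomputable def XX {Y k J' J1 : ℕ} (R : F2 Y k J' J1) (B : Finset (Fin Y)) :
    Finset (Ix Y k J' J1) :=
  (TT R.w B).sigma (fun τ => XF R B τ)

/-- The positions. -/
private def UU {Y k J' J1 : ℕ} (x : Ix Y k J' J1) : Finset (Fin Y) :=
  rgt x.1 ∪ insert x.2.2.1 (supp x.2.2.2.1 ∪ supp x.2.2.2.2)

private lemma mem_XF {Y k J' J1 : ℕ} (R : F2 Y k J' J1) (B : Finset (Fin Y)) (τ : Fin k → Fin Y)
    (y : (Asg k J' × Asg k J') × (Fin Y × (Asg Y J1 × Asg Y J1))) :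
    y ∈ XF R B τ ↔ (y.1.1 ∈ adm k R.kb ∧ y.1.2 ∈ adm k R.kb) ∧ (y.2.1 ∈ B \ rgt τ ∧
      ((y.2.2.1 ∈ adm Y R.kk ∧ supp y.2.2.1 ⊆ B \ rgt τ) ∧
        (y.2.2.2 ∈ adm Y R.kk ∧ supp y.2.2.2 ⊆ B \ rgt τ))) := by
  unfold XF
  rw [mem_product, mem_product, mem_product, mem_product, mem_aB, mem_aB]

private lemma sdiff_iff {Y : ℕ} (A B C : Finset (Fin Y)) :
    A ⊆ B \ C ↔ A ⊆ univ \ C ∧ A ⊆ B := by
  constructor
  · intro h
    exact ⟨fun x hx => mem_sdiff.2 ⟨mem_univ _, (mem_sdiff.1 (h hx)).2⟩,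
      fun x hx => (mem_sdiff.1 (h hx)).1⟩
  · rintro ⟨h1, h2⟩ x hx
    exact mem_sdiff.2 ⟨h2 hx, (mem_sdiff.1 (h1 hx)).2⟩

private lemma mem_XX {Y k J' J1 : ℕ} (R : F2 Y k J' J1) (B : Finset (Fin Y))
    (x : Ix Y k J' J1) : x ∈ XX R B ↔ x ∈ XX R univ ∧ UU x ⊆ B := by
  unfold XX
  rw [mem_sigma, mem_sigma, mem_XF, mem_XF, mem_TT, mem_TT]
  unfold UU
  rw [union_subset_iff, insert_subset_iff, union_subset_iff, sdiff_iff (supp x.2.2.2.1) B,
    sdiff_iff (supp x.2.2.2.2) B]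
  have h1 : rgt x.1 ⊆ B ↔ ∀ i, x.1 i ∈ B := by
    constructor
    · intro h i
      exact h ((mem_rgt _ _).2 ⟨i, rfl⟩)
    · intro h p hp
      obtain ⟨i, rfl⟩ := (mem_rgt _ _).1 hp
      exact h i
  have h2 : x.2.2.1 ∈ B \ rgt x.1 ↔ x.2.2.1 ∈ univ \ rgt x.1 ∧ x.2.2.1 ∈ B := by
    rw [mem_sdiff, mem_sdiff]
    simp only [mem_univ, true_and]
    tauto
  rw [h1, h2]
  simp only [mem_univ, and_true, forall_and]
  tauto

private lemma sum_XX {Y k J' J1 : ℕ} (R : F2 Y k J' J1) (B : Finset (Fin Y))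
    (c : Ix Y k J' J1 → ℝ) :
    ∑ x ∈ XX R B, c x = ∑ x ∈ XX R univ, if UU x ⊆ B then c x else 0 := by
  rw [← Finset.sum_filter]
  refine Finset.sum_congr ?_ fun _ _ => rfl
  ext x
  rw [mem_filter, mem_XX R B]

private lemma dnsum2 {Y k J' J1 : ℕ} (R : F2 Y k J' J1) (c : Ix Y k J' J1 → ℝ) :
    ∑ x ∈ XX R univ, dn R.Ω R.B (UU x) * c x =
      avg R.Ω (fun a => ∑ x ∈ XX R (R.B a), c x) := by
  unfold avg dn
  rw [Finset.sum_congr rfl fun a _ => sum_XX R (R.B a) c, Finset.sum_comm, Finset.sum_div]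
  refine Finset.sum_congr rfl fun x _ => ?_
  rw [← Finset.sum_filter, Finset.sum_const, nsmul_eq_mul, div_mul_eq_mul_div]

private lemma sum_prod5 {α β γ : Type} (A : Finset α) (C : Finset β) (D : Finset γ)
    (f : α → α → ℝ) (g : β → γ → γ → ℝ) :
    ∑ y ∈ (A ×ˢ A) ×ˢ (C ×ˢ (D ×ˢ D)), f y.1.1 y.1.2 * g y.2.1 y.2.2.1 y.2.2.2 =
      (∑ a ∈ A, ∑ a' ∈ A, f a a') * ∑ c ∈ C, ∑ d ∈ D, ∑ d' ∈ D, g c d d' := by
  rw [Finset.sum_product, Finset.sum_product, Finset.sum_mul]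
  refine Finset.sum_congr rfl fun a _ => ?_
  rw [Finset.sum_mul]
  refine Finset.sum_congr rfl fun a' _ => ?_
  rw [Finset.sum_product, Finset.mul_sum]
  refine Finset.sum_congr rfl fun c _ => ?_
  rw [Finset.sum_product, Finset.mul_sum]
  refine Finset.sum_congr rfl fun d _ => ?_
  rw [Finset.mul_sum]

private lemma sum_XF {Y k J' J1 : ℕ} (R : F2 Y k J' J1) (B : Finset (Fin Y)) (τ : Fin k → Fin Y)
    (F : (Asg k J' × Asg k J') × (Fin Y × (Asg Y J1 × Asg Y J1)) → ℝ)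
    (f : Asg k J' → Asg k J' → ℝ) (g : Fin Y → Asg Y J1 → Asg Y J1 → ℝ)
    (h : ∀ y ∈ XF R B τ, F y = f y.1.1 y.1.2 * g y.2.1 y.2.2.1 y.2.2.2) :
    ∑ y ∈ XF R B τ, F y = (∑ a ∈ adm k R.kb, ∑ a' ∈ adm k R.kb, f a a') *
      ∑ c ∈ B \ rgt τ, ∑ d ∈ aB R.kk (B \ rgt τ), ∑ d' ∈ aB R.kk (B \ rgt τ), g c d d' := by
  rw [Finset.sum_congr rfl h]
  exact sum_prod5 _ _ _ f g

/-- The signs. -/
private noncomputable def sgn {Y k J' J1 : ℕ} (cs : ℝ)
    (y : (Asg k J' × Asg k J') × (Fin Y × (Asg Y J1 × Asg Y J1))) : ℝ :=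
  (cs ^ (supp y.1.1).card * cs ^ (supp y.1.2).card) *
    ((-1) ^ (supp y.2.2.1).card * (-1) ^ (supp y.2.2.2).card)

/-- The words of an index. -/
private noncomputable def Wd {Y k J' J1 : ℕ} (τ : Fin k → Fin Y)
    (y : (Asg k J' × Asg k J') × (Fin Y × (Asg Y J1 × Asg Y J1))) : Fin Y → Fin 4 → Lb J' J1 :=
  WW τ y.1.1 y.1.2 y.2.1 y.2.2.1 y.2.2.2

private lemma expand2 {Y k J' J1 : ℕ} (R : F2 Y k J' J1) (B : Finset (Fin Y))
    (v : Fin Y → Lb J' J1 → ℝ) (hv : ∀ p, v p .one = 1) {τ : Fin k → Fin Y}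
    (hτ : Function.Injective τ) :
    gt R.kb R.kk R.cs τ B v ^ 2 * ∑ q ∈ B \ rgt τ, v q .mj =
      ∑ y ∈ XF R B τ, sgn R.cs y * ∏ p, ∏ l, v p (Wd τ y p l) := by
  have h1 : gt R.kb R.kk R.cs τ B v =
      (∑ ψ ∈ adm k R.kb, R.cs ^ (supp ψ).card * ∏ i, v (τ i) (lbo (ψ i))) *
        ∑ φ ∈ aB R.kk (B \ rgt τ), (-1) ^ (supp φ).card * ∏ p, v p (lko (φ p)) := by
    unfold gt
    rw [Finset.sum_mul_sum]
    refine Finset.sum_congr rfl fun ψ _ => ?_
    unfold aB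
    refine Finset.sum_congr rfl fun φ _ => ?_
    ring
  have h2 : ∀ y ∈ XF R B τ, sgn R.cs y * ∏ p, ∏ l, v p (Wd τ y p l) =
      (fun ψ ψ' : Asg k J' => (R.cs ^ (supp ψ).card * ∏ i, v (τ i) (lbo (ψ i))) *
        (R.cs ^ (supp ψ').card * ∏ i, v (τ i) (lbo (ψ' i)))) y.1.1 y.1.2 *
      (fun (q : Fin Y) (φ φ' : Asg Y J1) => v q .mj *
        (((-1) ^ (supp φ).card * ∏ p, v p (lko (φ p))) *
          ((-1) ^ (supp φ').card * ∏ p, v p (lko (φ' p))))) y.2.1 y.2.2.1 y.2.2.2 := by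
    intro y hy
    obtain ⟨-, h3, ⟨-, h4⟩, -, h5⟩ := (mem_XF R B τ y).1 hy
    have h6 := factor hτ y.1.1 y.1.2 h3 h4 h5 (fun p W => ∏ l, v p (W l))
      (fun p => Finset.prod_eq_one fun l _ => hv p)
    have h7 : ∏ i, ∏ l, v (τ i) ((![lbo (y.1.1 i), lbo (y.1.2 i), .one, .one] :
        Fin 4 → Lb J' J1) l) =
        (∏ i, v (τ i) (lbo (y.1.1 i))) * ∏ i, v (τ i) (lbo (y.1.2 i)) := by
      rw [← Finset.prod_mul_distrib]
      refine Finset.prod_congr rfl fun i _ => ?_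
      rw [Fin.prod_univ_four]
      simp only [Matrix.cons_val_zero, Matrix.cons_val_one, Matrix.cons_val]
      rw [hv, mul_one, mul_one]
    have h8 : ∏ p, ∏ l, v p (KW y.2.1 y.2.2.1 y.2.2.2 p l) =
        (∏ p, v p (lko (y.2.2.1 p))) * (∏ p, v p (lko (y.2.2.2 p))) * v y.2.1 .mj := by
      have h9 : ∏ p, v p (if p = y.2.1 then .mj else .one) = v y.2.1 .mj := by
        rw [Finset.prod_eq_single y.2.1]
        · rw [if_pos rfl]
        · intro i _ hi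
          rw [if_neg hi, hv]
        · intro h; exact absurd (mem_univ _) h
      rw [← h9, ← Finset.prod_mul_distrib, ← Finset.prod_mul_distrib]
      refine Finset.prod_congr rfl fun i _ => ?_
      rw [Fin.prod_univ_four]
      simp only [KW, Matrix.cons_val_zero, Matrix.cons_val_one, Matrix.cons_val]
      rw [hv, mul_one]
    have h10 : ∏ p, ∏ l, v p (Wd τ y p l) = ((∏ i, v (τ i) (lbo (y.1.1 i))) *
        ∏ i, v (τ i) (lbo (y.1.2 i))) * ((∏ p, v p (lko (y.2.2.1 p))) *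
          (∏ p, v p (lko (y.2.2.2 p))) * v y.2.1 .mj) := by
      rw [← h7, ← h8]
      exact h6
    rw [h10]
    unfold sgn
    ring
  rw [sum_XF R B τ _ (fun ψ ψ' : Asg k J' => (R.cs ^ (supp ψ).card * ∏ i, v (τ i) (lbo (ψ i))) *
        (R.cs ^ (supp ψ').card * ∏ i, v (τ i) (lbo (ψ' i))))
      (fun (q : Fin Y) (φ φ' : Asg Y J1) => v q .mj *
        (((-1) ^ (supp φ).card * ∏ p, v p (lko (φ p))) *
          ((-1) ^ (supp φ').card * ∏ p, v p (lko (φ' p))))) h2, h1]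
  have h3 : ∀ (A : Finset (Asg k J')) (f : Asg k J' → ℝ),
      ∑ a ∈ A, ∑ a' ∈ A, f a * f a' = (∑ a ∈ A, f a) ^ 2 := by
    intro A f
    rw [sq, Finset.sum_mul_sum]
  have h4 : ∀ (A : Finset (Asg Y J1)) (f : Asg Y J1 → ℝ) (c : ℝ),
      ∑ a ∈ A, ∑ a' ∈ A, c * (f a * f a') = c * (∑ a ∈ A, f a) ^ 2 := by
    intro A f c
    rw [sq, Finset.sum_mul_sum, Finset.mul_sum]
    refine Finset.sum_congr rfl fun a _ => ?_
    rw [Finset.mul_sum]
  rw [h3, Finset.sum_congr rfl fun q _ => h4 _ _ (v q .mj), ← Finset.sum_mul]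
  ring

/-! ### The words of the indices -/

private lemma UW2_Wd {Y k J' J1 : ℕ} (R : F2 Y k J' J1) {x : Ix Y k J' J1}
    (hx : x ∈ XX R univ) : UW2 (Wd x.1 x.2) = UU x := by
  obtain ⟨h1, h2⟩ := mem_sigma.1 hx
  obtain ⟨hτ, -⟩ := (mem_TT _ _ _).1 h1
  ext p
  simp only [UW2, mem_filter, mem_univ, true_and, UU, mem_union, mem_insert, mem_supp]
  by_cases hp : p ∈ rgt x.1
  · obtain ⟨i, rfl⟩ := (mem_rgt _ _).1 hp
    simp only [hp, true_or, iff_true]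
    intro h
    unfold Wd at h
    rw [WW_tau hτ] at h
    have h0 : lbo (x.2.1.1 i) = (.one : Lb J' J1) := congrFun h 0
    cases h3 : x.2.1.1 i with
    | none => rw [h3] at h0; simp [lbo] at h0
    | some j => rw [h3] at h0; simp [lbo] at h0
  · simp only [hp, false_or]
    unfold Wd
    rw [WW_not _ _ _ _ _ hp, ne_eq, KW_blank_iff]
    tauto

private lemma supp_le {Y J : ℕ} {K : Fin J → ℕ} {χ : Asg Y J} (hχ : χ ∈ adm Y K) :
    (supp χ).card ≤ ∑ j, K j := by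
  rw [LG.SumTwoAux.card_supp]
  exact Finset.sum_le_sum fun j _ => (mem_adm _ _).1 hχ j

private lemma lev_ks {Y k J' J1 : ℕ} (R : F2 Y k J' J1) (hR : R.Ok) {χ : Asg Y J1}
    (hχ : χ ∈ adm Y R.kk) : ∑ p, R.lv (lko (χ p)) ≤ ∑ j, (R.kk j : ℝ) * R.lv (.ks j) := by
  have h1 : ∑ p, R.lv (lko (χ p)) = ∑ j, ((cls χ j).card : ℝ) * R.lv (.ks j) := by
    have h := LG.SumTwoAux.sum_ofO (fun l : Lt J1 => R.lv (lift1 l)) hR.lv_one χ
    simp only [lift1_ofO] at h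
    exact h
  rw [h1]
  refine Finset.sum_le_sum fun j _ => mul_le_mul_of_nonneg_right ?_ (hR.lv_nonneg _)
  exact_mod_cast (mem_adm _ _).1 hχ j

private lemma lev_bs {Y k J' J1 : ℕ} (R : F2 Y k J' J1) (hR : R.Ok) {χ : Asg k J'}
    (hχ : χ ∈ adm k R.kb) :
    ∑ i, R.lv (lbo (χ i)) ≤ k * R.lv .b0 + ∑ j, (R.kb j : ℝ) * R.lv (.bs j) := by
  have h1 : ∀ i, R.lv (lbo (χ i)) ≤ R.lv .b0 + ∑ j, if χ i = some j then R.lv (.bs j) else 0 := by
    intro i
    cases h : χ i with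
    | none =>
      simp only [lbo]
      have : ∑ j : Fin J', (if (none : Option (Fin J')) = some j then R.lv (.bs j) else 0) = 0 :=
        Finset.sum_eq_zero fun j _ => if_neg (by simp)
      rw [this, add_zero]
    | some j₀ =>
      simp only [lbo, Option.some.injEq]
      rw [Finset.sum_ite_eq, if_pos (mem_univ _)]
      linarith [hR.lv_nonneg .b0]
  refine le_trans (Finset.sum_le_sum fun i _ => h1 i) ?_
  rw [Finset.sum_add_distrib, Finset.sum_const, card_univ, Fintype.card_fin, nsmul_eq_mul]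
  refine add_le_add_right ?_ _
  rw [Finset.sum_comm]
  refine Finset.sum_le_sum fun j _ => ?_
  rw [← Finset.sum_filter, Finset.sum_const, nsmul_eq_mul]
  refine mul_le_mul_of_nonneg_right ?_ (hR.lv_nonneg _)
  exact_mod_cast (mem_adm _ _).1 hχ j

private lemma lev_Wd {Y k J' J1 : ℕ} (R : F2 Y k J' J1) (hR : R.Ok) {x : Ix Y k J' J1}
    (hx : x ∈ XX R univ) : ∑ p, ∑ l, R.lv (Wd x.1 x.2 p l) ≤ 1 / 50 := by
  obtain ⟨h1, h2⟩ := mem_sigma.1 hx
  obtain ⟨hτ, -⟩ := (mem_TT _ _ _).1 h1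
  obtain ⟨⟨h3, h4⟩, h5, ⟨h6, -⟩, h7, -⟩ := (mem_XF R univ x.1 x.2).1 h2
  rw [sum_split hτ]
  have e1 : ∑ i, ∑ l, R.lv (Wd x.1 x.2 (x.1 i) l) =
      ∑ i, R.lv (lbo (x.2.1.1 i)) + ∑ i, R.lv (lbo (x.2.1.2 i)) := by
    rw [← Finset.sum_add_distrib]
    refine Finset.sum_congr rfl fun i _ => ?_
    unfold Wd
    rw [WW_tau hτ, Fin.sum_univ_four]
    simp only [Matrix.cons_val_zero, Matrix.cons_val_one, Matrix.cons_val]
    rw [hR.lv_one, add_zero, add_zero]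
  have e2 : ∑ p ∈ univ \ rgt x.1, ∑ l, R.lv (Wd x.1 x.2 p l) ≤
      ∑ p, R.lv (lko (x.2.2.2.1 p)) + ∑ p, R.lv (lko (x.2.2.2.2 p)) + R.lv .mj := by
    have e3 : ∑ p, R.lv (if p = x.2.2.1 then .mj else .one) = R.lv .mj := by
      rw [Finset.sum_eq_single x.2.2.1]
      · rw [if_pos rfl]
      · intro i _ hi
        rw [if_neg hi, hR.lv_one]
      · intro h; exact absurd (mem_univ _) h
    rw [← e3, ← Finset.sum_add_distrib, ← Finset.sum_add_distrib]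
    refine le_trans (Finset.sum_le_sum (g := fun p => R.lv (lko (x.2.2.2.1 p)) +
      R.lv (lko (x.2.2.2.2 p)) + R.lv (if p = x.2.2.1 then .mj else .one)) fun p hp => ?_)
      (Finset.sum_le_sum_of_subset_of_nonneg (subset_univ _) fun p _ _ => ?_)
    · apply le_of_eq
      unfold Wd
      rw [WW_not _ _ _ _ _ (mem_sdiff.1 hp).2, Fin.sum_univ_four]
      simp only [KW, Matrix.cons_val_zero, Matrix.cons_val_one, Matrix.cons_val]
      rw [hR.lv_one, add_zero]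
    · exact add_nonneg (add_nonneg (hR.lv_nonneg _) (hR.lv_nonneg _)) (hR.lv_nonneg _)
  have e4 := lev_bs R hR h3
  have e5 := lev_bs R hR h4
  have e6 := lev_ks R hR h6
  have e7 := lev_ks R hR h7
  have e8 := hR.lev4
  have e9 : 0 ≤ k * R.lv .b0 + ∑ j, (R.kb j : ℝ) * R.lv (.bs j) +
      ∑ j, (R.kk j : ℝ) * R.lv (.ks j) := by
    refine add_nonneg (add_nonneg (mul_nonneg (Nat.cast_nonneg _) (hR.lv_nonneg _))
      (Finset.sum_nonneg fun j _ => mul_nonneg (Nat.cast_nonneg _) (hR.lv_nonneg _)))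
      (Finset.sum_nonneg fun j _ => mul_nonneg (Nat.cast_nonneg _) (hR.lv_nonneg _))
  rw [e1]
  linarith

private lemma card_UU {Y k J' J1 : ℕ} (R : F2 Y k J' J1) (hR : R.Ok) {x : Ix Y k J' J1}
    (hx : x ∈ XX R univ) : (UU x).card ≤ R.u0 := by
  obtain ⟨h1, h2⟩ := mem_sigma.1 hx
  obtain ⟨hτ, -⟩ := (mem_TT _ _ _).1 h1
  obtain ⟨-, -, ⟨h6, -⟩, h7, -⟩ := (mem_XF R univ x.1 x.2).1 h2
  unfold UU
  have e1 := card_union_le (rgt x.1) (insert x.2.2.1 (supp x.2.2.2.1 ∪ supp x.2.2.2.2))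
  have e2 := card_insert_le x.2.2.1 (supp x.2.2.2.1 ∪ supp x.2.2.2.2)
  have e3 := card_union_le (supp x.2.2.2.1) (supp x.2.2.2.2)
  have e4 := supp_le h6
  have e5 := supp_le h7
  have e6 := rgt_card hτ
  have e7 := hR.u0_ge
  omega

private lemma sgn_abs {Y k J' J1 : ℕ} {cs : ℝ} (h0 : 0 ≤ cs) (h1 : cs ≤ 1)
    (y : (Asg k J' × Asg k J') × (Fin Y × (Asg Y J1 × Asg Y J1))) : |sgn cs y| ≤ 1 := by
  unfold sgn
  rw [abs_mul, abs_mul, abs_mul, abs_of_nonneg (pow_nonneg h0 _), abs_of_nonneg (pow_nonneg h0 _),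
    abs_neg_one_pow, abs_neg_one_pow, mul_one, mul_one]
  exact mul_le_one₀ (pow_le_one₀ h0 h1) (pow_nonneg h0 _) (pow_le_one₀ h0 h1)

private lemma term_le2 {Y k J' J1 : ℕ} (R : F2 Y k J' J1) (hR : R.Ok) {x : Ix Y k J' J1}
    (hx : x ∈ XX R univ) :
    sgn R.cs x.2 * ∑ n ∈ R.F.filter (fun n => UU x ⊆ R.B n),
        R.μ n * ∏ p, ∏ l, R.v n p (Wd x.1 x.2 p l) ≤
      R.MI * (dn R.Ω R.B (UU x) * (sgn R.cs x.2 * ∏ p, R.E (Wd x.1 x.2 p))) +
      (R.ε1 + R.ε2 * R.MI * (dn R.Ω R.B (UU x) * R.Plow ^ (UU x).card)) := by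
  have h3 := hR.est (Wd x.1 x.2) (by rw [UW2_Wd R hx]; exact card_UU R hR hx)
    (lev_Wd R hR hx)
  rw [UW2_Wd R hx] at h3
  set S := ∑ n ∈ R.F.filter (fun n => UU x ⊆ R.B n),
    R.μ n * ∏ p, ∏ l, R.v n p (Wd x.1 x.2 p l) with hS
  set T := R.MI * dn R.Ω R.B (UU x) * ∏ p, R.E (Wd x.1 x.2 p) with hT
  have h4 : sgn R.cs x.2 * (S - T) ≤ |S - T| := by
    refine le_trans (le_abs_self _) ?_
    rw [abs_mul]
    have := mul_le_mul_of_nonneg_right (sgn_abs hR.cs_nonneg hR.cs_le x.2) (abs_nonneg (S - T))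
    rwa [one_mul] at this
  have h5 := h4.trans h3
  have h6 : sgn R.cs x.2 * S = sgn R.cs x.2 * (S - T) + R.MI * (dn R.Ω R.B (UU x) *
      (sgn R.cs x.2 * ∏ p, R.E (Wd x.1 x.2 p))) := by
    rw [hT]
    ring
  rw [h6]
  linarith

/-! ### The main term -/

private lemma bE {Y k J' J1 : ℕ} (R : F2 Y k J' J1) (hR : R.Ok) (o o' : Option (Fin J')) :
    R.E ![lbo o, lbo o', .one, .one] = if o = o' then evb R.f0 R.f o else 0 := by
  cases o with
  | none =>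
    cases o' with
    | none =>
      rw [if_pos rfl]
      exact hR.b5
    | some j =>
      rw [if_neg (by simp)]
      exact hR.b1 j
  | some i =>
    cases o' with
    | none =>
      rw [if_neg (by simp)]
      exact hR.b2 i
    | some j =>
      by_cases h : i = j
      · subst h
        rw [if_pos rfl]
        exact hR.b4 i
      · rw [if_neg (by simpa using h)]
        exact hR.b3 i j h

private lemma sumB {Y k J' J1 : ℕ} (R : F2 Y k J' J1) (hR : R.Ok) :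
    ∑ ψ ∈ adm k R.kb, ∑ ψ' ∈ adm k R.kb, (R.cs ^ (supp ψ).card * R.cs ^ (supp ψ').card) *
      ∏ i, R.E ![lbo (ψ i), lbo (ψ' i), .one, .one] = R.Nb := by
  unfold F2.Nb
  refine Finset.sum_congr rfl fun ψ hψ => ?_
  have h1 : ∀ ψ' ∈ adm k R.kb, (R.cs ^ (supp ψ).card * R.cs ^ (supp ψ').card) *
      ∏ i, R.E ![lbo (ψ i), lbo (ψ' i), .one, .one] =
      if ψ = ψ' then (R.cs ^ (supp ψ).card * R.cs ^ (supp ψ).card) *
        ∏ i, evb R.f0 R.f (ψ i) else 0 := by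
    intro ψ' _
    by_cases h : ψ = ψ'
    · subst h
      rw [if_pos rfl]
      congr 1
      refine Finset.prod_congr rfl fun i _ => ?_
      rw [bE R hR, if_pos rfl]
    · rw [if_neg h]
      obtain ⟨i, hi⟩ := Function.ne_iff.1 h
      rw [Finset.prod_eq_zero (mem_univ i), mul_zero]
      rw [bE R hR, if_neg hi]
  rw [Finset.sum_congr rfl h1, Finset.sum_ite_eq, if_pos hψ]
  have h2 : R.cs ^ (supp ψ).card * R.cs ^ (supp ψ).card =
      ∏ i, if ψ i ≠ none then R.cs * R.cs else 1 := by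
    rw [← mul_pow]
    unfold supp
    rw [← Finset.prod_const, Finset.prod_filter]
  rw [h2, ← Finset.prod_mul_distrib]
  refine Finset.prod_congr rfl fun i _ => ?_
  cases h : ψ i with
  | none => simp [evb]
  | some j =>
    rw [if_pos (by simp)]
    simp only [evb]
    ring

private lemma evb_nonneg {J' : ℕ} {f0 : ℝ} {f : Fin J' → ℝ} (h0 : 0 ≤ f0) (hf : ∀ j, 0 ≤ f j)
    (o : Option (Fin J')) : 0 ≤ evb f0 f o := by
  cases o with
  | none => exact h0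
  | some j => exact hf j

private lemma Nb_nonneg {Y k J' J1 : ℕ} (R : F2 Y k J' J1) (hR : R.Ok) : 0 ≤ R.Nb :=
  Finset.sum_nonneg fun _ _ => Finset.prod_nonneg fun _ _ => evb_nonneg hR.f0_nonneg
    (fun j => mul_nonneg (sq_nonneg _) (hR.f_nonneg j)) _

private lemma SS_nonneg {Y k J' J1 : ℕ} (R : F2 Y k J' J1) (hR : R.Ok) (B : Finset (Fin Y)) :
    0 ≤ SS R.kk R.e B :=
  Finset.sum_nonneg fun φ _ => Finset.prod_nonneg fun i _ =>
    LG.SumTwoAux.ev_nonneg (R1 R) (R1_ok R hR) (φ i)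

private lemma main_tau {Y k J' J1 : ℕ} (R : F2 Y k J' J1) (hR : R.Ok) (B : Finset (Fin Y))
    {τ : Fin k → Fin Y} (hτ : Function.Injective τ) :
    ∑ y ∈ XF R B τ, sgn R.cs y * ∏ p, R.E (Wd τ y p) ≤
      R.Nb * (B.card * R.Pall * ((∑ j, B.card * R.e j / R.kk j) / J1 + R.t2) *
        SS R.kk R.e (B \ rgt τ)) := by
  have h2 : ∀ y ∈ XF R B τ, sgn R.cs y * ∏ p, R.E (Wd τ y p) =
      (fun ψ ψ' : Asg k J' => (R.cs ^ (supp ψ).card * R.cs ^ (supp ψ').card) *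
        ∏ i, R.E ![lbo (ψ i), lbo (ψ' i), .one, .one]) y.1.1 y.1.2 *
      (fun (q : Fin Y) (φ φ' : Asg Y J1) => (-1) ^ (supp φ).card * (-1) ^ (supp φ').card *
        ∏ p, (R1 R).E (wW q φ φ' p)) y.2.1 y.2.2.1 y.2.2.2 := by
    intro y hy
    obtain ⟨-, h3, ⟨-, h4⟩, -, h5⟩ := (mem_XF R B τ y).1 hy
    have h6 := factor hτ y.1.1 y.1.2 h3 h4 h5 (fun p W => R.E W) (fun p => hR.E_blank)
    have h7 : ∀ p, (R1 R).E (wW y.2.1 y.2.2.1 y.2.2.2 p) =
        R.E (KW y.2.1 y.2.2.1 y.2.2.2 p) := by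
      intro p
      change R.E (fun l => lift1 ((![ofO (y.2.2.1 p), ofO (y.2.2.2 p),
        if p = y.2.1 then .maj else .one, .one] : Fin 4 → Lt J1) l)) = _
      rw [lift_word, lift1_ofO, lift1_ofO]
      unfold KW
      by_cases hp : p = y.2.1
      · rw [if_pos hp, if_pos hp]
        rfl
      · rw [if_neg hp, if_neg hp]
        rfl
    simp only [h7]
    have h8 : ∏ p, R.E (Wd τ y p) = (∏ i, R.E ![lbo (y.1.1 i), lbo (y.1.2 i), .one, .one]) *
        ∏ p, R.E (KW y.2.1 y.2.2.1 y.2.2.2 p) := h6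
    rw [h8]
    unfold sgn
    ring
  rw [sum_XF R B τ _ (fun ψ ψ' : Asg k J' => (R.cs ^ (supp ψ).card * R.cs ^ (supp ψ').card) *
        ∏ i, R.E ![lbo (ψ i), lbo (ψ' i), .one, .one])
      (fun (q : Fin Y) (φ φ' : Asg Y J1) => (-1) ^ (supp φ).card * (-1) ^ (supp φ').card *
        ∏ p, (R1 R).E (wW q φ φ' p)) h2, sumB R hR]
  refine mul_le_mul_of_nonneg_left ?_ (Nb_nonneg R hR)
  refine le_trans (LG.SumTwoAux.main_a (R1 R) (R1_ok R hR) (B \ rgt τ)) ?_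
  change ((B \ rgt τ).card : ℝ) * R.Pall * ((∑ j, (B \ rgt τ).card * R.e j / R.kk j) / J1 +
    R.t2) * SS R.kk R.e (B \ rgt τ) ≤ _
  have hc : ((B \ rgt τ).card : ℝ) ≤ B.card := by
    exact_mod_cast card_le_card sdiff_subset
  have hJ : (0 : ℝ) < J1 := by exact_mod_cast hR.J1_pos
  refine mul_le_mul_of_nonneg_right ?_ (SS_nonneg R hR _)
  have h9 : 0 ≤ (∑ j, ((B \ rgt τ).card : ℝ) * R.e j / R.kk j) / J1 + R.t2 :=
    add_nonneg (div_nonneg (Finset.sum_nonneg fun j _ => div_nonneg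
      (mul_nonneg (Nat.cast_nonneg _) (hR.e_nonneg j)) (Nat.cast_nonneg _)) hJ.le) hR.t2_nonneg
  refine mul_le_mul (mul_le_mul_of_nonneg_right hc hR.Pall_nonneg) ?_ h9
    (mul_nonneg (Nat.cast_nonneg _) hR.Pall_nonneg)
  refine add_le_add_left (div_le_div_of_nonneg_right ?_ hJ.le) _
  refine Finset.sum_le_sum fun j _ => div_le_div_of_nonneg_right ?_ (Nat.cast_nonneg _)
  exact mul_le_mul_of_nonneg_right hc (hR.e_nonneg j)

private lemma main_a2 {Y k J' J1 : ℕ} (R : F2 Y k J' J1) (hR : R.Ok) (B : Finset (Fin Y)) :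
    ∑ x ∈ XX R B, sgn R.cs x.2 * ∏ p, R.E (Wd x.1 x.2 p) ≤
      ∑ τ ∈ TT R.w B, R.Nb * (B.card * R.Pall * ((∑ j, B.card * R.e j / R.kk j) / J1 + R.t2) *
        SS R.kk R.e (B \ rgt τ)) := by
  unfold XX
  rw [Finset.sum_sigma]
  exact Finset.sum_le_sum fun τ hτ => main_tau R hR B ((mem_TT _ _ _).1 hτ).1

/-! ### The error term -/

private lemma err_tau {Y k J' J1 : ℕ} (R : F2 Y k J' J1) (hR : R.Ok) (B : Finset (Fin Y))
    {τ : Fin k → Fin Y} (hτ : Function.Injective τ) :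
    ∑ y ∈ XF R B τ, R.Plow ^ (rgt τ ∪ insert y.2.1 (supp y.2.2.1 ∪ supp y.2.2.2)).card ≤
      R.Plow ^ k * (B.card * ((1 + ((J1 : ℝ) + 1) ^ 2 * R.Plow) ^ B.card *
        ((adm k R.kb).card : ℝ) ^ 2)) := by
  have h2 : ∀ y ∈ XF R B τ,
      R.Plow ^ (rgt τ ∪ insert y.2.1 (supp y.2.2.1 ∪ supp y.2.2.2)).card =
      (fun _ _ : Asg k J' => R.Plow ^ k) y.1.1 y.1.2 *
      (fun (q : Fin Y) (φ φ' : Asg Y J1) =>
        R.Plow ^ (insert q (supp φ ∪ supp φ')).card) y.2.1 y.2.2.1 y.2.2.2 := by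
    intro y hy
    obtain ⟨-, h3, ⟨-, h4⟩, -, h5⟩ := (mem_XF R B τ y).1 hy
    have h6 : Disjoint (rgt τ) (insert y.2.1 (supp y.2.2.1 ∪ supp y.2.2.2)) := by
      rw [Finset.disjoint_left]
      intro p hp hp2
      rw [mem_insert, mem_union] at hp2
      rcases hp2 with hp2 | hp2 | hp2
      · rw [hp2] at hp
        exact (mem_sdiff.1 h3).2 hp
      · exact (mem_sdiff.1 (h4 hp2)).2 hp
      · exact (mem_sdiff.1 (h5 hp2)).2 hp
    rw [card_union_of_disjoint h6, rgt_card hτ, pow_add]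
  rw [sum_XF R B τ _ (fun _ _ : Asg k J' => R.Plow ^ k)
    (fun (q : Fin Y) (φ φ' : Asg Y J1) => R.Plow ^ (insert q (supp φ ∪ supp φ')).card) h2]
  have h3 : ∑ _a ∈ adm k R.kb, ∑ _a' ∈ adm k R.kb, R.Plow ^ k =
      ((adm k R.kb).card : ℝ) ^ 2 * R.Plow ^ k := by
    simp only [Finset.sum_const, nsmul_eq_mul]
    ring
  rw [h3]
  have h4 := LG.SumTwoAux.err_a (R1 R) (R1_ok R hR) (B \ rgt τ)
  change ∑ m ∈ B \ rgt τ, ∑ φ ∈ aB R.kk (B \ rgt τ), ∑ ψ ∈ aB R.kk (B \ rgt τ),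
    R.Plow ^ (insert m (supp φ ∪ supp ψ)).card ≤
    ((B \ rgt τ).card : ℝ) * (1 + ((J1 : ℝ) + 1) ^ 2 * R.Plow) ^ (B \ rgt τ).card at h4
  have hc : (B \ rgt τ).card ≤ B.card := card_le_card sdiff_subset
  have hX : (1 : ℝ) ≤ 1 + ((J1 : ℝ) + 1) ^ 2 * R.Plow := by
    have := mul_nonneg (sq_nonneg ((J1 : ℝ) + 1)) hR.Plow_nonneg
    linarith
  have h5 : ((B \ rgt τ).card : ℝ) * (1 + ((J1 : ℝ) + 1) ^ 2 * R.Plow) ^ (B \ rgt τ).card ≤
      B.card * (1 + ((J1 : ℝ) + 1) ^ 2 * R.Plow) ^ B.card :=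
    mul_le_mul (by exact_mod_cast hc) (pow_le_pow_right₀ hX hc)
      (pow_nonneg (by linarith) _) (Nat.cast_nonneg _)
  have h6 : 0 ≤ ((adm k R.kb).card : ℝ) ^ 2 * R.Plow ^ k :=
    mul_nonneg (sq_nonneg _) (pow_nonneg hR.Plow_nonneg _)
  refine le_trans (mul_le_mul_of_nonneg_left (h4.trans h5) h6) ?_
  apply le_of_eq
  ring

private lemma err_a2 {Y k J' J1 : ℕ} (R : F2 Y k J' J1) (hR : R.Ok) (a : ℕ) :
    ∑ x ∈ XX R (R.B a), R.Plow ^ (UU x).card ≤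
      (R.B a).card * (((R.B a).card * R.Plow) ^ k * R.Xa a) := by
  have hX : (0 : ℝ) ≤ 1 + ((J1 : ℝ) + 1) ^ 2 * R.Plow := by
    have := mul_nonneg (sq_nonneg ((J1 : ℝ) + 1)) hR.Plow_nonneg
    linarith
  unfold XX
  rw [Finset.sum_sigma]
  refine le_trans (Finset.sum_le_sum fun τ hτ => err_tau R hR (R.B a) ((mem_TT _ _ _).1 hτ).1) ?_
  rw [Finset.sum_const, nsmul_eq_mul]
  have h1 : ((TT R.w (R.B a)).card : ℝ) ≤ ((R.B a).card : ℝ) ^ k := by
    exact_mod_cast TT_card R.w (R.B a)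
  refine le_trans (mul_le_mul_of_nonneg_right h1 ?_) ?_
  · exact mul_nonneg (pow_nonneg hR.Plow_nonneg _) (mul_nonneg (Nat.cast_nonneg _)
      (mul_nonneg (pow_nonneg hX _) (sq_nonneg _)))
  · apply le_of_eq
    unfold F2.Xa
    rw [mul_pow]
    ring

private lemma card_XX {Y k J' J1 : ℕ} (R : F2 Y k J' J1) :
    ((XX R univ).card : ℝ) ≤ (Y : ℝ) ^ (k + 1) * R.NN := by
  have h1 : (XX R univ).card ≤
      (TT R.w univ).card * (((adm k R.kb).card * (adm k R.kb).card) *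
        (Y * ((adm Y R.kk).card * (adm Y R.kk).card))) := by
    unfold XX
    rw [card_sigma, ← smul_eq_mul, ← Finset.sum_const]
    refine Finset.sum_le_sum fun τ _ => ?_
    unfold XF
    rw [card_product, card_product, card_product, card_product]
    have h2 : (aB R.kk (univ \ rgt τ)).card ≤ (adm Y R.kk).card := card_le_card (filter_subset _ _)
    have h3 : ((univ : Finset (Fin Y)) \ rgt τ).card ≤ Y := by
      refine le_trans (card_le_card (subset_univ _)) ?_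
      rw [card_univ, Fintype.card_fin]
    exact Nat.mul_le_mul le_rfl (Nat.mul_le_mul h3 (Nat.mul_le_mul h2 h2))
  have h2 : (TT R.w (univ : Finset (Fin Y))).card ≤ Y ^ k := by
    have := TT_card R.w (univ : Finset (Fin Y))
    rwa [card_univ, Fintype.card_fin] at this
  have h3 : ((XX R univ).card : ℝ) ≤ ((Y ^ k * (((adm k R.kb).card * (adm k R.kb).card) *
        (Y * ((adm Y R.kk).card * (adm Y R.kk).card))) : ℕ) : ℝ) := by
    exact_mod_cast h1.trans (Nat.mul_le_mul h2 le_rfl)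
  refine h3.trans (le_of_eq ?_)
  unfold F2.NN
  push_cast
  ring

theorem sumTwo2 : SumTwo2 := by
  intro Y k J' J1 R hR
  have h1 : ∑ n ∈ R.F, R.μ n * ∑ τ ∈ TT R.w (R.B n), R.g τ n ^ 2 *
        ∑ p ∈ R.B n \ rgt τ, R.v n p .mj =
      ∑ x ∈ XX R univ, sgn R.cs x.2 * ∑ n ∈ R.F.filter (fun n => UU x ⊆ R.B n),
        R.μ n * ∏ p, ∏ l, R.v n p (Wd x.1 x.2 p l) := by
    have h2 : ∀ n ∈ R.F, R.μ n * ∑ τ ∈ TT R.w (R.B n), R.g τ n ^ 2 *
        ∑ p ∈ R.B n \ rgt τ, R.v n p .mj =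
        ∑ x ∈ XX R univ, sgn R.cs x.2 * if UU x ⊆ R.B n then
          R.μ n * ∏ p, ∏ l, R.v n p (Wd x.1 x.2 p l) else 0 := by
      intro n _
      have h3 : ∑ τ ∈ TT R.w (R.B n), R.g τ n ^ 2 * ∑ p ∈ R.B n \ rgt τ, R.v n p .mj =
          ∑ x ∈ XX R (R.B n), sgn R.cs x.2 * ∏ p, ∏ l, R.v n p (Wd x.1 x.2 p l) := by
        unfold XX
        rw [Finset.sum_sigma]
        exact Finset.sum_congr rfl fun τ hτ =>
          expand2 R (R.B n) (R.v n) (hR.v_one n) ((mem_TT _ _ _).1 hτ).1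
      rw [h3, sum_XX, Finset.mul_sum]
      refine Finset.sum_congr rfl fun x _ => ?_
      split_ifs
      · ring
      · ring
    rw [Finset.sum_congr rfl h2, Finset.sum_comm]
    refine Finset.sum_congr rfl fun x _ => ?_
    rw [← Finset.mul_sum, ← Finset.sum_filter]
  rw [h1]
  refine le_trans (Finset.sum_le_sum fun x hx => term_le2 R hR hx) ?_
  rw [Finset.sum_add_distrib, Finset.sum_add_distrib, ← Finset.mul_sum, ← Finset.mul_sum,
    dnsum2 R (fun x => sgn R.cs x.2 * ∏ p, R.E (Wd x.1 x.2 p)),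
    dnsum2 R (fun x => R.Plow ^ (UU x).card)]
  refine add_le_add ?_ (add_le_add ?_ ?_)
  · exact mul_le_mul_of_nonneg_left (avg_le _ _ _ fun a _ => main_a2 R hR (R.B a)) hR.MI_nonneg
  · rw [Finset.sum_const, nsmul_eq_mul, mul_comm, mul_assoc]
    exact mul_le_mul_of_nonneg_left (card_XX R) hR.e1_nonneg
  · exact mul_le_mul_of_nonneg_left (avg_le _ _ _ fun a _ => err_a2 R hR a)
      (mul_nonneg hR.e2_nonneg hR.MI_nonneg)

end Pool.Agent.Helper1.LG2
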