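import Pool.Agent.Helper1.LG2.SumOne2
import Pool.Agent.Helper1.LG2.SumTwo2
import Pool.Agent.Helper1.LG2.SumThree2
import Pool.Agent.Helper1.LG2.SumFour2

set_option autoImplicit false

/-!
LG2-S5. The conclusion of the second part (`CoreEnd2` in `LG2/Defs.lean`). Compare `LG/CoreEnd.lean`.

Let `G n = ∑_{τ ∈ TT (B n)} g_τ²` and
`X n = ∑_{τ ∈ TT (B n)} g_τ² (#{i : P (τ i) n} - (m - 1) - k ∑_{p ∈ B n \ rgt τ} v n p mj)`. `X ≤ k G` (`m ≥ 1`).
* If `X n > 0`, some `τ` has `#{i : P (τ i) n} ≥ m` and `∑_{p ∈ B n \ rgt τ} v n p mj < 1`, so no `p ∉ rgt τ`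
  satisfies `P p n` (`Pr.mem`, `v_mj`): `Good P m n`.
* `∑_n μ g_τ² [P (τ i) n] ≥ (2L)⁻¹ ∑_n νp (τ i) n g_τ²` (`Pr.nup_le`).
* Let `S̄ = avg ∑_{τ ∈ TT (B a)} SS kk e (B a \ rgt τ)` (`≥ avg card TT`, as `SS ≥ 1`). By `sumThree2`,
  `sumOne2`, `sumTwo2` (`|B a| ≤ b`, the bracket is at most `1/(8k)`):
  `∑ μ X ≥ S̄ (∑_i MP (card Ω/N0)/(2L) Pb i - (m-1) MI Nb - MI Nb/8) - errors ≥ (7/8) MI Nb S̄ - errors`,
  errors `≤ (k/(2L)) Er3 + (m-1) Er1 + k Er2 ≤ c6 MI/8` by the four assumptions (with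
  `(1 + (J1+1)² Plow)^|B| ≤ exp((J1+1)² Plow b)`, `m ≤ k`). So `∑ μ X ≥ c6 MI/2`.
* `∑_{Good} μ G ≥ c6 MI/(4k)`, and by Cauchy-Schwarz `(∑_{Good} μ G)² ≤ ∑_{Good} μ · ∑ μ G²`,
  `∑ μ G² ≤ C4 MI` by `sumFour2`.
-/

open Finset

namespace Pool.Agent.Helper1.LG2

open Pool.Agent.Helper1.MT (supp cls pr)
open Pool.Agent.Helper1.LG (adm avg dn SS ev Asg)

private lemma c2_avg_le {Ω : Finset ℕ} {f g : ℕ → ℝ} (h : ∀ a ∈ Ω, f a ≤ g a) :
    avg Ω f ≤ avg Ω g := by
  unfold avg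
  exact div_le_div_of_nonneg_right (sum_le_sum h) (Nat.cast_nonneg _)

private lemma c2_avg_const {Ω : Finset ℕ} (hΩ : Ω.Nonempty) (c : ℝ) :
    avg Ω (fun _ => c) = c := by
  unfold avg
  have h : (Ω.card : ℝ) ≠ 0 := by
    exact_mod_cast (Finset.card_pos.2 hΩ).ne'
  rw [sum_const, nsmul_eq_mul, mul_div_cancel_left₀ _ h]

private lemma c2_avg_mul {Ω : Finset ℕ} (c : ℝ) (f : ℕ → ℝ) :
    avg Ω (fun a => c * f a) = c * avg Ω f := by
  unfold avg
  rw [← mul_sum, mul_div_assoc]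

private lemma c2_avg_nonneg {Ω : Finset ℕ} {f : ℕ → ℝ} (h : ∀ a ∈ Ω, 0 ≤ f a) :
    0 ≤ avg Ω f := by
  unfold avg
  exact div_nonneg (sum_nonneg h) (Nat.cast_nonneg _)

private lemma c2_none_mem {Y J : ℕ} (K : Fin J → ℕ) :
    (fun _ => none : Asg Y J) ∈ adm Y K := by
  unfold adm
  rw [mem_filter]
  refine ⟨mem_univ _, fun j => ?_⟩
  simp [cls]

private lemma c2_SS_ge {Y J : ℕ} (K : Fin J → ℕ) (e : Fin J → ℝ) (he : ∀ j, 0 ≤ e j)
    (B : Finset (Fin Y)) : 1 ≤ SS K e B := by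
  unfold SS
  have hmem : (fun _ => none : Asg Y J) ∈ (adm Y K).filter (fun φ => supp φ ⊆ B) := by
    rw [mem_filter]
    exact ⟨c2_none_mem K, by simp [supp]⟩
  have hnn : ∀ φ ∈ (adm Y K).filter (fun φ => supp φ ⊆ B), 0 ≤ ∏ i, ev e (φ i) := by
    intro φ _
    apply prod_nonneg
    intro i _
    cases φ i with
    | none => simp [ev]
    | some j => simpa [ev] using he j
  calc (1 : ℝ) = ∏ i : Fin Y, ev e ((fun _ => none : Asg Y J) i) := by simp [ev]
    _ ≤ _ := single_le_sum (f := fun φ : Asg Y J => ∏ i, ev e (φ i)) hnn hmem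

private lemma c2_pow_le {N : ℕ} {c b : ℝ} (hc : 0 ≤ c) (h : (N : ℝ) ≤ b) :
    (1 + c) ^ N ≤ Real.exp (c * b) := by
  calc (1 + c) ^ N ≤ (Real.exp c) ^ N := by
        apply pow_le_pow_left₀ (by linarith)
        linarith [Real.add_one_le_exp c]
    _ = Real.exp (N * c) := by rw [← Real.exp_nat_mul]
    _ ≤ Real.exp (c * b) := by
        apply Real.exp_le_exp.2
        rw [mul_comm]
        exact mul_le_mul_of_nonneg_left h hc

private lemma c2_aux {x y l : ℝ} (hx : 0 ≤ x) (hy : 0 ≤ y) (hl : 0 ≤ l) :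
    l * x * (1 / 2) + x + y ≤ (1 + l) * (x + y) := by
  nlinarith [mul_nonneg hl hx, mul_nonneg hl hy]

private lemma c2_aux2 {x : ℝ} (hx : 0 ≤ x) : x ≤ (1 + x) ^ 2 := by
  nlinarith

open Classical in
/-- The count of the primes in the tuple. -/
private noncomputable def c2cnt {Y k : ℕ} (P : Fin Y → ℕ → Prop) (τ : Fin k → Fin Y) (n : ℕ) : ℝ :=
  ∑ i, if P (τ i) n then (1 : ℝ) else 0

private lemma c2_cnt_le {Y k : ℕ} (P : Fin Y → ℕ → Prop) (τ : Fin k → Fin Y) (n : ℕ) :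
    c2cnt P τ n ≤ k := by
  classical
  unfold c2cnt
  calc ∑ i, (if P (τ i) n then (1 : ℝ) else 0) ≤ ∑ _i : Fin k, (1 : ℝ) := by
        apply sum_le_sum
        intro i _
        split_ifs <;> norm_num
    _ = k := by simp

private lemma c2_cnt_eq {Y k : ℕ} (P : Fin Y → ℕ → Prop) (τ : Fin k → Fin Y) (n : ℕ) :
    ∃ s : Finset (Fin k), (∀ i ∈ s, P (τ i) n) ∧ c2cnt P τ n = s.card := by
  classical
  refine ⟨univ.filter (fun i => P (τ i) n), fun i hi => (mem_filter.1 hi).2, ?_⟩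
  unfold c2cnt
  rw [sum_boole]

/-- The pointwise statement: outside the good `n` the bracket is not positive. -/
private lemma c2_point {Y k J' J1 : ℕ} {R : F2 Y k J' J1} (hR : R.Ok) {P : Fin Y → ℕ → Prop}
    {L : ℝ} (hP : R.Pr P L) {m : ℕ} (hm : 1 ≤ m) {n : ℕ} (hn : n ∈ R.F)
    (hG : ¬ R.Good P m n) {τ : Fin k → Fin Y} (hτ : τ ∈ TT R.w (R.B n)) :
    c2cnt P τ n - ((m : ℝ) - 1) - k * ∑ p ∈ R.B n \ rgt τ, R.v n p .mj ≤ 0 := by
  classical
  have hm1 : (1 : ℝ) ≤ m := by exact_mod_cast hm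
  have hk0 : (0 : ℝ) ≤ k := Nat.cast_nonneg _
  by_contra hcon
  push Not at hcon
  have hsum0 : 0 ≤ ∑ p ∈ R.B n \ rgt τ, R.v n p .mj := sum_nonneg (fun p _ => hR.v_mj n p)
  have hcnt := c2_cnt_le P τ n
  have hlt : ∑ p ∈ R.B n \ rgt τ, R.v n p .mj < 1 := by
    by_contra h
    push Not at h
    have : (k : ℝ) * 1 ≤ k * ∑ p ∈ R.B n \ rgt τ, R.v n p .mj :=
      mul_le_mul_of_nonneg_left h hk0
    linarith
  apply hG
  obtain ⟨s, hs1, hs2⟩ := c2_cnt_eq P τ n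
  unfold TT at hτ
  obtain ⟨hinj, hw⟩ := (mem_filter.1 hτ).2
  refine ⟨τ, s, hinj, fun i => (hw i).1, ?_, hs1, ?_⟩
  · have h1 : (m : ℝ) - 1 < s.card := by
      rw [← hs2]
      have := mul_nonneg hk0 hsum0
      linarith
    have h2 : (m : ℝ) < ((s.card + 1 : ℕ) : ℝ) := by
      push_cast
      linarith
    have h3 : m < s.card + 1 := by exact_mod_cast h2
    omega
  · intro p hp
    by_contra hne
    push Not at hne
    obtain ⟨h1, h2⟩ := hP.mem p n hn hp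
    have h3 : p ∈ R.B n \ rgt τ := by
      rw [mem_sdiff]
      refine ⟨h1, ?_⟩
      unfold rgt
      intro h4
      obtain ⟨i, _, hi⟩ := mem_image.1 h4
      exact hne i hi.symm
    have h4 : R.v n p .mj ≤ ∑ p ∈ R.B n \ rgt τ, R.v n p .mj :=
      single_le_sum (f := fun p => R.v n p .mj) (fun p _ => hR.v_mj n p) h3
    linarith

theorem coreEnd2 : CoreEnd2 := by
  classical
  intro Y k J' J1 R hR P L hP m b c6 C4 hm hmk hb hc6 hC4 h6 hq hmass hE2 hE3 hE1 hE4 hC4'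
  obtain ⟨a0, ha0⟩ := hR.O_ne
  have hb0 : 0 ≤ b := (Nat.cast_nonneg _).trans (hb a0 ha0)
  have hMI := hR.MI_nonneg
  have hMP := hR.MP_nonneg
  have hPl := hR.Plow_nonneg
  have hPa := hR.Pall_nonneg
  have hc5 := hR.c5_ge
  have ht2 := hR.t2_nonneg
  have hε1 := hR.e1_nonneg
  have hε2 := hR.e2_nonneg
  have hN0 := hR.N0_pos
  have hL := hP.L_pos
  have hJ : (0 : ℝ) < J1 := by exact_mod_cast hR.J1_pos
  have hk : (0 : ℝ) < k := by exact_mod_cast hR.k_pos
  have hk1 : (1 : ℝ) ≤ k := by exact_mod_cast hR.k_pos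
  have hm1 : (1 : ℝ) ≤ m := by exact_mod_cast hm
  have hmk' : (m : ℝ) ≤ k := by exact_mod_cast hmk
  have hY0 : (0 : ℝ) ≤ Y := Nat.cast_nonneg _
  set a2 : ℝ := ((adm k R.kb).card : ℝ) with ha2
  have ha20 : 0 ≤ a2 := Nat.cast_nonneg _
  set c : ℝ := ((J1 : ℝ) + 1) ^ 2 * R.Plow with hc
  have hc0 : 0 ≤ c := by positivity
  set T : ℝ := Real.exp (c * b) with hT
  have hT0 : 0 < T := Real.exp_pos _
  have hNN0 : 0 ≤ R.NN := by unfold F2.NN; positivity
  have hNb0 : 0 ≤ R.Nb := by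
    unfold F2.Nb
    apply sum_nonneg
    intro ψ _
    apply prod_nonneg
    intro i _
    cases ψ i with
    | none => exact hR.f0_nonneg
    | some j => exact mul_nonneg (sq_nonneg _) (hR.f_nonneg j)
  have hXa0 : ∀ a, 0 ≤ R.Xa a := by intro a; unfold F2.Xa; positivity
  have hXa : ∀ a ∈ R.Ω, R.Xa a ≤ T * a2 ^ 2 := by
    intro a ha
    unfold F2.Xa
    exact mul_le_mul_of_nonneg_right (c2_pow_le hc0 (hb a ha)) (by positivity)
  have hB0 : ∀ a, (0 : ℝ) ≤ (R.B a).card := fun a => Nat.cast_nonneg _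
  have hSS : ∀ B : Finset (Fin Y), 1 ≤ SS R.kk R.e B := fun B => c2_SS_ge R.kk R.e hR.e_nonneg B
  set q : ℝ := (R.Ω.card : ℝ) / R.N0 with hqdef
  have hq0 : 0 ≤ q := div_nonneg (Nat.cast_nonneg _) hN0.le
  -- the main average
  set S : ℝ := avg R.Ω (fun a => ∑ τ ∈ TT R.w (R.B a), SS R.kk R.e (R.B a \ rgt τ)) with hS
  have hS1 : avg R.Ω (fun a => ((TT R.w (R.B a)).card : ℝ)) ≤ S := by
    rw [hS]
    apply c2_avg_le
    intro a _
    calc ((TT R.w (R.B a)).card : ℝ) = ∑ _τ ∈ TT R.w (R.B a), (1 : ℝ) := by simp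
      _ ≤ _ := sum_le_sum (fun τ _ => hSS _)
  have hS0 : 0 ≤ S := by
    refine le_trans ?_ hS1
    exact c2_avg_nonneg (fun a _ => Nat.cast_nonneg _)
  have hNS : c6 ≤ R.Nb * S := h6.trans (mul_le_mul_of_nonneg_left hS1 hNb0)
  -- the sums
  set G : ℕ → ℝ := fun n => ∑ τ ∈ TT R.w (R.B n), R.g τ n ^ 2 with hG
  have hG0 : ∀ n, 0 ≤ G n := fun n => sum_nonneg (fun τ _ => sq_nonneg _)
  set S1 : ℝ := ∑ n ∈ R.F, R.μ n * G n with hS1def
  set S2 : ℝ := ∑ n ∈ R.F, R.μ n * ∑ τ ∈ TT R.w (R.B n), R.g τ n ^ 2 *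
    ∑ p ∈ R.B n \ rgt τ, R.v n p .mj with hS2def
  set S3 : ℝ := ∑ n ∈ R.F, R.μ n * ∑ τ ∈ TT R.w (R.B n), R.g τ n ^ 2 * c2cnt P τ n with hS3def
  set D : ℝ := (b * R.Plow) ^ k * (a2 ^ 2 * T) with hD
  have hD0 : 0 ≤ D := by positivity
  have e1 : S1 ≤ R.MI * (R.Nb * S) + (R.ε1 * Y ^ k * R.NN + R.ε2 * R.MI * D) := by
    have h := sumOne2 Y k J' J1 R hR
    have hm' : avg R.Ω (fun a => ∑ τ ∈ TT R.w (R.B a), R.Nb * SS R.kk R.e (R.B a \ rgt τ)) =
        R.Nb * S := by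
      rw [hS, ← c2_avg_mul]
      congr 1
      funext a
      rw [mul_sum]
    have hT' : avg R.Ω (fun a => ((R.B a).card * R.Plow) ^ k * R.Xa a) ≤ D := by
      rw [← c2_avg_const ⟨a0, ha0⟩ D]
      apply c2_avg_le
      intro a ha
      rw [hD, mul_comm (a2 ^ 2) T]
      apply mul_le_mul _ (hXa a ha) (hXa0 a) (by positivity)
      exact pow_le_pow_left₀ (mul_nonneg (hB0 a) hPl)
        (mul_le_mul_of_nonneg_right (hb a ha) hPl) _
    rw [hm'] at h
    have h' := (abs_le.1 h).2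
    have := mul_le_mul_of_nonneg_left hT' (mul_nonneg hε2 hMI)
    have h1 : S1 = ∑ n ∈ R.F, R.μ n * ∑ τ ∈ TT R.w (R.B n), R.g τ n ^ 2 := rfl
    linarith
  have e2 : k * S2 ≤ R.MI * (R.Nb * S) / 8 + k * (R.ε1 * Y ^ (k + 1) * R.NN +
      R.ε2 * R.MI * (b * D)) := by
    have h := sumTwo2 Y k J' J1 R hR
    have hT' : avg R.Ω (fun a => (R.B a).card * (((R.B a).card * R.Plow) ^ k * R.Xa a)) ≤
        b * D := by
      rw [← c2_avg_const ⟨a0, ha0⟩ (b * D)]
      apply c2_avg_le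
      intro a ha
      apply mul_le_mul (hb a ha) _ (mul_nonneg (by positivity) (hXa0 a)) hb0
      rw [hD, mul_comm (a2 ^ 2) T]
      apply mul_le_mul _ (hXa a ha) (hXa0 a) (by positivity)
      exact pow_le_pow_left₀ (mul_nonneg (hB0 a) hPl)
        (mul_le_mul_of_nonneg_right (hb a ha) hPl) _
    have hm' : avg R.Ω (fun a => ∑ τ ∈ TT R.w (R.B a), R.Nb * ((R.B a).card * R.Pall *
        ((∑ j, (R.B a).card * R.e j / R.kk j) / J1 + R.t2) * SS R.kk R.e (R.B a \ rgt τ))) ≤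
        (1 / (8 * k)) * (R.Nb * S) := by
      rw [hS, ← c2_avg_mul, ← c2_avg_mul]
      apply c2_avg_le
      intro a ha
      rw [mul_sum, mul_sum]
      apply sum_le_sum
      intro τ _
      have hBa := hb a ha
      have hsum : (∑ j, ((R.B a).card : ℝ) * R.e j / R.kk j) ≤ ∑ j, b * R.e j / R.kk j := by
        apply sum_le_sum
        intro j _
        apply div_le_div_of_nonneg_right _ (Nat.cast_nonneg _)
        exact mul_le_mul_of_nonneg_right hBa (hR.e_nonneg j)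
      have hsum0 : 0 ≤ ∑ j, ((R.B a).card : ℝ) * R.e j / R.kk j := by
        apply sum_nonneg
        intro j _
        have := hR.e_nonneg j
        positivity
      have hbr : ((R.B a).card : ℝ) * R.Pall *
          ((∑ j, ((R.B a).card : ℝ) * R.e j / R.kk j) / J1 + R.t2) ≤ 1 / (8 * k) := by
        calc ((R.B a).card : ℝ) * R.Pall *
            ((∑ j, ((R.B a).card : ℝ) * R.e j / R.kk j) / J1 + R.t2)
            ≤ (b * R.Pall) * ((∑ j, b * R.e j / R.kk j) / J1 + R.t2) := by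
              apply mul_le_mul
              · exact mul_le_mul_of_nonneg_right hBa hPa
              · have := div_le_div_of_nonneg_right hsum hJ.le
                linarith
              · positivity
              · positivity
          _ = (∑ j, b * R.Pall * (b * R.e j / R.kk j + R.t2)) / J1 := by
              rw [← mul_sum, sum_add_distrib, sum_const, card_univ, Fintype.card_fin,
                nsmul_eq_mul, mul_div_assoc, add_div, mul_div_cancel_left₀ _ hJ.ne']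
          _ ≤ (∑ _j : Fin J1, (1 / (8 * k) : ℝ)) / J1 := by
              apply div_le_div_of_nonneg_right _ hJ.le
              exact sum_le_sum (fun j _ => hq j)
          _ = 1 / (8 * k) := by
              rw [sum_const, card_univ, Fintype.card_fin, nsmul_eq_mul,
                mul_div_cancel_left₀ _ hJ.ne']
      have hx : 0 ≤ R.Nb * SS R.kk R.e (R.B a \ rgt τ) :=
        mul_nonneg hNb0 (by linarith [hSS (R.B a \ rgt τ)])
      calc R.Nb * (((R.B a).card : ℝ) * R.Pall *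
            ((∑ j, ((R.B a).card : ℝ) * R.e j / R.kk j) / J1 + R.t2) *
            SS R.kk R.e (R.B a \ rgt τ))
          = (((R.B a).card : ℝ) * R.Pall *
            ((∑ j, ((R.B a).card : ℝ) * R.e j / R.kk j) / J1 + R.t2)) *
            (R.Nb * SS R.kk R.e (R.B a \ rgt τ)) := by ring
        _ ≤ 1 / (8 * k) * (R.Nb * SS R.kk R.e (R.B a \ rgt τ)) :=
            mul_le_mul_of_nonneg_right hbr hx
    have h1 := mul_le_mul_of_nonneg_left hT' (mul_nonneg hε2 hMI)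
    have h2 := mul_le_mul_of_nonneg_left hm' hMI
    have h3 : S2 ≤ R.MI * ((1 / (8 * k)) * (R.Nb * S)) + (R.ε1 * Y ^ (k + 1) * R.NN +
        R.ε2 * R.MI * (b * D)) := by
      rw [hS2def]
      linarith
    have h4 := mul_le_mul_of_nonneg_left h3 hk.le
    have h5 : (k : ℝ) * (R.MI * ((1 / (8 * k)) * (R.Nb * S)) + (R.ε1 * Y ^ (k + 1) * R.NN +
        R.ε2 * R.MI * (b * D))) = R.MI * (R.Nb * S) / 8 + k * (R.ε1 * Y ^ (k + 1) * R.NN +
        R.ε2 * R.MI * (b * D)) := by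
      field_simp
    linarith
  set D3 : ℝ := b * (b * R.Plow) ^ (k - 1) * a2 ^ 2 * T with hD3
  have e3 : m * (R.MI * (R.Nb * S)) - (k * (R.ε1 * Y ^ k * R.NN / (2 * L)) +
      k * (R.ε2 * R.MP * q / (2 * L) * D3)) ≤ S3 := by
    have hi : ∀ i : Fin k, R.MP * q / (2 * L) * R.Pb i * S -
        (R.ε1 * Y ^ k * R.NN / (2 * L) + R.ε2 * R.MP * q / (2 * L) * D3) ≤
        ∑ n ∈ R.F, R.μ n * ∑ τ ∈ TT R.w (R.B n), R.g τ n ^ 2 *
          (if P (τ i) n then (1 : ℝ) else 0) := by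
      intro i
      have h := sumThree2 Y k J' J1 R hR i
      have hm' : avg R.Ω (fun a => ∑ τ ∈ TT R.w (R.B a), R.Pb i *
          SS R.kk R.e (R.B a \ rgt τ)) = R.Pb i * S := by
        rw [hS, ← c2_avg_mul]
        congr 1
        funext a
        rw [mul_sum]
      have hT' : avg R.Ω (fun a => (R.B a).card * (((R.B a).card * R.Plow) ^ (k - 1) *
          R.Xa a)) ≤ D3 := by
        rw [← c2_avg_const ⟨a0, ha0⟩ D3]
        apply c2_avg_le
        intro a ha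
        have hD3' : D3 = b * ((b * R.Plow) ^ (k - 1) * (T * a2 ^ 2)) := by rw [hD3]; ring
        rw [hD3']
        apply mul_le_mul (hb a ha) _ (mul_nonneg (by positivity) (hXa0 a)) hb0
        apply mul_le_mul _ (hXa a ha) (hXa0 a) (by positivity)
        exact pow_le_pow_left₀ (mul_nonneg (hB0 a) hPl)
          (mul_le_mul_of_nonneg_right (hb a ha) hPl) _
      rw [hm'] at h
      have h1 := mul_le_mul_of_nonneg_left hT' (mul_nonneg (mul_nonneg hε2 hMP) hq0)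
      have h2 : R.MP * q * (R.Pb i * S) - (R.ε1 * Y ^ k * R.NN + R.ε2 * R.MP * q * D3) ≤
          ∑ n ∈ R.F, ∑ τ ∈ TT R.w (R.B n), R.νp (τ i) n * R.g τ n ^ 2 := by linarith
      have h3 : ∑ n ∈ R.F, ∑ τ ∈ TT R.w (R.B n), R.νp (τ i) n * R.g τ n ^ 2 ≤
          (2 * L) * ∑ n ∈ R.F, R.μ n * ∑ τ ∈ TT R.w (R.B n), R.g τ n ^ 2 *
            (if P (τ i) n then (1 : ℝ) else 0) := by
        rw [mul_sum]
        apply sum_le_sum
        intro n hn
        rw [mul_sum, mul_sum]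
        apply sum_le_sum
        intro τ _
        have hμ := hR.mu_nonneg n hn
        have hg2 : 0 ≤ R.g τ n ^ 2 := sq_nonneg _
        by_cases hz : R.νp (τ i) n = 0
        · rw [hz, zero_mul]
          apply mul_nonneg (by positivity)
          apply mul_nonneg hμ
          apply mul_nonneg hg2
          split_ifs <;> norm_num
        · obtain ⟨h4, h5⟩ := hP.nup_le (τ i) n hn hz
          rw [if_pos h4]
          have := mul_le_mul_of_nonneg_right h5 hg2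
          calc R.νp (τ i) n * R.g τ n ^ 2 ≤ 2 * L * R.μ n * R.g τ n ^ 2 := this
            _ = 2 * L * (R.μ n * (R.g τ n ^ 2 * 1)) := by ring
      have h4 := h2.trans h3
      have hL2 : 0 < 2 * L := by linarith
      have h5 : (R.MP * q * (R.Pb i * S) - (R.ε1 * Y ^ k * R.NN + R.ε2 * R.MP * q * D3)) /
          (2 * L) ≤ ∑ n ∈ R.F, R.μ n * ∑ τ ∈ TT R.w (R.B n), R.g τ n ^ 2 *
            (if P (τ i) n then (1 : ℝ) else 0) := by
        rw [div_le_iff₀ hL2]
        linarith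
      have h6 : R.MP * q / (2 * L) * R.Pb i * S -
        (R.ε1 * Y ^ k * R.NN / (2 * L) + R.ε2 * R.MP * q / (2 * L) * D3) =
        (R.MP * q * (R.Pb i * S) - (R.ε1 * Y ^ k * R.NN + R.ε2 * R.MP * q * D3)) / (2 * L) := by
        ring
      rw [h6]
      exact h5
    have hsum := sum_le_sum (s := (univ : Finset (Fin k))) (fun i _ => hi i)
    have hl : ∑ i : Fin k, (R.MP * q / (2 * L) * R.Pb i * S -
        (R.ε1 * Y ^ k * R.NN / (2 * L) + R.ε2 * R.MP * q / (2 * L) * D3)) =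
        (∑ i, R.MP * q / (2 * L) * R.Pb i) * S - k * (R.ε1 * Y ^ k * R.NN / (2 * L) +
          R.ε2 * R.MP * q / (2 * L) * D3) := by
      rw [sum_sub_distrib, ← sum_mul, sum_const, card_univ, Fintype.card_fin, nsmul_eq_mul]
    have hr : ∑ i : Fin k, ∑ n ∈ R.F, R.μ n * ∑ τ ∈ TT R.w (R.B n), R.g τ n ^ 2 *
          (if P (τ i) n then (1 : ℝ) else 0) = S3 := by
      rw [sum_comm, hS3def]
      apply sum_congr rfl
      intro n _
      rw [← mul_sum]
      congr 1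
      rw [sum_comm]
      apply sum_congr rfl
      intro τ _
      rw [← mul_sum]
      rfl
    rw [hl, hr] at hsum
    have hmS := mul_le_mul_of_nonneg_right hmass hS0
    have e : (m : ℝ) * (R.MI * (R.Nb * S)) = (m : ℝ) * R.MI * R.Nb * S := by ring
    rw [e]
    linarith
  -- the error terms
  have hcomb : S3 - ((m : ℝ) - 1) * S1 - k * S2 ≥ c6 * R.MI / 2 := by
    have hm1' : 0 ≤ (m : ℝ) - 1 := by linarith
    have hS1' := mul_le_mul_of_nonneg_left e1 hm1'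
    have hMS : c6 * R.MI ≤ R.MI * (R.Nb * S) := by
      have := mul_le_mul_of_nonneg_left hNS hMI
      linarith
    -- the errors with D
    have hd : R.ε2 * R.MI * D * k + k * (R.ε2 * R.MI * (b * D)) ≤ c6 * R.MI / (32 * k) := by
      have h1 := mul_le_mul_of_nonneg_left hE2 (mul_nonneg hMI hk.le)
      have h2 : R.MI * k * (c6 / (32 * k ^ 2)) = c6 * R.MI / (32 * k) := by
        field_simp
      rw [h2] at h1
      calc R.ε2 * R.MI * D * k + k * (R.ε2 * R.MI * (b * D)) =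
          R.MI * k * (R.ε2 * ((b * R.Plow) ^ k * (1 + b) * a2 ^ 2 * T)) := by
            rw [hD]; ring
        _ ≤ _ := h1
    have hd3 : k * (R.ε2 * R.MP * q / (2 * L) * D3) ≤ c6 * R.MI / (32 * k) := by
      have h1 := mul_le_mul_of_nonneg_left hE3 hk.le
      have h2 : k * (c6 * R.MI / (32 * k ^ 2)) = c6 * R.MI / (32 * k) := by
        field_simp
      rw [h2] at h1
      exact h1
    -- the errors with ε1
    have he : k * (R.ε1 * Y ^ k * R.NN / (2 * L)) + k * (R.ε1 * Y ^ k * R.NN) +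
        k * (R.ε1 * Y ^ (k + 1) * R.NN) ≤ c6 * R.MI / (32 * k) := by
      have h1 := mul_le_mul_of_nonneg_left hE1 hk.le
      have h2 : k * (c6 * R.MI / (32 * k ^ 2)) = c6 * R.MI / (32 * k) := by
        field_simp
      rw [h2] at h1
      refine le_trans ?_ h1
      have hYk : (Y : ℝ) ^ k + Y ^ (k + 1) ≤ (1 + (Y : ℝ)) ^ (2 * k + 1) := by
        calc (Y : ℝ) ^ k + Y ^ (k + 1) = Y ^ k * (1 + Y) := by ring
          _ ≤ (1 + (Y : ℝ)) ^ k * (1 + Y) := by
              apply mul_le_mul_of_nonneg_right _ (by linarith)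
              exact pow_le_pow_left₀ hY0 (by linarith) _
          _ = (1 + (Y : ℝ)) ^ (k + 1) := by ring
          _ ≤ (1 + (Y : ℝ)) ^ (2 * k + 1) := by
              apply pow_le_pow_right₀ (by linarith)
              omega
      have hNN1 : R.NN ≤ (1 + R.NN) ^ 2 := c2_aux2 hNN0
      have hLi : 0 ≤ 1 / L := by positivity
      have h3 : (Y : ℝ) ^ k / (2 * L) + Y ^ k + Y ^ (k + 1) ≤
          (1 + 1 / L) * ((Y : ℝ) ^ k + Y ^ (k + 1)) := by
        have h4 : (Y : ℝ) ^ k / (2 * L) = (1 / L) * Y ^ k * (1 / 2) := by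
          field_simp
        have h5 : 0 ≤ (Y : ℝ) ^ k := by positivity
        have h6 : 0 ≤ (Y : ℝ) ^ (k + 1) := by positivity
        have h7 : 0 ≤ (1 / L) * (Y : ℝ) ^ k := mul_nonneg hLi h5
        have h8 : 0 ≤ (1 / L) * (Y : ℝ) ^ (k + 1) := mul_nonneg hLi h6
        rw [h4]
        exact c2_aux h5 h6 hLi
      have h4 : (Y : ℝ) ^ k / (2 * L) + Y ^ k + Y ^ (k + 1) ≤
          (1 + 1 / L) * (1 + (Y : ℝ)) ^ (2 * k + 1) :=
        h3.trans (mul_le_mul_of_nonneg_left hYk (by positivity))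
      have h5 : 0 ≤ (Y : ℝ) ^ k / (2 * L) + Y ^ k + Y ^ (k + 1) := by positivity
      calc k * (R.ε1 * Y ^ k * R.NN / (2 * L)) + k * (R.ε1 * Y ^ k * R.NN) +
            k * (R.ε1 * Y ^ (k + 1) * R.NN)
          = (k * R.ε1) * (((Y : ℝ) ^ k / (2 * L) + Y ^ k + Y ^ (k + 1)) * R.NN) := by ring
        _ ≤ (k * R.ε1) * (((1 + 1 / L) * (1 + (Y : ℝ)) ^ (2 * k + 1)) * (1 + R.NN) ^ 2) := by
            apply mul_le_mul_of_nonneg_left _ (by positivity)
            exact mul_le_mul h4 hNN1 hNN0 (by positivity)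
        _ = k * (R.ε1 * (1 + 1 / L) * (1 + (Y : ℝ)) ^ (2 * k + 1) * (1 + R.NN) ^ 2) := by ring
    have hk32 : c6 * R.MI / (32 * k) ≤ c6 * R.MI / 32 := by
      apply div_le_div_of_nonneg_left (by positivity) (by norm_num)
      linarith
    have hx1 : 0 ≤ R.ε1 * (Y : ℝ) ^ k * R.NN := by positivity
    have hx2 : 0 ≤ R.ε2 * R.MI * D := by positivity
    have hm2 : ((m : ℝ) - 1) * (R.ε1 * Y ^ k * R.NN + R.ε2 * R.MI * D) ≤
        k * (R.ε1 * Y ^ k * R.NN) + R.ε2 * R.MI * D * k := by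
      have h1 : ((m : ℝ) - 1) ≤ k := by linarith
      have := mul_le_mul_of_nonneg_right h1 (add_nonneg hx1 hx2)
      linarith
    have hkexp : k * (R.ε1 * (Y : ℝ) ^ (k + 1) * R.NN + R.ε2 * R.MI * (b * D)) =
      k * (R.ε1 * (Y : ℝ) ^ (k + 1) * R.NN) + k * (R.ε2 * R.MI * (b * D)) := by ring
    rw [hkexp] at e2
    have hmexp : ((m : ℝ) - 1) * (R.MI * (R.Nb * S) + (R.ε1 * Y ^ k * R.NN + R.ε2 * R.MI * D)) =
      m * (R.MI * (R.Nb * S)) - R.MI * (R.Nb * S) +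
        ((m : ℝ) - 1) * (R.ε1 * Y ^ k * R.NN + R.ε2 * R.MI * D) := by ring
    rw [hmexp] at hS1'
    have h00 : 0 ≤ c6 * R.MI := mul_nonneg hc6.le hMI
    linarith
  -- the good numbers
  set Z : Finset ℕ := R.F.filter (fun n => R.Good P m n) with hZ
  have hμZ : ∀ n ∈ Z, 0 ≤ R.μ n := fun n hn => hR.mu_nonneg n (mem_filter.1 hn).1
  have hZs : S3 - ((m : ℝ) - 1) * S1 - k * S2 ≤ k * ∑ n ∈ Z, R.μ n * G n := by
    have h1 : S3 - ((m : ℝ) - 1) * S1 - k * S2 = ∑ n ∈ R.F, R.μ n * ∑ τ ∈ TT R.w (R.B n),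
        R.g τ n ^ 2 * (c2cnt P τ n - ((m : ℝ) - 1) - k * ∑ p ∈ R.B n \ rgt τ, R.v n p .mj) := by
      rw [hS3def, hS1def, hS2def, mul_sum, mul_sum, ← sum_sub_distrib, ← sum_sub_distrib]
      apply sum_congr rfl
      intro n _
      rw [hG]
      simp only
      rw [mul_sum, mul_sum, mul_sum, mul_sum, mul_sum, mul_sum, ← sum_sub_distrib,
        ← sum_sub_distrib]
      apply sum_congr rfl
      intro τ _
      ring
    rw [h1, hZ, sum_filter, mul_sum]
    apply sum_le_sum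
    intro n hn
    have hμ := hR.mu_nonneg n hn
    split_ifs with hgood
    · have h2 : ∑ τ ∈ TT R.w (R.B n), R.g τ n ^ 2 *
          (c2cnt P τ n - ((m : ℝ) - 1) - k * ∑ p ∈ R.B n \ rgt τ, R.v n p .mj) ≤ k * G n := by
        rw [hG]
        simp only
        rw [mul_sum]
        apply sum_le_sum
        intro τ _
        have h3 := c2_cnt_le P τ n
        have h4 : 0 ≤ ∑ p ∈ R.B n \ rgt τ, R.v n p .mj := sum_nonneg (fun p _ => hR.v_mj n p)
        have h5 : c2cnt P τ n - ((m : ℝ) - 1) - k * ∑ p ∈ R.B n \ rgt τ, R.v n p .mj ≤ k := by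
          have := mul_nonneg hk.le h4
          linarith
        have := mul_le_mul_of_nonneg_left h5 (sq_nonneg (R.g τ n))
        linarith
      have := mul_le_mul_of_nonneg_left h2 hμ
      linarith
    · have h2 : ∑ τ ∈ TT R.w (R.B n), R.g τ n ^ 2 *
          (c2cnt P τ n - ((m : ℝ) - 1) - k * ∑ p ∈ R.B n \ rgt τ, R.v n p .mj) ≤ 0 := by
        apply sum_nonpos
        intro τ hτ
        exact mul_nonpos_of_nonneg_of_nonpos (sq_nonneg _) (c2_point hR hP hm hn hgood hτ)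
      rw [mul_zero]
      exact mul_nonpos_of_nonneg_of_nonpos hμ h2
  set X : ℝ := ∑ n ∈ Z, R.μ n with hX
  have hX0 : 0 ≤ X := sum_nonneg hμZ
  have hGZ : c6 * R.MI / (4 * k) ≤ ∑ n ∈ Z, R.μ n * G n := by
    rw [div_le_iff₀ (by positivity)]
    have h0 : 0 ≤ c6 * R.MI := mul_nonneg hc6.le hMI
    have h1 := hcomb.le.trans hZs
    linarith
  -- the fourth moment
  set S4 : ℝ := ∑ n ∈ R.F, R.μ n * G n ^ 2 with hS4
  have e4 : S4 ≤ C4 * R.MI := by
    have h := sumFour2 Y k J' J1 R hR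
    set c4 : ℝ := ((J1 : ℝ) + 1) ^ 4 * (R.c5 * R.Plow) with hc4
    have hcP : 0 ≤ R.c5 * R.Plow := mul_nonneg (by linarith) hPl
    have hc40 : 0 ≤ c4 := by positivity
    have hle : R.c5 * R.Plow ≤ c4 := by
      have hx : (1 : ℝ) ≤ ((J1 : ℝ) + 1) ^ 4 := one_le_pow₀ (by linarith)
      exact le_mul_of_one_le_left hcP hx
    have hT' : avg R.Ω (fun a => (1 + R.c5 * R.Plow) ^ (R.B a).card *
          (1 + c4) ^ (R.B a).card) ≤ Real.exp (2 * c4 * b) := by
      rw [← c2_avg_const ⟨a0, ha0⟩ (Real.exp (2 * c4 * b))]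
      apply c2_avg_le
      intro a ha
      have h1 := c2_pow_le hc40 (hb a ha)
      have h2 : (1 + R.c5 * R.Plow) ^ (R.B a).card ≤ (1 + c4) ^ (R.B a).card :=
        pow_le_pow_left₀ (by linarith) (by linarith) _
      calc (1 + R.c5 * R.Plow) ^ (R.B a).card * (1 + c4) ^ (R.B a).card ≤
          Real.exp (c4 * b) * Real.exp (c4 * b) := by
            apply mul_le_mul (h2.trans h1) h1 (by positivity) (Real.exp_pos _).le
        _ = Real.exp (2 * c4 * b) := by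
            rw [← Real.exp_add]
            congr 1
            ring
    set Q : ℝ := a2 ^ 4 * (2 * k) ^ (2 * k) * ((J1 : ℝ) + 1) ^ (8 * k) with hQ
    have hQ0 : 0 ≤ Q := by positivity
    have h1 := mul_le_mul_of_nonneg_left hT' (show 0 ≤ R.MI * (1 + R.ε2) * Q by positivity)
    have h2 : R.ε1 * (Y : ℝ) ^ (2 * k) * R.NN ^ 2 ≤ R.MI := by
      refine le_trans ?_ hE4
      have h3 : (Y : ℝ) ^ (2 * k) ≤ (1 + (Y : ℝ)) ^ (2 * k + 1) := by
        calc (Y : ℝ) ^ (2 * k) ≤ (1 + (Y : ℝ)) ^ (2 * k) :=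
              pow_le_pow_left₀ hY0 (by linarith) _
          _ ≤ (1 + (Y : ℝ)) ^ (2 * k + 1) := by
              apply pow_le_pow_right₀ (by linarith)
              omega
      have h4 : R.NN ^ 2 ≤ (1 + R.NN) ^ 2 := pow_le_pow_left₀ hNN0 (by linarith) _
      have h5 : R.ε1 * (Y : ℝ) ^ (2 * k) ≤ R.ε1 * (1 + (Y : ℝ)) ^ (2 * k + 1) :=
        mul_le_mul_of_nonneg_left h3 hε1
      exact mul_le_mul h5 h4 (by positivity) (by positivity)
    have h3 := mul_le_mul_of_nonneg_right hC4' hMI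
    have h4 : (Q * (1 + R.ε2) * Real.exp (2 * c4 * b) + 1) * R.MI =
        R.MI * (1 + R.ε2) * Q * Real.exp (2 * c4 * b) + R.MI := by ring
    rw [h4] at h3
    have h5 : S4 = ∑ n ∈ R.F, R.μ n * (∑ τ ∈ TT R.w (R.B n), R.g τ n ^ 2) ^ 2 := rfl
    linarith
  -- Cauchy-Schwarz
  have hCS : (∑ n ∈ Z, R.μ n * G n) ^ 2 ≤ X * S4 := by
    have h := Finset.sum_mul_sq_le_sq_mul_sq Z (fun n => Real.sqrt (R.μ n))
      (fun n => Real.sqrt (R.μ n) * G n)
    have ha : ∑ n ∈ Z, Real.sqrt (R.μ n) * (Real.sqrt (R.μ n) * G n) =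
        ∑ n ∈ Z, R.μ n * G n := by
      apply sum_congr rfl
      intro n hn
      rw [← mul_assoc, Real.mul_self_sqrt (hμZ n hn)]
    have hb' : ∑ n ∈ Z, Real.sqrt (R.μ n) ^ 2 = X := by
      apply sum_congr rfl
      intro n hn
      rw [Real.sq_sqrt (hμZ n hn)]
    have hc' : ∑ n ∈ Z, (Real.sqrt (R.μ n) * G n) ^ 2 ≤ S4 := by
      calc ∑ n ∈ Z, (Real.sqrt (R.μ n) * G n) ^ 2
          = ∑ n ∈ Z, R.μ n * G n ^ 2 := by
            apply sum_congr rfl
            intro n hn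
            rw [mul_pow, Real.sq_sqrt (hμZ n hn)]
        _ ≤ S4 := by
            rw [hS4]
            apply sum_le_sum_of_subset_of_nonneg (filter_subset _ _)
            intro n hn _
            have := hR.mu_nonneg n hn
            positivity
    rw [ha, hb'] at h
    exact h.trans (mul_le_mul_of_nonneg_left hc' hX0)
  have hfin : (c6 * R.MI / (4 * k)) ^ 2 ≤ X * (C4 * R.MI) := by
    calc (c6 * R.MI / (4 * k)) ^ 2 ≤ (∑ n ∈ Z, R.μ n * G n) ^ 2 :=
          pow_le_pow_left₀ (by positivity) hGZ 2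
      _ ≤ X * S4 := hCS
      _ ≤ _ := mul_le_mul_of_nonneg_left e4 hX0
  have hgoal : (c6 / (4 * k)) ^ 2 / C4 * R.MI ≤ X := by
    rcases hMI.eq_or_lt with h0 | hpos
    · rw [← h0, mul_zero]
      exact hX0
    · have h1 : (c6 * R.MI / (4 * k)) ^ 2 = (c6 / (4 * k)) ^ 2 * R.MI * R.MI := by ring
      rw [h1] at hfin
      have h2 : (c6 / (4 * k)) ^ 2 * R.MI ≤ X * C4 := by
        have : (c6 / (4 * k)) ^ 2 * R.MI * R.MI ≤ (X * C4) * R.MI := by linarith
        exact le_of_mul_le_mul_right this hpos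
      rw [div_mul_eq_mul_div, div_le_iff₀ hC4]
      exact h2
  exact hgoal

end Pool.Agent.Helper1.LG2
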