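import Pool.Agent.Helper1.LG2.Defs
import Pool.Agent.Helper1.LG.Crt

set_option autoImplicit false

/-!
LG2-C. Residues modulo a primorial (`CrtI` in `LG2/Defs.lean`): the same proof as `LG/Crt.lean`
(proved on main), without the condition that `a` is reduced.
-/

open Finset

namespace Pool.Agent.Helper1.LG2

private lemma card_mod_prod {p M : ℕ} (h : Nat.Coprime p M) (hp : 0 < p) (hM : 0 < M)
    (A B : ℕ → Prop) [DecidablePred A] [DecidablePred B] :
    ((range (p * M)).filter (fun a => A (a % p) ∧ B (a % M))).card =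
      ((range p).filter A).card * ((range M).filter B).card := by
  rw [← Finset.card_product]
  refine Finset.card_nbij' (fun a => (a % p, a % M))
    (fun u => (Nat.chineseRemainder h u.1 u.2 : ℕ)) ?_ ?_ ?_ ?_
  · intro a ha
    simp only [Finset.mem_coe, mem_filter, mem_range, mem_product] at ha ⊢
    exact ⟨⟨Nat.mod_lt _ hp, ha.2.1⟩, Nat.mod_lt _ hM, ha.2.2⟩
  · rintro ⟨u, v⟩ hu
    simp only [Finset.mem_coe, mem_filter, mem_range, mem_product] at hu ⊢
    obtain ⟨⟨h1, h2⟩, h3, h4⟩ := hu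
    have h5 := (Nat.chineseRemainder h u v).2
    have h6 : (Nat.chineseRemainder h u v : ℕ) % p = u := by
      rw [h5.1, Nat.mod_eq_of_lt h1]
    have h7 : (Nat.chineseRemainder h u v : ℕ) % M = v := by
      rw [h5.2, Nat.mod_eq_of_lt h3]
    refine ⟨Nat.chineseRemainder_lt_mul h u v hp.ne' hM.ne', ?_, ?_⟩
    · rw [h6]; exact h2
    · rw [h7]; exact h4
  · intro a ha
    simp only [Finset.mem_coe, mem_filter, mem_range] at ha
    have h5 := (Nat.chineseRemainder h (a % p) (a % M)).2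
    have h6 : (Nat.chineseRemainder h (a % p) (a % M) : ℕ) ≡ a [MOD p * M] := by
      rw [← Nat.modEq_and_modEq_iff_modEq_mul h]
      exact ⟨h5.1.trans (Nat.mod_modEq a p), h5.2.trans (Nat.mod_modEq a M)⟩
    exact Nat.ModEq.eq_of_lt_of_lt h6
      (Nat.chineseRemainder_lt_mul h (a % p) (a % M) hp.ne' hM.ne') ha.1
  · rintro ⟨u, v⟩ hu
    simp only [Finset.mem_coe, mem_filter, mem_range, mem_product] at hu
    obtain ⟨⟨h1, h2⟩, h3, h4⟩ := hu
    have h5 := (Nat.chineseRemainder h u v).2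
    refine Prod.ext ?_ ?_
    · show (Nat.chineseRemainder h u v : ℕ) % p = u
      rw [h5.1, Nat.mod_eq_of_lt h1]
    · show (Nat.chineseRemainder h u v : ℕ) % M = v
      rw [h5.2, Nat.mod_eq_of_lt h3]

private def okMod {κ : Type} (h : κ → ℤ) (M a : ℕ) : Prop :=
  ∀ i, Int.gcd ((a : ℤ) + h i) M = 1

private lemma okMod_mod {κ : Type} (h : κ → ℤ) (M a : ℕ) : okMod h M a ↔ okMod h M (a % M) := by
  have h2 : ∀ i, Int.gcd ((a : ℤ) + h i) M = 1 ↔ Int.gcd (((a % M : ℕ) : ℤ) + h i) M = 1 := by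
    intro i
    rw [← Int.isCoprime_iff_gcd_eq_one, ← Int.isCoprime_iff_gcd_eq_one]
    have h3 : (a : ℤ) + h i = (((a % M : ℕ) : ℤ) + h i) + (M : ℤ) * ((a / M : ℕ) : ℤ) := by
      have h4 : ((a % M + M * (a / M) : ℕ) : ℤ) = (a : ℤ) := by rw [Nat.mod_add_div]
      push_cast at h4 ⊢
      linarith
    rw [h3]
    exact IsCoprime.add_mul_left_left_iff
  unfold okMod
  exact forall_congr' h2

private lemma okMod_mul {κ : Type} (h : κ → ℤ) (p M a : ℕ) :
    okMod h (p * M) a ↔ okMod h p a ∧ okMod h M a := by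
  unfold okMod
  have h2 : ∀ i, Int.gcd ((a : ℤ) + h i) ((p * M : ℕ) : ℤ) = 1 ↔
      Int.gcd ((a : ℤ) + h i) (p : ℤ) = 1 ∧ Int.gcd ((a : ℤ) + h i) (M : ℤ) = 1 := by
    intro i
    rw [← Int.isCoprime_iff_gcd_eq_one, ← Int.isCoprime_iff_gcd_eq_one,
      ← Int.isCoprime_iff_gcd_eq_one, Nat.cast_mul]
    exact IsCoprime.mul_right_iff
  constructor
  · intro h5
    exact ⟨fun i => ((h2 i).mp (h5 i)).1, fun i => ((h2 i).mp (h5 i)).2⟩
  · rintro ⟨h4, h6⟩ i
    exact (h2 i).mpr ⟨h4 i, h6 i⟩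

private lemma okMod_prime {κ : Type} (h : κ → ℤ) {p : ℕ} (hp : p.Prime) (a : ℕ) :
    okMod h p a ↔ (∀ i, ¬ (p : ℤ) ∣ (a : ℤ) + h i) := by
  unfold okMod
  refine forall_congr' fun i => ?_
  rw [← Int.isCoprime_iff_gcd_eq_one, isCoprime_comm,
    (Nat.prime_iff_prime_int.mp hp).coprime_iff_not_dvd]

private lemma crt_finset {κ : Type} [Fintype κ] (h : κ → ℤ) (S : Finset ℕ)
    (hS : ∀ p ∈ S, p.Prime) :
    ((range (∏ p ∈ S, p)).filter (fun a : ℕ =>
      ∀ i, Int.gcd ((a : ℤ) + h i) ((∏ p ∈ S, p : ℕ) : ℤ) = 1)).card =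
    ∏ p ∈ S, ((range p).filter (fun a : ℕ => ∀ i, ¬ (p : ℤ) ∣ (a : ℤ) + h i)).card := by
  classical
  induction S using Finset.induction_on with
  | empty => simp
  | insert p S hpS ih =>
    have hp : p.Prime := hS p (mem_insert_self _ _)
    have hS' : ∀ q ∈ S, q.Prime := fun q hq => hS q (mem_insert_of_mem hq)
    have hM : 0 < ∏ q ∈ S, q := prod_pos fun q hq => (hS' q hq).pos
    have hco : Nat.Coprime p (∏ q ∈ S, q) :=
      Nat.Coprime.prod_right fun q hq => (Nat.coprime_primes hp (hS' q hq)).mpr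
        (fun e => hpS (e ▸ hq))
    rw [prod_insert hpS, prod_insert hpS, ← ih hS', ← card_mod_prod hco hp.pos hM]
    refine congrArg Finset.card (Finset.filter_congr fun a _ => ?_)
    have h1 := okMod_mul h p (∏ q ∈ S, q) a
    have h2 := okMod_mod h (∏ q ∈ S, q) a
    have h3 := okMod_mod h p a
    have h4 := okMod_prime h hp (a % p)
    change okMod h (p * ∏ q ∈ S, q) a ↔ _ ∧ okMod h (∏ q ∈ S, q) (a % ∏ q ∈ S, q)
    rw [h1, h2, h3, h4]

theorem crtI : CrtI := by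
  intro z κ _ h
  exact crt_finset h _ (fun p hp => (mem_filter.mp hp).2)

end Pool.Agent.Helper1.LG2
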