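import Mathlib
import Pool.Agent.Helper1.LG.Defs

/-!
# Project LG2 (MP_3499c5_nt): primes in prescribed windows and nowhere else nearby

Extension of project LG: tuples of positions with boosted probability of being prime, all other
positions with suppressed probability.
-/

set_option autoImplicit false

open Finset
open scoped ArithmeticFunction.vonMangoldt

namespace Pool.Agent.Helper1.LG2

open Pool.Agent.Helper1.MT (supp cls pr PS lev)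
open Pool.Agent.Helper18.BV (wt IsWt)
open Pool.Agent.Helper1.LG (Dt Ex Eq Reg tt PL wl Ps sg Bs Om nu Mn ev SS adm avg dn)

/-- Letters: the blank, the base letter, the boosting modes, the majorant, the killing modes. -/
inductive Lb (J' J1 : ℕ) : Type
  | one : Lb J' J1
  | b0 : Lb J' J1
  | bs (j : Fin J') : Lb J' J1
  | mj : Lb J' J1
  | ks (j : Fin J1) : Lb J' J1
  deriving DecidableEq

/-- The blank word. -/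
def blank (J' J1 : ℕ) : Fin 4 → Lb J' J1 := fun _ => .one

section Abstract

variable {ι : Type} [Fintype ι] [DecidableEq ι]

/-- The basic mode `j`. -/
noncomputable def md (D : Dt ι) (j : ℕ) (S : Finset ι) : ℝ :=
  ((D.A j S - D.a j) / (1 - D.a j)) * ∏ i ∈ Ioo j D.I, D.A i S

/-- The function of a letter: the killing modes start at the range `i1`, the base letter at the
range `J'`. -/
noncomputable def Fb {J' J1 : ℕ} (i1 : ℕ) (D : Dt ι) : Lb J' J1 → Finset ι → ℝ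
  | .one, _ => 1
  | .b0, S => ∏ i ∈ Ico J' D.I, D.A i S
  | .bs j, S => md D j S
  | .mj, S => ∏ i ∈ Ico i1 D.I, D.A i S
  | .ks j, S => (1 / (J1 : ℝ)) * md D (i1 + j) S

/-- The function of a word. -/
noncomputable def wb {J' J1 : ℕ} (i1 : ℕ) (D : Dt ι) (W : Fin 4 → Lb J' J1) (S : Finset ι) : ℝ :=
  ∏ l, Fb i1 D (W l) S

/-- The level of a letter. -/
noncomputable def lb {J' J1 : ℕ} (i1 : ℕ) (D : Dt ι) (ρ : ℝ) : Lb J' J1 → ℝ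
  | .one => 0
  | .b0 => ∑ i ∈ Ico J' D.I, (D.r i : ℝ) * (ρ / 2 ^ i)
  | .bs j => ∑ i ∈ Ico (j : ℕ) D.I, (D.r i : ℝ) * (ρ / 2 ^ i)
  | .mj => ∑ i ∈ Ico i1 D.I, (D.r i : ℝ) * (ρ / 2 ^ i)
  | .ks j => ∑ i ∈ Ico (i1 + (j : ℕ)) D.I, (D.r i : ℝ) * (ρ / 2 ^ i)

end Abstract

/-- LG2-A: one position. -/
def OnePos2 : Prop :=
  ∀ (ι : Type) [Fintype ι] [DecidableEq ι] (D : Dt ι) (J' J1 i1 : ℕ) (t t1 : ℝ), J' ≤ i1 →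
    0 < J1 → Reg D (i1 + J1) t → ∑ i ∈ Ico i1 D.I, tt (D.r i) ≤ t1 → t1 ≤ 1 / 1000 →
    (∀ j : Fin J1, Ex D.w (Fb i1 D (.ks j : Lb J' J1)) = 0) ∧
    (∀ i j : Fin J1, i ≠ j →
      Ex D.w (fun S => Fb i1 D (.ks i : Lb J' J1) S * Fb i1 D (.ks j : Lb J' J1) S) = 0) ∧
    (∀ j : Fin J', Ex D.w (fun S => Fb i1 D (.b0 : Lb J' J1) S * Fb i1 D (.bs j : Lb J' J1) S) = 0) ∧
    (∀ i j : Fin J', i ≠ j →
      Ex D.w (fun S => Fb i1 D (.bs i : Lb J' J1) S * Fb i1 D (.bs j : Lb J' J1) S) = 0) ∧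
    (∀ j : Fin J1, Ex D.w (fun S => Fb i1 D (.ks j : Lb J' J1) S ^ 2) ≤
      100 / (J1 : ℝ) ^ 2 * ∏ i ∈ Ioo (i1 + (j : ℕ)) D.I, D.P0 i) ∧
    (∀ j : Fin J', Ex D.w (fun S => Fb i1 D (.bs j : Lb J' J1) S ^ 2) ≤
      100 * ∏ i ∈ Ioo (j : ℕ) D.I, D.P0 i) ∧
    (D.Plow J' ≤ Ex D.w (fun S => Fb i1 D (.b0 : Lb J' J1) S ^ 2) ∧
      Ex D.w (fun S => Fb i1 D (.b0 : Lb J' J1) S ^ 2) ≤ 2 * D.Plow J') ∧
    (∀ W : Fin 4 → Lb J' J1, W ≠ blank J' J1 →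
      |Ex D.w (wb i1 D W)| ≤ 10 ^ 5 * Real.exp (15 * ((i1 : ℝ) + J1)) * D.Plow (i1 + J1)) ∧
    (∀ s : Finset (Fin J1),
      Ex D.w (fun S => Fb i1 D (.mj : Lb J' J1) S *
        (1 - ∑ j ∈ s, Fb i1 D (.ks j : Lb J' J1) S) ^ 2) ≤
        D.Plow i1 * (((J1 : ℝ) - s.card) / J1 + 2000 * t1))

/-- LG2-X: exclusive colourings with slightly different weights are close to independent ones. -/
def Excl2 : Prop :=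
  ∀ J' J1 i1 u0 : ℕ, J' ≤ i1 → 0 < J1 → ∃ c : ℝ, 0 < c ∧
    ∀ (ι : Type) [Fintype ι] [DecidableEq ι] (D : Dt ι) (t : ℝ), Reg D (i1 + J1) t →
    ∀ w' : ι → ℝ, (∀ p, 0 ≤ w' p ∧ |w' p - D.w p| ≤ D.w p ^ 2) →
    ∀ (κ : Type) [Fintype κ] [DecidableEq κ], Fintype.card κ ≤ u0 →
    (∀ p, (Fintype.card κ : ℝ) * D.w p ≤ 1 / 4) → ∑ p, D.w p ^ 2 ≤ 1 →
    ∀ W : κ → Fin 4 → Lb J' J1, (∀ i, W i ≠ blank J' J1) →
    |Eq κ w' (fun σ => ∏ i, wb i1 D (W i) (cls σ i)) - ∏ i, Ex D.w (wb i1 D (W i))| ≤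
      c * (∑ p, D.w p ^ 2) * D.Plow (i1 + J1) ^ (Fintype.card κ)

/-- LG2-M: Möbius coefficients of the words. -/
def Mob2 : Prop :=
  ∀ (ι : Type) [Fintype ι] [DecidableEq ι] (D : Dt ι) (J' J1 i1 : ℕ) (t : ℝ), J' ≤ i1 → 0 < J1 →
    Reg D (i1 + J1) t →
    ∀ (s : ι → ℝ) (ρ : ℝ), 0 ≤ ρ → (∀ p, 0 ≤ s p) → (∀ p, s p ≤ ρ / 2 ^ D.rg p) →
    ∀ W : Fin 4 → Lb J' J1, ∃ μ : Finset ι → ℝ, (∀ S, wb i1 D W S = ∑ S' ∈ S.powerset, μ S') ∧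
      (∀ S, |μ S| ≤ 10 ^ 4 * 32 ^ S.card) ∧ ∀ S, μ S ≠ 0 → ∑ p ∈ S, s p ≤ ∑ l, lb i1 D ρ (W l)

/-! ### Arithmetic -/

/-- The orders of truncation: `2 m0` up to `J'`, linear up to `i1`, constant on `[i1, i1 + J1]`, then
linear. -/
def ro (m0 J' i1 J1 i : ℕ) : ℕ := 2 * (m0 + (min i i1 - J') + (i - (i1 + J1)))

/-- The data at `x` with general orders. -/
noncomputable def Dg (ρ : ℝ) (r : ℕ → ℕ) (x : ℝ) : Dt (PL ρ x) where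
  w := wl ρ x
  rg := fun p => Nat.log 2 ⌊ρ * Real.log x / Real.log ((p : ℕ) : ℝ)⌋₊
  I := ⌊Real.log x⌋₊
  r := r

/-- The weights for all integers. -/
noncomputable def wi (ρ x : ℝ) (p : PL ρ x) : ℝ := 1 / ((p : ℕ) : ℝ)

/-- The range of `n`. -/
noncomputable def Nx (θ x : ℝ) : Finset ℕ := Ioc ⌊x ^ θ⌋₊ ⌊x⌋₊

/-- The mass of the integers. -/
noncomputable def Mi (θ x : ℝ) : ℝ := ∑ n ∈ Nx θ x, 1 / (n : ℝ)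

/-- The proportion of all residues such that all shifts have no small prime factor. -/
noncomputable def sI {κ : Type} [Fintype κ] (x : ℝ) (h : κ → ℤ) : ℝ :=
  (((range (Ps x)).filter (fun a : ℕ => ∀ i, Int.gcd ((a : ℤ) + h i) (Ps x) = 1)).card : ℝ) / Ps x

/-- LG2-C: residues modulo a primorial avoiding some classes. -/
def CrtI : Prop :=
  ∀ (z : ℕ) (κ : Type) [Fintype κ] (h : κ → ℤ),
    ((range (primorial z)).filter (fun a : ℕ =>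
      ∀ i, Int.gcd ((a : ℤ) + h i) (primorial z) = 1)).card =
    ∏ p ∈ (range (z + 1)).filter Nat.Prime,
      ((range p).filter (fun a : ℕ => ∀ i, ¬ (p : ℤ) ∣ (a : ℤ) + h i)).card

/-- LG2-T: the transfer for all integers. -/
def TransferI : Prop :=
  ∀ (k u0 : ℕ) (ρ θ A : ℝ), 0 < ρ → ρ ≤ 1 / 100 → 1 / 2 ≤ θ → θ < 1 → 0 < A →
    ∃ X0 : ℝ, 3 ≤ X0 ∧ ∀ x : ℝ, X0 ≤ x → ∀ (κ : Type) [Fintype κ] [DecidableEq κ],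
    Fintype.card κ ≤ u0 → ∀ h : κ → ℤ, Function.Injective h →
    (∀ i, 2 * |(h i : ℝ)| ≤ Real.log x ^ 2) →
    ∀ μ : κ → Finset (PL ρ x) → ℝ, (∀ i S, |μ i S| ≤ (k : ℝ) ^ (S.card + 1)) →
    (∀ S : κ → Finset (PL ρ x), (∀ i, μ i (S i) ≠ 0) →
      ∑ i, ∑ p ∈ S i, Real.log ((p : ℕ) : ℝ) ≤ Real.log x / 50) →
    |∑ n ∈ (Nx θ x).filter (fun n : ℕ => ∀ i, Int.gcd ((n : ℤ) + h i) (Ps x) = 1),
        1 / (n : ℝ) * ∏ i, ∑ S ∈ (sg ρ x (h i) n).powerset, μ i S -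
      Mi θ x * sI x h * Eq κ (wi ρ x) (fun σ => ∏ i, ∑ S ∈ (cls σ i).powerset, μ i S)| ≤
      1 / Real.log x ^ A

/-- LG2-F: lower bounds for the probabilities. -/
def MF3 : Prop :=
  ∃ c3 C3 : ℝ, 0 < c3 ∧ 1 ≤ C3 ∧ ∀ (ρ : ℝ) (J' : ℕ), 0 < ρ → ρ ≤ 1 / 100 → ∃ X0 : ℝ, 3 ≤ X0 ∧
    ∀ x : ℝ, X0 ≤ x → ∀ r : ℕ → ℕ,
      c3 * 2 ^ J' * Real.log (Real.log x) / (ρ * Real.log x) ≤ (Dg ρ r x).Plow J' ∧
      (∀ j ≤ J', ∏ i ∈ Ico j J', (Dg ρ r x).P0 i ≤ C3 * 2 ^ j / 2 ^ J')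

/-- LG2-P: the small primes. -/
def PhiP : Prop :=
  ∃ c8 X0 : ℝ, 0 < c8 ∧ 3 ≤ X0 ∧ ∀ x : ℝ, X0 ≤ x →
    c8 * Real.log (Real.log x) * (Om x).card ≤ Ps x

/-- LG2-G: weight functions and the total mass. -/
def MassP2 : Prop :=
  ∀ θ : ℝ, 1 / 2 < θ → θ < 1 → ∃ g : ℝ → ℝ, IsWt g ∧ (∀ v, g v ≤ 1) ∧
    ∃ θ' : ℝ, θ < θ' ∧ θ' < 1 ∧ (∀ v, g v ≠ 0 → θ' < v ∧ v < 1 - (1 - θ') / 100) ∧
    ∃ X0 : ℝ, 3 ≤ X0 ∧ ∀ x : ℝ, X0 ≤ x → (1 - θ) / 4 * Real.log x ≤ Mn g x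

/-- All integers of absolute value at most `H`. -/
def offs (H : ℕ) (i : Fin (2 * H + 1)) : ℤ := (i.1 : ℤ) - H

/-- The window of the positions with offset between `lo` and `lo + len`. -/
noncomputable def win (H : ℕ) (lo len : ℝ) : Finset (Fin (2 * H + 1)) :=
  univ.filter (fun i => lo ≤ (offs H i : ℝ) ∧ (offs H i : ℝ) ≤ lo + len)

/-- The injective tuples with values in the windows and in `B`. -/
noncomputable def TT {Y k : ℕ} (w : Fin k → Finset (Fin Y)) (B : Finset (Fin Y)) :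
    Finset (Fin k → Fin Y) := by
  classical exact univ.filter (fun τ => Function.Injective τ ∧ ∀ i, τ i ∈ w i ∧ τ i ∈ B)

/-- LG2-L: the number of tuples. -/
def LowT : Prop :=
  ∀ (k : ℕ) (C η : ℝ), 0 < C → 0 < η → ∃ c7 X0 : ℝ, 0 < c7 ∧ 3 ≤ X0 ∧ ∀ x : ℝ, X0 ≤ x →
    ∀ β : Fin k → ℝ, (∀ i, -C ≤ β i ∧ β i + η ≤ C) →
    c7 * (Real.log x / Real.log (Real.log x)) ^ k ≤
      avg (range (Ps x)) (fun a => ((TT (fun i => win ⌊C * Real.log x⌋₊ (β i * Real.log x)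
        (η * Real.log x)) (Bs x (offs ⌊C * Real.log x⌋₊) a)).card : ℝ))

/-! ### The second part -/

/-- The value of an optional boosting mode. -/
def evb {J' : ℕ} (f0 : ℝ) (f : Fin J' → ℝ) : Option (Fin J') → ℝ
  | none => f0
  | some j => f j

/-- The letter of a boosting mode. -/
def lbo {J' J1 : ℕ} : Option (Fin J') → Lb J' J1
  | none => .b0
  | some j => .bs j

/-- The letter of a killing mode. -/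
def lko {J' J1 : ℕ} : Option (Fin J1) → Lb J' J1
  | none => .one
  | some j => .ks j

/-- The positions of the letters. -/
def UW2 {Y J' J1 : ℕ} (W : Fin Y → Fin 4 → Lb J' J1) : Finset (Fin Y) :=
  univ.filter (fun i => W i ≠ blank J' J1)

/-- The values of a tuple. -/
def rgt {Y k : ℕ} (τ : Fin k → Fin Y) : Finset (Fin Y) := univ.image τ

/-- The weight of the tuple `τ`. -/
noncomputable def gt {Y k J' J1 : ℕ} (kb : Fin J' → ℕ) (kk : Fin J1 → ℕ) (cs : ℝ)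
    (τ : Fin k → Fin Y) (B : Finset (Fin Y)) (v : Fin Y → Lb J' J1 → ℝ) : ℝ :=
  ∑ ψ ∈ adm k kb, ∑ φ ∈ (adm Y kk).filter (fun φ => supp φ ⊆ B \ rgt τ),
    (-1) ^ (supp φ).card * cs ^ (supp ψ).card *
      ((∏ i, v (τ i) (lbo (ψ i))) * ∏ p, v p (lko (φ p)))

/-- The data of the second part of the argument. -/
structure F2 (Y k J' J1 : ℕ) where
  kb : Fin J' → ℕ
  kk : Fin J1 → ℕ
  cs : ℝ
  w : Fin k → Finset (Fin Y)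
  F : Finset ℕ
  Ω : Finset ℕ
  μ : ℕ → ℝ
  νp : Fin Y → ℕ → ℝ
  B : ℕ → Finset (Fin Y)
  v : ℕ → Fin Y → Lb J' J1 → ℝ
  E : (Fin 4 → Lb J' J1) → ℝ
  e : Fin J1 → ℝ
  f0 : ℝ
  f : Fin J' → ℝ
  lv : Lb J' J1 → ℝ
  u0 : ℕ
  MI : ℝ
  MP : ℝ
  N0 : ℝ
  Plow : ℝ
  Pall : ℝ
  c5 : ℝ
  t2 : ℝ
  ε1 : ℝ
  ε2 : ℝ

/-- The sum of the masses of the admissible boosting assignments. -/
noncomputable def F2.Nb {Y k J' J1 : ℕ} (R : F2 Y k J' J1) : ℝ :=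
  ∑ ψ ∈ adm k R.kb, ∏ i, evb R.f0 (fun j => R.cs ^ 2 * R.f j) (ψ i)

/-- The same with a prime at the position `i` of the tuple. -/
noncomputable def F2.Pb {Y k J' J1 : ℕ} (R : F2 Y k J' J1) (i : Fin k) : ℝ :=
  ∑ ψ ∈ (adm k R.kb).filter (fun ψ => ψ i = none),
    (∏ i' ∈ univ.erase i, evb R.f0 (fun j => R.cs ^ 2 * R.f j) (ψ i')) *
      (1 + R.cs * ((univ.filter (fun j => (cls ψ j).card < R.kb j)).card : ℝ)) ^ 2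

/-- The weight at `n`. -/
noncomputable def F2.g {Y k J' J1 : ℕ} (R : F2 Y k J' J1) (τ : Fin k → Fin Y) (n : ℕ) : ℝ :=
  gt R.kb R.kk R.cs τ (R.B n) (R.v n)

/-- The assumptions of the second part of the argument. -/
structure F2.Ok {Y k J' J1 : ℕ} (R : F2 Y k J' J1) : Prop where
  J1_pos : 0 < J1
  k_pos : 0 < k
  kk_pos : ∀ j, 0 < R.kk j
  kb_pos : ∀ j, 0 < R.kb j
  cs_nonneg : 0 ≤ R.cs
  cs_le : R.cs ≤ 1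
  mu_nonneg : ∀ n ∈ R.F, 0 ≤ R.μ n
  nup_nonneg : ∀ p, ∀ n ∈ R.F, 0 ≤ R.νp p n
  nup_mem : ∀ p, ∀ n ∈ R.F, R.νp p n ≠ 0 →
    p ∈ R.B n ∧ R.v n p .b0 = 1 ∧ ∀ j, R.v n p (.bs j) = 1
  v_one : ∀ n i, R.v n i .one = 1
  v_mj : ∀ n i, 0 ≤ R.v n i .mj
  O_ne : R.Ω.Nonempty
  N0_eq : ∀ p, ((R.Ω.filter (fun a => p ∈ R.B a)).card : ℝ) = R.N0
  N0_pos : 0 < R.N0
  E_blank : R.E (blank J' J1) = 1
  mean1 : ∀ j, R.E ![.ks j, .one, .one, .one] = 0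
  mean2 : ∀ j, R.E ![.one, .ks j, .one, .one] = 0
  orth : ∀ i j, i ≠ j → R.E ![.ks i, .ks j, .one, .one] = 0
  sq : ∀ j, R.E ![.ks j, .ks j, .one, .one] = R.e j
  b1 : ∀ j, R.E ![.b0, .bs j, .one, .one] = 0
  b2 : ∀ j, R.E ![.bs j, .b0, .one, .one] = 0
  b3 : ∀ i j, i ≠ j → R.E ![.bs i, .bs j, .one, .one] = 0
  b4 : ∀ j, R.E ![.bs j, .bs j, .one, .one] = R.f j
  b5 : R.E ![.b0, .b0, .one, .one] = R.f0
  e_nonneg : ∀ j, 0 ≤ R.e j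
  f_nonneg : ∀ j, 0 ≤ R.f j
  f0_nonneg : 0 ≤ R.f0
  bound : ∀ W, W ≠ blank J' J1 → |R.E W| ≤ R.c5 * R.Plow
  quad : ∀ s : Finset (Fin J1),
    ∑ o ∈ insertNone s, ∑ o' ∈ insertNone s,
      (if o = none then 1 else -1) * (if o' = none then 1 else -1) *
        R.E ![lko o, lko o', .mj, .one] ≤ R.Pall * (((J1 : ℝ) - s.card) / J1 + R.t2)
  MI_nonneg : 0 ≤ R.MI
  MP_nonneg : 0 ≤ R.MP
  Plow_nonneg : 0 ≤ R.Plow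
  Plow_le : R.Plow ≤ 1
  Pall_nonneg : 0 ≤ R.Pall
  c5_ge : 1 ≤ R.c5
  t2_nonneg : 0 ≤ R.t2
  e1_nonneg : 0 ≤ R.ε1
  e2_nonneg : 0 ≤ R.ε2
  lv_nonneg : ∀ l, 0 ≤ R.lv l
  lv_one : R.lv .one = 0
  u0_ge : 4 * (k + ∑ j, R.kk j) + 1 ≤ R.u0
  lev4 : 4 * (k * R.lv .b0 + ∑ j, (R.kb j : ℝ) * R.lv (.bs j) + ∑ j, (R.kk j : ℝ) * R.lv (.ks j)) +
    R.lv .mj ≤ 1 / 50
  est : ∀ W : Fin Y → Fin 4 → Lb J' J1, (UW2 W).card ≤ R.u0 → ∑ i, ∑ l, R.lv (W i l) ≤ 1 / 50 →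
    |∑ n ∈ R.F.filter (fun n => UW2 W ⊆ R.B n), R.μ n * ∏ i, ∏ l, R.v n i (W i l) -
      R.MI * dn R.Ω R.B (UW2 W) * ∏ i, R.E (W i)| ≤
      R.ε1 + R.ε2 * R.MI * dn R.Ω R.B (UW2 W) * R.Plow ^ (UW2 W).card
  estp : ∀ p : Fin Y, ∀ W : Fin Y → Fin 4 → Lb J' J1, W p = blank J' J1 →
    (UW2 W).card ≤ R.u0 → ∑ i, ∑ l, R.lv (W i l) ≤ 1 / 50 →
    |∑ n ∈ R.F.filter (fun n => UW2 W ⊆ R.B n), R.νp p n * ∏ i, ∏ l, R.v n i (W i l) -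
      R.MP * (((R.Ω.filter (fun a => insert p (UW2 W) ⊆ R.B a)).card : ℝ) / R.N0) *
        ∏ i, R.E (W i)| ≤
      R.ε1 + R.ε2 * R.MP * (((R.Ω.filter (fun a => insert p (UW2 W) ⊆ R.B a)).card : ℝ) / R.N0) *
        R.Plow ^ (UW2 W).card

/-- The number of pairs of admissible assignments, an error factor. -/
noncomputable def F2.NN {Y k J' J1 : ℕ} (R : F2 Y k J' J1) : ℝ :=
  ((adm k R.kb).card : ℝ) ^ 2 * ((adm Y R.kk).card : ℝ) ^ 2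

/-- The factor from the killing assignments in the error terms. -/
noncomputable def F2.Xa {Y k J' J1 : ℕ} (R : F2 Y k J' J1) (a : ℕ) : ℝ :=
  (1 + ((J1 : ℝ) + 1) ^ 2 * R.Plow) ^ (R.B a).card * ((adm k R.kb).card : ℝ) ^ 2

/-- LG2-S1: the sum of the squares. -/
def SumOne2 : Prop :=
  ∀ (Y k J' J1 : ℕ) (R : F2 Y k J' J1), R.Ok →
    |∑ n ∈ R.F, R.μ n * ∑ τ ∈ TT R.w (R.B n), R.g τ n ^ 2 -
      R.MI * avg R.Ω (fun a => ∑ τ ∈ TT R.w (R.B a), R.Nb * SS R.kk R.e (R.B a \ rgt τ))| ≤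
      R.ε1 * Y ^ k * R.NN +
        R.ε2 * R.MI * avg R.Ω (fun a => ((R.B a).card * R.Plow) ^ k * R.Xa a)

/-- LG2-S2: the sum with the majorants at the other positions. -/
def SumTwo2 : Prop :=
  ∀ (Y k J' J1 : ℕ) (R : F2 Y k J' J1), R.Ok →
    ∑ n ∈ R.F, R.μ n * ∑ τ ∈ TT R.w (R.B n), R.g τ n ^ 2 * ∑ p ∈ R.B n \ rgt τ, R.v n p .mj ≤
      R.MI * avg R.Ω (fun a => ∑ τ ∈ TT R.w (R.B a), R.Nb * ((R.B a).card * R.Pall *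
        ((∑ j, (R.B a).card * R.e j / R.kk j) / J1 + R.t2) * SS R.kk R.e (R.B a \ rgt τ))) +
      (R.ε1 * Y ^ (k + 1) * R.NN +
        R.ε2 * R.MI * avg R.Ω (fun a => (R.B a).card * (((R.B a).card * R.Plow) ^ k * R.Xa a)))

/-- LG2-S3: the sum over the `n` with a prime at the position `i` of the tuple. -/
def SumThree2 : Prop :=
  ∀ (Y k J' J1 : ℕ) (R : F2 Y k J' J1), R.Ok → ∀ i : Fin k,
    R.MP * ((R.Ω.card : ℝ) / R.N0) *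
        avg R.Ω (fun a => ∑ τ ∈ TT R.w (R.B a), R.Pb i * SS R.kk R.e (R.B a \ rgt τ)) -
      (R.ε1 * Y ^ k * R.NN + R.ε2 * R.MP * ((R.Ω.card : ℝ) / R.N0) *
        avg R.Ω (fun a => (R.B a).card * (((R.B a).card * R.Plow) ^ (k - 1) * R.Xa a))) ≤
      ∑ n ∈ R.F, ∑ τ ∈ TT R.w (R.B n), R.νp (τ i) n * R.g τ n ^ 2

/-- LG2-S4: the sum of the squares of the total weight. -/
def SumFour2 : Prop :=
  ∀ (Y k J' J1 : ℕ) (R : F2 Y k J' J1), R.Ok →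
    ∑ n ∈ R.F, R.μ n * (∑ τ ∈ TT R.w (R.B n), R.g τ n ^ 2) ^ 2 ≤
      R.MI * (1 + R.ε2) * (((adm k R.kb).card : ℝ) ^ 4 * (2 * k) ^ (2 * k) *
          ((J1 : ℝ) + 1) ^ (8 * k)) *
        avg R.Ω (fun a => (1 + R.c5 * R.Plow) ^ (R.B a).card *
          (1 + ((J1 : ℝ) + 1) ^ 4 * (R.c5 * R.Plow)) ^ (R.B a).card) +
      R.ε1 * Y ^ (2 * k) * R.NN ^ 2

/-- The primes: `P p n` means that the position `p` is prime. -/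
structure F2.Pr {Y k J' J1 : ℕ} (R : F2 Y k J' J1) (P : Fin Y → ℕ → Prop) (L : ℝ) : Prop where
  L_pos : 0 < L
  nup_le : ∀ p, ∀ n ∈ R.F, R.νp p n ≠ 0 → P p n ∧ R.νp p n ≤ 2 * L * R.μ n
  mem : ∀ p, ∀ n ∈ R.F, P p n → p ∈ R.B n ∧ R.v n p .mj = 1

/-- The good `n`: for some tuple in the windows at least `m` of the positions are prime, and all
the primes among the positions are in the tuple. -/
def F2.Good {Y k J' J1 : ℕ} (R : F2 Y k J' J1) (P : Fin Y → ℕ → Prop) (m n : ℕ) : Prop :=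
  ∃ (τ : Fin k → Fin Y) (s : Finset (Fin k)), Function.Injective τ ∧ (∀ i, τ i ∈ R.w i) ∧
    m ≤ s.card ∧ (∀ i ∈ s, P (τ i) n) ∧ ∀ p, P p n → ∃ i, p = τ i

open Classical in
/-- LG2-S5: the conclusion of the second part. -/
def CoreEnd2 : Prop :=
  ∀ (Y k J' J1 : ℕ) (R : F2 Y k J' J1), R.Ok → ∀ (P : Fin Y → ℕ → Prop) (L : ℝ), R.Pr P L →
    ∀ (m : ℕ) (b c6 C4 : ℝ), 1 ≤ m → m ≤ k → (∀ a ∈ R.Ω, ((R.B a).card : ℝ) ≤ b) → 0 < c6 →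
    0 < C4 →
    c6 ≤ R.Nb * avg R.Ω (fun a => ((TT R.w (R.B a)).card : ℝ)) →
    (∀ j, b * R.Pall * (b * R.e j / R.kk j + R.t2) ≤ 1 / (8 * k)) →
    (m : ℝ) * R.MI * R.Nb ≤ ∑ i, R.MP * ((R.Ω.card : ℝ) / R.N0) / (2 * L) * R.Pb i →
    R.ε2 * ((b * R.Plow) ^ k * (1 + b) * ((adm k R.kb).card : ℝ) ^ 2 *
      Real.exp (((J1 : ℝ) + 1) ^ 2 * R.Plow * b)) ≤ c6 / (32 * k ^ 2) →
    R.ε2 * R.MP * ((R.Ω.card : ℝ) / R.N0) / (2 * L) * (b * (b * R.Plow) ^ (k - 1) *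
      ((adm k R.kb).card : ℝ) ^ 2 * Real.exp (((J1 : ℝ) + 1) ^ 2 * R.Plow * b)) ≤
      c6 * R.MI / (32 * k ^ 2) →
    R.ε1 * (1 + 1 / L) * (1 + (Y : ℝ)) ^ (2 * k + 1) * (1 + R.NN) ^ 2 ≤
      c6 * R.MI / (32 * k ^ 2) →
    R.ε1 * (1 + (Y : ℝ)) ^ (2 * k + 1) * (1 + R.NN) ^ 2 ≤ R.MI →
    (((adm k R.kb).card : ℝ) ^ 4 * (2 * k) ^ (2 * k) * ((J1 : ℝ) + 1) ^ (8 * k)) *
      (1 + R.ε2) * Real.exp (2 * (((J1 : ℝ) + 1) ^ 4 * (R.c5 * R.Plow)) * b) + 1 ≤ C4 →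
    (c6 / (4 * k)) ^ 2 / C4 * R.MI ≤ ∑ n ∈ R.F.filter (fun n => R.Good P m n), R.μ n

/-- LG2-Q: the boosted probability of a prime. -/
def BoostMass : Prop :=
  ∀ (Y k J' J1 : ℕ) (R : F2 Y k J' J1), 0 < k → 0 < J' → 0 < R.f0 → (∀ j, 0 ≤ R.f j) →
    0 ≤ R.cs → (∀ j : Fin J', R.cs ^ 2 * R.f j ≤ R.f0 * 2 ^ (j : ℕ) / 2 ^ J') →
    (∀ j : Fin J', 0 < R.kb j ∧ 16 * (k : ℝ) * 2 ^ (j : ℕ) / 2 ^ J' ≤ R.kb j) → ∀ i : Fin k,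
    R.Nb * (R.cs ^ 2 * (J' : ℝ) ^ 2) / (4 * R.f0) ≤ R.Pb i

/-! ### Parameters and assembly -/

/-- LG2-O: levels and tails for the orders `ro`. -/
def Orders : Prop :=
  ∀ m0 J' i1 J1 : ℕ, 100 ≤ m0 → J' ≤ i1 → 0 < J1 → ∀ I : ℕ,
    (∀ j ≤ J', ∑ i ∈ Ico j I, (ro m0 J' i1 J1 i : ℝ) / 2 ^ i ≤ 12 * m0 / 2 ^ j) ∧
    (∀ j, i1 ≤ j → j ≤ i1 + J1 → ∑ i ∈ Ico j I, (ro m0 J' i1 J1 i : ℝ) / 2 ^ i ≤
      12 * ((m0 + (i1 - J') : ℕ) : ℝ) / 2 ^ j) ∧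
    ∑ i ∈ Ico i1 I, tt (ro m0 J' i1 J1 i) ≤ ((J1 : ℝ) + 2) * tt (2 * (m0 + (i1 - J'))) ∧
    ∑ i ∈ range I, tt (ro m0 J' i1 J1 i) ≤ ((J' : ℝ) + 2) * tt (2 * m0) +
      ((J1 : ℝ) + 2) * tt (2 * (m0 + (i1 - J')))

/-- LG2-B: the parameters of the boosting modes. -/
def BoostParams : Prop :=
  ∀ (m : ℕ) (A : ℝ), 0 < A → ∃ (m0 J' k : ℕ) (kb : Fin J' → ℕ) (ρ : ℝ), 0 < J' ∧ 0 < k ∧ m ≤ k ∧
    0 < ρ ∧ ρ ≤ 1 / 100 ∧ 100 ≤ m0 ∧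
    (∀ j : Fin J', 0 < kb j ∧ 16 * (k : ℝ) * 2 ^ (j : ℕ) / 2 ^ J' ≤ kb j) ∧
    A * m ≤ k * ρ * (J' : ℝ) ^ 2 / 2 ^ J' ∧ ((J' : ℝ) + 2) * tt (2 * m0) ≤ 1 / 2000 ∧
    k * (12 * m0 * ρ / 2 ^ J') + ∑ j : Fin J', (kb j : ℝ) * (12 * m0 * ρ / 2 ^ (j : ℕ)) ≤ 1 / 1000

/-- LG2-K: the parameters of the killing modes. -/
def KillParams : Prop :=
  ∀ (H ε ρ : ℝ) (m0 J' : ℕ), 1 ≤ H → 0 < ε → 0 < ρ → ρ ≤ 1 / 100 → 100 ≤ m0 →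
    ∃ (i1 J1 : ℕ) (kk : Fin J1 → ℕ), J' ≤ i1 ∧ 0 < J1 ∧ (∀ j, 0 < kk j) ∧
    ((J1 : ℝ) + 2) * tt (2 * (m0 + (i1 - J'))) ≤ 1 / 2000 ∧
    (∀ j : Fin J1, H * 2 ^ i1 / ρ * (200 * H * 2 ^ (i1 + (j : ℕ)) / ((J1 : ℝ) ^ 2 * ρ * kk j) +
      2000 * (((J1 : ℝ) + 2) * tt (2 * (m0 + (i1 - J'))))) ≤ ε) ∧
    ∑ j : Fin J1, (kk j : ℝ) * (12 * ((m0 + (i1 - J') : ℕ) : ℝ) * ρ / 2 ^ (i1 + (j : ℕ))) ≤
      1 / 1000 ∧
    12 * ((m0 + (i1 - J') : ℕ) : ℝ) * ρ / 2 ^ i1 ≤ 1 / 1000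

/-- The event of the general theorem: at least `m` of the integers `n + h i` (distinct, `h i` in
prescribed windows) are prime, and every prime at distance at most `R` from `n` is one of them. -/
def Hit (k m : ℕ) (R len : ℝ) (lo : Fin k → ℝ) (n : ℕ) : Prop :=
  ∃ (h : Fin k → ℤ) (s : Finset (Fin k)), Function.Injective h ∧
    (∀ i, lo i ≤ (h i : ℝ) ∧ (h i : ℝ) ≤ lo i + len) ∧ m ≤ s.card ∧
    (∀ i ∈ s, ((n : ℤ) + h i).natAbs.Prime) ∧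
    ∀ h' : ℤ, |(h' : ℝ)| ≤ R → ((n : ℤ) + h').natAbs.Prime → ∃ i, h' = h i

open Classical in
/-- The general theorem. -/
def GT : Prop :=
  ∀ m : ℕ, ∃ k : ℕ, 0 < k ∧ ∀ C η θ : ℝ, 0 < C → 0 < η → 1 / 2 < θ → θ < 1 →
    ∃ c X0 : ℝ, 0 < c ∧ 3 ≤ X0 ∧ ∀ x : ℝ, X0 ≤ x → ∀ β : Fin k → ℝ,
    (∀ i, -C ≤ β i ∧ β i + η ≤ C) →
    c * Real.log x ≤ ∑ n ∈ (Ioc ⌊x ^ θ⌋₊ ⌊x⌋₊).filter
      (fun n => Hit k m (C * Real.log x) (η * Real.log x) (fun i => β i * Real.log x) n),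
      1 / (n : ℝ)

end Pool.Agent.Helper1.LG2
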