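import Pool.Agent.Helper1.LG2.Defs
import Pool.Agent.Helper1.LG.Rng
import Pool.Agent.Helper1.LG.Excl

set_option autoImplicit false

/-!
LG2-X. Exclusive colourings with weights `w'` versus independent sets with weights `w`
(`Excl2` in `LG2/Defs.lean`). Like LG-X (`LG/Excl.lean`, proved on main: adapt it).

Differences: (1) the letters of `Lb`, crude bound
`|wb W| ≤ h(S) := 625 ∏_{r < i1+J1} 16^{N_r} ∏_{i1+J1 ≤ r < I} ([N_r = 0] + [N_r > r_r] 16^{N_r})`;
(2) the exclusive model has the weights `w'`, `|w' - w| ≤ w²`: `∑_X |q'_exc(X) - q_ind(X)| ≤ c_u w²` still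
holds, and `max(q'_exc, q_ind)(X) ≤ (1 + 2 u w²) 2^{|X|} q_ind(X)` (for `∅`:
`1 - u w' ≤ 1 - u w + u w² ≤ (1-w)^u (1 + 2 u w²)`; for `{i}`: `w' ≤ (5/4) w`, `q_ind ≥ (3/4) w`); the product of
the factors `1 + 2 u w_p²` is at most `exp(2 u)` since `∑ w_p² ≤ 1`.
-/

open Finset

namespace Pool.Agent.Helper1.LG2

open Pool.Agent.Helper1.MT (cls pr)
open Pool.Agent.Helper1.LG (Dt Ex Eq Reg Em Em_smul Ex_eq_Em tt xG xG_nonneg x_one_le_two_pow xh
  xh_nonneg x_pow_fac qe x_local x_pow_lower x_prod_card x_prod_diff x_prod_Em x_Eq xU xV xU_nonneg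
  xV_nonneg x_Em_nonneg x_Em_xh)

section Major

variable {ι : Type} [Fintype ι] [DecidableEq ι]

/-- The product of the factors from `j0` on. -/
theorem y_prod {D : Dt ι} {J : ℕ} {t : ℝ} (h : Reg D J t) (j0 : ℕ) (hj0 : j0 ≤ J)
    (S : Finset ι) : ∏ i ∈ Ico j0 D.I, D.A i S ≤ ∏ r ∈ range D.I, xG D J r S := by
  have hjI : j0 ≤ D.I := le_trans hj0 h.J_le
  rw [← prod_range_mul_prod_Ico _ hjI]
  have h1 : 1 ≤ ∏ r ∈ range j0, xG D J r S := by
    calc (1 : ℝ) = ∏ _r ∈ range j0, (1 : ℝ) := by simp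
      _ ≤ _ := by
        apply prod_le_prod (fun _ _ => by norm_num)
        intro r hr
        rw [mem_range] at hr
        rw [xG, if_pos (by omega)]
        exact x_one_le_two_pow _
  have h2 : ∏ i ∈ Ico j0 D.I, D.A i S ≤ ∏ i ∈ Ico j0 D.I, xG D J i S := by
    apply prod_le_prod (fun r _ => (h.A_facts r S).1)
    intro r _
    rw [xG]
    split_ifs
    · exact (h.A_facts r S).2.1
    · exact le_refl _
  have h3 : 0 ≤ ∏ i ∈ Ico j0 D.I, D.A i S := prod_nonneg fun r _ => (h.A_facts r S).1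
  calc ∏ i ∈ Ico j0 D.I, D.A i S = 1 * ∏ i ∈ Ico j0 D.I, D.A i S := (one_mul _).symm
    _ ≤ _ := mul_le_mul h1 h2 h3 (by linarith)

/-- A mode. -/
theorem y_md {D : Dt ι} {J : ℕ} {t : ℝ} (h : Reg D J t) (j : ℕ) (hj : j < J) (S : Finset ι) :
    |md D j S| ≤ 5 * ∏ r ∈ range D.I, xG D J r S := by
  rw [md]
  have hjI : j < D.I := lt_of_lt_of_le hj h.J_le
  have ha := h.a_le j hjI
  have h1a := h.one_sub_a hj
  have hA := h.A_facts j S
  have h2 := x_one_le_two_pow (Pool.Agent.Helper1.LG.cnt D.rg j S)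
  have hq : |(D.A j S - D.a j) / (1 - D.a j)| ≤
      5 * 2 ^ Pool.Agent.Helper1.LG.cnt D.rg j S := by
    rw [abs_div, abs_of_pos (by linarith : 0 < 1 - D.a j), div_le_iff₀ (by linarith)]
    have h3 : |D.A j S - D.a j| ≤ 2 ^ Pool.Agent.Helper1.LG.cnt D.rg j S := by
      rw [abs_le]
      constructor
      · linarith [hA.1]
      · linarith [hA.2.1, ha.1]
    calc |D.A j S - D.a j| ≤ 2 ^ Pool.Agent.Helper1.LG.cnt D.rg j S := h3
      _ ≤ 5 * 2 ^ Pool.Agent.Helper1.LG.cnt D.rg j S * (1 - D.a j) := by nlinarith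
  have hprod0 : 0 ≤ ∏ i ∈ Ioo j D.I, D.A i S :=
    prod_nonneg fun r _ => (h.A_facts r S).1
  rw [abs_mul, abs_of_nonneg hprod0]
  have hle : 2 ^ Pool.Agent.Helper1.LG.cnt D.rg j S * ∏ i ∈ Ioo j D.I, D.A i S ≤
      ∏ r ∈ range D.I, xG D J r S := by
    rw [← prod_range_mul_prod_Ico _ hjI.le, ← prod_Ioo_mul_eq_prod_Ico hjI]
    have h1 : 1 ≤ ∏ r ∈ range j, xG D J r S := by
      calc (1 : ℝ) = ∏ _r ∈ range j, (1 : ℝ) := by simp
        _ ≤ _ := by
          apply prod_le_prod (fun _ _ => by norm_num)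
          intro r hr
          rw [mem_range] at hr
          rw [xG, if_pos (by omega)]
          exact x_one_le_two_pow _
    have e1 : xG D J j S = 2 ^ Pool.Agent.Helper1.LG.cnt D.rg j S := by rw [xG, if_pos hj]
    have h4 : ∏ i ∈ Ioo j D.I, D.A i S ≤ ∏ i ∈ Ioo j D.I, xG D J i S := by
      apply prod_le_prod (fun r _ => (h.A_facts r S).1)
      intro r _
      rw [xG]
      split_ifs
      · exact (h.A_facts r S).2.1
      · exact le_refl _
    rw [e1, mul_comm (∏ i ∈ Ioo j D.I, xG D J i S)]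
    have h5 : 2 ^ Pool.Agent.Helper1.LG.cnt D.rg j S * ∏ i ∈ Ioo j D.I, D.A i S ≤
        2 ^ Pool.Agent.Helper1.LG.cnt D.rg j S * ∏ i ∈ Ioo j D.I, xG D J i S :=
      mul_le_mul_of_nonneg_left h4 (by positivity)
    have h6 : 0 ≤ 2 ^ Pool.Agent.Helper1.LG.cnt D.rg j S * ∏ i ∈ Ioo j D.I, D.A i S := by
      positivity
    calc 2 ^ Pool.Agent.Helper1.LG.cnt D.rg j S * ∏ i ∈ Ioo j D.I, D.A i S
        = 1 * (2 ^ Pool.Agent.Helper1.LG.cnt D.rg j S * ∏ i ∈ Ioo j D.I, D.A i S) :=
          (one_mul _).symm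
      _ ≤ _ := mul_le_mul h1 h5 h6 (by linarith)
  calc |(D.A j S - D.a j) / (1 - D.a j)| * ∏ i ∈ Ioo j D.I, D.A i S
      ≤ (5 * 2 ^ Pool.Agent.Helper1.LG.cnt D.rg j S) * ∏ i ∈ Ioo j D.I, D.A i S :=
        mul_le_mul_of_nonneg_right hq hprod0
    _ = 5 * (2 ^ Pool.Agent.Helper1.LG.cnt D.rg j S * ∏ i ∈ Ioo j D.I, D.A i S) := by ring
    _ ≤ 5 * ∏ r ∈ range D.I, xG D J r S := by linarith

/-- One letter. -/
theorem y_letter {J' J1 i1 : ℕ} (hJ : J' ≤ i1) (hJ1 : 0 < J1) {D : Dt ι} {t : ℝ}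
    (h : Reg D (i1 + J1) t) (L : Lb J' J1) (hL : L ≠ .one) (S : Finset ι) :
    |Fb i1 D L S| ≤ 5 * ∏ r ∈ range D.I, xG D (i1 + J1) r S := by
  have hG0 : 0 ≤ ∏ r ∈ range D.I, xG D (i1 + J1) r S := prod_nonneg fun r _ => xG_nonneg h r S
  cases L with
  | one => exact absurd rfl hL
  | b0 =>
    rw [Fb, abs_of_nonneg (prod_nonneg fun r _ => (h.A_facts r S).1)]
    have := y_prod h J' (by omega) S
    linarith
  | bs j =>
    rw [Fb]
    exact y_md h j (by have := j.2; omega) S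
  | mj =>
    rw [Fb, abs_of_nonneg (prod_nonneg fun r _ => (h.A_facts r S).1)]
    have := y_prod h i1 (by omega) S
    linarith
  | ks j =>
    rw [Fb, abs_mul, abs_of_nonneg (by positivity : 0 ≤ 1 / (J1 : ℝ))]
    have h1 := y_md h (i1 + j) (by have := j.2; omega) S
    have h2 : 1 / (J1 : ℝ) ≤ 1 := by
      have h3 : (1 : ℝ) ≤ J1 := by exact_mod_cast hJ1
      rw [div_le_one (by linarith)]
      exact h3
    calc 1 / (J1 : ℝ) * |md D (i1 + j) S| ≤ 1 * |md D (i1 + j) S| :=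
          mul_le_mul_of_nonneg_right h2 (abs_nonneg _)
      _ ≤ _ := by rw [one_mul]; exact h1

/-- One word. -/
theorem y_word {J' J1 i1 : ℕ} (hJ : J' ≤ i1) (hJ1 : 0 < J1) {D : Dt ι} {t : ℝ}
    (h : Reg D (i1 + J1) t) (ρ : ℕ) (W : Fin 4 → Lb J' J1) (hW : W ≠ blank J' J1)
    (S : Finset ι) : |wb i1 D W S| ≤ 625 * xh D (i1 + J1) ρ S := by
  set G : ℝ := ∏ r ∈ range D.I, xG D (i1 + J1) r S with hG
  have hG0 : 0 ≤ G := prod_nonneg fun r _ => xG_nonneg h r S
  set K := (univ.filter (fun l => ¬ W l = .one)).card with hK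
  have hK4 : K ≤ 4 := by
    have := card_le_univ (univ.filter (fun l => ¬ W l = .one))
    simpa using this
  have hK1 : 1 ≤ K := by
    rw [hK, Nat.one_le_iff_ne_zero, Ne, card_eq_zero, filter_eq_empty_iff]
    intro hall
    apply hW
    funext l
    have := hall (mem_univ l)
    rw [not_not] at this
    exact this
  have h1 : |wb i1 D W S| ≤ (5 * G) ^ K := by
    rw [wb, abs_prod]
    calc ∏ l, |Fb i1 D (W l) S| ≤ ∏ l, (if W l = .one then 1 else 5 * G) := by
          apply prod_le_prod (fun _ _ => abs_nonneg _)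
          intro l _
          split_ifs with hl
          · rw [hl, Fb]
            simp
          · exact y_letter hJ hJ1 h (W l) hl S
      _ = (5 * G) ^ K := by
          rw [prod_ite, prod_const_one, one_mul, prod_const]
  have h2 : G ^ K ≤ xh D (i1 + J1) ρ S := by
    rw [hG, ← prod_pow, xh]
    apply prod_le_prod (fun r _ => pow_nonneg (xG_nonneg h r S) K)
    intro r _
    exact x_pow_fac h ρ r hK1 hK4 S
  have h3 : (5 : ℝ) ^ K ≤ 625 := by
    calc (5 : ℝ) ^ K ≤ 5 ^ 4 := pow_le_pow_right₀ (by norm_num) hK4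
      _ = 625 := by norm_num
  calc |wb i1 D W S| ≤ (5 * G) ^ K := h1
    _ = 5 ^ K * G ^ K := mul_pow _ _ _
    _ ≤ 625 * xh D (i1 + J1) ρ S := mul_le_mul h3 h2 (by positivity) (by norm_num)

end Major

/-! ### The local factors -/

section Local

variable {κ : Type} [Fintype κ] [DecidableEq κ]

theorem y_local {w w' : ℝ} (hw : 0 ≤ w) (hw1 : w ≤ 1 / 4) (hu : (Fintype.card κ : ℝ) * w ≤ 1 / 4)
    (hw'0 : 0 ≤ w') (hw' : |w' - w| ≤ w ^ 2) (X : Finset κ) :
    (0 ≤ qe w' X ∧ qe w' X ≤ Real.exp (2 * (Fintype.card κ : ℝ) * w ^ 2) *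
      ∏ i, (if i ∈ X then 2 * w else 1 - w)) ∧
    (0 ≤ ∏ i, (if i ∈ X then w else 1 - w) ∧
      ∏ i, (if i ∈ X then w else 1 - w) ≤ Real.exp (2 * (Fintype.card κ : ℝ) * w ^ 2) *
        ∏ i, (if i ∈ X then 2 * w else 1 - w)) ∧
    |qe w' X - ∏ i, (if i ∈ X then w else 1 - w)| ≤
      2 * ((Fintype.card κ : ℝ) + 1) ^ 2 * w ^ 2 := by
  have hloc := x_local (κ := κ) hw hw1 (by linarith) X
  set u := Fintype.card κ with hudef
  have hX : X.card ≤ u := card_le_univ X
  have h1w : 0 ≤ 1 - w := by linarith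
  have h1w1 : 1 - w ≤ 1 := by linarith
  have hu0 : (0 : ℝ) ≤ u := Nat.cast_nonneg u
  have hw2 : 0 ≤ w ^ 2 := by positivity
  rw [abs_le] at hw'
  have hww : w ^ 2 ≤ 1 / 4 * w := by nlinarith
  have hexp : 1 + 2 * (u : ℝ) * w ^ 2 ≤ Real.exp (2 * (u : ℝ) * w ^ 2) := by
    have := Real.add_one_le_exp (2 * (u : ℝ) * w ^ 2)
    linarith
  have hexp1 : 1 ≤ Real.exp (2 * (u : ℝ) * w ^ 2) := by
    have : 0 ≤ 2 * (u : ℝ) * w ^ 2 := by positivity
    linarith
  have hM0 : 0 ≤ ∏ i, (if i ∈ X then 2 * w else 1 - w) := by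
    apply prod_nonneg
    intro i _
    split_ifs
    · linarith
    · exact h1w
  refine ⟨?_, ⟨hloc.2.1.1, ?_⟩, ?_⟩
  · rcases Nat.lt_or_ge X.card 2 with h2 | h2
    · rw [x_prod_card, ← hudef]
      interval_cases hc : X.card
      · rw [qe, if_pos hc, ← hudef, pow_zero, one_mul, Nat.sub_zero]
        have h3 := x_pow_lower (w := w) (by linarith) u
        constructor
        · have h4 : (u : ℝ) * w' ≤ u * (w + w ^ 2) := mul_le_mul_of_nonneg_left (by linarith) hu0
          have h5 : (u : ℝ) * w ^ 2 ≤ u * (1 / 4 * w) := mul_le_mul_of_nonneg_left hww hu0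
          nlinarith
        · have h4 : (u : ℝ) * (w - w ^ 2) ≤ u * w' := mul_le_mul_of_nonneg_left (by linarith) hu0
          have h6 : 3 / 4 ≤ 1 - (u : ℝ) * w := by linarith
          have h7 : 0 ≤ (u : ℝ) * w ^ 2 := by positivity
          calc 1 - (u : ℝ) * w' ≤ 1 - u * w + u * w ^ 2 := by linarith
            _ ≤ (1 + 2 * (u : ℝ) * w ^ 2) * (1 - u * w) := by nlinarith
            _ ≤ Real.exp (2 * (u : ℝ) * w ^ 2) * (1 - w) ^ u := by
                apply mul_le_mul hexp h3 (by linarith) (by linarith)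
      · rw [qe, if_neg (by omega), if_pos hc, pow_one]
        refine ⟨hw'0, ?_⟩
        have h3 := x_pow_lower (w := w) (by linarith) (u - 1)
        have h4 : ((u - 1 : ℕ) : ℝ) * w ≤ 1 / 4 := by
          have h5 : ((u - 1 : ℕ) : ℝ) ≤ u := by exact_mod_cast Nat.sub_le u 1
          nlinarith
        have h8 : w' ≤ 2 * w * (1 - w) ^ (u - 1) := by nlinarith
        have h9 : 0 ≤ 2 * w * (1 - w) ^ (u - 1) := by positivity
        nlinarith
    · rw [qe, if_neg (by omega), if_neg (by omega)]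
      exact ⟨le_refl _, by positivity⟩
  · calc ∏ i, (if i ∈ X then w else 1 - w) ≤ ∏ i, (if i ∈ X then 2 * w else 1 - w) := hloc.2.1.2
      _ = 1 * ∏ i, (if i ∈ X then 2 * w else 1 - w) := (one_mul _).symm
      _ ≤ _ := mul_le_mul_of_nonneg_right hexp1 hM0
  · have h3 : |qe w' X - qe w X| ≤ ((u : ℝ) + 1) * w ^ 2 := by
      rw [qe, qe]
      split_ifs
      · rw [← hudef]
        have e1 : (1 - (u : ℝ) * w') - (1 - u * w) = -(u * (w' - w)) := by ring
        rw [e1, abs_neg, abs_mul, abs_of_nonneg hu0]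
        have h4 : |w' - w| ≤ w ^ 2 := abs_le.2 hw'
        nlinarith
      · have h4 : |w' - w| ≤ w ^ 2 := abs_le.2 hw'
        nlinarith
      · rw [sub_self, abs_zero]
        positivity
    calc |qe w' X - ∏ i, (if i ∈ X then w else 1 - w)|
        = |(qe w' X - qe w X) + (qe w X - ∏ i, (if i ∈ X then w else 1 - w))| := by
          congr 1
          ring
      _ ≤ |qe w' X - qe w X| + |qe w X - ∏ i, (if i ∈ X then w else 1 - w)| := abs_add_le _ _
      _ ≤ ((u : ℝ) + 1) * w ^ 2 + ((u : ℝ) + 1) ^ 2 * w ^ 2 := add_le_add h3 hloc.2.2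
      _ ≤ 2 * ((u : ℝ) + 1) ^ 2 * w ^ 2 := by
          have h9 : (u : ℝ) + 1 ≤ ((u : ℝ) + 1) ^ 2 := by nlinarith
          have h10 := mul_le_mul_of_nonneg_right h9 hw2
          linarith

end Local

theorem excl2 : Excl2 := by
  intro J' J1 i1 u0 hJ hJ1
  set Kc : ℝ := 625 * (68 * Real.exp 31 * (Real.exp 31 ^ (i1 + J1) * Real.exp 1)) with hKc
  have he31 : 1 ≤ Real.exp 31 := Real.one_le_exp (by norm_num)
  have he1 : 1 ≤ Real.exp 1 := Real.one_le_exp (by norm_num)
  have hK1 : 1 ≤ Kc := by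
    have h1 : 1 ≤ Real.exp 31 ^ (i1 + J1) := one_le_pow₀ he31
    have h2 : 1 ≤ Real.exp 31 ^ (i1 + J1) * Real.exp 1 := by nlinarith
    have h3 : 1 ≤ Real.exp 31 * (Real.exp 31 ^ (i1 + J1) * Real.exp 1) := by nlinarith
    rw [hKc]
    linarith
  have hK0 : 0 < Kc := by linarith
  refine ⟨Real.exp (2 * u0) * (2 * ((u0 : ℝ) + 1) ^ 2 * Kc ^ u0), by positivity, ?_⟩
  intro ι _ _ D t hreg w' hw' κ _ _ hu hw hw2 W hW
  have hE : ∏ i, Ex D.w (wb i1 D (W i)) = ∑ S : κ → Finset ι,
      (∏ p, ∏ i, (if p ∈ S i then D.w p else 1 - D.w p)) * ∏ i, wb i1 D (W i) (S i) := by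
    rw [← x_prod_Em D.w (fun p => 1 - D.w p) (fun i => wb i1 D (W i))]
    apply prod_congr rfl
    intro i _
    rw [Ex_eq_Em]
  have hQ := x_Eq w' (fun i => wb i1 D (W i))
  rw [hQ, hE, ← sum_sub_distrib]
  have hPl : 0 ≤ D.Plow (i1 + J1) := prod_nonneg fun i _ => by linarith [hreg.P0_ge i]
  have hcard : (Fintype.card κ : ℝ) ≤ u0 := by exact_mod_cast hu
  have hc0 : (0 : ℝ) ≤ Fintype.card κ := Nat.cast_nonneg _
  have hloc := fun (p : ι) (X : Finset κ) =>
    y_local (hreg.w_nonneg p) (hreg.w_le p) (hw p) (hw' p).1 (hw' p).2 X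
  have hM0 : ∀ (S : κ → Finset ι) (p' : ι),
      0 ≤ ∏ i, (if p' ∈ S i then 2 * D.w p' else 1 - D.w p') := by
    intro S p'
    apply prod_nonneg
    intro i _
    split_ifs
    · have := hreg.w_nonneg p'
      linarith
    · have := hreg.w_le p'
      linarith
  have hstep : ∀ S : κ → Finset ι,
      |(∏ p, qe (w' p) (univ.filter (fun i => p ∈ S i))) * ∏ i, wb i1 D (W i) (S i) -
        (∏ p, ∏ i, (if p ∈ S i then D.w p else 1 - D.w p)) * ∏ i, wb i1 D (W i) (S i)| ≤
      ∑ p, Real.exp (2 * u0) *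
        ((∏ p', (if p' = p then 2 * ((Fintype.card κ : ℝ) + 1) ^ 2 * D.w p' ^ 2 else
        ∏ i, (if p' ∈ S i then 2 * D.w p' else 1 - D.w p'))) *
          ∏ i, (625 * xh D (i1 + J1) (D.rg p) (S i))) := by
    intro S
    rw [← sub_mul, abs_mul]
    have hsimp : ∀ (p : ι) (a b : ℝ), ∏ i, (if i ∈ univ.filter (fun i => p ∈ S i) then a else b) =
        ∏ i, (if p ∈ S i then a else b) := by
      intro p a b
      apply prod_congr rfl
      intro i _
      simp
    have h1 := x_prod_diff univ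
      (fun p => qe (w' p) (univ.filter (fun i => p ∈ S i)))
      (fun p => ∏ i, (if p ∈ S i then D.w p else 1 - D.w p))
      (fun p => Real.exp (2 * (Fintype.card κ : ℝ) * D.w p ^ 2) *
        ∏ i, (if p ∈ S i then 2 * D.w p else 1 - D.w p))
      (fun p => 2 * ((Fintype.card κ : ℝ) + 1) ^ 2 * D.w p ^ 2)
      (by
        intro p _
        have := (hloc p (univ.filter (fun i => p ∈ S i))).1
        rw [hsimp] at this
        exact this)
      (by
        intro p _
        have := (hloc p (univ.filter (fun i => p ∈ S i))).2.1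
        rw [hsimp, hsimp] at this
        exact this)
      (by
        intro p _
        have := (hloc p (univ.filter (fun i => p ∈ S i))).2.2
        rw [hsimp] at this
        exact this)
    have h2 : ∀ p : ι, ∏ p', (if p' = p then 2 * ((Fintype.card κ : ℝ) + 1) ^ 2 * D.w p' ^ 2 else
        Real.exp (2 * (Fintype.card κ : ℝ) * D.w p' ^ 2) *
          ∏ i, (if p' ∈ S i then 2 * D.w p' else 1 - D.w p')) ≤
        Real.exp (2 * u0) * ∏ p', (if p' = p then 2 * ((Fintype.card κ : ℝ) + 1) ^ 2 * D.w p' ^ 2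
          else ∏ i, (if p' ∈ S i then 2 * D.w p' else 1 - D.w p')) := by
      intro p
      have hn : 0 ≤ ∏ p', (if p' = p then 2 * ((Fintype.card κ : ℝ) + 1) ^ 2 * D.w p' ^ 2
          else ∏ i, (if p' ∈ S i then 2 * D.w p' else 1 - D.w p')) := by
        apply prod_nonneg
        intro p' _
        split_ifs
        · positivity
        · exact hM0 S p'
      calc _ ≤ ∏ p', (Real.exp (2 * (Fintype.card κ : ℝ) * D.w p' ^ 2) *
            (if p' = p then 2 * ((Fintype.card κ : ℝ) + 1) ^ 2 * D.w p' ^ 2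
              else ∏ i, (if p' ∈ S i then 2 * D.w p' else 1 - D.w p'))) := by
            apply prod_le_prod
            · intro p' _
              split_ifs
              · positivity
              · exact mul_nonneg (Real.exp_pos _).le (hM0 S p')
            · intro p' _
              split_ifs
              · have h3 : 1 ≤ Real.exp (2 * (Fintype.card κ : ℝ) * D.w p' ^ 2) :=
                  Real.one_le_exp (by positivity)
                have h4 : 0 ≤ 2 * ((Fintype.card κ : ℝ) + 1) ^ 2 * D.w p' ^ 2 := by positivity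
                nlinarith
              · exact le_refl _
        _ = Real.exp (∑ p', 2 * (Fintype.card κ : ℝ) * D.w p' ^ 2) *
            ∏ p', (if p' = p then 2 * ((Fintype.card κ : ℝ) + 1) ^ 2 * D.w p' ^ 2
              else ∏ i, (if p' ∈ S i then 2 * D.w p' else 1 - D.w p')) := by
            rw [prod_mul_distrib, Real.exp_sum]
        _ ≤ _ := by
            apply mul_le_mul_of_nonneg_right _ hn
            apply Real.exp_le_exp.mpr
            rw [← mul_sum]
            have h5 : 0 ≤ ∑ p, D.w p ^ 2 := sum_nonneg fun p _ => by positivity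
            nlinarith
    have hF0 : 0 ≤ |∏ i, wb i1 D (W i) (S i)| := abs_nonneg _
    calc _ ≤ (∑ p, Real.exp (2 * u0) *
          ∏ p', (if p' = p then 2 * ((Fintype.card κ : ℝ) + 1) ^ 2 * D.w p' ^ 2
          else ∏ i, (if p' ∈ S i then 2 * D.w p' else 1 - D.w p'))) *
            |∏ i, wb i1 D (W i) (S i)| :=
          mul_le_mul_of_nonneg_right (h1.trans (sum_le_sum fun p _ => h2 p)) hF0
      _ = ∑ p, Real.exp (2 * u0) *
          ((∏ p', (if p' = p then 2 * ((Fintype.card κ : ℝ) + 1) ^ 2 * D.w p' ^ 2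
          else ∏ i, (if p' ∈ S i then 2 * D.w p' else 1 - D.w p'))) *
            |∏ i, wb i1 D (W i) (S i)|) := by
          rw [sum_mul]
          exact sum_congr rfl fun p _ => by ring
      _ ≤ _ := by
          apply sum_le_sum
          intro p _
          apply mul_le_mul_of_nonneg_left _ (Real.exp_pos _).le
          apply mul_le_mul_of_nonneg_left
          · rw [abs_prod]
            apply prod_le_prod (fun _ _ => abs_nonneg _)
            intro i _
            exact y_word hJ hJ1 hreg (D.rg p) (W i) (hW i) (S i)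
          · apply prod_nonneg
            intro p' _
            split_ifs
            · positivity
            · exact hM0 S p'
  have hpoint : ∀ p : ι, ∑ S : κ → Finset ι, Real.exp (2 * u0) *
      ((∏ p', (if p' = p then 2 * ((Fintype.card κ : ℝ) + 1) ^ 2 * D.w p' ^ 2 else
        ∏ i, (if p' ∈ S i then 2 * D.w p' else 1 - D.w p'))) *
          ∏ i, (625 * xh D (i1 + J1) (D.rg p) (S i))) ≤
      Real.exp (2 * u0) * (2 * ((u0 : ℝ) + 1) ^ 2 * D.w p ^ 2 *
        (Kc ^ u0 * D.Plow (i1 + J1) ^ (Fintype.card κ))) := by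
    intro p
    rw [← mul_sum]
    apply mul_le_mul_of_nonneg_left _ (Real.exp_pos _).le
    have h1 : ∀ S : κ → Finset ι,
        (∏ p', (if p' = p then 2 * ((Fintype.card κ : ℝ) + 1) ^ 2 * D.w p' ^ 2 else
          ∏ i, (if p' ∈ S i then 2 * D.w p' else 1 - D.w p'))) *
          ∏ i, (625 * xh D (i1 + J1) (D.rg p) (S i)) =
        2 * ((Fintype.card κ : ℝ) + 1) ^ 2 * D.w p ^ 2 *
          ((∏ p', ∏ i, (if p' ∈ S i then xU D p p' else xV D p p')) *
            ∏ i, (625 * xh D (i1 + J1) (D.rg p) (S i))) := by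
      intro S
      rw [← mul_assoc]
      congr 1
      have h2 : ∀ p', (if p' = p then 2 * ((Fintype.card κ : ℝ) + 1) ^ 2 * D.w p' ^ 2 else
          ∏ i, (if p' ∈ S i then 2 * D.w p' else 1 - D.w p')) =
          (if p' = p then 2 * ((Fintype.card κ : ℝ) + 1) ^ 2 * D.w p ^ 2 else 1) *
            ∏ i, (if p' ∈ S i then xU D p p' else xV D p p') := by
        intro p'
        by_cases hp : p' = p
        · rw [if_pos hp, if_pos hp, hp]
          have h3 : ∏ i, (if p ∈ S i then xU D p p else xV D p p) = 1 := by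
            apply prod_eq_one
            intro i _
            rw [xU, xV, if_pos rfl, if_pos rfl]
            simp
          rw [h3, mul_one]
        · rw [if_neg hp, if_neg hp, one_mul]
          apply prod_congr rfl
          intro i _
          rw [xU, xV, if_neg hp, if_neg hp]
      rw [prod_congr rfl (fun p' _ => h2 p'), prod_mul_distrib, prod_ite_eq' univ p,
        if_pos (mem_univ p)]
    rw [sum_congr rfl (fun S _ => h1 S), ← mul_sum,
      ← x_prod_Em (xU D p) (xV D p) (fun (_ : κ) T => 625 * xh D (i1 + J1) (D.rg p) T), prod_const,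
      Em_smul, card_univ]
    have hEm := x_Em_xh hreg p
    have hEm0 : 0 ≤ Em univ (xU D p) (xV D p) (xh D (i1 + J1) (D.rg p)) :=
      x_Em_nonneg _ (fun q _ => xU_nonneg hreg p q) (fun q _ => xV_nonneg hreg p q)
        (xh_nonneg D (i1 + J1) _)
    have hle : 625 * Em univ (xU D p) (xV D p) (xh D (i1 + J1) (D.rg p)) ≤
        Kc * D.Plow (i1 + J1) := by
      rw [hKc]
      calc 625 * Em univ (xU D p) (xV D p) (xh D (i1 + J1) (D.rg p)) ≤
          625 * (68 * Real.exp 31 *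
            (Real.exp 31 ^ (i1 + J1) * D.Plow (i1 + J1) * Real.exp 1)) := by linarith
        _ = _ := by ring
    have hw0 := hreg.w_nonneg p
    apply mul_le_mul
    · apply mul_le_mul_of_nonneg_right _ (by positivity)
      apply mul_le_mul_of_nonneg_left _ (by norm_num)
      apply pow_le_pow_left₀ (by positivity)
      linarith
    · calc (625 * Em univ (xU D p) (xV D p) (xh D (i1 + J1) (D.rg p))) ^ Fintype.card κ
          ≤ (Kc * D.Plow (i1 + J1)) ^ Fintype.card κ := pow_le_pow_left₀ (by positivity) hle _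
        _ = Kc ^ Fintype.card κ * D.Plow (i1 + J1) ^ Fintype.card κ := mul_pow _ _ _
        _ ≤ Kc ^ u0 * D.Plow (i1 + J1) ^ Fintype.card κ := by
            apply mul_le_mul_of_nonneg_right _ (by positivity)
            exact pow_le_pow_right₀ hK1 hu
    · positivity
    · positivity
  calc |∑ S : κ → Finset ι, ((∏ p, qe (w' p) (univ.filter (fun i => p ∈ S i))) *
          ∏ i, wb i1 D (W i) (S i) -
        (∏ p, ∏ i, (if p ∈ S i then D.w p else 1 - D.w p)) * ∏ i, wb i1 D (W i) (S i))|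
      ≤ ∑ S : κ → Finset ι, |(∏ p, qe (w' p) (univ.filter (fun i => p ∈ S i))) *
          ∏ i, wb i1 D (W i) (S i) -
        (∏ p, ∏ i, (if p ∈ S i then D.w p else 1 - D.w p)) * ∏ i, wb i1 D (W i) (S i)| :=
        abs_sum_le_sum_abs _ _
    _ ≤ ∑ S : κ → Finset ι, ∑ p, Real.exp (2 * u0) *
        ((∏ p', (if p' = p then 2 * ((Fintype.card κ : ℝ) + 1) ^ 2 * D.w p' ^ 2
        else ∏ i, (if p' ∈ S i then 2 * D.w p' else 1 - D.w p'))) *
          ∏ i, (625 * xh D (i1 + J1) (D.rg p) (S i))) := sum_le_sum fun S _ => hstep S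
    _ = ∑ p, ∑ S : κ → Finset ι, Real.exp (2 * u0) *
        ((∏ p', (if p' = p then 2 * ((Fintype.card κ : ℝ) + 1) ^ 2 * D.w p' ^ 2
        else ∏ i, (if p' ∈ S i then 2 * D.w p' else 1 - D.w p'))) *
          ∏ i, (625 * xh D (i1 + J1) (D.rg p) (S i))) := sum_comm
    _ ≤ ∑ p, Real.exp (2 * u0) * (2 * ((u0 : ℝ) + 1) ^ 2 * D.w p ^ 2 *
        (Kc ^ u0 * D.Plow (i1 + J1) ^ (Fintype.card κ))) :=
        sum_le_sum fun p _ => hpoint p
    _ = Real.exp (2 * u0) * (2 * ((u0 : ℝ) + 1) ^ 2 * Kc ^ u0) * (∑ p, D.w p ^ 2) *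
        D.Plow (i1 + J1) ^ (Fintype.card κ) := by
        rw [← mul_sum, ← sum_mul, ← mul_sum]
        ring

end Pool.Agent.Helper1.LG2
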