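import Pool.Agent.Helper1.LG2.CrtI
import Pool.Agent.Helper44.MertensProd

set_option autoImplicit false

/-!
LG2-L. The number of tuples (`LowT` in `LG2/Defs.lean`).

Swap the sums: `∑_{a < Ps} card (TT ..) = ∑_{τ injective, τ i ∈ win i} #{a < Ps : ∀ i, gcd(a + h_(τ i), Ps) = 1}`.
Keep only the `τ` with all `offs (τ i)` divisible by `q0 = ∏_{p ≤ 2k} p` (or `q0 = (2k)!`). For such `τ`, by
`crtI` the proportion of `a` is `∏_{p ≤ √log x} (1 - ν_p/p)` with `ν_p = 1` for `p ≤ 2k` and `ν_p ≤ k` for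
`p > 2k`: at least `∏_{p ≤ 2k} (1/2) · ∏_{2k < p ≤ √log x} (1 - k/p) ≥ c (log √(log x))^(-k)`
(`1 - k/p ≥ (1 - 1/p)^k (1 - c/p²)` or `1 - y ≥ exp(-y - y²)` for `y ≤ 1/2`, and Mertens). Number of such
`τ`: every window contains at least `η log x/q0 - 1` multiples of `q0` (all integers of absolute value
`≤ ⌊C log x⌋` are positions, the window is inside `[-C log x, C log x]`), so there are at least
`(η log x/q0 - 1 - k)^k ≥ (η log x/(2 q0))^k` injective choices (choose one after the other).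
-/

open Finset

namespace Pool.Agent.Helper1.LG2

open Pool.Agent.Helper1.LG (Ps Bs avg)
open Pool.Agent.Helper44 (primesUpTo sum_primesUpTo_bounds sum_inv_sq_le one_sub_ge_exp')

private lemma card_res_ge (p : ℕ) {κ : Type} [Fintype κ] (h : κ → ℤ) :
    (p : ℝ) - Fintype.card κ ≤
      (((range p).filter (fun a : ℕ => ∀ i, ¬ (p : ℤ) ∣ (a : ℤ) + h i)).card : ℝ) := by
  classical
  have h1 : ((range p).filter (fun a : ℕ => ¬ ∀ i, ¬ (p : ℤ) ∣ (a : ℤ) + h i)).card ≤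
      Fintype.card κ := by
    have h2 : ((range p).filter (fun a : ℕ => ¬ ∀ i, ¬ (p : ℤ) ∣ (a : ℤ) + h i)) ⊆
        (univ : Finset κ).biUnion
          (fun i => (range p).filter (fun a : ℕ => (p : ℤ) ∣ (a : ℤ) + h i)) := by
      intro a ha
      rw [mem_filter] at ha
      obtain ⟨ha1, ha2⟩ := ha
      push Not at ha2
      obtain ⟨i, hi⟩ := ha2
      exact mem_biUnion.2 ⟨i, mem_univ i, mem_filter.2 ⟨ha1, hi⟩⟩
    refine (card_le_card h2).trans (card_biUnion_le.trans ?_)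
    rw [← Finset.card_univ, card_eq_sum_ones]
    refine sum_le_sum fun i _ => ?_
    rw [card_le_one]
    intro a ha b hb
    rw [mem_filter, mem_range] at ha hb
    have h3 : (p : ℤ) ∣ (a : ℤ) - b := by
      have := dvd_sub ha.2 hb.2
      rwa [add_sub_add_right_eq_sub] at this
    have h4 := (Nat.modEq_iff_dvd.2 h3 : b ≡ a [MOD p])
    have h5 := Nat.ModEq.eq_of_lt_of_lt h4 hb.1 ha.1
    exact h5.symm
  have h6 := Finset.card_filter_add_card_filter_not (s := range p)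
    (fun a : ℕ => ∀ i, ¬ (p : ℤ) ∣ (a : ℤ) + h i)
  rw [card_range] at h6
  have h7 : p ≤ ((range p).filter (fun a : ℕ => ∀ i, ¬ (p : ℤ) ∣ (a : ℤ) + h i)).card +
      Fintype.card κ := by omega
  have h8 : (p : ℝ) ≤ (((range p).filter
      (fun a : ℕ => ∀ i, ¬ (p : ℤ) ∣ (a : ℤ) + h i)).card : ℝ) + Fintype.card κ := by
    exact_mod_cast h7
  linarith

private lemma card_res_ge' {p : ℕ} (hp : p.Prime) {κ : Type} [Fintype κ] (h : κ → ℤ)
    (hd : ∀ i, (p : ℤ) ∣ h i) :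
    (p : ℝ) - 1 ≤
      (((range p).filter (fun a : ℕ => ∀ i, ¬ (p : ℤ) ∣ (a : ℤ) + h i)).card : ℝ) := by
  have h1 : (range p).erase 0 ⊆
      (range p).filter (fun a : ℕ => ∀ i, ¬ (p : ℤ) ∣ (a : ℤ) + h i) := by
    intro a ha
    rw [mem_erase, mem_range] at ha
    refine mem_filter.2 ⟨mem_range.2 ha.2, fun i hi => ?_⟩
    have h2 : (p : ℤ) ∣ (a : ℤ) := (Int.dvd_add_left (hd i)).1 hi
    have h3 : p ∣ a := Int.natCast_dvd_natCast.1 h2
    have := Nat.le_of_dvd (Nat.pos_of_ne_zero ha.1) h3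
    omega
  have h4 := card_le_card h1
  rw [card_erase_of_mem (mem_range.2 hp.pos), card_range] at h4
  have h5 : p ≤ ((range p).filter (fun a : ℕ => ∀ i, ¬ (p : ℤ) ∣ (a : ℤ) + h i)).card + 1 := by
    have := hp.pos
    omega
  have h6 : (p : ℝ) ≤ (((range p).filter
      (fun a : ℕ => ∀ i, ¬ (p : ℤ) ∣ (a : ℤ) + h i)).card : ℝ) + 1 := by
    exact_mod_cast h5
  linarith

private lemma res_ge {p k : ℕ} (hp : p.Prime) {κ : Type} [Fintype κ] (hκ : Fintype.card κ = k)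
    (h : κ → ℤ) (hd : p ≤ 2 * k → ∀ i, (p : ℤ) ∣ h i) :
    (p : ℝ) * ((if p ≤ 2 * k then 1 / 2 else 1) *
        Real.exp (-((k : ℝ) * (1 / p) + 2 * (k : ℝ) ^ 2 * (1 / (p : ℝ)) ^ 2))) ≤
      (((range p).filter (fun a : ℕ => ∀ i, ¬ (p : ℤ) ∣ (a : ℤ) + h i)).card : ℝ) := by
  have hp2 : (2 : ℝ) ≤ p := by exact_mod_cast hp.two_le
  have hp0 : (0 : ℝ) < p := by linarith
  split_ifs with hk
  · refine le_trans ?_ (card_res_ge' hp h (hd hk))
    have h1 : Real.exp (-((k : ℝ) * (1 / p) + 2 * (k : ℝ) ^ 2 * (1 / (p : ℝ)) ^ 2)) ≤ 1 := by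
      rw [Real.exp_le_one_iff, neg_nonpos]
      positivity
    have h2 : (p : ℝ) * (1 / 2 *
        Real.exp (-((k : ℝ) * (1 / p) + 2 * (k : ℝ) ^ 2 * (1 / (p : ℝ)) ^ 2))) ≤
        (p : ℝ) * (1 / 2 * 1) := by
      gcongr
    linarith
  · have h0 : (2 : ℝ) * k ≤ p := by
      push Not at hk
      exact_mod_cast hk.le
    have h1 := card_res_ge p h
    rw [hκ] at h1
    have h2 : (k : ℝ) * (1 / p) ≤ 1 / 2 := by
      rw [mul_one_div, div_le_div_iff₀ hp0 two_pos]
      linarith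
    have h3 := one_sub_ge_exp' (by positivity) h2
    have h4 : (k : ℝ) * (1 / p) + 2 * (k : ℝ) ^ 2 * (1 / (p : ℝ)) ^ 2 =
        (k : ℝ) * (1 / p) + 2 * ((k : ℝ) * (1 / p)) ^ 2 := by ring
    rw [h4, one_mul]
    refine le_trans (mul_le_mul_of_nonneg_left h3 hp0.le) (le_trans (le_of_eq ?_) h1)
    field_simp

private lemma count_ge (k : ℕ) : ∃ c1 : ℝ, 0 < c1 ∧ ∀ w : ℝ, 2 ≤ w →
    ∀ (κ : Type) [Fintype κ], Fintype.card κ = k → ∀ h : κ → ℤ,
    (∀ p : ℕ, p.Prime → p ≤ 2 * k → ∀ i, (p : ℤ) ∣ h i) →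
    (primorial ⌊w⌋₊ : ℝ) * (c1 / Real.log w ^ k) ≤
      (((range (primorial ⌊w⌋₊)).filter (fun a : ℕ =>
        ∀ i, Int.gcd ((a : ℤ) + h i) (primorial ⌊w⌋₊) = 1)).card : ℝ) := by
  obtain ⟨C, hC, hM⟩ := sum_primesUpTo_bounds
  obtain ⟨C2, hC2, hS⟩ := sum_inv_sq_le
  refine ⟨(1 / 2) ^ (2 * k + 1) * Real.exp (-((k : ℝ) * C + 2 * (k : ℝ) ^ 2 * C2)),
    by positivity, ?_⟩
  intro w hw κ _ hκ h hd
  have hlw : 0 < Real.log w := Real.log_pos (by linarith)
  rw [crtI ⌊w⌋₊ κ h]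
  have hset : (range (⌊w⌋₊ + 1)).filter Nat.Prime = primesUpTo w := by
    ext p
    simp only [primesUpTo, mem_filter, mem_range, mem_Ioc]
    constructor
    · rintro ⟨h1, h2⟩
      exact ⟨⟨h2.pos, by omega⟩, h2⟩
    · rintro ⟨⟨_, h1⟩, h2⟩
      exact ⟨by omega, h2⟩
  rw [primorial, hset, Nat.cast_prod, Nat.cast_prod]
  have hpr : ∀ p ∈ primesUpTo w, p.Prime := by
    intro p hp
    rw [← hset, mem_filter] at hp
    exact hp.2
  have h1 : ∏ p ∈ primesUpTo w, ((p : ℝ) * ((if p ≤ 2 * k then 1 / 2 else 1) *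
        Real.exp (-((k : ℝ) * (1 / p) + 2 * (k : ℝ) ^ 2 * (1 / (p : ℝ)) ^ 2)))) ≤
      ∏ p ∈ primesUpTo w, (((range p).filter
        (fun a : ℕ => ∀ i, ¬ (p : ℤ) ∣ (a : ℤ) + h i)).card : ℝ) := by
    refine prod_le_prod (fun p _ => ?_) fun p hp =>
      res_ge (hpr p hp) hκ h fun hk => hd p (hpr p hp) hk
    split_ifs <;> positivity
  refine le_trans ?_ h1
  rw [prod_mul_distrib, prod_mul_distrib, ← Real.exp_sum, sum_neg_distrib, sum_add_distrib,
    ← mul_sum, ← mul_sum]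
  have h2 : (1 / 2 : ℝ) ^ (2 * k + 1) ≤
      ∏ p ∈ primesUpTo w, (if p ≤ 2 * k then (1 / 2 : ℝ) else 1) := by
    rw [prod_ite, prod_const_one, mul_one, prod_const]
    refine pow_le_pow_of_le_one (by norm_num) (by norm_num) ?_
    refine le_trans (card_le_card (t := range (2 * k + 1)) ?_) (card_range _).le
    intro p hp
    rw [mem_filter] at hp
    exact mem_range.2 (by omega)
  have h3 : Real.exp (-((k : ℝ) * C + 2 * (k : ℝ) ^ 2 * C2)) / Real.log w ^ k ≤
      Real.exp (-((k : ℝ) * ∑ p ∈ primesUpTo w, (1 : ℝ) / p +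
        2 * (k : ℝ) ^ 2 * ∑ p ∈ primesUpTo w, ((1 : ℝ) / p) ^ 2)) := by
    have h4 : Real.log w ^ k = Real.exp ((k : ℝ) * Real.log (Real.log w)) := by
      rw [mul_comm, Real.exp_mul, Real.exp_log hlw, Real.rpow_natCast]
    rw [h4, ← Real.exp_sub]
    refine Real.exp_le_exp.2 ?_
    have h5 := (abs_le.1 (hM w hw)).2
    have h6 := hS (primesUpTo w)
    have h7 : (k : ℝ) * ∑ p ∈ primesUpTo w, (1 : ℝ) / p ≤
        (k : ℝ) * (Real.log (Real.log w) + C) :=
      mul_le_mul_of_nonneg_left (by linarith) (Nat.cast_nonneg k)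
    have h8 : 2 * (k : ℝ) ^ 2 * ∑ p ∈ primesUpTo w, ((1 : ℝ) / p) ^ 2 ≤
        2 * (k : ℝ) ^ 2 * C2 := mul_le_mul_of_nonneg_left h6 (by positivity)
    linarith
  refine mul_le_mul_of_nonneg_left ?_ (prod_nonneg fun p _ => Nat.cast_nonneg p)
  rw [mul_div_assoc]
  exact mul_le_mul h2 h3 (by positivity) (le_trans (by positivity) h2)

/-- The positions of the window whose offset is `q ((k + 1) t + i)`. -/
private noncomputable def Wp (H k q : ℕ) (lo len : ℝ) (i : Fin k) : Finset (Fin (2 * H + 1)) := by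
  classical
  exact (win H lo len).filter
    (fun j => ∃ t : ℤ, offs H j = (q : ℤ) * (((k : ℤ) + 1) * t + (i : ℕ)))

private lemma mem_Wp {H k q : ℕ} {lo len : ℝ} {i : Fin k} {j : Fin (2 * H + 1)} :
    j ∈ Wp H k q lo len i ↔ j ∈ win H lo len ∧
      ∃ t : ℤ, offs H j = (q : ℤ) * (((k : ℤ) + 1) * t + (i : ℕ)) := by
  classical
  unfold Wp
  rw [mem_filter]

private lemma Wp_disj {H k q : ℕ} (hq : 0 < q) {lo lo' len : ℝ} {i i' : Fin k}
    {j : Fin (2 * H + 1)} (h1 : j ∈ Wp H k q lo len i) (h2 : j ∈ Wp H k q lo' len i') :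
    i = i' := by
  obtain ⟨_, t, ht⟩ := mem_Wp.1 h1
  obtain ⟨_, t', ht'⟩ := mem_Wp.1 h2
  rw [ht] at ht'
  have hq' : (q : ℤ) ≠ 0 := by exact_mod_cast hq.ne'
  have h3 := mul_left_cancel₀ hq' ht'
  have h4 : ((i : ℕ) : ℤ) - (i' : ℕ) = ((k : ℤ) + 1) * (t' - t) := by linarith
  have hi : ((i : ℕ) : ℤ) < k := by exact_mod_cast i.2
  have hi' : ((i' : ℕ) : ℤ) < k := by exact_mod_cast i'.2
  have h5 : ((i : ℕ) : ℤ) - (i' : ℕ) = 0 := by
    refine Int.eq_zero_of_abs_lt_dvd (m := (k : ℤ) + 1) ⟨t' - t, h4⟩ ?_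
    rw [abs_lt]
    constructor <;> omega
  ext
  omega

private lemma Wp_card {H k q : ℕ} (hq : 0 < q) {D lo len : ℝ} (hH : H = ⌊D⌋₊)
    (hlo : -D ≤ lo) (hhi : lo + len ≤ D) (i : Fin k) :
    len / (q * (k + 1)) - 1 ≤ ((Wp H k q lo len i).card : ℝ) := by
  have hq0 : (0 : ℝ) < q := by exact_mod_cast hq
  have hk0 : (0 : ℝ) < (k : ℝ) + 1 := by positivity
  set u : ℝ := (lo / q - (i : ℕ)) / (k + 1) with hu
  set v : ℝ := ((lo + len) / q - (i : ℕ)) / (k + 1) with hv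
  set f : ℤ → ℤ := fun t => (q : ℤ) * (((k : ℤ) + 1) * t + (i : ℕ)) with hf
  have hfr : ∀ t : ℤ, ((f t : ℤ) : ℝ) = q * (((k : ℝ) + 1) * t + (i : ℕ)) := by
    intro t
    simp only [hf]
    push_cast
    ring
  have hb : ∀ t ∈ Icc ⌈u⌉ ⌊v⌋, lo ≤ (f t : ℝ) ∧ (f t : ℝ) ≤ lo + len := by
    intro t ht
    rw [mem_Icc, Int.ceil_le, Int.le_floor] at ht
    rw [hfr]
    obtain ⟨h1, h2⟩ := ht
    rw [hu, div_le_iff₀ hk0] at h1
    rw [hv, le_div_iff₀ hk0] at h2
    constructor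
    · have : lo / q ≤ ((k : ℝ) + 1) * t + (i : ℕ) := by linarith
      rw [div_le_iff₀ hq0] at this
      linarith
    · have : ((k : ℝ) + 1) * t + (i : ℕ) ≤ (lo + len) / q := by linarith
      rw [le_div_iff₀ hq0] at this
      linarith
  have hH' : ∀ t ∈ Icc ⌈u⌉ ⌊v⌋, -(H : ℤ) ≤ f t ∧ f t ≤ H := by
    intro t ht
    obtain ⟨h1, h2⟩ := hb t ht
    have h3 : |((f t : ℤ) : ℝ)| ≤ D := abs_le.2 ⟨by linarith, by linarith⟩
    have h4 : (((f t).natAbs : ℕ) : ℝ) ≤ D := by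
      rw [Nat.cast_natAbs, Int.cast_abs]
      exact h3
    have h5 : (f t).natAbs ≤ H := by
      rw [hH]
      exact Nat.le_floor h4
    omega
  have hofs : ∀ t ∈ Icc ⌈u⌉ ⌊v⌋, offs H (Fin.ofNat (2 * H + 1) (f t + H).toNat) = f t := by
    intro t ht
    obtain ⟨h1, h2⟩ := hH' t ht
    unfold offs
    have h3 : (f t + H).toNat < 2 * H + 1 := by omega
    have h4 : ((Fin.ofNat (2 * H + 1) (f t + H).toNat).1 : ℤ) = (f t + H).toNat := by
      show (((f t + H).toNat % (2 * H + 1) : ℕ) : ℤ) = (f t + H).toNat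
      rw [Nat.mod_eq_of_lt h3]
    rw [h4]
    omega
  have hcard : (Icc ⌈u⌉ ⌊v⌋).card ≤ (Wp H k q lo len i).card := by
    refine card_le_card_of_injOn (fun t => Fin.ofNat (2 * H + 1) (f t + H).toNat) ?_ ?_
    · intro t ht
      have ht' : t ∈ Icc ⌈u⌉ ⌊v⌋ := ht
      have h1 := hofs t ht'
      have h2 := hb t ht'
      refine mem_coe.2 (mem_Wp.2 ⟨?_, t, h1⟩)
      unfold win
      refine mem_filter.2 ⟨mem_univ _, ?_⟩
      rw [h1]
      exact h2
    · intro t ht t' ht' he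
      have h1 := hofs t ht
      have h2 := hofs t' ht'
      have h3 : f t = f t' := by
        rw [← h1, ← h2]
        exact congrArg (offs H) he
      have hq' : (q : ℤ) ≠ 0 := by exact_mod_cast hq.ne'
      have h4 := mul_left_cancel₀ hq' h3
      have hk' : ((k : ℤ) + 1) ≠ 0 := by positivity
      exact mul_left_cancel₀ hk' (add_right_cancel h4)
  rw [Int.card_Icc] at hcard
  have h1 : ((⌊v⌋ + 1 - ⌈u⌉ : ℤ) : ℝ) ≤ ((Wp H k q lo len i).card : ℝ) := by
    have : ⌊v⌋ + 1 - ⌈u⌉ ≤ ((Wp H k q lo len i).card : ℤ) := by omega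
    exact_mod_cast this
  push_cast at h1
  have h2 := Int.lt_floor_add_one v
  have h3 := Int.ceil_lt_add_one u
  have h4 : v - u = len / (q * (k + 1)) := by
    rw [hu, hv]
    field_simp
    ring
  linarith

theorem lowT : LowT := by
  classical
  intro k C η hC hη
  obtain ⟨c1, hc1, hcount⟩ := count_ge k
  set q : ℕ := (2 * k).factorial with hqdef
  have hq : 0 < q := Nat.factorial_pos _
  have hq0 : (0 : ℝ) < q := by exact_mod_cast hq
  have hk0 : (0 : ℝ) < (k : ℝ) + 1 := by positivity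
  set A : ℝ := 2 * (q * (k + 1)) / η with hA
  have hApos : 0 < A := by positivity
  refine ⟨c1 * (η / (2 * (q * (k + 1)))) ^ k, Real.exp (4 + A), by positivity, ?_, ?_⟩
  · have := Real.add_one_le_exp (4 + A)
    linarith
  intro x hx β hβ
  have hx0 : 0 < x := lt_of_lt_of_le (Real.exp_pos _) hx
  set L := Real.log x with hL
  have hLA : 4 + A ≤ L := (Real.le_log_iff_exp_le hx0).2 hx
  have hL4 : 4 ≤ L := by linarith
  have hL0 : 0 < L := by linarith
  have hs2 : 2 ≤ Real.sqrt L := by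
    rw [show (2 : ℝ) = Real.sqrt 4 by
      rw [show (4 : ℝ) = 2 ^ 2 by norm_num, Real.sqrt_sq (by norm_num)]]
    exact Real.sqrt_le_sqrt hL4
  have hlL : 0 < Real.log L := Real.log_pos (by linarith)
  have hls : Real.log (Real.sqrt L) = Real.log L / 2 := Real.log_sqrt hL0.le
  set H := ⌊C * L⌋₊ with hH
  set P := Ps x with hP
  have hPdef : P = primorial ⌊Real.sqrt L⌋₊ := rfl
  have hP0 : 0 < P := primorial_pos _
  set W : Fin k → Finset (Fin (2 * H + 1)) := fun i => Wp H k q (β i * L) (η * L) i with hW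
  -- the count for one tuple
  have hone : ∀ τ ∈ Fintype.piFinset W, (P : ℝ) * (c1 / Real.log L ^ k) ≤
      (((range P).filter (fun a : ℕ => ∀ i, τ i ∈ Bs x (offs H) a)).card : ℝ) := by
    intro τ hτ
    rw [Fintype.mem_piFinset] at hτ
    have h1 := hcount (Real.sqrt L) hs2 (Fin k) (Fintype.card_fin k) (fun i => offs H (τ i)) (by
      intro p hp hpk i
      obtain ⟨_, t, ht⟩ := mem_Wp.1 (hτ i)
      show (p : ℤ) ∣ offs H (τ i)
      rw [ht]
      exact Dvd.dvd.mul_right (Int.natCast_dvd_natCast.2 ((hp.dvd_factorial).2 hpk)) _)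
    have h2 : (P : ℝ) * (c1 / Real.log L ^ k) ≤ (P : ℝ) * (c1 / Real.log (Real.sqrt L) ^ k) := by
      refine mul_le_mul_of_nonneg_left ?_ (Nat.cast_nonneg P)
      refine div_le_div_of_nonneg_left hc1.le (pow_pos (by rw [hls]; positivity) k) ?_
      refine pow_le_pow_left₀ (by rw [hls]; positivity) ?_ k
      rw [hls]
      linarith
    refine h2.trans ?_
    have hpred : ∀ a : ℕ, (∀ i, τ i ∈ Bs x (offs H) a) ↔
        ∀ i, Int.gcd ((a : ℤ) + offs H (τ i)) (primorial ⌊Real.sqrt L⌋₊) = 1 := by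
      intro a
      refine forall_congr' fun i => ?_
      simp only [Bs, mem_filter, mem_univ, true_and]
      rfl
    simp only [hpred]
    refine h1.trans (le_of_eq ?_)
    refine congrArg (fun s : Finset ℕ => (s.card : ℝ)) ?_
    ext a
    simp only [mem_filter]
    exact Iff.rfl
  -- the number of tuples
  have hnum : (η / (2 * (q * (k + 1))) * L) ^ k ≤ ((Fintype.piFinset W).card : ℝ) := by
    rw [Fintype.card_piFinset, Nat.cast_prod]
    calc (η / (2 * (q * (k + 1))) * L) ^ k = ∏ i : Fin k, (η / (2 * (q * (k + 1))) * L) := by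
          rw [prod_const, card_univ, Fintype.card_fin]
      _ ≤ ∏ i : Fin k, ((W i).card : ℝ) := by
          refine prod_le_prod (fun i _ => by positivity) fun i _ => ?_
          have h1 := Wp_card (k := k) hq (D := C * L) hH
            (lo := β i * L) (len := η * L) (by have := (hβ i).1; nlinarith)
            (by have := (hβ i).2; nlinarith) i
          refine le_trans ?_ h1
          have h2 : A ≤ L := by linarith
          rw [hA, div_le_iff₀ hη] at h2
          have h3 : 1 ≤ η / (2 * (q * (k + 1))) * L := by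
            rw [div_mul_eq_mul_div, le_div_iff₀ (by positivity)]
            linarith
          have h4 : η * L / (q * (k + 1)) = 2 * (η / (2 * (q * (k + 1))) * L) := by
            field_simp
          rw [h4]
          linarith
  -- exchange of the sums
  have hsum : ∑ τ ∈ Fintype.piFinset W,
      (((range P).filter (fun a : ℕ => ∀ i, τ i ∈ Bs x (offs H) a)).card : ℝ) ≤
      ∑ a ∈ range P, ((TT (fun i => win H (β i * L) (η * L)) (Bs x (offs H) a)).card : ℝ) := by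
    have h1 : ∑ τ ∈ Fintype.piFinset W,
        (((range P).filter (fun a : ℕ => ∀ i, τ i ∈ Bs x (offs H) a)).card : ℝ) =
        ∑ a ∈ range P, (((Fintype.piFinset W).filter
          (fun τ => ∀ i, τ i ∈ Bs x (offs H) a)).card : ℝ) := by
      simp only [card_filter, Nat.cast_sum]
      rw [sum_comm]
    rw [h1]
    refine sum_le_sum fun a _ => ?_
    refine Nat.cast_le.2 (card_le_card ?_)
    intro τ hτ
    rw [mem_filter, Fintype.mem_piFinset] at hτ
    unfold TT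
    refine mem_filter.2 ⟨mem_univ _, ?_, fun i => ⟨(mem_Wp.1 (hτ.1 i)).1, hτ.2 i⟩⟩
    intro i i' he
    have h2 := hτ.1 i
    rw [he] at h2
    exact Wp_disj hq h2 (hτ.1 i')
  -- the end
  unfold avg
  rw [card_range, le_div_iff₀ (by exact_mod_cast hP0)]
  refine le_trans ?_ hsum
  refine le_trans ?_ (card_nsmul_le_sum _ _ _ hone)
  rw [nsmul_eq_mul]
  calc c1 * (η / (2 * (q * (k + 1)))) ^ k * (L / Real.log L) ^ k * (P : ℝ)
      = (η / (2 * (q * (k + 1))) * L) ^ k * ((P : ℝ) * (c1 / Real.log L ^ k)) := by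
        rw [div_pow L, mul_pow]
        ring
    _ ≤ _ := mul_le_mul_of_nonneg_right hnum (by positivity)

end Pool.Agent.Helper1.LG2
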