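import Pool.Agent.Helper1.LG2.Defs
import Pool.Agent.Helper1.LG.MF

set_option autoImplicit false

/-!
LG2-F. Lower bounds for the probabilities and for the small primes (`MF3`, `PhiP` in
`LG2/Defs.lean`). See `LG/MF.lean` (helper42) for the range of a prime and the upper bounds.

`mf3`: `Plow J' = ∏_{(log x)² < p ≤ x^(ρ/2^J')} (1 - 1/(p-1))`; `1 - 1/(p-1) ≥ (1 - 1/p)(1 - 4/p²)`-like, so by
Mertens it is `≥ c log((log x)²)/log(x^(ρ/2^J'))`. Second part: the primes with range in `[j, J')` are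
those in `(x^(ρ/2^J'), x^(ρ/2^j)]` (all larger than `(log x)²` for large `x`), the product of
`1 - 1/(p-1) ≤ 1 - 1/p` is at most `C3 2^j/2^J'` by Mertens (absolute constant `C3`).
`phiP`: `card (Om x) = φ(Ps x)`, `φ(Ps x)/Ps x = ∏_{p ≤ √log x} (1 - 1/p) ≤ C/log √(log x)`.
(`Pool.Agent.Helper44.MertensProd`, `MertensInterval`.)
-/

open Finset

namespace Pool.Agent.Helper1.LG2

open Pool.Agent.Helper1.LG (Dt PL wl Ps Om)

theorem mf3_mem_PL {ρ x : ℝ} {q : ℕ} :
    q ∈ PL ρ x ↔ q.Prime ∧ Real.log x ^ 2 < (q : ℝ) ∧ (q : ℝ) ≤ x ^ ρ ∧ 1 ≤ ⌊x ^ ρ⌋₊ := by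
  unfold PL
  rw [mem_filter, mem_Icc]
  constructor
  · rintro ⟨⟨h1, h2⟩, h3, h4⟩
    have h5 : 1 ≤ ⌊x ^ ρ⌋₊ := le_trans h1 h2
    refine ⟨h3, h4, ?_, h5⟩
    have h6 : (0 : ℝ) ≤ x ^ ρ := by
      by_contra h
      rw [Nat.floor_of_nonpos (le_of_lt (not_le.mp h))] at h5
      omega
    exact le_trans (by exact_mod_cast h2) (Nat.floor_le h6)
  · rintro ⟨h3, h4, h5, h6⟩
    have h7 : (0 : ℝ) ≤ x ^ ρ := le_trans (by positivity) h5
    exact ⟨⟨h3.one_lt.le, (Nat.le_floor_iff h7).mpr h5⟩, h3, h4⟩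

theorem mf3_le_rg {ρ x : ℝ} (hx : 1 < x) (r : ℕ → ℕ) (p : PL ρ x) (J : ℕ) :
    J ≤ (Dg ρ r x).rg p ↔ ((p : ℕ) : ℝ) ≤ x ^ (ρ / 2 ^ J) := by
  obtain ⟨hpp, -, hple, -⟩ := mf3_mem_PL.mp p.2
  have hp1 : (1 : ℝ) < ((p : ℕ) : ℝ) := by exact_mod_cast hpp.one_lt
  have hp0 : (0 : ℝ) < ((p : ℕ) : ℝ) := by linarith
  have hx0 : (0 : ℝ) < x := by linarith
  have hlp : 0 < Real.log ((p : ℕ) : ℝ) := Real.log_pos hp1
  have hlx : 0 < Real.log x := Real.log_pos hx
  have hle1 : ∀ c : ℝ, ((p : ℕ) : ℝ) ≤ x ^ c ↔ Real.log ((p : ℕ) : ℝ) ≤ c * Real.log x := by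
    intro c
    rw [← Real.log_rpow hx0, Real.log_le_log_iff hp0 (Real.rpow_pos_of_pos hx0 _)]
  have h1 : 1 ≤ ρ * Real.log x / Real.log ((p : ℕ) : ℝ) := by
    rw [le_div_iff₀ hlp, one_mul]
    exact (hle1 ρ).mp hple
  have h2 : ⌊ρ * Real.log x / Real.log ((p : ℕ) : ℝ)⌋₊ ≠ 0 := by
    have : 1 ≤ ⌊ρ * Real.log x / Real.log ((p : ℕ) : ℝ)⌋₊ := (Nat.one_le_floor_iff _).mpr h1
    omega
  show J ≤ Nat.log 2 ⌊ρ * Real.log x / Real.log ((p : ℕ) : ℝ)⌋₊ ↔ _
  rw [Nat.le_log_iff_pow_le (by norm_num) h2, Nat.le_floor_iff (by linarith), hle1]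
  push_cast
  rw [le_div_iff₀ hlp]
  have h2J : (0 : ℝ) < 2 ^ J := by positivity
  rw [div_mul_eq_mul_div, le_div_iff₀ h2J, mul_comm (Real.log _)]

/-- The product over the ranges in `[a, b)`. -/
theorem mf3_prod_P0 {ρ x : ℝ} (r : ℕ → ℕ) (a b : ℕ) :
    ∏ i ∈ Ico a b, (Dg ρ r x).P0 i =
      ∏ p ∈ univ.filter (fun p : PL ρ x => a ≤ (Dg ρ r x).rg p ∧ (Dg ρ r x).rg p < b),
        (1 - wl ρ x p) := by
  rw [← prod_fiberwise_of_maps_to (s := univ.filter
    (fun p : PL ρ x => a ≤ (Dg ρ r x).rg p ∧ (Dg ρ r x).rg p < b)) (t := Ico a b)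
    (g := (Dg ρ r x).rg) (by intro p hp; rw [mem_filter] at hp; exact mem_Ico.mpr hp.2)]
  apply prod_congr rfl
  intro i hi
  rw [mem_Ico] at hi
  unfold Dt.P0
  apply prod_congr _ (fun _ _ => rfl)
  ext p
  simp only [mem_filter, mem_univ, true_and]
  constructor
  · intro h; exact ⟨by omega, h⟩
  · intro h; exact h.2

theorem mf3 : MF3 := by
  obtain ⟨C, hC, hM⟩ := Pool.Agent.Helper44.mertens_interval
  obtain ⟨C2, hC2, hS⟩ := Pool.Agent.Helper44.sum_inv_sq_le
  have hl2 : 0 < Real.log 2 := Real.log_pos (by norm_num)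
  refine ⟨2 * Real.exp (-(C / Real.log 2 + 10 * C2)), Real.exp (C / Real.log 2), by positivity,
    Real.one_le_exp (by positivity), ?_⟩
  intro ρ J' hρ hρ1
  -- largeness
  have hev : ∀ᶠ x : ℝ in Filter.atTop, 3 ≤ Real.log x ∧ 2 ≤ Real.log x ^ 2 ∧
      Real.log x ^ 2 ≤ x ^ (ρ / 2 ^ J') ∧ 3 ≤ x := by
    have e1 : ∀ᶠ x : ℝ in Filter.atTop, 3 ≤ Real.log x :=
      Real.tendsto_log_atTop.eventually_ge_atTop 3
    have e2 : ∀ᶠ x : ℝ in Filter.atTop, Real.log x ^ 2 ≤ x ^ (ρ / 2 ^ J') := by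
      have hs : 0 < ρ / 2 ^ J' := by positivity
      have h := (isLittleO_log_rpow_rpow_atTop (2 : ℝ) hs).bound (by norm_num : (0 : ℝ) < 1)
      filter_upwards [h, e1, Filter.eventually_gt_atTop 0] with x hx h1 h0
      rw [Real.norm_of_nonneg (by positivity), Real.norm_of_nonneg (by positivity), one_mul] at hx
      simpa using hx
    filter_upwards [e1, e2, Filter.eventually_ge_atTop 3] with x h1 h2 h3
    exact ⟨h1, by nlinarith, h2, h3⟩
  obtain ⟨X1, hX1⟩ := Filter.eventually_atTop.mp hev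
  refine ⟨max X1 3, le_max_right _ _, ?_⟩
  intro x hx r
  obtain ⟨hL3, hL2, hLx, hx3⟩ := hX1 x (le_trans (le_max_left _ _) hx)
  have hx1 : 1 < x := by linarith
  have hx0 : 0 < x := by linarith
  have hw : ∀ p : PL ρ x, (9 : ℝ) < ((p : ℕ) : ℝ) := by
    intro p
    obtain ⟨-, hp2, -, -⟩ := mf3_mem_PL.mp p.2
    nlinarith
  have hlogz : ∀ J : ℕ, Real.log (x ^ (ρ / 2 ^ J)) = ρ / 2 ^ J * Real.log x := by
    intro J; rw [Real.log_rpow hx0]
  have hlpos : 0 < Real.log x := by linarith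
  constructor
  · -- the lower bound
    unfold Dt.Plow
    have hI : (Dg ρ r x).I = ⌊Real.log x⌋₊ := rfl
    rw [hI, mf3_prod_P0]
    set S := univ.filter (fun p : PL ρ x => J' ≤ (Dg ρ r x).rg p ∧
      (Dg ρ r x).rg p < ⌊Real.log x⌋₊) with hSdef
    set T := (Finset.Ioc ⌊Real.log x ^ 2⌋₊ ⌊x ^ (ρ / 2 ^ J')⌋₊).filter Nat.Prime with hT
    have hm := hM (Real.log x ^ 2) (x ^ (ρ / 2 ^ J')) hL2 hLx
    rw [← hT, hlogz] at hm
    have hlz1 : Real.log (Real.log x ^ 2) = 2 * Real.log (Real.log x) := by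
      rw [Real.log_pow]; norm_num
    have hll : 0 < Real.log (Real.log x) := Real.log_pos (by linarith)
    have hlz1' : Real.log 2 ≤ Real.log (Real.log x ^ 2) := Real.log_le_log (by norm_num) hL2
    -- the sum over S is at most the sum over T
    have hsub : ∑ p ∈ S, ((1 : ℝ) / ((p : ℕ) : ℝ) + 10 * ((1 : ℝ) / ((p : ℕ) : ℝ)) ^ 2) ≤
        ∑ q ∈ T, ((1 : ℝ) / (q : ℝ) + 10 * ((1 : ℝ) / (q : ℝ)) ^ 2) := by
      have hmap : ∑ q ∈ S.map (Function.Embedding.subtype (fun q => q ∈ PL ρ x)),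
          ((1 : ℝ) / (q : ℝ) + 10 * ((1 : ℝ) / (q : ℝ)) ^ 2) =
          ∑ p ∈ S, ((1 : ℝ) / ((p : ℕ) : ℝ) + 10 * ((1 : ℝ) / ((p : ℕ) : ℝ)) ^ 2) :=
        sum_map _ _ _
      rw [← hmap]
      apply sum_le_sum_of_subset_of_nonneg
      · intro q hq
        rw [mem_map] at hq
        obtain ⟨p, hp, rfl⟩ := hq
        rw [hSdef, mem_filter] at hp
        obtain ⟨hpp, hp2, -, -⟩ := mf3_mem_PL.mp p.2
        have hp3 := (mf3_le_rg hx1 r p J').mp hp.2.1
        rw [hT, mem_filter, mem_Ioc]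
        refine ⟨⟨?_, ?_⟩, hpp⟩
        · exact (Nat.floor_lt (by positivity)).mpr hp2
        · exact (Nat.le_floor_iff (by positivity)).mpr hp3
      · intro q _ _; positivity
    have hsum : ∑ q ∈ T, ((1 : ℝ) / (q : ℝ) + 10 * ((1 : ℝ) / (q : ℝ)) ^ 2) ≤
        Real.log (ρ / 2 ^ J' * Real.log x / (2 * Real.log (Real.log x))) + C / Real.log 2 +
          10 * C2 := by
      rw [sum_add_distrib, ← mul_sum]
      have h1 := hS T
      rw [abs_le, hlz1] at hm
      have h2 : C / (2 * Real.log (Real.log x)) ≤ C / Real.log 2 := by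
        apply div_le_div_of_nonneg_left hC.le hl2
        rw [← hlz1]; exact hlz1'
      linarith [hm.2]
    have hprod : Real.exp (-∑ p ∈ S, ((1 : ℝ) / ((p : ℕ) : ℝ) +
        10 * ((1 : ℝ) / ((p : ℕ) : ℝ)) ^ 2)) ≤ ∏ p ∈ S, (1 - wl ρ x p) := by
      rw [← sum_neg_distrib, Real.exp_sum]
      apply prod_le_prod
      · intro p _; exact (Real.exp_pos _).le
      · intro p _
        have hp9 := hw p
        set P : ℝ := ((p : ℕ) : ℝ) with hP
        have hwl : wl ρ x p = 1 / (P - 1) := rfl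
        have hu0 : 0 ≤ 1 / (P - 1) := by
          apply div_nonneg (by norm_num); linarith
        have hu1 : 1 / (P - 1) ≤ 1 / 2 := by
          apply one_div_le_one_div_of_le (by norm_num); linarith
        have h1 := Pool.Agent.Helper44.one_sub_ge_exp' hu0 hu1
        rw [hwl]
        refine le_trans ?_ h1
        apply Real.exp_le_exp.mpr
        have hPm : 0 < P - 1 := by linarith
        have hP0 : 0 < P := by linarith
        have e1 : 1 / (P - 1) ≤ 1 / P + 2 * (1 / P) ^ 2 := by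
          rw [div_le_iff₀ hPm]
          have : (1 / P + 2 * (1 / P) ^ 2) * (P - 1) = 1 + (P - 2) / P ^ 2 := by
            field_simp; ring
          rw [this]
          have : 0 ≤ (P - 2) / P ^ 2 := div_nonneg (by linarith) (by positivity)
          linarith
        have e2 : 1 / (P - 1) ≤ 2 * (1 / P) := by
          rw [div_le_iff₀ hPm]
          have : 2 * (1 / P) * (P - 1) = 1 + (P - 2) / P := by
            field_simp; ring
          rw [this]
          have : 0 ≤ (P - 2) / P := div_nonneg (by linarith) (by positivity)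
          linarith
        have e3 : (1 / (P - 1)) ^ 2 ≤ 4 * (1 / P) ^ 2 := by
          calc (1 / (P - 1)) ^ 2 ≤ (2 * (1 / P)) ^ 2 := by
                apply pow_le_pow_left₀ hu0 e2
            _ = 4 * (1 / P) ^ 2 := by ring
        linarith
    refine le_trans ?_ hprod
    have hA : 0 < ρ / 2 ^ J' * Real.log x / (2 * Real.log (Real.log x)) := by positivity
    calc 2 * Real.exp (-(C / Real.log 2 + 10 * C2)) * 2 ^ J' * Real.log (Real.log x) /
          (ρ * Real.log x)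
        = Real.exp (-(Real.log (ρ / 2 ^ J' * Real.log x / (2 * Real.log (Real.log x))) +
          C / Real.log 2 + 10 * C2)) := by
          have e0 : -(Real.log (ρ / 2 ^ J' * Real.log x / (2 * Real.log (Real.log x))) +
              C / Real.log 2 + 10 * C2) =
              -(C / Real.log 2 + 10 * C2) +
              -(Real.log (ρ / 2 ^ J' * Real.log x / (2 * Real.log (Real.log x)))) := by ring
          rw [e0, Real.exp_add (-(C / Real.log 2 + 10 * C2)), Real.exp_neg (Real.log _),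
            Real.exp_log hA]
          field_simp
      _ ≤ _ := by
          apply Real.exp_le_exp.mpr
          linarith
  · -- the upper bound
    intro j hj
    rw [mf3_prod_P0]
    set S := univ.filter (fun p : PL ρ x => j ≤ (Dg ρ r x).rg p ∧
      (Dg ρ r x).rg p < J') with hSdef
    have hzle : x ^ (ρ / 2 ^ J') ≤ x ^ (ρ / 2 ^ j) := by
      apply Real.rpow_le_rpow_of_exponent_le hx1.le
      apply div_le_div_of_nonneg_left hρ.le (by positivity)
      exact pow_le_pow_right₀ (by norm_num) hj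
    set T := (Finset.Ioc ⌊x ^ (ρ / 2 ^ J')⌋₊ ⌊x ^ (ρ / 2 ^ j)⌋₊).filter Nat.Prime with hT
    have hz2 : 2 ≤ x ^ (ρ / 2 ^ J') := le_trans hL2 hLx
    have hm := hM (x ^ (ρ / 2 ^ J')) (x ^ (ρ / 2 ^ j)) hz2 hzle
    rw [← hT] at hm
    have hlz : Real.log 2 ≤ Real.log (x ^ (ρ / 2 ^ J')) := Real.log_le_log (by norm_num) hz2
    have hCle : C / Real.log (x ^ (ρ / 2 ^ J')) ≤ C / Real.log 2 :=
      div_le_div_of_nonneg_left hC.le hl2 hlz
    rw [abs_le] at hm
    have hratio : Real.log (x ^ (ρ / 2 ^ j)) / Real.log (x ^ (ρ / 2 ^ J')) =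
        2 ^ J' / 2 ^ j := by
      rw [hlogz, hlogz]; field_simp
    rw [hratio] at hm
    have hsub : ∑ q ∈ T, ((1 : ℝ) / (q : ℝ)) ≤ ∑ p ∈ S, ((1 : ℝ) / ((p : ℕ) : ℝ)) := by
      have hmap : ∑ q ∈ S.map (Function.Embedding.subtype (fun q => q ∈ PL ρ x)),
          ((1 : ℝ) / (q : ℝ)) = ∑ p ∈ S, ((1 : ℝ) / ((p : ℕ) : ℝ)) := sum_map _ _ _
      rw [← hmap]
      apply sum_le_sum_of_subset_of_nonneg
      · intro q hq
        rw [hT, mem_filter, mem_Ioc] at hq
        obtain ⟨⟨h1, h2⟩, h3⟩ := hq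
        have h1' : x ^ (ρ / 2 ^ J') < (q : ℝ) := (Nat.floor_lt (by positivity)).mp h1
        have h2' : (q : ℝ) ≤ x ^ (ρ / 2 ^ j) := (Nat.le_floor_iff (by positivity)).mp h2
        have h4 : x ^ (ρ / 2 ^ j) ≤ x ^ ρ := by
          apply Real.rpow_le_rpow_of_exponent_le hx1.le
          apply div_le_self hρ.le
          exact one_le_pow₀ (by norm_num)
        have hqle : (q : ℝ) ≤ x ^ ρ := le_trans h2' h4
        have hqmem : q ∈ PL ρ x := by
          rw [mf3_mem_PL]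
          refine ⟨h3, lt_of_le_of_lt hLx h1', hqle, ?_⟩
          rw [Nat.one_le_floor_iff]
          have : (1 : ℝ) < q := by exact_mod_cast h3.one_lt
          linarith
        rw [mem_map]
        refine ⟨⟨q, hqmem⟩, ?_, rfl⟩
        rw [hSdef, mem_filter]
        refine ⟨mem_univ _, (mf3_le_rg hx1 r ⟨q, hqmem⟩ j).mpr h2', ?_⟩
        by_contra hcon
        rw [not_lt] at hcon
        have := (mf3_le_rg hx1 r ⟨q, hqmem⟩ J').mp hcon
        exact absurd this (not_le.mpr h1')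
      · intro q _ _; positivity
    calc ∏ p ∈ S, (1 - wl ρ x p) ≤ ∏ p ∈ S, Real.exp (-(1 / ((p : ℕ) : ℝ))) := by
          apply prod_le_prod
          · intro p _
            have hp9 := hw p
            show (0 : ℝ) ≤ 1 - 1 / (((p : ℕ) : ℝ) - 1)
            have : 1 / (((p : ℕ) : ℝ) - 1) ≤ 1 := by
              rw [div_le_iff₀ (by linarith)]; linarith
            linarith
          · intro p _
            have hp9 := hw p
            have h1 := Real.add_one_le_exp (-(1 / ((p : ℕ) : ℝ)))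
            show 1 - 1 / (((p : ℕ) : ℝ) - 1) ≤ _
            have h2 : 1 / ((p : ℕ) : ℝ) ≤ 1 / (((p : ℕ) : ℝ) - 1) := by
              apply one_div_le_one_div_of_le (by linarith); linarith
            linarith
      _ = Real.exp (-∑ p ∈ S, ((1 : ℝ) / ((p : ℕ) : ℝ))) := by
          rw [← Real.exp_sum, sum_neg_distrib]
      _ ≤ Real.exp (C / Real.log 2 - Real.log (2 ^ J' / 2 ^ j)) := by
          apply Real.exp_le_exp.mpr
          linarith [hm.1]
      _ = Real.exp (C / Real.log 2) * 2 ^ j / 2 ^ J' := by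
          rw [Real.exp_sub, Real.exp_log (by positivity)]
          field_simp

theorem phiP : PhiP := by
  obtain ⟨c, C, hc, hC, hM⟩ := Pool.Agent.Helper44.mertens_prod
  have hev : ∀ᶠ x : ℝ in Filter.atTop, 4 ≤ Real.log x ∧ 3 ≤ x :=
    (Real.tendsto_log_atTop.eventually_ge_atTop 4).and (Filter.eventually_ge_atTop 3)
  obtain ⟨X1, hX1⟩ := Filter.eventually_atTop.mp hev
  refine ⟨1 / (2 * C), max X1 3, by positivity, le_max_right _ _, ?_⟩
  intro x hx
  obtain ⟨hL4, hx3⟩ := hX1 x (le_trans (le_max_left _ _) hx)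
  have hw : 2 ≤ Real.sqrt (Real.log x) := by
    rw [show (2 : ℝ) = Real.sqrt 4 by
      rw [show (4 : ℝ) = 2 ^ 2 by norm_num]; rw [Real.sqrt_sq (by norm_num)]]
    exact Real.sqrt_le_sqrt hL4
  have hm := (hM _ hw).2
  rw [Real.log_sqrt (by linarith)] at hm
  have hcard : (Om x).card = (Ps x).totient := by
    unfold Om Nat.totient
    congr 1
    ext a
    rw [mem_filter, mem_filter, Nat.coprime_comm]
  have hpf : (Ps x).primeFactors = Pool.Agent.Helper44.primesUpTo (Real.sqrt (Real.log x)) := by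
    ext q
    rw [Pool.Agent.Helper44.mem_primesUpTo (by positivity), Nat.mem_primeFactors]
    unfold Ps
    constructor
    · rintro ⟨hq, hd, -⟩
      refine ⟨hq, ?_⟩
      have := (hq.dvd_primorial_iff).mp hd
      exact (Nat.le_floor_iff (by positivity)).mp this
    · rintro ⟨hq, hd⟩
      refine ⟨hq, (hq.dvd_primorial_iff).mpr ((Nat.le_floor_iff (by positivity)).mpr hd), ?_⟩
      exact (primorial_pos _).ne'
  have htot : ((Ps x).totient : ℝ) = (Ps x : ℝ) *
      ∏ q ∈ Pool.Agent.Helper44.primesUpTo (Real.sqrt (Real.log x)), (1 - (1 : ℝ) / q) := by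
    have h1 := Nat.totient_eq_mul_prod_factors (Ps x)
    have h2 : (((Ps x).totient : ℚ) : ℝ) =
        (((Ps x : ℚ) * ∏ p ∈ (Ps x).primeFactors, (1 - (p : ℚ)⁻¹) : ℚ) : ℝ) := by
      rw [h1]
    push_cast at h2
    rw [h2, hpf]
    congr 1
    apply prod_congr rfl
    intro q _
    rw [one_div]
  rw [hcard, htot]
  have hll : 0 < Real.log (Real.log x) := Real.log_pos (by linarith)
  have hPs : (0 : ℝ) ≤ (Ps x : ℝ) := by positivity
  set Q := ∏ q ∈ Pool.Agent.Helper44.primesUpTo (Real.sqrt (Real.log x)), (1 - (1 : ℝ) / q)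
  have hQ : 1 / (2 * C) * Real.log (Real.log x) * Q ≤ 1 := by
    calc 1 / (2 * C) * Real.log (Real.log x) * Q
        ≤ 1 / (2 * C) * Real.log (Real.log x) * (C / (Real.log (Real.log x) / 2)) := by
          apply mul_le_mul_of_nonneg_left hm (by positivity)
      _ = 1 := by field_simp
  calc 1 / (2 * C) * Real.log (Real.log x) * ((Ps x : ℝ) * Q)
      = (Ps x : ℝ) * (1 / (2 * C) * Real.log (Real.log x) * Q) := by ring
    _ ≤ (Ps x : ℝ) * 1 := mul_le_mul_of_nonneg_left hQ hPs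
    _ = Ps x := mul_one _

end Pool.Agent.Helper1.LG2
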