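import Pool.Agent.Helper1.LG2.Defs
import Pool.Agent.Helper1.LG.MassP
import Pool.Agent.Helper44.Mertens

set_option autoImplicit false

/-!
LG2-G. Weight functions (`MassP2` in `LG2/Defs.lean`).

`g`: smooth bump function with values in `[0, 1]`, equal to `1` on `[a, b]`, zero outside `[a', b']`,
`θ < θ' < a' < a < b < b' < 1 - (1-θ')/100`, e.g. `θ' = θ + (1-θ)/20`, `b - a ≥ (1-θ)/2`
(`exists_contDiff_tsupport_subset`, `Real.smoothTransition` or `ContDiffBump`; see LG/MassP.lean).
Mass: `Mn g x ≥ ∑_{p prime, x^a < p ≤ x^b} log p/p ≥ (b - a) log x - C` by Mertens' first theorem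
(`Pool.Agent.Helper44.mertens_first`).
-/

open Finset
open scoped ArithmeticFunction.vonMangoldt

namespace Pool.Agent.Helper1.LG2

open Pool.Agent.Helper18.BV (wt IsWt)
open Pool.Agent.Helper1.LG (nu Mn)

/-- Mertens in a window. -/
theorem window_sum : ∃ C : ℝ, 0 < C ∧ ∀ a b x : ℝ, 0 ≤ a → a ≤ b → 1 ≤ x →
    (b - a) * Real.log x - C ≤
      ∑ q ∈ (Ioc ⌊x ^ a⌋₊ ⌊x ^ b⌋₊).filter Nat.Prime, Real.log q / q := by
  obtain ⟨C, hC, hM⟩ := Pool.Agent.Helper44.mertens_first
  refine ⟨2 * C + Real.log 2, by positivity, ?_⟩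
  intro a b x ha hab hx
  have hxa : 1 ≤ x ^ a := Real.one_le_rpow hx ha
  have hxb : 1 ≤ x ^ b := Real.one_le_rpow hx (ha.trans hab)
  have hA : 1 ≤ ⌊x ^ a⌋₊ := Nat.one_le_floor_iff _ |>.2 hxa
  have hB : 1 ≤ ⌊x ^ b⌋₊ := Nat.one_le_floor_iff _ |>.2 hxb
  have hle : ⌊x ^ a⌋₊ ≤ ⌊x ^ b⌋₊ :=
    Nat.floor_mono (Real.rpow_le_rpow_of_exponent_le hx hab)
  have h1 := abs_le.1 (hM _ hA)
  have h2 := abs_le.1 (hM _ hB)
  have hsplit : ∑ q ∈ (Ioc 0 ⌊x ^ b⌋₊).filter Nat.Prime, Real.log q / q =
      ∑ q ∈ (Ioc 0 ⌊x ^ a⌋₊).filter Nat.Prime, Real.log q / q +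
      ∑ q ∈ (Ioc ⌊x ^ a⌋₊ ⌊x ^ b⌋₊).filter Nat.Prime, Real.log q / q := by
    rw [← sum_union]
    · rw [← filter_union, Ioc_union_Ioc_eq_Ioc (Nat.zero_le _) hle]
    · apply disjoint_filter_filter
      rw [Finset.disjoint_left]
      intro q h3 h4
      rw [mem_Ioc] at h3 h4
      omega
  have hx0 : (0 : ℝ) < x := by linarith
  have hlogA : Real.log (⌊x ^ a⌋₊ : ℝ) ≤ a * Real.log x := by
    rw [← Real.log_rpow hx0]
    apply Real.log_le_log
    · exact_mod_cast hA
    · exact Nat.floor_le (by linarith)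
  have hlogB : b * Real.log x - Real.log 2 ≤ Real.log (⌊x ^ b⌋₊ : ℝ) := by
    rw [← Real.log_rpow hx0, sub_le_iff_le_add, ← Real.log_mul (by
      have : (1 : ℝ) ≤ (⌊x ^ b⌋₊ : ℝ) := by exact_mod_cast hB
      linarith) (by norm_num)]
    apply Real.log_le_log (by linarith)
    have h5 := Nat.lt_floor_add_one (x ^ b)
    have h6 : (1 : ℝ) ≤ (⌊x ^ b⌋₊ : ℝ) := by exact_mod_cast hB
    linarith
  linarith [h1.1, h1.2, h2.1, h2.2]

theorem massP2 : MassP2 := by
  intro θ hθ hθ1
  obtain ⟨C, hC, hW⟩ := window_sum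
  set δ : ℝ := 1 - θ with hδ
  have hδ0 : 0 < δ := by linarith
  have hδ1 : δ < 1 / 2 := by linarith
  let f : ContDiffBump (1 - 9 * δ / 20 : ℝ) :=
    { rIn := 7 * δ / 20
      rOut := 8 * δ / 20
      rIn_pos := by positivity
      rIn_lt_rOut := by linarith }
  have hsupp : tsupport f = Metric.closedBall (1 - 9 * δ / 20 : ℝ) (8 * δ / 20) := f.tsupport_eq
  refine ⟨f, ⟨f.contDiff, ?_, fun v => f.nonneg⟩, fun v => f.le_one, θ + δ / 20, by linarith,
    by linarith, ?_, ?_⟩
  · rw [hsupp]
    intro v hv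
    rw [Metric.mem_closedBall, Real.dist_eq, abs_le] at hv
    constructor <;> linarith [hv.1, hv.2]
  · intro v hv
    have h1 : v ∈ Function.support f := hv
    rw [f.support_eq, Metric.mem_ball, Real.dist_eq, abs_lt] at h1
    obtain ⟨h2, h3⟩ := h1
    have e1 : f.rOut = 8 * δ / 20 := rfl
    rw [e1] at h2 h3
    constructor <;> linarith
  · refine ⟨max 3 (Real.exp (C / (δ / 4))), le_max_left _ _, ?_⟩
    intro x hx
    have hx3 : 3 ≤ x := (le_max_left _ _).trans hx
    have hx1 : 1 ≤ x := by linarith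
    have hx0 : 0 < x := by linarith
    have hlog1 : 1 ≤ Real.log x := by
      rw [Real.le_log_iff_exp_le hx0]
      exact (Real.exp_one_lt_d9.le.trans (by norm_num)).trans hx3
    have hlog0 : 0 < Real.log x := by linarith
    have hlogC : C / (δ / 4) ≤ Real.log x := by
      rw [Real.le_log_iff_exp_le hx0]
      exact (le_max_right _ _).trans hx
    have hC1 : C ≤ Real.log x * (δ / 4) := by
      rwa [div_le_iff₀ (by positivity)] at hlogC
    have h1 := hW (1 - 16 * δ / 20) (1 - 2 * δ / 20) x (by linarith) (by linarith) hx1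
    have h2 : ∑ q ∈ (Ioc ⌊x ^ (1 - 16 * δ / 20)⌋₊ ⌊x ^ (1 - 2 * δ / 20)⌋₊).filter Nat.Prime,
        Real.log q / q ≤ Mn f x := by
      unfold Mn
      have hsub : (Ioc ⌊x ^ (1 - 16 * δ / 20)⌋₊ ⌊x ^ (1 - 2 * δ / 20)⌋₊).filter Nat.Prime ⊆
          Icc 1 ⌊x⌋₊ := by
        intro q hq
        rw [mem_filter, mem_Ioc] at hq
        rw [mem_Icc]
        refine ⟨by omega, hq.1.2.trans (Nat.floor_mono ?_)⟩
        calc x ^ (1 - 2 * δ / 20) ≤ x ^ (1 : ℝ) :=
              Real.rpow_le_rpow_of_exponent_le hx1 (by linarith)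
          _ = x := Real.rpow_one x
      calc _ ≤ ∑ q ∈ (Ioc ⌊x ^ (1 - 16 * δ / 20)⌋₊ ⌊x ^ (1 - 2 * δ / 20)⌋₊).filter Nat.Prime,
            nu f x q := by
            apply sum_le_sum
            intro q hq
            rw [mem_filter, mem_Ioc] at hq
            obtain ⟨⟨hq1, hq2⟩, hqp⟩ := hq
            have hq0 : (0 : ℝ) < q := by exact_mod_cast hqp.pos
            have e1 : Real.log q ≤ (1 - 2 * δ / 20) * Real.log x := by
              rw [← Real.log_rpow hx0]
              apply Real.log_le_log hq0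
              exact (Nat.le_floor_iff (by positivity)).1 hq2
            have e2 : (1 - 16 * δ / 20) * Real.log x ≤ Real.log q := by
              rw [← Real.log_rpow hx0]
              apply Real.log_le_log (by positivity)
              exact (Nat.lt_of_floor_lt hq1).le
            have e3 : f (Real.log q / Real.log x) = 1 := by
              apply f.one_of_mem_closedBall
              rw [Metric.mem_closedBall, Real.dist_eq, abs_le]
              have e5 : f.rIn = 7 * δ / 20 := rfl
              rw [e5]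
              have e6 : Real.log q / Real.log x ≤ 1 - 2 * δ / 20 := by
                rwa [div_le_iff₀ hlog0]
              have e7 : 1 - 16 * δ / 20 ≤ Real.log q / Real.log x := by
                rwa [le_div_iff₀ hlog0]
              constructor <;> linarith
            unfold nu wt
            rw [if_pos hqp, e3, ArithmeticFunction.vonMangoldt_apply_prime hqp]
            apply le_of_eq
            ring
        _ ≤ ∑ n ∈ Icc 1 ⌊x⌋₊, nu f x n := by
            apply sum_le_sum_of_subset_of_nonneg hsub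
            intro n _ _
            unfold nu wt
            split_ifs with h
            · have := f.nonneg (x := Real.log n / Real.log x)
              have h3 := ArithmeticFunction.vonMangoldt_nonneg (n := n)
              positivity
            · exact le_rfl
    have h3 : (1 - 2 * δ / 20 - (1 - 16 * δ / 20)) * Real.log x = 7 / 10 * δ * Real.log x := by ring
    rw [h3] at h1
    nlinarith

end Pool.Agent.Helper1.LG2
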