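import Pool.Agent.Helper1.LG2.Defs
import Pool.Agent.Helper1.LG.Params

set_option autoImplicit false

/-!
LG2-O, LG2-B, LG2-K. Orders and parameters (`Orders`, `BoostParams`, `KillParams` in
`LG2/Defs.lean`). See `LG/Params.lean` (helper12) for similar computations.

`orders`: `ro i = 2 (m0 + (min i i1 - J') + (i - (i1+J1)))` (natural subtraction), `m = m0 + (i1 - J')`.
For `j ≤ J'`: `ro i ≤ 2 (m0 + (i - J'))`, so the sum is at most `4 m0/2^j + 4/2^J' ≤ 12 m0/2^j`. For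
`i1 ≤ j ≤ i1+J1`, `i ≥ j`: `ro i = 2 (m + (i - (i1+J1)))`: at most `4 m/2^j + 4/2^(i1+J1) ≤ 12 m/2^j`.
Tails: `tt (r+2) ≤ tt r/4` for `r ≥ 200`; `ro = 2 m0` for `i ≤ J'`, `2m` for `i1 ≤ i ≤ i1+J1`, increasing by
`2` elsewhere.

`boostParams`: `ρ = 1/(300000 m0)`, `J' = ⌈600000 A m m0⌉ + m0`-like, `k = ⌊2^J'/J'⌋` (`≥ 2^J'/(2J')`, `≥ m`),
`kb j = ⌈16 k 2^j/2^J'⌉`. `k · 12 m0 ρ/2^J' ≤ 12 m0 ρ`, `∑_j kb j 12 m0 ρ/2^j ≤ 192 m0 ρ k J'/2^J' + 24 m0 ρ ≤ 216 m0 ρ`;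
`k ρ J'²/2^J' ≥ ρ J'/2 ≥ A m`; `m0` so large that `(J' + 2) tt (2 m0) ≤ 1/2000` (`J' = O(m0)`, `A`, `m` fixed).

`killParams`: let `m = m0 + (i1 - J')`, `η = ρ/2^i1`. `J1 = ⌈Q m H²/(ε η)⌉` with `Q` a large absolute constant,
`kk j = ⌈400 H² 2^j/(ε J1² η²)⌉` (so `H/η · 200 H 2^j/(J1² η kk j) ≤ ε/2`). Then
`∑_j kk j 12 m η/2^j ≤ 12 m η (400 H²/(ε J1 η²) + 2) ≤ 4800 m H²/(ε J1 η) + 24 m η ≤ 1/2000 + 1/2000` for `i1` large
(`m η = (m0 + i1 - J') ρ/2^i1 → 0`), and the conditions on `tt (2m)` hold for `i1` large: `J1` and `1/η` are at most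
`C m 2^i1`, while `tt (2m)` decays faster than `exp(-m log m)`, `m ≥ i1 - J'`.
-/

open Finset

namespace Pool.Agent.Helper1.LG2

open Pool.Agent.Helper1.LG (sum_k tt_pos tt_iter geo exists_m)

private lemma sum_half (n : ℕ) : ∑ k ∈ range n, (1 / 2 : ℝ) ^ k ≤ 2 := by
  have h6 : ∑ k ∈ range n, (1 / 2 : ℝ) ^ k = 2 - 2 * (1 / 2) ^ n := by
    rw [geom_sum_eq (by norm_num)]
    ring
  rw [h6]
  have : (0 : ℝ) ≤ 2 * (1 / 2) ^ n := by positivity
  linarith

/-- Linear orders: the weighted sum. -/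
private lemma sum_lin (f : ℕ → ℕ) (m j I : ℕ) (hm : 1 ≤ m)
    (hf : ∀ k, f (j + k) ≤ 2 * (m + k)) :
    ∑ i ∈ Ico j I, (f i : ℝ) / 2 ^ i ≤ 12 * (m : ℝ) / 2 ^ j := by
  rw [Finset.sum_Ico_eq_sum_range]
  have h1 : ∑ k ∈ range (I - j), (f (j + k) : ℝ) / 2 ^ (j + k) ≤
      ∑ k ∈ range (I - j), (2 * m / 2 ^ j) * (((k : ℝ) + 1) / 2 ^ k) := by
    apply Finset.sum_le_sum
    intro k _
    have h2 : f (j + k) ≤ 2 * m * (k + 1) := by
      have h3 := hf k
      have h4 : k ≤ m * k := Nat.le_mul_of_pos_left k hm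
      nlinarith
    have h5 : (f (j + k) : ℝ) ≤ 2 * m * ((k : ℝ) + 1) := by exact_mod_cast h2
    calc (f (j + k) : ℝ) / 2 ^ (j + k) ≤ (2 * m * ((k : ℝ) + 1)) / 2 ^ (j + k) :=
          div_le_div_of_nonneg_right h5 (by positivity)
      _ = (2 * m / 2 ^ j) * (((k : ℝ) + 1) / 2 ^ k) := by
          rw [pow_add]
          field_simp
  refine h1.trans ?_
  rw [← Finset.mul_sum]
  calc (2 * (m : ℝ) / 2 ^ j) * ∑ k ∈ range (I - j), (((k : ℝ) + 1) / 2 ^ k) ≤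
        (2 * m / 2 ^ j) * 4 := mul_le_mul_of_nonneg_left (sum_k _) (by positivity)
    _ = 8 * m / 2 ^ j := by ring
    _ ≤ 12 * m / 2 ^ j := by
        apply div_le_div_of_nonneg_right _ (by positivity)
        have : (0 : ℝ) ≤ m := by positivity
        linarith

theorem orders : Orders := by
  intro m0 J' i1 J1 hm0 hJ hJ1 I
  have h3 : ∑ i ∈ Ico i1 I, LG.tt (ro m0 J' i1 J1 i) ≤
      ((J1 : ℝ) + 2) * LG.tt (2 * (m0 + (i1 - J'))) := by
    rw [Finset.sum_Ico_eq_sum_range]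
    calc ∑ k ∈ range (I - i1), LG.tt (ro m0 J' i1 J1 (i1 + k)) ≤
          ∑ k ∈ range (I - i1), LG.tt (2 * (m0 + (i1 - J'))) * (1 / 2 : ℝ) ^ (k - J1) := by
          apply Finset.sum_le_sum
          intro k _
          have e : ro m0 J' i1 J1 (i1 + k) = 2 * ((m0 + (i1 - J')) + (k - J1)) := by
            unfold ro
            omega
          rw [e]
          exact tt_iter _ _ (by omega)
      _ = LG.tt (2 * (m0 + (i1 - J'))) * ∑ k ∈ range (I - i1), (1 / 2 : ℝ) ^ (k - J1) := by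
          rw [Finset.mul_sum]
      _ ≤ LG.tt (2 * (m0 + (i1 - J'))) * ((J1 : ℝ) + 2) :=
          mul_le_mul_of_nonneg_left (geo J1 _) (tt_pos _).le
      _ = _ := by ring
  refine ⟨?_, ?_, h3, ?_⟩
  · intro j hj
    apply sum_lin _ _ _ _ (by omega)
    intro k
    unfold ro
    omega
  · intro j h1 h2
    apply sum_lin _ _ _ _ (by omega)
    intro k
    unfold ro
    omega
  · have h4 : ∑ i ∈ range I, LG.tt (ro m0 J' i1 J1 i) ≤
        ∑ i ∈ range i1, LG.tt (ro m0 J' i1 J1 i) + ∑ i ∈ Ico i1 I, LG.tt (ro m0 J' i1 J1 i) := by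
      rcases le_total I i1 with h | h
      · have h5 : ∑ i ∈ range I, LG.tt (ro m0 J' i1 J1 i) ≤
            ∑ i ∈ range i1, LG.tt (ro m0 J' i1 J1 i) :=
          Finset.sum_le_sum_of_subset_of_nonneg (Finset.range_subset_range.mpr h)
            fun i _ _ => (tt_pos _).le
        have h6 : 0 ≤ ∑ i ∈ Ico i1 I, LG.tt (ro m0 J' i1 J1 i) :=
          Finset.sum_nonneg fun i _ => (tt_pos _).le
        linarith
      · rw [Finset.sum_range_add_sum_Ico _ h]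
    have h7 : ∑ i ∈ range i1, LG.tt (ro m0 J' i1 J1 i) ≤ ((J' : ℝ) + 2) * LG.tt (2 * m0) := by
      calc ∑ i ∈ range i1, LG.tt (ro m0 J' i1 J1 i) ≤
            ∑ i ∈ range i1, LG.tt (2 * m0) * (1 / 2 : ℝ) ^ (i - J') := by
            apply Finset.sum_le_sum
            intro i hi
            have hi' := Finset.mem_range.mp hi
            have e : ro m0 J' i1 J1 i = 2 * (m0 + (i - J')) := by
              unfold ro
              omega
            rw [e]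
            exact tt_iter m0 (i - J') hm0
        _ = LG.tt (2 * m0) * ∑ i ∈ range i1, (1 / 2 : ℝ) ^ (i - J') := by rw [Finset.mul_sum]
        _ ≤ LG.tt (2 * m0) * ((J' : ℝ) + 2) :=
            mul_le_mul_of_nonneg_left (geo J' _) (tt_pos _).le
        _ = _ := by ring
    linarith

/-- The ceilings of a geometric sequence. -/
private lemma sum_ceil (J : ℕ) (c : ℝ) (hc : 0 ≤ c) :
    ∑ j : Fin J, (⌈c * 2 ^ (j : ℕ)⌉₊ : ℝ) / 2 ^ (j : ℕ) ≤ J * c + 2 := by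
  have h1 : ∑ j : Fin J, (⌈c * 2 ^ (j : ℕ)⌉₊ : ℝ) / 2 ^ (j : ℕ) ≤
      ∑ j : Fin J, (c + (1 / 2 : ℝ) ^ (j : ℕ)) := by
    apply Finset.sum_le_sum
    intro j _
    have h2 : (⌈c * 2 ^ (j : ℕ)⌉₊ : ℝ) < c * 2 ^ (j : ℕ) + 1 :=
      Nat.ceil_lt_add_one (by positivity)
    rw [div_le_iff₀ (by positivity), add_mul, ← mul_pow]
    norm_num
    linarith
  refine h1.trans ?_
  rw [Finset.sum_add_distrib, Finset.sum_const, Finset.card_univ, Fintype.card_fin, nsmul_eq_mul,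
    Fin.sum_univ_eq_sum_range (fun j => (1 / 2 : ℝ) ^ j) J]
  have := sum_half J
  linarith

private lemma cube_le (n : ℕ) (hn : 10 ≤ n) : n ^ 3 ≤ 2 ^ n := by
  induction n, hn using Nat.le_induction with
  | base => norm_num
  | succ n hn ih =>
    rw [pow_succ 2 n]
    have h1 : 10 * n ^ 2 ≤ n ^ 3 := by
      calc 10 * n ^ 2 ≤ n * n ^ 2 := Nat.mul_le_mul_right _ hn
        _ = n ^ 3 := by ring
    nlinarith

theorem boostParams : BoostParams := by
  intro m A hA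
  set C : ℝ := 600000 * A * m + m + 13 with hC
  have hC0 : 0 < C := by positivity
  obtain ⟨m0, hm0, ht⟩ := exists_m (1 / (2000 * C)) (by positivity)
  have hm1 : (100 : ℝ) ≤ m0 := by exact_mod_cast hm0
  have hm0' : (0 : ℝ) < m0 := by linarith
  set J' : ℕ := ⌈600000 * A * m * m0⌉₊ + m + 10 with hJ'
  have hJge : 600000 * A * m * m0 ≤ J' := by
    have := Nat.le_ceil (600000 * A * m * m0)
    rw [hJ']
    push_cast
    have h2 : (0 : ℝ) ≤ m := by positivity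
    linarith
  have hJle : (J' : ℝ) + 2 ≤ C * m0 := by
    have h1 : (⌈600000 * A * m * m0⌉₊ : ℝ) < 600000 * A * m * m0 + 1 :=
      Nat.ceil_lt_add_one (by positivity)
    rw [hJ', hC]
    push_cast
    have h2 : (0 : ℝ) ≤ m := by positivity
    nlinarith
  have hJ10 : 10 ≤ J' := by omega
  have hJm : m ≤ J' := by omega
  have hJpos : (0 : ℝ) < J' := by
    have : 0 < J' := by omega
    exact_mod_cast this
  set k : ℕ := 2 ^ J' / J' with hk
  have hkJ : k * J' ≤ 2 ^ J' := Nat.div_mul_le_self _ _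
  have hcube := cube_le J' hJ10
  have hk2 : 2 ^ J' ≤ 2 * (k * J') := by
    have h1 : 2 ^ J' < (k + 1) * J' := by
      rw [hk, mul_comm]
      exact Nat.lt_mul_div_succ _ (by omega)
    have h2 : 1 ≤ k := by
      rw [hk]
      apply (Nat.one_le_div_iff (by omega)).mpr
      refine le_trans ?_ hcube
      exact Nat.le_self_pow (by norm_num) _
    nlinarith
  have hkm : m ≤ k := by
    rw [hk]
    apply (Nat.le_div_iff_mul_le (by omega)).mpr
    calc m * J' ≤ J' * J' := Nat.mul_le_mul_right _ hJm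
      _ ≤ J' ^ 3 := by nlinarith
      _ ≤ 2 ^ J' := hcube
  have hkpos : 0 < k := by
    by_contra h
    have : k = 0 := by omega
    rw [this] at hk2
    simp at hk2
  have hkJ' : (k : ℝ) * J' ≤ 2 ^ J' := by exact_mod_cast hkJ
  have hk2' : (2 : ℝ) ^ J' ≤ 2 * (k * J') := by exact_mod_cast hk2
  have hp : (0 : ℝ) < 2 ^ J' := by positivity
  have hk0 : (0 : ℝ) < k := by exact_mod_cast hkpos
  set ρ : ℝ := 1 / (300000 * m0) with hρ
  have hρ0 : 0 < ρ := by positivity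
  have hmρ : (m0 : ℝ) * ρ = 1 / 300000 := by
    rw [hρ]
    field_simp
  refine ⟨m0, J', k, fun j => ⌈(16 * (k : ℝ) / 2 ^ J') * 2 ^ (j : ℕ)⌉₊, ρ, by omega, hkpos, hkm,
    hρ0, ?_, hm0, ?_, ?_, ?_, ?_⟩
  · rw [hρ, div_le_div_iff₀ (by positivity) (by norm_num)]
    nlinarith
  · intro j
    refine ⟨Nat.ceil_pos.mpr (by positivity), ?_⟩
    refine le_trans (le_of_eq ?_) (Nat.le_ceil _)
    ring
  · rw [le_div_iff₀ hp]
    have h1 : 600000 * A * m * m0 * ρ ≤ J' * ρ := mul_le_mul_of_nonneg_right hJge hρ0.le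
    have h2 : 2 * (A * m) ≤ J' * ρ := by
      have e : 600000 * A * m * m0 * ρ = 600000 * A * m * (m0 * ρ) := by ring
      rw [e, hmρ] at h1
      linarith
    calc A * m * 2 ^ J' ≤ (J' * ρ / 2) * 2 ^ J' :=
          mul_le_mul_of_nonneg_right (by linarith) hp.le
      _ ≤ (J' * ρ / 2) * (2 * (k * J')) :=
          mul_le_mul_of_nonneg_left hk2' (by positivity)
      _ = k * ρ * J' ^ 2 := by ring
  · have h1 : ((J' : ℝ) + 2) * LG.tt (2 * m0) ≤ C * (m0 : ℝ) ^ 3 * LG.tt (2 * m0) := by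
      apply mul_le_mul_of_nonneg_right _ (tt_pos _).le
      refine hJle.trans ?_
      apply mul_le_mul_of_nonneg_left _ hC0.le
      nlinarith [sq_nonneg (m0 : ℝ)]
    refine h1.trans ?_
    calc C * (m0 : ℝ) ^ 3 * LG.tt (2 * m0) = C * ((m0 : ℝ) ^ 3 * LG.tt (2 * m0)) := by ring
      _ ≤ C * (1 / (2000 * C)) := mul_le_mul_of_nonneg_left ht hC0.le
      _ = 1 / 2000 := by field_simp
  · have h1 : (k : ℝ) * (12 * m0 * ρ / 2 ^ J') ≤ 12 / 300000 := by
      have e : (k : ℝ) * (12 * m0 * ρ / 2 ^ J') = 12 * (m0 * ρ) * (k / 2 ^ J') := by ring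
      rw [e, hmρ]
      have h2 : (k : ℝ) / 2 ^ J' ≤ 1 := by
        rw [div_le_one hp]
        have : (1 : ℝ) ≤ J' := by
          have : 1 ≤ J' := by omega
          exact_mod_cast this
        nlinarith
      nlinarith
    have h3 : ∑ j : Fin J', (⌈(16 * (k : ℝ) / 2 ^ J') * 2 ^ (j : ℕ)⌉₊ : ℝ) *
        (12 * m0 * ρ / 2 ^ (j : ℕ)) ≤ 12 / 300000 * 18 := by
      have e : ∑ j : Fin J', (⌈(16 * (k : ℝ) / 2 ^ J') * 2 ^ (j : ℕ)⌉₊ : ℝ) *
          (12 * m0 * ρ / 2 ^ (j : ℕ)) = 12 * (m0 * ρ) *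
          ∑ j : Fin J', (⌈(16 * (k : ℝ) / 2 ^ J') * 2 ^ (j : ℕ)⌉₊ : ℝ) / 2 ^ (j : ℕ) := by
        rw [Finset.mul_sum]
        refine Finset.sum_congr rfl fun j _ => ?_
        ring
      rw [e, hmρ]
      have h4 := sum_ceil J' (16 * (k : ℝ) / 2 ^ J') (by positivity)
      have h5 : (J' : ℝ) * (16 * (k : ℝ) / 2 ^ J') ≤ 16 := by
        rw [mul_div_assoc', div_le_iff₀ hp]
        nlinarith
      nlinarith
    linarith

/-- The tails beat exponentials. -/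
private lemma tt_exp (ε : ℝ) (hε : 0 < ε) : ∃ M : ℕ, ∀ m : ℕ, M ≤ m →
    (8 : ℝ) ^ m * LG.tt (2 * m) ≤ ε := by
  have h := FloorSemiring.tendsto_pow_div_factorial_atTop (512 : ℝ)
  have hE : 0 < ε / Real.exp 64 := by positivity
  have h2 := (h.eventually (ge_mem_nhds hE))
  obtain ⟨N, hN⟩ := Filter.eventually_atTop.mp h2
  refine ⟨N, fun m hm => ?_⟩
  have h3 := hN (2 * m + 1) (by omega)
  have h4 : (8 : ℝ) ^ m ≤ 8 ^ (2 * m + 1) := pow_le_pow_right₀ (by norm_num) (by omega)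
  have h6 : (8 : ℝ) ^ m * LG.tt (2 * m) ≤
      Real.exp 64 * (512 ^ (2 * m + 1) / ((2 * m + 1).factorial : ℝ)) := by
    unfold LG.tt
    have e : (512 : ℝ) ^ (2 * m + 1) = 8 ^ (2 * m + 1) * 64 ^ (2 * m + 1) := by
      rw [← mul_pow]
      norm_num
    rw [e]
    have hF : (0 : ℝ) < ((2 * m + 1).factorial : ℝ) := by exact_mod_cast Nat.factorial_pos _
    calc (8 : ℝ) ^ m * (64 ^ (2 * m + 1) * Real.exp 64 / ((2 * m + 1).factorial : ℝ)) ≤
          8 ^ (2 * m + 1) * (64 ^ (2 * m + 1) * Real.exp 64 / ((2 * m + 1).factorial : ℝ)) :=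
          mul_le_mul_of_nonneg_right h4 (by positivity)
      _ = _ := by ring
  refine h6.trans ?_
  calc Real.exp 64 * (512 ^ (2 * m + 1) / ((2 * m + 1).factorial : ℝ)) ≤
        Real.exp 64 * (ε / Real.exp 64) := mul_le_mul_of_nonneg_left h3 (Real.exp_pos _).le
    _ = ε := by
        field_simp

/-- Linear over exponential. -/
private lemma lin_exp (m0 : ℕ) (δ : ℝ) (hδ : 0 < δ) : ∃ S : ℕ, ∀ s : ℕ, S ≤ s →
    ((m0 : ℝ) + s) / 2 ^ s ≤ δ := by
  have h1 : Filter.Tendsto (fun s : ℕ => ((m0 : ℝ) + s) / 2 ^ s) Filter.atTop (nhds 0) := by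
    have h2 := tendsto_pow_const_div_const_pow_of_one_lt 0 (show (1 : ℝ) < 2 by norm_num)
    have h3 := tendsto_pow_const_div_const_pow_of_one_lt 1 (show (1 : ℝ) < 2 by norm_num)
    have h4 := (h2.const_mul (m0 : ℝ)).add h3
    rw [mul_zero, add_zero] at h4
    refine h4.congr fun s => ?_
    rw [pow_zero, pow_one]
    ring
  obtain ⟨S, hS⟩ := Filter.eventually_atTop.mp (h1.eventually (ge_mem_nhds hδ))
  exact ⟨S, hS⟩

theorem killParams : KillParams := by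
  intro H ε ρ m0 J' hH hε hρ hρ1 hm0
  have hH0 : 0 < H := by linarith
  set Q : ℝ := 10 ^ 7 with hQ
  set C : ℝ := 4000 * (H * 2 ^ J' / ρ + 1) * (Q * H ^ 2 * 2 ^ J' / (ε * ρ) + 3) / ε +
    4000 * (Q * H ^ 2 * 2 ^ J' / (ε * ρ) + 3) with hC
  have hC0 : 0 < C := by positivity
  obtain ⟨M, hM⟩ := tt_exp (1 / C) (by positivity)
  obtain ⟨S, hS⟩ := lin_exp m0 (1 / 48000) (by norm_num)
  set s : ℕ := max M S with hs
  have hsM : M ≤ s := le_max_left _ _
  have hsS : S ≤ s := le_max_right _ _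
  set m : ℕ := m0 + s with hm
  have hmpos : (0 : ℝ) < m := by
    have : 0 < m := by omega
    exact_mod_cast this
  have hm1 : (1 : ℝ) ≤ m := by
    have : 1 ≤ m := by omega
    exact_mod_cast this
  have hsub : J' + s - J' = s := by omega
  set η : ℝ := ρ / 2 ^ (J' + s) with hη
  have hη0 : 0 < η := by positivity
  have h8 := hM m (by omega)
  -- `1 / η ≤ 2 ^ J' / ρ * 2 ^ m`
  have hinv : 1 / η ≤ 2 ^ J' / ρ * 2 ^ m := by
    have h1 : (2 : ℝ) ^ s ≤ 2 ^ m := pow_le_pow_right₀ (by norm_num) (by omega)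
    calc 1 / η = 2 ^ J' / ρ * 2 ^ s := by
          rw [hη, one_div_div, pow_add]
          ring
      _ ≤ 2 ^ J' / ρ * 2 ^ m := mul_le_mul_of_nonneg_left h1 (by positivity)
  have hmη : (m : ℝ) * η ≤ 1 / 48000 := by
    have h1 := hS s hsS
    have h2 : (1 : ℝ) ≤ 2 ^ J' := one_le_pow₀ (by norm_num)
    have h3 : ρ / 2 ^ J' ≤ 1 := by
      rw [div_le_one (by positivity)]
      linarith
    calc (m : ℝ) * η = (((m0 : ℝ) + s) / 2 ^ s) * (ρ / 2 ^ J') := by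
          rw [hη, hm, pow_add]
          push_cast
          field_simp
      _ ≤ (((m0 : ℝ) + s) / 2 ^ s) * 1 := mul_le_mul_of_nonneg_left h3 (by positivity)
      _ ≤ 1 / 48000 := by linarith
  have h2m : (m : ℝ) ≤ 2 ^ m := by exact_mod_cast (Nat.lt_two_pow_self (n := m)).le
  set J1 : ℕ := ⌈Q * m * H ^ 2 / (ε * η)⌉₊ with hJ1
  have hJpos' : 0 < Q * m * H ^ 2 / (ε * η) := by positivity
  have hJge : Q * m * H ^ 2 / (ε * η) ≤ J1 := Nat.le_ceil _
  have hJ0 : (0 : ℝ) < J1 := lt_of_lt_of_le hJpos' hJge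
  have hJn : 0 < J1 := by exact_mod_cast hJ0
  set D : ℝ := Q * H ^ 2 * 2 ^ J' / (ε * ρ) + 3 with hD
  have hD0 : 0 < D := by positivity
  have hJD : (J1 : ℝ) + 2 ≤ D * 4 ^ m := by
    have h1 : (J1 : ℝ) < Q * m * H ^ 2 / (ε * η) + 1 := Nat.ceil_lt_add_one hJpos'.le
    have h4 : (4 : ℝ) ^ m = 2 ^ m * 2 ^ m := by
      rw [← mul_pow]
      norm_num
    have h2 : Q * m * H ^ 2 / (ε * η) ≤ (Q * H ^ 2 * 2 ^ J' / (ε * ρ)) * 4 ^ m := by
      calc Q * m * H ^ 2 / (ε * η) = (Q * H ^ 2 / ε) * (m * (1 / η)) := by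
            field_simp
        _ ≤ (Q * H ^ 2 / ε) * (2 ^ m * (2 ^ J' / ρ * 2 ^ m)) := by
            apply mul_le_mul_of_nonneg_left _ (by positivity)
            exact mul_le_mul h2m hinv (by positivity) (by positivity)
        _ = (Q * H ^ 2 * 2 ^ J' / (ε * ρ)) * 4 ^ m := by
            rw [h4]
            field_simp
    have h3 : (1 : ℝ) ≤ 4 ^ m := one_le_pow₀ (by norm_num)
    rw [hD, add_mul]
    linarith
  have htt := tt_pos (2 * m)
  have hC2 : 4000 * D ≤ C := by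
    rw [hC]
    have : 0 ≤ 4000 * (H * 2 ^ J' / ρ + 1) * D / ε := by positivity
    linarith
  have hC1 : 4000 * (H * 2 ^ J' / ρ) * D ≤ C * ε := by
    have e : C * ε = 4000 * (H * 2 ^ J' / ρ + 1) * D + 4000 * D * ε := by
      rw [hC]
      field_simp
    rw [e]
    have h1 : 0 ≤ 4000 * D * ε := by positivity
    have h2 : 0 ≤ 4000 * D := by positivity
    nlinarith
  have h84 : (4 : ℝ) ^ m ≤ 8 ^ m := pow_le_pow_left₀ (by norm_num) (by norm_num) _
  have h8e : (8 : ℝ) ^ m = 4 ^ m * 2 ^ m := by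
    rw [← mul_pow]
    norm_num
  have hT1 : ((J1 : ℝ) + 2) * LG.tt (2 * m) ≤ 1 / 4000 := by
    calc ((J1 : ℝ) + 2) * LG.tt (2 * m) ≤ (D * 8 ^ m) * LG.tt (2 * m) := by
          apply mul_le_mul_of_nonneg_right _ htt.le
          exact hJD.trans (mul_le_mul_of_nonneg_left h84 hD0.le)
      _ = D * (8 ^ m * LG.tt (2 * m)) := by ring
      _ ≤ D * (1 / C) := mul_le_mul_of_nonneg_left h8 hD0.le
      _ ≤ 1 / 4000 := by
          rw [mul_one_div, div_le_div_iff₀ hC0 (by norm_num)]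
          linarith
  have hT2 : H / η * (2000 * (((J1 : ℝ) + 2) * LG.tt (2 * m))) ≤ ε / 2 := by
    have h1 : H / η ≤ H * (2 ^ J' / ρ * 2 ^ m) := by
      rw [div_eq_mul_one_div]
      exact mul_le_mul_of_nonneg_left hinv hH0.le
    calc H / η * (2000 * (((J1 : ℝ) + 2) * LG.tt (2 * m))) ≤
          (H * (2 ^ J' / ρ * 2 ^ m)) * (2000 * ((D * 4 ^ m) * LG.tt (2 * m))) := by
          apply mul_le_mul h1 _ (by positivity) (by positivity)
          apply mul_le_mul_of_nonneg_left _ (by norm_num)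
          exact mul_le_mul_of_nonneg_right hJD htt.le
      _ = 2000 * (H * 2 ^ J' / ρ) * D * (8 ^ m * LG.tt (2 * m)) := by
          rw [h8e]
          ring
      _ ≤ 2000 * (H * 2 ^ J' / ρ) * D * (1 / C) :=
          mul_le_mul_of_nonneg_left h8 (by positivity)
      _ ≤ ε / 2 := by
          rw [mul_one_div, div_le_div_iff₀ hC0 (by norm_num)]
          linarith
  set c : ℝ := 400 * H ^ 2 / (ε * (J1 : ℝ) ^ 2 * η ^ 2) with hc
  have hc0 : 0 < c := by positivity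
  refine ⟨J' + s, J1, fun j => ⌈c * 2 ^ (j : ℕ)⌉₊, by omega, hJn,
    fun j => Nat.ceil_pos.mpr (by positivity), ?_, ?_, ?_, ?_⟩
  · rw [hsub, ← hm]
    linarith
  · intro j
    rw [hsub, ← hm]
    have hk : c * 2 ^ (j : ℕ) ≤ (⌈c * 2 ^ (j : ℕ)⌉₊ : ℝ) := Nat.le_ceil _
    have hk0 : (0 : ℝ) < (⌈c * 2 ^ (j : ℕ)⌉₊ : ℝ) := lt_of_lt_of_le (by positivity) hk
    have e1 : H * 2 ^ (J' + s) / ρ = H / η := by
      rw [hη]
      field_simp
    have e2 : 200 * H * 2 ^ (J' + s + (j : ℕ)) / ((J1 : ℝ) ^ 2 * ρ * ⌈c * 2 ^ (j : ℕ)⌉₊) =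
        200 * H * 2 ^ (j : ℕ) / ((J1 : ℝ) ^ 2 * η * ⌈c * 2 ^ (j : ℕ)⌉₊) := by
      rw [hη, pow_add]
      field_simp
    rw [e1, e2, mul_add]
    have h1 : H / η * (200 * H * 2 ^ (j : ℕ) / ((J1 : ℝ) ^ 2 * η * ⌈c * 2 ^ (j : ℕ)⌉₊)) ≤
        ε / 2 := by
      calc H / η * (200 * H * 2 ^ (j : ℕ) / ((J1 : ℝ) ^ 2 * η * ⌈c * 2 ^ (j : ℕ)⌉₊)) ≤
            H / η * (200 * H * 2 ^ (j : ℕ) / ((J1 : ℝ) ^ 2 * η * (c * 2 ^ (j : ℕ)))) := by
            apply mul_le_mul_of_nonneg_left _ (by positivity)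
            apply div_le_div_of_nonneg_left (by positivity) (by positivity)
            exact mul_le_mul_of_nonneg_left hk (by positivity)
        _ = ε / 2 := by
            rw [hc]
            field_simp
            norm_num
    linarith
  · rw [hsub, ← hm]
    have e : ∑ j : Fin J1, (⌈c * 2 ^ (j : ℕ)⌉₊ : ℝ) *
        (12 * (m : ℝ) * ρ / 2 ^ (J' + s + (j : ℕ))) = 12 * (m * η) *
        ∑ j : Fin J1, (⌈c * 2 ^ (j : ℕ)⌉₊ : ℝ) / 2 ^ (j : ℕ) := by
      rw [Finset.mul_sum]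
      refine Finset.sum_congr rfl fun j _ => ?_
      rw [hη, pow_add]
      field_simp
    rw [e]
    have h1 := sum_ceil J1 c hc0.le
    have h2 : 12 * (m * η) * (J1 * c) ≤ 4800 / Q := by
      have e2 : 12 * ((m : ℝ) * η) * (J1 * c) = 4800 * (m * H ^ 2 / (ε * η)) / J1 := by
        rw [hc]
        field_simp
        ring
      rw [e2, div_le_div_iff₀ hJ0 (by positivity)]
      have e3 : Q * m * H ^ 2 / (ε * η) = (m * H ^ 2 / (ε * η)) * Q := by ring
      rw [e3] at hJge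
      nlinarith
    calc 12 * ((m : ℝ) * η) * ∑ j : Fin J1, (⌈c * 2 ^ (j : ℕ)⌉₊ : ℝ) / 2 ^ (j : ℕ) ≤
          12 * ((m : ℝ) * η) * (J1 * c + 2) :=
          mul_le_mul_of_nonneg_left h1 (by positivity)
      _ = 12 * ((m : ℝ) * η) * (J1 * c) + 24 * (m * η) := by ring
      _ ≤ 4800 / Q + 24 * (1 / 48000) := by
          have := mul_le_mul_of_nonneg_left hmη (show (0 : ℝ) ≤ 24 by norm_num)
          linarith
      _ ≤ 1 / 1000 := by
          rw [hQ]
          norm_num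
  · rw [hsub, ← hm]
    have e : 12 * (m : ℝ) * ρ / 2 ^ (J' + s) = 12 * (m * η) := by
      rw [hη]
      ring
    rw [e]
    linarith

end Pool.Agent.Helper1.LG2
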