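import Pool.Agent.Helper1.LG2.KeyP
import Pool.Agent.Helper1.LG2.CoreEnd2
import Pool.Agent.Helper1.LG2.BoostMass
import Pool.Agent.Helper1.LG2.Orders
import Pool.Agent.Helper1.LG2.MassP2
import Pool.Agent.Helper1.LG2.LowT
import Pool.Agent.Helper1.LG2.MF3

set_option autoImplicit false
set_option linter.unusedSectionVars false

/-!
LG2 (helper1). The concrete frame.
-/

open Finset

namespace Pool.Agent.Helper1.LG2

open Pool.Agent.Helper1.MT (supp cls pr PS lev)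
open Pool.Agent.Helper18.BV (wt IsWt)
open Pool.Agent.Helper1.LG (Dt Ex Eq Reg tt PL wl Ps sg Bs Om nu Mn ev SS adm avg dn)

section Ex

variable {ι : Type} [Fintype ι] [DecidableEq ι]

theorem wb_eq {J' J1 : ℕ} (i1 : ℕ) (D : Dt ι) (a b c d : Lb J' J1) (S : Finset ι) :
    wb i1 D ![a, b, c, d] S = Fb i1 D a S * Fb i1 D b S * Fb i1 D c S * Fb i1 D d S := by
  unfold wb
  rw [Fin.prod_univ_four]
  rfl

theorem Fb_one {J' J1 : ℕ} (i1 : ℕ) (D : Dt ι) (S : Finset ι) :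
    Fb i1 D (.one : Lb J' J1) S = 1 := rfl

theorem one_sub_sum2 {J' J1 : ℕ} (i1 : ℕ) (D : Dt ι) (s : Finset (Fin J1)) (S : Finset ι) :
    1 - ∑ j ∈ s, Fb i1 D (.ks j : Lb J' J1) S =
      ∑ o ∈ insertNone s, (if o = none then 1 else -1) * Fb i1 D (lko o : Lb J' J1) S := by
  rw [Finset.sum_insertNone]
  simp only [lko, Fb_one, if_true, mul_one, reduceCtorEq, if_false, neg_mul, one_mul]
  rw [Finset.sum_neg_distrib]
  ring

theorem quad_eq2 {J' J1 : ℕ} (i1 : ℕ) (D : Dt ι) (s : Finset (Fin J1)) :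
    ∑ o ∈ insertNone s, ∑ o' ∈ insertNone s,
      (if o = none then 1 else -1) * (if o' = none then 1 else -1) *
        Ex D.w (wb i1 D ![lko o, lko o', (.mj : Lb J' J1), .one]) =
      Ex D.w (fun S => Fb i1 D (.mj : Lb J' J1) S *
        (1 - ∑ j ∈ s, Fb i1 D (.ks j : Lb J' J1) S) ^ 2) := by
  have h1 : (fun S => Fb i1 D (.mj : Lb J' J1) S *
      (1 - ∑ j ∈ s, Fb i1 D (.ks j : Lb J' J1) S) ^ 2) =
      fun S => ∑ o ∈ insertNone s, ∑ o' ∈ insertNone s,
        ((if o = none then (1 : ℝ) else -1) * (if o' = none then 1 else -1)) *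
          wb i1 D ![lko o, lko o', (.mj : Lb J' J1), .one] S := by
    funext S
    rw [one_sub_sum2, sq, Finset.sum_mul_sum, Finset.mul_sum]
    refine Finset.sum_congr rfl fun o _ => ?_
    rw [Finset.mul_sum]
    refine Finset.sum_congr rfl fun o' _ => ?_
    rw [wb_eq, Fb_one]
    ring
  rw [h1, LG.Ex_sum]
  refine Finset.sum_congr rfl fun o _ => ?_
  rw [LG.Ex_sum]
  refine Finset.sum_congr rfl fun o' _ => ?_
  rw [LG.Ex_smul]

theorem A_empty (D : Dt ι) (i : ℕ) : D.A i ∅ = 1 := by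
  unfold Dt.A LG.cnt
  rw [Finset.filter_empty, Finset.card_empty, LG.Ar_zero]

theorem md_empty {D : Dt ι} {j : ℕ} (h : 1 - D.a j ≠ 0) : md D j ∅ = 1 := by
  unfold md
  rw [A_empty, div_self h, one_mul]
  exact Finset.prod_eq_one fun i _ => A_empty D i

end Ex

/-- A prime position is rough and has no large prime factor below `x ^ ρ`. -/
theorem rough {ρ x : ℝ} (hx : 1 < x) {n : ℕ} {h : ℤ} (hq : ((n : ℤ) + h).natAbs.Prime)
    (h1 : x ^ ρ < (n : ℝ) + h) (h2 : Real.sqrt (Real.log x) < (n : ℝ) + h) :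
    Int.gcd ((n : ℤ) + h) (Ps x) = 1 ∧ sg ρ x h n = ∅ := by
  have hx0 : 0 < x := by linarith
  have hs : 0 ≤ Real.sqrt (Real.log x) := Real.sqrt_nonneg _
  set q := ((n : ℤ) + h).natAbs with hqdef
  have hpos : (0 : ℤ) < (n : ℤ) + h := by
    have : (0 : ℝ) < (n : ℝ) + h := lt_of_le_of_lt hs h2
    exact_mod_cast this
  have hqz : (q : ℤ) = n + h := by
    rw [hqdef, Int.natAbs_of_nonneg hpos.le]
  have hqr : (q : ℝ) = n + h := by exact_mod_cast hqz
  constructor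
  · have hcop : Nat.Coprime q (Ps x) := by
      rw [Nat.Prime.coprime_iff_not_dvd hq]
      intro hd
      unfold Ps at hd
      have h3 := (hq.dvd_primorial_iff).1 hd
      have h4 : (q : ℝ) ≤ Real.sqrt (Real.log x) :=
        (Nat.le_floor_iff hs).1 h3
      linarith
    rw [← hqz]
    exact_mod_cast hcop
  · rw [Finset.eq_empty_iff_forall_notMem]
    intro p hp
    unfold sg at hp
    rw [Finset.mem_filter, ← hqz] at hp
    have hpd : ((p : ℕ)) ∣ q := by exact_mod_cast hp.2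
    have hpm := p.2
    unfold PL at hpm
    rw [Finset.mem_filter, Finset.mem_Icc] at hpm
    have hpq : (p : ℕ) = q := (Nat.prime_dvd_prime_iff_eq hpm.2.1 hq).1 hpd
    have h6 : ((p : ℕ) : ℝ) ≤ x ^ ρ := by
      have := Nat.floor_le (Real.rpow_nonneg hx0.le ρ)
      have h7 : ((p : ℕ) : ℝ) ≤ (⌊x ^ ρ⌋₊ : ℝ) := by exact_mod_cast hpm.1.2
      linarith
    rw [hpq] at h6
    linarith

/-- The concrete frame. -/
noncomputable def fr2 (g : ℝ → ℝ) (ρ θ A c t1 cs : ℝ) (i1 u0 : ℕ) (r : ℕ → ℕ) {k J' J1 : ℕ}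
    (kb : Fin J' → ℕ) (kk : Fin J1 → ℕ) (x : ℝ) {Y : ℕ} (h : Fin Y → ℤ)
    (w : Fin k → Finset (Fin Y)) : F2 Y k J' J1 where
  kb := kb
  kk := kk
  cs := cs
  w := w
  F := Nx θ x
  Ω := range (Ps x)
  μ := fun n => 1 / (n : ℝ)
  νp := fun p n => nu g x ((n : ℤ) + h p).toNat
  B := Bs x h
  v := fun n i l => Fb i1 (Dg ρ r x) l (sg ρ x (h i) n)
  E := fun W => Ex (wl ρ x) (wb i1 (Dg ρ r x) W)
  e := fun j => Ex (wl ρ x) (fun S => Fb i1 (Dg ρ r x) (.ks j : Lb J' J1) S ^ 2)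
  f0 := Ex (wl ρ x) (fun S => Fb i1 (Dg ρ r x) (.b0 : Lb J' J1) S ^ 2)
  f := fun j => Ex (wl ρ x) (fun S => Fb i1 (Dg ρ r x) (.bs j : Lb J' J1) S ^ 2)
  lv := lb i1 (Dg ρ r x) ρ
  u0 := u0
  MI := Mi θ x
  MP := Mn g x
  N0 := (Om x).card
  Plow := (Dg ρ r x).Plow (i1 + J1)
  Pall := (Dg ρ r x).Plow i1
  c5 := 10 ^ 5 * Real.exp (15 * ((i1 : ℝ) + J1))
  t2 := 2000 * t1
  ε1 := 1 / Real.log x ^ A
  ε2 := c / Real.log x ^ 2

theorem fr2_ok {g : ℝ → ℝ} (hg : IsWt g) {θ' : ℝ}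
    (hs : ∀ v, g v ≠ 0 → θ' < v ∧ v < 1 - (1 - θ') / 100)
    {ρ θ t t1 A c cs : ℝ} {i1 u0 k J' J1 : ℕ} {r : ℕ → ℕ} {kb : Fin J' → ℕ} {kk : Fin J1 → ℕ}
    {x : ℝ} (hρ : 0 < ρ) (hc : 0 < c) (hk : 0 < k) (hJ' : J' ≤ i1) (hJ1 : 0 < J1)
    (hkb : ∀ j, 0 < kb j) (hkk : ∀ j, 0 < kk j) (hcs : 0 ≤ cs) (hcs1 : cs ≤ 1)
    (ht1 : 0 ≤ t1) (ht1' : t1 ≤ 1 / 1000) (hx : 1 < x)
    (hu0 : 4 * (k + ∑ j, kk j) + 1 ≤ u0)
    (hreg : Reg (Dg ρ r x) (i1 + J1) t)
    (htail : ∑ i ∈ Ico i1 (Dg ρ r x).I, tt (r i) ≤ t1)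
    (hlev : 4 * (k * lb i1 (Dg ρ r x) ρ (.b0 : Lb J' J1) +
      ∑ j, (kb j : ℝ) * lb i1 (Dg ρ r x) ρ (.bs j : Lb J' J1) +
      ∑ j, (kk j : ℝ) * lb i1 (Dg ρ r x) ρ (.ks j : Lb J' J1)) +
      lb i1 (Dg ρ r x) ρ (.mj : Lb J' J1) ≤ 1 / 50)
    {Y : ℕ} {h : Fin Y → ℤ} {w : Fin k → Finset (Fin Y)}
    (hbig : ∀ n ∈ Nx θ x, ∀ p, x ^ ρ < (n : ℝ) + h p ∧
      Real.sqrt (Real.log x) < (n : ℝ) + h p)
    (hest : ∀ W : Fin Y → Fin 4 → Lb J' J1, (UW2 W).card ≤ u0 →
      ∑ i, ∑ l, lb i1 (Dg ρ r x) ρ (W i l) ≤ 1 / 50 →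
      |∑ n ∈ (Nx θ x).filter (fun n => UW2 W ⊆ Bs x h n),
          1 / (n : ℝ) * ∏ i, ∏ l, Fb i1 (Dg ρ r x) (W i l) (sg ρ x (h i) n) -
        Mi θ x * dn (range (Ps x)) (Bs x h) (UW2 W) *
          ∏ i, Ex (wl ρ x) (wb i1 (Dg ρ r x) (W i))| ≤
        1 / Real.log x ^ A + (c / Real.log x ^ 2) * Mi θ x *
          dn (range (Ps x)) (Bs x h) (UW2 W) * (Dg ρ r x).Plow (i1 + J1) ^ (UW2 W).card)
    (hestp : ∀ p : Fin Y, ∀ W : Fin Y → Fin 4 → Lb J' J1, W p = blank J' J1 →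
      (UW2 W).card ≤ u0 → ∑ i, ∑ l, lb i1 (Dg ρ r x) ρ (W i l) ≤ 1 / 50 →
      |∑ n ∈ (Nx θ x).filter (fun n => UW2 W ⊆ Bs x h n),
          nu g x ((n : ℤ) + h p).toNat *
            ∏ i, ∏ l, Fb i1 (Dg ρ r x) (W i l) (sg ρ x (h i) n) -
        Mn g x * (((range (Ps x)).filter (fun a => insert p (UW2 W) ⊆ Bs x h a)).card /
          ((Om x).card : ℝ)) *
          ∏ i, Ex (wl ρ x) (wb i1 (Dg ρ r x) (W i))| ≤
        1 / Real.log x ^ A + (c / Real.log x ^ 2) * Mn g x *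
          (((range (Ps x)).filter (fun a => insert p (UW2 W) ⊆ Bs x h a)).card /
          ((Om x).card : ℝ)) * (Dg ρ r x).Plow (i1 + J1) ^ (UW2 W).card) :
    (fr2 g ρ θ A c t1 cs i1 u0 r kb kk x h w).Ok := by
  obtain ⟨o1, o2, o3, o4, o5, o6, o7, o8, o9⟩ := onePos2 _ (Dg ρ r x) J' J1 i1 t t1 hJ' hJ1
    hreg htail ht1'
  have hw0 : ∀ p, 0 ≤ wl ρ x p := hreg.w_nonneg
  have hw1 : ∀ p, wl ρ x p ≤ 1 := fun p => (hreg.w_le p).trans (by norm_num)
  have hP0 : ∀ i, 0 ≤ (Dg ρ r x).P0 i := fun i => by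
    have := hreg.P0_ge i
    linarith
  have hL : 0 ≤ Real.log x := Real.log_nonneg hx.le
  exact
  { J1_pos := hJ1
    k_pos := hk
    kk_pos := hkk
    kb_pos := hkb
    cs_nonneg := hcs
    cs_le := hcs1
    mu_nonneg := fun n _ => by
      show 0 ≤ 1 / (n : ℝ)
      positivity
    nup_nonneg := fun p n _ => LG.nu_nonneg hg x _
    nup_mem := fun p n hn hne => by
      have hne' : nu g x ((n : ℤ) + h p).toNat ≠ 0 := hne
      obtain ⟨h1, h2, h3⟩ := nu_supp hs hx hne'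
      have h4 : (0 : ℤ) < (n : ℤ) + h p := by
        have := h1.pos
        omega
      have h5 : ((n : ℤ) + h p).toNat = ((n : ℤ) + h p).natAbs := by omega
      rw [h5] at h1
      obtain ⟨b1, b2⟩ := hbig n hn p
      obtain ⟨c1, c2⟩ := rough hx h1 b1 b2
      refine ⟨?_, ?_, ?_⟩
      · show p ∈ Bs x h n
        unfold Bs
        exact Finset.mem_filter.2 ⟨Finset.mem_univ _, c1⟩
      · show Fb i1 (Dg ρ r x) (.b0 : Lb J' J1) (sg ρ x (h p) n) = 1
        rw [c2]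
        show ∏ i ∈ Ico J' (Dg ρ r x).I, (Dg ρ r x).A i ∅ = 1
        exact Finset.prod_eq_one fun i _ => A_empty _ i
      · intro j
        show Fb i1 (Dg ρ r x) (.bs j : Lb J' J1) (sg ρ x (h p) n) = 1
        rw [c2]
        show md (Dg ρ r x) j ∅ = 1
        apply md_empty
        have hj := j.2
        have := hreg.one_sub_a (j := (j : ℕ)) (by omega)
        linarith
    v_one := fun n i => rfl
    v_mj := fun n i => by
      show 0 ≤ ∏ k ∈ Ico i1 (Dg ρ r x).I, (Dg ρ r x).A k (sg ρ x (h i) n)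
      exact Finset.prod_nonneg fun k _ => (hreg.A_facts k _).1
    O_ne := Finset.nonempty_range_iff.2 (Ps_pos x).ne'
    N0_eq := fun p => by
      show (((range (Ps x)).filter (fun a => p ∈ Bs x h a)).card : ℝ) = ((Om x).card : ℝ)
      rw [card_one]
    N0_pos := by
      show (0 : ℝ) < ((Om x).card : ℝ)
      exact_mod_cast Finset.card_pos.2 (LG.Om_nonempty x)
    E_blank := by
      show Ex (wl ρ x) (wb i1 (Dg ρ r x) (blank J' J1)) = 1
      have : wb i1 (Dg ρ r x) (blank J' J1) = fun _ => 1 := funext fun S => wb_blank _ _ _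
      rw [this, LG.Ex_one]
    mean1 := fun j => by
      show Ex (wl ρ x) (wb i1 (Dg ρ r x) ![.ks j, .one, .one, .one]) = 0
      have : wb i1 (Dg ρ r x) ![(.ks j : Lb J' J1), .one, .one, .one] =
          Fb i1 (Dg ρ r x) (.ks j : Lb J' J1) := by
        funext S
        rw [wb_eq]
        simp only [Fb_one, mul_one]
      rw [this]
      exact o1 j
    mean2 := fun j => by
      show Ex (wl ρ x) (wb i1 (Dg ρ r x) ![.one, .ks j, .one, .one]) = 0
      have : wb i1 (Dg ρ r x) ![.one, (.ks j : Lb J' J1), .one, .one] =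
          Fb i1 (Dg ρ r x) (.ks j : Lb J' J1) := by
        funext S
        rw [wb_eq]
        simp only [Fb_one, mul_one, one_mul]
      rw [this]
      exact o1 j
    orth := fun i j hij => by
      show Ex (wl ρ x) (wb i1 (Dg ρ r x) ![.ks i, .ks j, .one, .one]) = 0
      have : wb i1 (Dg ρ r x) ![(.ks i : Lb J' J1), .ks j, .one, .one] =
          fun S => Fb i1 (Dg ρ r x) (.ks i : Lb J' J1) S * Fb i1 (Dg ρ r x) (.ks j : Lb J' J1) S := by
        funext S
        rw [wb_eq]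
        simp only [Fb_one, mul_one]
      rw [this]
      exact o2 i j hij
    sq := fun j => by
      show Ex (wl ρ x) (wb i1 (Dg ρ r x) ![.ks j, .ks j, .one, .one]) =
        Ex (wl ρ x) (fun S => Fb i1 (Dg ρ r x) (.ks j : Lb J' J1) S ^ 2)
      have : wb i1 (Dg ρ r x) ![(.ks j : Lb J' J1), .ks j, .one, .one] =
          fun S => Fb i1 (Dg ρ r x) (.ks j : Lb J' J1) S ^ 2 := by
        funext S
        rw [wb_eq]
        simp only [Fb_one, mul_one]
        ring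
      rw [this]
    b1 := fun j => by
      show Ex (wl ρ x) (wb i1 (Dg ρ r x) ![.b0, .bs j, .one, .one]) = 0
      have : wb i1 (Dg ρ r x) ![(.b0 : Lb J' J1), .bs j, .one, .one] =
          fun S => Fb i1 (Dg ρ r x) (.b0 : Lb J' J1) S * Fb i1 (Dg ρ r x) (.bs j : Lb J' J1) S := by
        funext S
        rw [wb_eq]
        simp only [Fb_one, mul_one]
      rw [this]
      exact o3 j
    b2 := fun j => by
      show Ex (wl ρ x) (wb i1 (Dg ρ r x) ![.bs j, .b0, .one, .one]) = 0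
      have : wb i1 (Dg ρ r x) ![(.bs j : Lb J' J1), .b0, .one, .one] =
          fun S => Fb i1 (Dg ρ r x) (.b0 : Lb J' J1) S * Fb i1 (Dg ρ r x) (.bs j : Lb J' J1) S := by
        funext S
        rw [wb_eq]
        simp only [Fb_one, mul_one]
        ring
      rw [this]
      exact o3 j
    b3 := fun i j hij => by
      show Ex (wl ρ x) (wb i1 (Dg ρ r x) ![.bs i, .bs j, .one, .one]) = 0
      have : wb i1 (Dg ρ r x) ![(.bs i : Lb J' J1), .bs j, .one, .one] =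
          fun S => Fb i1 (Dg ρ r x) (.bs i : Lb J' J1) S * Fb i1 (Dg ρ r x) (.bs j : Lb J' J1) S := by
        funext S
        rw [wb_eq]
        simp only [Fb_one, mul_one]
      rw [this]
      exact o4 i j hij
    b4 := fun j => by
      show Ex (wl ρ x) (wb i1 (Dg ρ r x) ![.bs j, .bs j, .one, .one]) =
        Ex (wl ρ x) (fun S => Fb i1 (Dg ρ r x) (.bs j : Lb J' J1) S ^ 2)
      have : wb i1 (Dg ρ r x) ![(.bs j : Lb J' J1), .bs j, .one, .one] =
          fun S => Fb i1 (Dg ρ r x) (.bs j : Lb J' J1) S ^ 2 := by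
        funext S
        rw [wb_eq]
        simp only [Fb_one, mul_one]
        ring
      rw [this]
    b5 := by
      show Ex (wl ρ x) (wb i1 (Dg ρ r x) ![.b0, .b0, .one, .one]) =
        Ex (wl ρ x) (fun S => Fb i1 (Dg ρ r x) (.b0 : Lb J' J1) S ^ 2)
      have : wb i1 (Dg ρ r x) ![(.b0 : Lb J' J1), .b0, .one, .one] =
          fun S => Fb i1 (Dg ρ r x) (.b0 : Lb J' J1) S ^ 2 := by
        funext S
        rw [wb_eq]
        simp only [Fb_one, mul_one]
        ring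
      rw [this]
    e_nonneg := fun j => LG.Ex_nonneg hw0 hw1 fun S => sq_nonneg _
    f_nonneg := fun j => LG.Ex_nonneg hw0 hw1 fun S => sq_nonneg _
    f0_nonneg := LG.Ex_nonneg hw0 hw1 fun S => sq_nonneg _
    bound := fun W hW => o8 W hW
    quad := fun s => by
      show ∑ o ∈ insertNone s, ∑ o' ∈ insertNone s,
        (if o = none then 1 else -1) * (if o' = none then 1 else -1) *
        Ex (Dg ρ r x).w (wb i1 (Dg ρ r x) ![lko o, lko o', (.mj : Lb J' J1), .one]) ≤ _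
      rw [quad_eq2]
      exact o9 s
    MI_nonneg := Mi_nonneg θ x
    MP_nonneg := LG.Mn_nonneg hg x
    Plow_nonneg := LG.Plow_nonneg hreg (i1 + J1)
    Plow_le := by
      show (Dg ρ r x).Plow (i1 + J1) ≤ 1
      exact Finset.prod_le_one (fun i _ => hP0 i) fun i _ => hreg.P0_le_one i
    Pall_nonneg := LG.Plow_nonneg hreg i1
    c5_ge := by
      show 1 ≤ 10 ^ 5 * Real.exp (15 * ((i1 : ℝ) + J1))
      have : 1 ≤ Real.exp (15 * ((i1 : ℝ) + J1)) := Real.one_le_exp (by positivity)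
      linarith
    t2_nonneg := by
      show 0 ≤ 2000 * t1
      positivity
    e1_nonneg := by
      show 0 ≤ 1 / Real.log x ^ A
      exact div_nonneg zero_le_one (Real.rpow_nonneg hL _)
    e2_nonneg := by
      show 0 ≤ c / Real.log x ^ 2
      positivity
    lv_nonneg := fun l => by
      show 0 ≤ lb i1 (Dg ρ r x) ρ l
      cases l with
      | one => exact le_rfl
      | b0 => exact Finset.sum_nonneg fun i _ => by positivity
      | bs j => exact Finset.sum_nonneg fun i _ => by positivity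
      | mj => exact Finset.sum_nonneg fun i _ => by positivity
      | ks j => exact Finset.sum_nonneg fun i _ => by positivity
    lv_one := rfl
    u0_ge := hu0
    lev4 := hlev
    est := hest
    estp := hestp }

end Pool.Agent.Helper1.LG2
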