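import Pool.Agent.Helper1.LG2.GTPre

set_option autoImplicit false

/-!
LG2 (helper1). Assembly: the general theorem.
-/

open Finset Filter

namespace Pool.Agent.Helper1.LG2

open Pool.Agent.Helper1.MT (supp cls pr PS lev)
open Pool.Agent.Helper18.BV (wt IsWt)
open Pool.Agent.Helper1.LG (Dt Ex Eq Reg tt PL wl Ps sg Bs Om nu Mn ev SS adm avg dn)

theorem gt_main : GT := by
  intro m
  obtain ⟨C2, hC2, hF2⟩ := LG.mf2
  obtain ⟨c3, C3, hc3, hC3, hF3⟩ := mf3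
  obtain ⟨c8, X8, hc8, hX8, hphi⟩ := phiP
  have hC30 : 0 < C3 := by linarith
  obtain ⟨cs, hcs0, hcs1, hcs2⟩ : ∃ cs : ℝ, 0 < cs ∧ cs ≤ 1 ∧ cs ^ 2 = 1 / (200 * C3) := by
    refine ⟨Real.sqrt (1 / (200 * C3)), Real.sqrt_pos.2 (by positivity), ?_,
      Real.sq_sqrt (by positivity)⟩
    rw [Real.sqrt_le_iff]
    refine ⟨zero_le_one, ?_⟩
    rw [div_le_iff₀ (by positivity)]
    linarith
  obtain ⟨m0, J', k, kb, ρ, hJ', hk, hmk, hρ, hρ1, hm0, hkb, hAm, htb, hlevb⟩ :=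
    boostParams (max m 1) (128 * C2 / (c8 * cs ^ 2)) (by positivity)
  refine ⟨k, hk, ?_⟩
  intro C η θ hC hη hθ hθ1
  have hkr : (0 : ℝ) < k := by exact_mod_cast hk
  have hθ0 : 0 < 1 - θ := sub_pos.2 hθ1
  obtain ⟨C1, X1, hC1, hX1, hB⟩ := LG.bsp C hC
  obtain ⟨H0, hH01, hH02⟩ : ∃ H0 : ℝ, 1 ≤ H0 ∧ C1 * C2 ≤ H0 :=
    ⟨max 1 (C1 * C2), le_max_left _ _, le_max_right _ _⟩
  obtain ⟨i1, J1, kk, hi1, hJ1, hkk, htt, hkc, hlevk, hlevm⟩ :=
    killParams H0 (1 / (8 * k)) ρ m0 J' hH01 (by positivity) hρ hρ1 hm0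
  set t1 : ℝ := ((J1 : ℝ) + 2) * tt (2 * (m0 + (i1 - J'))) with ht1
  have ht10 : 0 ≤ t1 := mul_nonneg (by positivity) (LG.tt_pos _).le
  obtain ⟨g, hg, hg1, θ', hθθ, hθ'1, hs, Xm, hXm, hmass⟩ := massP2 θ hθ hθ1
  obtain ⟨c7, X7, hc7, hX7, hlow⟩ := lowT k C η hC hη
  obtain ⟨X2, hX2, hF2'⟩ := hF2 ρ m0 (i1 + J1) hρ hρ1
  obtain ⟨X3, hX3, hF3'⟩ := hF3 ρ J' hρ hρ1
  set r := ro m0 J' i1 J1 with hr
  have hreven : ∀ i, Even (r i) := fun i => even_two_mul _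
  have htail : ∀ I : ℕ, ∑ i ∈ range I, tt (r i) ≤ 1 / 1000 := by
    intro I
    have h1 := (orders m0 J' i1 J1 hm0 hi1 hJ1 I).2.2.2
    linarith only [h1, htb, htt]
  set Sk : ℕ := ∑ j, kk j with hSk
  set u0 : ℕ := 4 * (k + Sk) + 1 with hu0
  set nA : ℕ := 2 * k + 1 + 4 * Sk with hnA
  have hnA0 : (0 : ℝ) < (nA : ℝ) := by
    have : 0 < nA := by omega
    exact_mod_cast this
  obtain ⟨cI, XI, hcI, hXI, hkI⟩ := keyI ρ θ (1 / 1000) (nA : ℝ) J' J1 i1 u0 r hρ hρ1 hθ.le hθ1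
    hnA0 hi1 hJ1 le_rfl hreven htail
  obtain ⟨cP, XP, hcP, hXP, hkP⟩ := keyP hg hs ρ θ (1 / 1000) (nA : ℝ) J' J1 i1 u0 r hρ hρ1
    hθ.le hθθ hθ'1 hnA0 hi1 hJ1 le_rfl hreven htail
  obtain ⟨Xr, hXr, hregx⟩ := reg_of hρ hρ1 (J := i1 + J1) (by omega) (le_refl (1 / 1000 : ℝ))
    hreven htail u0
  set c : ℝ := cI + cP with hcdef
  have hc : 0 < c := by positivity
  have hcIc : cI ≤ c := by linarith only [hcdef, hcP]
  have hcPc : cP ≤ c := by linarith only [hcdef, hcI]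
  obtain ⟨T1, hT1⟩ : ∃ T1 : ℝ, T1 = C1 * C2 * 2 ^ (i1 + J1) / ρ := ⟨_, rfl⟩
  have hT10 : 0 < T1 := by rw [hT1]; positivity
  obtain ⟨ab, hab⟩ : ∃ ab : ℝ, ab = ((adm k kb).card : ℝ) := ⟨_, rfl⟩
  have hab0 : 0 ≤ ab := by rw [hab]; exact Nat.cast_nonneg _
  obtain ⟨E1, hE1⟩ : ∃ E1 : ℝ, E1 = Real.exp (((J1 : ℝ) + 1) ^ 2 * T1) := ⟨_, rfl⟩
  have hE10 : 0 < E1 := by rw [hE1]; exact Real.exp_pos _
  obtain ⟨c6, hc6⟩ : ∃ c6 : ℝ, c6 = c7 * (c3 * 2 ^ J' / ρ) ^ k := ⟨_, rfl⟩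
  have hc60 : 0 < c6 := by rw [hc6]; positivity
  obtain ⟨K1, hK1⟩ : ∃ K1 : ℝ, K1 = c * T1 ^ k * (1 + C1) * ab ^ 2 * E1 := ⟨_, rfl⟩
  obtain ⟨K2, hK2⟩ : ∃ K2 : ℝ, K2 = c * C1 * T1 ^ (k - 1) * ab ^ 2 * E1 := ⟨_, rfl⟩
  obtain ⟨Dc, hDc⟩ : ∃ Dc : ℝ, Dc = (2 * C + 2) * (1 + J1) := ⟨_, rfl⟩
  have hDc0 : 0 < Dc := by rw [hDc]; positivity
  obtain ⟨K3, hK3⟩ : ∃ K3 : ℝ, K3 = 2 * (1 + ab ^ 2) ^ 2 * Dc ^ nA := ⟨_, rfl⟩
  obtain ⟨c5, hc5⟩ : ∃ c5 : ℝ, c5 = 10 ^ 5 * Real.exp (15 * ((i1 : ℝ) + J1)) := ⟨_, rfl⟩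
  have hc50 : 0 < c5 := by rw [hc5]; positivity
  obtain ⟨C4, hC4⟩ : ∃ C4 : ℝ, C4 = (ab ^ 4 * (2 * k) ^ (2 * k) * ((J1 : ℝ) + 1) ^ (8 * k)) *
    2 * Real.exp (2 * (((J1 : ℝ) + 1) ^ 4 * c5) * T1) + 1 := ⟨_, rfl⟩
  have hC40 : 0 < C4 := by rw [hC4]; positivity
  -- eventually
  have hev : ∀ᶠ x : ℝ in atTop, (Xm ≤ x ∧ X1 ≤ x ∧ X2 ≤ x ∧ X3 ≤ x ∧ X7 ≤ x ∧ X8 ≤ x ∧
      XI ≤ x ∧ XP ≤ x ∧ Xr ≤ x ∧ 1 < x) ∧
      (x ^ (1 / 100 : ℝ) + ⌊C * Real.log x⌋₊ ≤ x ^ (1 / 2 : ℝ) ∧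
        Real.sqrt (Real.log x) + ⌊C * Real.log x⌋₊ ≤ x ^ (1 / 2 : ℝ)) ∧
      (x ^ θ + Real.log x ^ 2 + 1 ≤ x ^ θ' ∧
        x ^ (1 - (1 - θ') / 100) + Real.log x ^ 2 + 1 ≤ x ∧ Real.log x ^ 2 + 1 ≤ x ^ θ) ∧
      (1 ≤ Real.log x ∧ 1 ≤ Real.log (Real.log x) ∧ 4 * C ≤ Real.log x ∧
        2 / (1 - θ) ≤ Real.log x ∧ K1 * (32 * k ^ 2) / c6 ≤ Real.log x ∧
        K2 * (64 * k ^ 2) / (c6 * (1 - θ)) * Real.log x ^ (1 / 2 : ℝ) ≤ Real.log x ∧
        K3 * (64 * k ^ 2) / (c6 * (1 - θ)) ≤ Real.log x ∧ K3 * 2 / (1 - θ) ≤ Real.log x ∧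
        c ≤ Real.log x) := by
    have hlog := Real.tendsto_log_atTop
    filter_upwards [eventually_ge_atTop Xm, eventually_ge_atTop X1, eventually_ge_atTop X2,
      eventually_ge_atTop X3, eventually_ge_atTop X7, eventually_ge_atTop X8,
      eventually_ge_atTop XI, eventually_ge_atTop XP, eventually_ge_atTop Xr,
      eventually_gt_atTop 1, LG.ev_big C hC, ev_shift (by linarith only [hθ]) hθθ hθ'1,
      hlog.eventually_ge_atTop 1,
      (hlog.comp hlog).eventually_ge_atTop 1,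
      hlog.eventually_ge_atTop (4 * C), hlog.eventually_ge_atTop (2 / (1 - θ)),
      hlog.eventually_ge_atTop (K1 * (32 * k ^ 2) / c6),
      sqrt_div_small (K2 * (64 * k ^ 2) / (c6 * (1 - θ))),
      hlog.eventually_ge_atTop (K3 * (64 * k ^ 2) / (c6 * (1 - θ))),
      hlog.eventually_ge_atTop (K3 * 2 / (1 - θ)), hlog.eventually_ge_atTop c]
      with x a1 a2 a3 a4 a5 a6 a7 a8 a9 a10 a11 a12 a13 a14 a15 a16 a17 a18 a19 a20 a21
    exact ⟨⟨a1, a2, a3, a4, a5, a6, a7, a8, a9, a10⟩, a11, a12, a13, a14, a15, a16, a17, a18,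
      a19, a20, a21⟩
  obtain ⟨X, hX⟩ := eventually_atTop.1 hev
  refine ⟨(c6 / (4 * k)) ^ 2 / C4 * ((1 - θ) / 2), max X 3, by positivity, le_max_right _ _, ?_⟩
  intro x hx β hβ
  obtain ⟨⟨a1, a2, a3, a4, a5, a6, a7, a8, a9, a10⟩, ⟨a11, a11'⟩, ⟨a12, a12', a12''⟩, a13, a14,
    a15, a16, a17, a18, a19, a20, a21⟩ := hX x ((le_max_left _ _).trans hx)
  have hx0 : 0 < x := by linarith only [a10]
  obtain ⟨L, hL⟩ : ∃ L : ℝ, L = Real.log x := ⟨_, rfl⟩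
  obtain ⟨ll, hll⟩ : ∃ ll : ℝ, ll = Real.log (Real.log x) := ⟨_, rfl⟩
  obtain ⟨H, hH⟩ : ∃ H : ℕ, H = ⌊C * Real.log x⌋₊ := ⟨_, rfl⟩
  have hL1 : 1 ≤ L := by rw [hL]; exact a13
  have hL0 : 0 < L := by linarith only [hL1]
  have hll1 : 1 ≤ ll := by rw [hll]; exact a14
  have hll0 : 0 < ll := by linarith only [hll1]
  have hHC : (H : ℝ) ≤ C * L := by
    rw [hH, hL]
    exact Nat.floor_le (by rw [← hL]; positivity)
  have hoffr : ∀ i : Fin (2 * H + 1), |((offs H i : ℤ) : ℝ)| ≤ H := by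
    intro i
    have := offs_le H i
    exact_mod_cast this
  have h4C : 4 * (C * L) ≤ L ^ 2 := by
    have : 4 * C ≤ L := by rw [hL]; exact a15
    nlinarith only [this, hL0]
  have hoff4 : ∀ i : Fin (2 * H + 1), 4 * |((offs H i : ℤ) : ℝ)| ≤ Real.log x ^ 2 := by
    intro i
    rw [← hL]
    have := hoffr i
    linarith only [this, hHC, h4C]
  have hoff2 : ∀ i : Fin (2 * H + 1), 2 * |((offs H i : ℤ) : ℝ)| ≤ Real.log x ^ 2 := by
    intro i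
    have e1 := hoff4 i
    have e2 := abs_nonneg ((offs H i : ℤ) : ℝ)
    linarith only [e1, e2]
  have hNx : ∀ n ∈ Nx θ x, x ^ θ < n := by
    intro n hn
    unfold Nx at hn
    rw [Finset.mem_Ioc] at hn
    exact (Nat.floor_lt (Real.rpow_nonneg hx0.le _)).1 hn.1
  have hhalf_le : x ^ (1 / 2 : ℝ) ≤ x ^ θ := Real.rpow_le_rpow_of_exponent_le a10.le hθ.le
  have hρle : x ^ ρ ≤ x ^ (1 / 100 : ℝ) := Real.rpow_le_rpow_of_exponent_le a10.le hρ1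
  have hbig : ∀ n ∈ Nx θ x, ∀ p : Fin (2 * H + 1), x ^ ρ < (n : ℝ) + offs H p ∧
      Real.sqrt (Real.log x) < (n : ℝ) + offs H p := by
    intro n hn p
    have h1 := hNx n hn
    have h2 := (abs_le.1 (hoffr p)).1
    rw [← hH] at a11 a11'
    constructor <;> linarith only [a11, a11', hhalf_le, hρle, h1, h2]
  have hhalf : ∀ n ∈ Nx θ x, ∀ p : Fin (2 * H + 1), (n : ℝ) / 2 ≤ (n : ℝ) + offs H p := by
    intro n hn p
    have h1 := hNx n hn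
    have h2 := (abs_le.1 (hoffr p)).1
    rw [← hL] at a12''
    linarith only [h1, h2, a12'', hHC, h4C, Nat.cast_nonneg (α := ℝ) H]
  obtain ⟨hreg, -⟩ := hregx x a9
  -- levels
  obtain ⟨l1, l2, l3, l4⟩ := lev_facts (x := x) hm0 hi1 hJ1 hρ
  have hlev : 4 * (k * lb i1 (Dg ρ r x) ρ (.b0 : Lb J' J1) +
      ∑ j, (kb j : ℝ) * lb i1 (Dg ρ r x) ρ (.bs j : Lb J' J1) +
      ∑ j, (kk j : ℝ) * lb i1 (Dg ρ r x) ρ (.ks j : Lb J' J1)) +
      lb i1 (Dg ρ r x) ρ (.mj : Lb J' J1) ≤ 1 / 50 := by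
    have h1 : (k : ℝ) * lb i1 (Dg ρ r x) ρ (.b0 : Lb J' J1) ≤ k * (12 * m0 * ρ / 2 ^ J') :=
      mul_le_mul_of_nonneg_left l1 hkr.le
    have h2 : ∑ j, (kb j : ℝ) * lb i1 (Dg ρ r x) ρ (.bs j : Lb J' J1) ≤
        ∑ j : Fin J', (kb j : ℝ) * (12 * m0 * ρ / 2 ^ (j : ℕ)) :=
      Finset.sum_le_sum fun j _ => mul_le_mul_of_nonneg_left (l2 j) (Nat.cast_nonneg _)
    have h3 : ∑ j, (kk j : ℝ) * lb i1 (Dg ρ r x) ρ (.ks j : Lb J' J1) ≤
        ∑ j : Fin J1, (kk j : ℝ) * (12 * ((m0 + (i1 - J') : ℕ) : ℝ) * ρ / 2 ^ (i1 + (j : ℕ))) :=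
      Finset.sum_le_sum fun j _ => mul_le_mul_of_nonneg_left (l3 j) (Nat.cast_nonneg _)
    have h4 := l4.trans hlevm
    linarith only [h1, h2, h3, h4, hlevb, hlevk]
  -- the mass
  have hMi := Mi_bounds (by linarith only [hθ] : 0 < θ) hθ1 a10.le
  rw [← hL] at hMi
  have hLθ : 1 ≤ (1 - θ) / 2 * L := by
    rw [hL]
    rw [div_le_iff₀ hθ0] at a16
    linarith only [a16]
  have hMIl : (1 - θ) / 2 * L ≤ Mi θ x := by linarith only [hMi.1, hLθ]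
  have hMIu : Mi θ x ≤ 2 * (1 - θ) * L := by linarith only [hMi.2, hLθ]
  have hMI0 : 0 ≤ Mi θ x := Mi_nonneg θ x
  have hMP0 : 0 ≤ Mn g x := LG.Mn_nonneg hg x
  have hMPu : Mn g x ≤ 2 * L ^ 2 := by
    have := Mn_le hg hg1 a10.le
    rw [← hL] at this
    nlinarith only [this, hL1]
  have hOm0 : (0 : ℝ) < ((Om x).card : ℝ) := by
    exact_mod_cast Finset.card_pos.2 (LG.Om_nonempty x)
  have hPs1 : (Ps x : ℝ) / (Om x).card ≤ L ^ (1 / 2 : ℝ) := by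
    rw [div_le_iff₀ hOm0, hL]
    exact Ps_le a13
  -- the frame
  set w : Fin k → Finset (Fin (2 * H + 1)) := fun i => win H (β i * Real.log x)
    (η * Real.log x) with hw
  have hP0' := LG.Plow_nonneg hreg (i1 + J1)
  have hok := fr2_ok (k := k) (kb := kb) (kk := kk) (A := (nA : ℝ)) (c := c) (cs := cs)
    (t1 := t1) (u0 := u0) (θ := θ) (w := w) (h := offs H) hg hs hρ hc hk hi1 hJ1
    (fun j => (hkb j).1) hkk hcs0.le hcs1 ht10 (htt.trans (by norm_num)) a10 le_rfl hreg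
    ((orders m0 J' i1 J1 hm0 hi1 hJ1 _).2.2.1) hlev hbig (by
      intro W h1 h2
      refine (hkI x a7 _ (offs H) (offs_inj H) hoff2 W h1 h2).trans ?_
      have h3 : cI / Real.log x ^ 2 ≤ c / Real.log x ^ 2 :=
        div_le_div_of_nonneg_right hcIc (by positivity)
      have h4 := LG.dn_nonneg (range (Ps x)) (Bs x (offs H)) (UW2 W)
      have h5 := mul_le_mul_of_nonneg_right (mul_le_mul_of_nonneg_right
        (mul_le_mul_of_nonneg_right h3 hMI0) h4) (pow_nonneg hP0' (UW2 W).card)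
      exact add_le_add le_rfl h5) (by
      intro p W h0 h1 h2
      refine (hkP x a8 _ (offs H) (offs_inj H) hoff4 p W h0 h1 h2).trans ?_
      have h3 : cP / Real.log x ^ 2 ≤ c / Real.log x ^ 2 :=
        div_le_div_of_nonneg_right hcPc (by positivity)
      have h4 : 0 ≤ (((range (Ps x)).filter (fun a => insert p (UW2 W) ⊆
        Bs x (offs H) a)).card : ℝ) / ((Om x).card : ℝ) := by positivity
      have h5 := mul_le_mul_of_nonneg_right (mul_le_mul_of_nonneg_right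
        (mul_le_mul_of_nonneg_right h3 hMP0) h4) (pow_nonneg hP0' (UW2 W).card)
      exact add_le_add le_rfl h5)
  have hpr := fr2_pr (k := k) (kb := kb) (kk := kk) (A := (nA : ℝ)) (c := c) (cs := cs)
    (t1 := t1) (u0 := u0) (i1 := i1) (r := r) (ρ := ρ) (θ := θ) (w := w) (h := offs H)
    hg hg1 hθ'1 hs a10 hbig hhalf
  set R := fr2 g ρ θ (nA : ℝ) c t1 cs i1 u0 r kb kk x (offs H) w with hR
  obtain ⟨b, hb⟩ : ∃ b : ℝ, b = C1 * L / ll := ⟨_, rfl⟩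
  have hb0 : 0 < b := by rw [hb]; positivity
  have hbL : b ≤ C1 * L := by
    rw [hb, div_le_iff₀ hll0]
    have : 0 < C1 * L := by positivity
    exact le_mul_of_one_le_right this.le hll1
  have hBa : ∀ a ∈ R.Ω, ((R.B a).card : ℝ) ≤ b := by
    intro a _
    rw [hb, hL, hll]
    exact hB x a2 (2 * H + 1) (offs H) (offs_inj H) (fun i => by
      rw [← hL]
      exact (hoffr i).trans hHC) a
  -- the probabilities
  have hPj : ∀ j ≤ i1 + J1, ∏ i ∈ Ico j (Dg ρ r x).I, (Dg ρ r x).P0 i ≤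
      C2 * 2 ^ j * ll / (ρ * L) := by
    intro j hj
    rw [hL, hll]
    exact hF2' x a3 j hj
  have hbPj : ∀ j ≤ i1 + J1, b * ∏ i ∈ Ico j (Dg ρ r x).I, (Dg ρ r x).P0 i ≤
      C1 * C2 * 2 ^ j / ρ := by
    intro j hj
    calc b * ∏ i ∈ Ico j (Dg ρ r x).I, (Dg ρ r x).P0 i ≤ b * (C2 * 2 ^ j * ll / (ρ * L)) :=
          mul_le_mul_of_nonneg_left (hPj j hj) hb0.le
      _ = C1 * C2 * 2 ^ j / ρ := by
          rw [hb]
          field_simp
  obtain ⟨o1, o2, o3, o4, o5, o6, o7, o8, o9⟩ := onePos2 _ (Dg ρ r x) J' J1 i1 (1 / 1000) t1 hi1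
    hJ1 hreg ((orders m0 J' i1 J1 hm0 hi1 hJ1 _).2.2.1) (htt.trans (by norm_num))
  have hIoo : ∀ j : ℕ, Ioo j (Dg ρ r x).I = Ico (j + 1) (Dg ρ r x).I := by
    intro j
    ext i
    simp only [Finset.mem_Ioo, Finset.mem_Ico]
    omega
  have hPlow : R.Plow * b ≤ T1 := by
    rw [mul_comm, hT1]
    exact hbPj (i1 + J1) le_rfl
  have hPlow' : b * R.Plow ≤ T1 := by
    rw [mul_comm]
    exact hPlow
  have hPl0 : 0 ≤ R.Plow := hok.Plow_nonneg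
  have hexp : Real.exp (((J1 : ℝ) + 1) ^ 2 * R.Plow * b) ≤ E1 := by
    rw [hE1]
    apply Real.exp_le_exp.2
    rw [mul_assoc]
    exact mul_le_mul_of_nonneg_left hPlow (by positivity)
  have hexp0 : 0 < Real.exp (((J1 : ℝ) + 1) ^ 2 * R.Plow * b) := Real.exp_pos _
  have hbPk : ∀ n : ℕ, (b * R.Plow) ^ n ≤ T1 ^ n := fun n =>
    pow_le_pow_left₀ (by positivity) hPlow' n
  -- the boosting modes
  have hf3 := hF3' x a4 r
  rw [← hll, ← hL] at hf3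
  have hPlJ : 0 < (Dg ρ r x).Plow J' := lt_of_lt_of_le (by positivity) hf3.1
  have hf0 : 0 < R.f0 := lt_of_lt_of_le hPlJ o7.1
  have hf0u : R.f0 ≤ 2 * (C2 * 2 ^ J' * ll / (ρ * L)) := by
    have h1 : R.f0 ≤ 2 * (Dg ρ r x).Plow J' := o7.2
    have h2 : (Dg ρ r x).Plow J' ≤ C2 * 2 ^ J' * ll / (ρ * L) := hPj J' (by omega)
    linarith only [h1, h2]
  have hNb : R.f0 ^ k ≤ R.Nb := Nb_ge R hok
  have hNb0 : 0 ≤ R.Nb := (pow_nonneg hf0.le k).trans hNb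
  have hcsf : ∀ j : Fin J', R.cs ^ 2 * R.f j ≤ R.f0 * 2 ^ (j : ℕ) / 2 ^ J' := by
    intro j
    have hj := j.2
    have h1 : R.f j ≤ 100 * ∏ i ∈ Ioo (j : ℕ) (Dg ρ r x).I, (Dg ρ r x).P0 i := o6 j
    have h2 : ∏ i ∈ Ioo (j : ℕ) (Dg ρ r x).I, (Dg ρ r x).P0 i =
        (∏ i ∈ Ico ((j : ℕ) + 1) J', (Dg ρ r x).P0 i) * (Dg ρ r x).Plow J' := by
      rw [hIoo]
      exact (Finset.prod_Ico_consecutive _ hj (by
        have := hreg.J_le
        omega)).symm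
    have h3 := hf3.2 ((j : ℕ) + 1) hj
    have h4 : (Dg ρ r x).Plow J' ≤ R.f0 := o7.1
    have h5 : ∏ i ∈ Ioo (j : ℕ) (Dg ρ r x).I, (Dg ρ r x).P0 i ≤
        C3 * 2 ^ ((j : ℕ) + 1) / 2 ^ J' * R.f0 := by
      rw [h2]
      exact mul_le_mul h3 h4 hPlJ.le (by positivity)
    have h6 : R.cs ^ 2 = 1 / (200 * C3) := hcs2
    rw [h6]
    calc 1 / (200 * C3) * R.f j ≤ 1 / (200 * C3) * (100 * (C3 * 2 ^ ((j : ℕ) + 1) / 2 ^ J' *
          R.f0)) := by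
          refine mul_le_mul_of_nonneg_left (h1.trans ?_) (by positivity)
          exact mul_le_mul_of_nonneg_left h5 (by norm_num)
      _ = R.f0 * 2 ^ (j : ℕ) / 2 ^ J' := by
          rw [pow_succ]
          field_simp
          ring
  have hPb : ∀ i : Fin k, R.Nb * (R.cs ^ 2 * (J' : ℝ) ^ 2) / (4 * R.f0) ≤ R.Pb i :=
    boostMass (2 * H + 1) k J' J1 R hk hJ' hf0 hok.f_nonneg hcs0.le hcsf hkb
  -- the inequality of the second part
  have hprime : ((max m 1 : ℕ) : ℝ) * R.MI * R.Nb ≤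
      ∑ i, R.MP * ((R.Ω.card : ℝ) / R.N0) / (2 * L) * R.Pb i := by
    have hcard : ((R.Ω.card : ℕ) : ℝ) = (Ps x : ℝ) := by
      show (((range (Ps x)).card : ℕ) : ℝ) = _
      rw [Finset.card_range]
    rw [hcard]
    refine prime_ineq (θ := θ) (C2 := C2) (c8 := c8) (cs := cs) (ρ := ρ) (JJ := (J' : ℝ))
      (pw := 2 ^ J') (ll := ll) (f0 := R.f0) hL0 hll0 hθ1 hOm0 hf0 hNb0 hC2 hc8 hcs0 hρ
      (by positivity) (Nat.cast_nonneg _) ?_ ?_ hf0u hPb hMIu hAm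
    · rw [hL]
      exact hmass x a1
    · rw [hll]
      exact hphi x a6
  have hlow' : c6 ≤ R.Nb * avg R.Ω (fun a => ((TT R.w (R.B a)).card : ℝ)) := by
    have h1 := hlow x a5 β hβ
    rw [← hH] at h1
    have h2 : (c3 * 2 ^ J' * ll / (ρ * L)) ^ k ≤ R.Nb := by
      refine le_trans (pow_le_pow_left₀ (by positivity) ?_ k) hNb
      exact hf3.1.trans o7.1
    have h3 : c6 = (c3 * 2 ^ J' * ll / (ρ * L)) ^ k * (c7 * (L / ll) ^ k) := by
      rw [hc6]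
      have : c3 * 2 ^ J' / ρ = (c3 * 2 ^ J' * ll / (ρ * L)) * (L / ll) := by
        field_simp
      rw [this, mul_pow]
      ring
    rw [h3]
    refine mul_le_mul h2 ?_ (by positivity) hNb0
    rw [hL, hll]
    exact h1
  have hkill : ∀ j, b * R.Pall * (b * R.e j / R.kk j + R.t2) ≤ 1 / (8 * k) := by
    intro j
    have hKj : (0 : ℝ) < kk j := by exact_mod_cast hkk j
    have hj := j.2
    have hJ1r : (0 : ℝ) < J1 := by exact_mod_cast hJ1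
    have h1 : b * R.Pall ≤ H0 * 2 ^ i1 / ρ := by
      have h2 : b * R.Pall ≤ C1 * C2 * 2 ^ i1 / ρ := hbPj i1 (by omega)
      refine h2.trans (div_le_div_of_nonneg_right ?_ hρ.le)
      exact mul_le_mul_of_nonneg_right hH02 (by positivity)
    have h2 : b * R.e j ≤ 200 * H0 * 2 ^ (i1 + (j : ℕ)) / ((J1 : ℝ) ^ 2 * ρ) := by
      have h3 : R.e j ≤ 100 / (J1 : ℝ) ^ 2 * ∏ i ∈ Ioo (i1 + (j : ℕ)) (Dg ρ r x).I,
        (Dg ρ r x).P0 i := o5 j
      rw [hIoo] at h3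
      have h4 := hbPj (i1 + (j : ℕ) + 1) (by omega)
      calc b * R.e j ≤ b * (100 / (J1 : ℝ) ^ 2 * ∏ i ∈ Ico (i1 + (j : ℕ) + 1) (Dg ρ r x).I,
            (Dg ρ r x).P0 i) := mul_le_mul_of_nonneg_left h3 hb0.le
        _ = 100 / (J1 : ℝ) ^ 2 * (b * ∏ i ∈ Ico (i1 + (j : ℕ) + 1) (Dg ρ r x).I,
            (Dg ρ r x).P0 i) := by ring
        _ ≤ 100 / (J1 : ℝ) ^ 2 * (C1 * C2 * 2 ^ (i1 + (j : ℕ) + 1) / ρ) :=
            mul_le_mul_of_nonneg_left h4 (by positivity)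
        _ = 200 * (C1 * C2) * 2 ^ (i1 + (j : ℕ)) / ((J1 : ℝ) ^ 2 * ρ) := by
            rw [pow_succ]
            field_simp
            ring
        _ ≤ 200 * H0 * 2 ^ (i1 + (j : ℕ)) / ((J1 : ℝ) ^ 2 * ρ) := by
            apply div_le_div_of_nonneg_right _ (by positivity)
            refine mul_le_mul_of_nonneg_right ?_ (by positivity)
            linarith only [hH02]
    have h3 : b * R.e j / R.kk j ≤
        200 * H0 * 2 ^ (i1 + (j : ℕ)) / ((J1 : ℝ) ^ 2 * ρ * kk j) := by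
      calc b * R.e j / R.kk j ≤ (200 * H0 * 2 ^ (i1 + (j : ℕ)) / ((J1 : ℝ) ^ 2 * ρ)) / kk j :=
            div_le_div_of_nonneg_right h2 hKj.le
        _ = _ := by rw [div_div]
    have h4 : 0 ≤ b * R.e j / R.kk j + R.t2 :=
      add_nonneg (div_nonneg (mul_nonneg hb0.le (hok.e_nonneg j)) (Nat.cast_nonneg _))
        hok.t2_nonneg
    have h5 : R.t2 = 2000 * t1 := rfl
    calc b * R.Pall * (b * R.e j / R.kk j + R.t2) ≤
        (H0 * 2 ^ i1 / ρ) * (b * R.e j / R.kk j + R.t2) := mul_le_mul_of_nonneg_right h1 h4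
      _ ≤ (H0 * 2 ^ i1 / ρ) * (200 * H0 * 2 ^ (i1 + (j : ℕ)) / ((J1 : ℝ) ^ 2 * ρ * kk j) +
          2000 * t1) := by
          refine mul_le_mul_of_nonneg_left ?_ (by positivity)
          rw [h5]
          exact add_le_add_left h3 _
      _ ≤ 1 / (8 * k) := hkc j
  have hε2 : R.ε2 = c / L ^ 2 := by rw [hL]; rfl
  have hε1 : R.ε1 = 1 / L ^ nA := by
    show 1 / Real.log x ^ ((nA : ℕ) : ℝ) = _
    rw [Real.rpow_natCast, hL]
  have hMI : R.MI = Mi θ x := rfl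
  have hk1 : (1 : ℝ) ≤ k := by exact_mod_cast hk
  have habR : ((adm k R.kb).card : ℝ) = ab := hab.symm
  have hS1 : R.ε2 * ((b * R.Plow) ^ k * (1 + b) * ((adm k R.kb).card : ℝ) ^ 2 *
      Real.exp (((J1 : ℝ) + 1) ^ 2 * R.Plow * b)) ≤ c6 / (32 * k ^ 2) := by
    rw [hε2, habR]
    have h1 : (b * R.Plow) ^ k * (1 + b) * ab ^ 2 *
        Real.exp (((J1 : ℝ) + 1) ^ 2 * R.Plow * b) ≤ T1 ^ k * ((1 + C1) * L) * ab ^ 2 * E1 := by
      refine mul_le_mul ?_ hexp hexp0.le (by positivity)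
      refine mul_le_mul_of_nonneg_right ?_ (by positivity)
      refine mul_le_mul (hbPk k) ?_ (by positivity) (by positivity)
      calc 1 + b ≤ L + C1 * L := add_le_add hL1 hbL
        _ = (1 + C1) * L := by ring
    calc c / L ^ 2 * ((b * R.Plow) ^ k * (1 + b) * ab ^ 2 *
        Real.exp (((J1 : ℝ) + 1) ^ 2 * R.Plow * b)) ≤
        c / L ^ 2 * (T1 ^ k * ((1 + C1) * L) * ab ^ 2 * E1) :=
          mul_le_mul_of_nonneg_left h1 (by positivity)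
      _ = K1 / L := by
          rw [hK1]
          field_simp
      _ ≤ c6 / (32 * k ^ 2) := by
          rw [div_le_div_iff₀ hL0 (by positivity)]
          rw [← hL, div_le_iff₀ hc60] at a17
          linarith only [a17]
  have hcard : ((R.Ω.card : ℕ) : ℝ) = (Ps x : ℝ) := by
    show (((range (Ps x)).card : ℕ) : ℝ) = _
    rw [Finset.card_range]
  have hS2 : R.ε2 * R.MP * ((R.Ω.card : ℝ) / R.N0) / (2 * L) * (b * (b * R.Plow) ^ (k - 1) *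
      ((adm k R.kb).card : ℝ) ^ 2 * Real.exp (((J1 : ℝ) + 1) ^ 2 * R.Plow * b)) ≤
      c6 * R.MI / (32 * k ^ 2) := by
    rw [hε2, habR, hcard]
    have hN0 : R.N0 = ((Om x).card : ℝ) := rfl
    have hMP : R.MP = Mn g x := rfl
    rw [hN0, hMP]
    have hs0 : 0 ≤ L ^ (1 / 2 : ℝ) := Real.rpow_nonneg hL0.le _
    have h1 : b * (b * R.Plow) ^ (k - 1) * ab ^ 2 *
        Real.exp (((J1 : ℝ) + 1) ^ 2 * R.Plow * b) ≤ C1 * L * T1 ^ (k - 1) * ab ^ 2 * E1 := by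
      refine mul_le_mul ?_ hexp hexp0.le (by positivity)
      refine mul_le_mul_of_nonneg_right ?_ (by positivity)
      exact mul_le_mul hbL (hbPk (k - 1)) (by positivity) (by positivity)
    have h2 : c / L ^ 2 * Mn g x * ((Ps x : ℝ) / (Om x).card) / (2 * L) ≤
        c / L ^ 2 * (2 * L ^ 2) * L ^ (1 / 2 : ℝ) / (2 * L) := by
      refine div_le_div_of_nonneg_right ?_ (by positivity)
      refine mul_le_mul ?_ hPs1 (by positivity) (by positivity)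
      exact mul_le_mul_of_nonneg_left hMPu (by positivity)
    have h3 : K2 * L ^ (1 / 2 : ℝ) * (64 * k ^ 2) ≤ c6 * (1 - θ) * L := by
      rw [← hL] at a18
      have h4 : K2 * (64 * k ^ 2) / (c6 * (1 - θ)) * L ^ (1 / 2 : ℝ) =
          (K2 * L ^ (1 / 2 : ℝ) * (64 * k ^ 2)) / (c6 * (1 - θ)) := by ring
      rw [h4, div_le_iff₀ (by positivity)] at a18
      linarith only [a18]
    calc c / L ^ 2 * Mn g x * ((Ps x : ℝ) / (Om x).card) / (2 * L) * (b * (b * R.Plow) ^ (k - 1) *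
        ab ^ 2 * Real.exp (((J1 : ℝ) + 1) ^ 2 * R.Plow * b)) ≤
        (c / L ^ 2 * (2 * L ^ 2) * L ^ (1 / 2 : ℝ) / (2 * L)) *
          (C1 * L * T1 ^ (k - 1) * ab ^ 2 * E1) :=
          mul_le_mul h2 h1 (by positivity) (by positivity)
      _ = K2 * L ^ (1 / 2 : ℝ) := by
          rw [hK2]
          field_simp
      _ ≤ c6 * ((1 - θ) / 2 * L) / (32 * k ^ 2) := by
          rw [le_div_iff₀ (by positivity)]
          linarith only [h3]
      _ ≤ c6 * R.MI / (32 * k ^ 2) := by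
          refine div_le_div_of_nonneg_right ?_ (by positivity)
          exact mul_le_mul_of_nonneg_left hMIl hc60.le
  -- the number of assignments
  have hcomb := (LG.comb (2 * H + 1) J1 kk).1
  have hJ1r : (0 : ℝ) < J1 := by exact_mod_cast hJ1
  have hY1 : 1 + ((2 * H + 1 : ℕ) : ℝ) ≤ (2 * C + 2) * L := by
    push_cast
    linarith only [hHC, hL1]
  have hY2 : 1 + ((2 * H + 1 : ℕ) : ℝ) ≤ Dc * L := by
    rw [hDc]
    refine hY1.trans ?_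
    have : (2 * C + 2) * L * 1 ≤ (2 * C + 2) * L * (1 + J1) :=
      mul_le_mul_of_nonneg_left (by linarith only [hJ1r]) (by positivity)
    linarith only [this]
  have hY3 : 1 + ((2 * H + 1 : ℕ) : ℝ) * J1 ≤ Dc * L := by
    rw [hDc]
    have h0 : (0 : ℝ) ≤ ((2 * H + 1 : ℕ) : ℝ) := Nat.cast_nonneg _
    calc 1 + ((2 * H + 1 : ℕ) : ℝ) * J1 ≤ (1 + ((2 * H + 1 : ℕ) : ℝ)) * (1 + J1) := by
          nlinarith only [h0, hJ1r]
      _ ≤ ((2 * C + 2) * L) * (1 + J1) := mul_le_mul_of_nonneg_right hY1 (by positivity)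
      _ = _ := by ring
  have hDL1 : 1 ≤ Dc * L := by
    refine le_trans ?_ hY2
    have : (0 : ℝ) ≤ ((2 * H + 1 : ℕ) : ℝ) := Nat.cast_nonneg _
    linarith only [this]
  have hak : ((adm (2 * H + 1) R.kk).card : ℝ) ≤ (Dc * L) ^ Sk :=
    hcomb.trans (pow_le_pow_left₀ (by positivity) hY3 _)
  have hNN : R.NN ≤ ab ^ 2 * (Dc * L) ^ (2 * Sk) := by
    unfold F2.NN
    rw [habR]
    refine mul_le_mul_of_nonneg_left ?_ (by positivity)
    calc ((adm (2 * H + 1) R.kk).card : ℝ) ^ 2 ≤ ((Dc * L) ^ Sk) ^ 2 :=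
          pow_le_pow_left₀ (Nat.cast_nonneg _) hak 2
      _ = (Dc * L) ^ (2 * Sk) := by rw [← pow_mul, mul_comm Sk 2]
  have hNN0 : 0 ≤ R.NN := by
    unfold F2.NN
    positivity
  have hNN1 : (1 + R.NN) ^ 2 ≤ (1 + ab ^ 2) ^ 2 * (Dc * L) ^ (4 * Sk) := by
    have h1 : (1 : ℝ) ≤ (Dc * L) ^ (2 * Sk) := one_le_pow₀ hDL1
    have h2 : 1 + R.NN ≤ (1 + ab ^ 2) * (Dc * L) ^ (2 * Sk) := by
      rw [add_mul, one_mul]
      exact add_le_add h1 hNN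
    calc (1 + R.NN) ^ 2 ≤ ((1 + ab ^ 2) * (Dc * L) ^ (2 * Sk)) ^ 2 :=
          pow_le_pow_left₀ (by positivity) h2 2
      _ = _ := by
          rw [mul_pow, ← pow_mul]
          congr 2
          ring
  have hE3 : R.ε1 * (1 + ((2 * H + 1 : ℕ) : ℝ)) ^ (2 * k + 1) * (1 + R.NN) ^ 2 ≤ K3 / 2 := by
    rw [hε1]
    calc 1 / L ^ nA * (1 + ((2 * H + 1 : ℕ) : ℝ)) ^ (2 * k + 1) * (1 + R.NN) ^ 2 ≤
        1 / L ^ nA * (Dc * L) ^ (2 * k + 1) * ((1 + ab ^ 2) ^ 2 * (Dc * L) ^ (4 * Sk)) := by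
          refine mul_le_mul ?_ hNN1 (by positivity) (by positivity)
          refine mul_le_mul_of_nonneg_left ?_ (by positivity)
          exact pow_le_pow_left₀ (by positivity) hY2 _
      _ = (1 + ab ^ 2) ^ 2 * (Dc * L) ^ nA / L ^ nA := by
          rw [hnA, pow_add (Dc * L)]
          ring
      _ = K3 / 2 := by
          rw [hK3, mul_pow]
          field_simp
  have hK30 : 0 ≤ K3 := by rw [hK3]; positivity
  have hS4 : R.ε1 * (1 + ((2 * H + 1 : ℕ) : ℝ)) ^ (2 * k + 1) * (1 + R.NN) ^ 2 ≤ R.MI := by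
    refine hE3.trans (le_trans ?_ hMIl)
    rw [← hL, div_le_iff₀ hθ0] at a20
    linarith only [a20, hLθ]
  have hS3 : R.ε1 * (1 + 1 / L) * (1 + ((2 * H + 1 : ℕ) : ℝ)) ^ (2 * k + 1) * (1 + R.NN) ^ 2 ≤
      c6 * R.MI / (32 * k ^ 2) := by
    have h1 : 1 + 1 / L ≤ 2 := by
      have : 1 / L ≤ 1 := by rw [div_le_one hL0]; exact hL1
      linarith only [this]
    have h0 : 0 ≤ R.ε1 * (1 + ((2 * H + 1 : ℕ) : ℝ)) ^ (2 * k + 1) * (1 + R.NN) ^ 2 := by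
      have := hok.e1_nonneg
      positivity
    calc R.ε1 * (1 + 1 / L) * (1 + ((2 * H + 1 : ℕ) : ℝ)) ^ (2 * k + 1) * (1 + R.NN) ^ 2 =
        (1 + 1 / L) * (R.ε1 * (1 + ((2 * H + 1 : ℕ) : ℝ)) ^ (2 * k + 1) * (1 + R.NN) ^ 2) := by
          ring
      _ ≤ 2 * (K3 / 2) := mul_le_mul h1 hE3 h0 (by norm_num)
      _ ≤ c6 * ((1 - θ) / 2 * L) / (32 * k ^ 2) := by
          rw [le_div_iff₀ (by positivity)]
          rw [← hL, div_le_iff₀ (by positivity)] at a19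
          linarith only [a19]
      _ ≤ c6 * R.MI / (32 * k ^ 2) := by
          refine div_le_div_of_nonneg_right ?_ (by positivity)
          exact mul_le_mul_of_nonneg_left hMIl hc60.le
  have hS5 : (((adm k R.kb).card : ℝ) ^ 4 * (2 * k) ^ (2 * k) * ((J1 : ℝ) + 1) ^ (8 * k)) *
      (1 + R.ε2) * Real.exp (2 * (((J1 : ℝ) + 1) ^ 4 * (R.c5 * R.Plow)) * b) + 1 ≤ C4 := by
    rw [habR, hC4]
    have h1 : 1 + R.ε2 ≤ 2 := by
      have h2 : R.ε2 ≤ 1 := by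
        rw [hε2, div_le_one (by positivity)]
        have : c ≤ L := by rw [hL]; exact a21
        nlinarith only [this, hL1]
      linarith only [h2]
    have h2 : Real.exp (2 * (((J1 : ℝ) + 1) ^ 4 * (R.c5 * R.Plow)) * b) ≤
        Real.exp (2 * (((J1 : ℝ) + 1) ^ 4 * c5) * T1) := by
      apply Real.exp_le_exp.2
      have h3 : R.c5 = c5 := hc5.symm
      rw [h3]
      calc 2 * (((J1 : ℝ) + 1) ^ 4 * (c5 * R.Plow)) * b =
          2 * (((J1 : ℝ) + 1) ^ 4 * c5) * (R.Plow * b) := by ring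
        _ ≤ 2 * (((J1 : ℝ) + 1) ^ 4 * c5) * T1 :=
            mul_le_mul_of_nonneg_left hPlow (by positivity)
    have h3 : 0 ≤ R.ε2 := hok.e2_nonneg
    refine add_le_add ?_ le_rfl
    refine mul_le_mul ?_ h2 (Real.exp_pos _).le (by positivity)
    exact mul_le_mul_of_nonneg_left h1 (by positivity)
  have hcore := coreEnd2 (2 * H + 1) k J' J1 R hok
    (fun p n => ((n : ℤ) + offs H p).natAbs.Prime) (Real.log x) hpr (max m 1) b c6 C4
    (le_max_right _ _) hmk hBa hc60 hC40 hlow' hkill (by rw [← hL]; exact hprime) hS1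
    (by rw [← hL]; exact hS2) (by rw [← hL]; exact hS3) hS4 hS5
  calc (c6 / (4 * k)) ^ 2 / C4 * ((1 - θ) / 2) * Real.log x =
      (c6 / (4 * k)) ^ 2 / C4 * ((1 - θ) / 2 * L) := by rw [hL]; ring
    _ ≤ (c6 / (4 * k)) ^ 2 / C4 * R.MI := mul_le_mul_of_nonneg_left hMIl (by positivity)
    _ ≤ _ := hcore
    _ ≤ _ := by
      refine Finset.sum_le_sum_of_subset_of_nonneg (f := fun n : ℕ => 1 / (n : ℝ)) ?_ ?_
      · classical
        intro n hn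
        have h1 := Finset.mem_filter.1 hn
        refine Finset.mem_filter.2 ⟨h1.1, ?_⟩
        have h2 := h1.2
        clear hcore hn h1
        subst hH
        exact good_hit (le_max_left m 1) R (fun i => rfl) h2
      · intro n _ _
        positivity

end Pool.Agent.Helper1.LG2
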