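import Pool.Agent.Helper1.LG2.Frame2

set_option autoImplicit false

/-!
LG2 (helper1). Auxiliary estimates for the assembly.
-/

open Finset Filter

namespace Pool.Agent.Helper1.LG2

open Pool.Agent.Helper1.MT (supp cls pr PS lev)
open Pool.Agent.Helper18.BV (wt IsWt)
open Pool.Agent.Helper1.LG (Dt Ex Eq Reg tt PL wl Ps sg Bs Om nu Mn ev SS adm avg dn)

theorem harm_eq (n : ℕ) : ((harmonic n : ℚ) : ℝ) = ∑ i ∈ Ioc 0 n, 1 / (i : ℝ) := by
  induction n with
  | zero => simp
  | succ n ih =>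
    rw [harmonic_succ, Finset.sum_Ioc_succ_top (Nat.zero_le _), ← ih]
    push_cast
    ring

theorem Mi_bounds {θ x : ℝ} (hθ : 0 < θ) (hθ1 : θ < 1) (hx : 1 ≤ x) :
    (1 - θ) * Real.log x - 1 ≤ Mi θ x ∧ Mi θ x ≤ (1 - θ) * Real.log x + 1 := by
  have hx0 : 0 < x := by linarith
  have h1 : x ^ θ ≤ x := by
    calc x ^ θ ≤ x ^ (1 : ℝ) := Real.rpow_le_rpow_of_exponent_le hx hθ1.le
      _ = x := Real.rpow_one x
  have h1' : 1 ≤ x ^ θ := Real.one_le_rpow hx hθ.le
  set a := ⌊x ^ θ⌋₊ with ha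
  set b := ⌊x⌋₊ with hb
  have hab : a ≤ b := Nat.floor_le_floor h1
  have ha1 : 1 ≤ a := (Nat.one_le_floor_iff _).2 h1'
  have hb1 : 1 ≤ b := ha1.trans hab
  have hM : Mi θ x = ((harmonic b : ℚ) : ℝ) - ((harmonic a : ℚ) : ℝ) := by
    rw [harm_eq, harm_eq]
    unfold Mi Nx
    rw [← ha, ← hb, ← Finset.sum_Ioc_consecutive _ (Nat.zero_le a) hab]
    ring
  have e1 := log_add_one_le_harmonic b
  have e2 := log_add_one_le_harmonic a
  have e3 := harmonic_le_one_add_log b
  have e4 := harmonic_le_one_add_log a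
  have e5 : Real.log x ≤ Real.log ((b + 1 : ℕ) : ℝ) := by
    apply Real.log_le_log hx0
    push_cast
    exact (Nat.lt_floor_add_one x).le
  have e6 : Real.log a ≤ θ * Real.log x := by
    rw [← Real.log_rpow hx0]
    exact Real.log_le_log (by exact_mod_cast ha1) (Nat.floor_le (by positivity))
  have e7 : Real.log b ≤ Real.log x :=
    Real.log_le_log (by exact_mod_cast hb1) (Nat.floor_le hx0.le)
  have e8 : θ * Real.log x ≤ Real.log ((a + 1 : ℕ) : ℝ) := by
    rw [← Real.log_rpow hx0]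
    apply Real.log_le_log (by positivity)
    push_cast
    exact (Nat.lt_floor_add_one _).le
  rw [hM]
  constructor <;> linarith

theorem nu_le {g : ℝ → ℝ} (hg : IsWt g) (hg1 : ∀ v, g v ≤ 1) {x : ℝ} {n : ℕ} (hn : 0 < n)
    (hnx : (n : ℝ) ≤ x) : nu g x n ≤ Real.log x / n := by
  have hn0 : (0 : ℝ) < n := by exact_mod_cast hn
  have hn1 : (1 : ℝ) ≤ n := by exact_mod_cast hn
  have hlog : Real.log n ≤ Real.log x := Real.log_le_log hn0 hnx
  have hl0 : 0 ≤ Real.log (n : ℝ) := Real.log_nonneg hn1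
  unfold nu
  split_ifs with hp
  · rw [ArithmeticFunction.vonMangoldt_apply_prime hp]
    unfold wt
    rw [mul_div_assoc']
    refine div_le_div_of_nonneg_right ?_ hn0.le
    have h1 := hg1 (Real.log n / Real.log x)
    have h2 := hg.nonneg (Real.log n / Real.log x)
    nlinarith
  · exact div_nonneg (hl0.trans hlog) hn0.le

theorem Mn_le {g : ℝ → ℝ} (hg : IsWt g) (hg1 : ∀ v, g v ≤ 1) {x : ℝ} (hx : 1 ≤ x) :
    Mn g x ≤ Real.log x * (1 + Real.log x) := by
  have hx0 : 0 < x := by linarith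
  have hl : 0 ≤ Real.log x := Real.log_nonneg hx
  have hb1 : 1 ≤ ⌊x⌋₊ := (Nat.one_le_floor_iff _).2 hx
  have h1 : Mn g x ≤ ∑ n ∈ Icc 1 ⌊x⌋₊, Real.log x * (1 / (n : ℝ)) := by
    unfold Mn
    refine Finset.sum_le_sum fun n hn => ?_
    rw [Finset.mem_Icc] at hn
    have h2 := nu_le hg hg1 (x := x) (n := n) (by omega)
      (le_trans (by exact_mod_cast hn.2) (Nat.floor_le hx0.le))
    calc nu g x n ≤ Real.log x / n := h2
      _ = Real.log x * (1 / (n : ℝ)) := by ring
  refine h1.trans ?_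
  rw [← Finset.mul_sum]
  refine mul_le_mul_of_nonneg_left ?_ hl
  have h3 : ∑ n ∈ Icc 1 ⌊x⌋₊, 1 / (n : ℝ) = ((harmonic ⌊x⌋₊ : ℚ) : ℝ) := by
    rw [harm_eq]
    rfl
  rw [h3]
  refine (harmonic_le_one_add_log _).trans ?_
  have : Real.log (⌊x⌋₊ : ℝ) ≤ Real.log x :=
    Real.log_le_log (by exact_mod_cast hb1) (Nat.floor_le hx0.le)
  linarith

theorem primorial_le_totient (z : ℕ) (hz : 1 ≤ z) :
    primorial z ≤ z * (primorial z).totient := by
  induction z, hz using Nat.le_induction with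
  | base => simp [primorial_one]
  | succ z hz ih =>
    by_cases hp : (z + 1).Prime
    · have h1 : primorial (z + 1) = (z + 1) * primorial z := by
        unfold primorial
        rw [Finset.range_add_one (n := z + 1), Finset.filter_insert, if_pos hp,
          Finset.prod_insert (by simp)]
      have h2 : Nat.Coprime (z + 1) (primorial z) := by
        rw [Nat.Prime.coprime_iff_not_dvd hp]
        intro hd
        have := (hp.dvd_primorial_iff).1 hd
        omega
      rw [h1, Nat.totient_mul h2, Nat.totient_prime hp, Nat.add_sub_cancel]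
      exact Nat.mul_le_mul_left _ ih
    · have h1 : primorial (z + 1) = primorial z := by
        unfold primorial
        rw [Finset.range_add_one (n := z + 1), Finset.filter_insert, if_neg hp]
      rw [h1]
      exact ih.trans (Nat.mul_le_mul_right _ (Nat.le_succ z))

theorem Ps_le {x : ℝ} (hx : 1 ≤ Real.log x) :
    (Ps x : ℝ) ≤ Real.log x ^ (1 / 2 : ℝ) * (Om x).card := by
  have hs : 1 ≤ Real.sqrt (Real.log x) := by
    rw [Real.one_le_sqrt]
    exact hx
  have hz : 1 ≤ ⌊Real.sqrt (Real.log x)⌋₊ := (Nat.one_le_floor_iff _).2 hs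
  have h1 := primorial_le_totient _ hz
  have h2 : (Om x).card = (Ps x).totient := by
    unfold Om
    rw [Nat.totient_eq_card_coprime]
    congr 1
    apply Finset.filter_congr
    intro a _
    exact Nat.coprime_comm
  rw [h2, ← Real.sqrt_eq_rpow]
  have h3 : (Ps x : ℝ) ≤ (⌊Real.sqrt (Real.log x)⌋₊ : ℝ) * ((Ps x).totient : ℝ) := by
    exact_mod_cast h1
  refine h3.trans (mul_le_mul_of_nonneg_right (Nat.floor_le (by linarith)) (Nat.cast_nonneg _))

theorem offs_inj (H : ℕ) : Function.Injective (offs H) := by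
  intro i j hij
  unfold offs at hij
  apply Fin.ext
  omega

theorem offs_le (H : ℕ) (i : Fin (2 * H + 1)) : |offs H i| ≤ H := by
  have hi := i.2
  rw [abs_le]
  unfold offs
  constructor <;> omega

theorem offs_surj (H : ℕ) {h : ℤ} (h1 : -(H : ℤ) ≤ h) (h2 : h ≤ H) : ∃ i, offs H i = h := by
  refine ⟨⟨(h + H).toNat, by omega⟩, ?_⟩
  unfold offs
  show (((h + H).toNat : ℕ) : ℤ) - H = h
  omega

theorem sqrt_div_small (K : ℝ) : ∀ᶠ x : ℝ in atTop,
    K * Real.log x ^ (1 / 2 : ℝ) ≤ Real.log x := by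
  have h1 : ∀ᶠ x : ℝ in atTop, |K| ≤ Real.log x ^ (1 / 2 : ℝ) :=
    ((tendsto_rpow_atTop (by norm_num : (0 : ℝ) < 1 / 2)).comp
      Real.tendsto_log_atTop).eventually_ge_atTop _
  filter_upwards [h1, Real.tendsto_log_atTop.eventually_gt_atTop 0] with x a1 a2
  have h2 : Real.log x = Real.log x ^ (1 / 2 : ℝ) * Real.log x ^ (1 / 2 : ℝ) := by
    rw [← Real.rpow_add a2]
    norm_num
  have h3 : 0 ≤ Real.log x ^ (1 / 2 : ℝ) := Real.rpow_nonneg a2.le _
  calc K * Real.log x ^ (1 / 2 : ℝ) ≤ |K| * Real.log x ^ (1 / 2 : ℝ) :=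
        mul_le_mul_of_nonneg_right (le_abs_self K) h3
    _ ≤ Real.log x ^ (1 / 2 : ℝ) * Real.log x ^ (1 / 2 : ℝ) :=
        mul_le_mul_of_nonneg_right a1 h3
    _ = Real.log x := h2.symm

end Pool.Agent.Helper1.LG2
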