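import Pool.Agent.Helper1.LG2.GTAux

set_option autoImplicit false

/-!
LG2 (helper1). Lemmas for the assembly.
-/

open Finset Filter

namespace Pool.Agent.Helper1.LG2

open Pool.Agent.Helper1.MT (supp cls pr PS lev)
open Pool.Agent.Helper18.BV (wt IsWt)
open Pool.Agent.Helper1.LG (Dt Ex Eq Reg tt PL wl Ps sg Bs Om nu Mn ev SS adm avg dn)

theorem lev_facts {m0 J' i1 J1 : ℕ} (hm0 : 100 ≤ m0) (hi1 : J' ≤ i1) (hJ1 : 0 < J1) {ρ x : ℝ}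
    (hρ : 0 < ρ) :
    lb i1 (Dg ρ (ro m0 J' i1 J1) x) ρ (.b0 : Lb J' J1) ≤ 12 * m0 * ρ / 2 ^ J' ∧
    (∀ j : Fin J', lb i1 (Dg ρ (ro m0 J' i1 J1) x) ρ (.bs j : Lb J' J1) ≤
      12 * m0 * ρ / 2 ^ (j : ℕ)) ∧
    (∀ j : Fin J1, lb i1 (Dg ρ (ro m0 J' i1 J1) x) ρ (.ks j : Lb J' J1) ≤
      12 * ((m0 + (i1 - J') : ℕ) : ℝ) * ρ / 2 ^ (i1 + (j : ℕ))) ∧
    lb i1 (Dg ρ (ro m0 J' i1 J1) x) ρ (.mj : Lb J' J1) ≤
      12 * ((m0 + (i1 - J') : ℕ) : ℝ) * ρ / 2 ^ i1 := by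
  obtain ⟨o1, o2, -, -⟩ := orders m0 J' i1 J1 hm0 hi1 hJ1 (Dg ρ (ro m0 J' i1 J1) x).I
  have key : ∀ (a : ℕ) (B : ℝ), ∑ i ∈ Ico a (Dg ρ (ro m0 J' i1 J1) x).I,
      (ro m0 J' i1 J1 i : ℝ) / 2 ^ i ≤ B →
      ∑ i ∈ Ico a (Dg ρ (ro m0 J' i1 J1) x).I,
        ((Dg ρ (ro m0 J' i1 J1) x).r i : ℝ) * (ρ / 2 ^ i) ≤ B * ρ := by
    intro a B hB
    have h1 : ∑ i ∈ Ico a (Dg ρ (ro m0 J' i1 J1) x).I,
        ((Dg ρ (ro m0 J' i1 J1) x).r i : ℝ) * (ρ / 2 ^ i) =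
        (∑ i ∈ Ico a (Dg ρ (ro m0 J' i1 J1) x).I, (ro m0 J' i1 J1 i : ℝ) / 2 ^ i) * ρ := by
      rw [Finset.sum_mul]
      refine Finset.sum_congr rfl fun i _ => ?_
      show (ro m0 J' i1 J1 i : ℝ) * (ρ / 2 ^ i) = _
      ring
    rw [h1]
    exact mul_le_mul_of_nonneg_right hB hρ.le
  have e1 : ∀ (u : ℝ) (v : ℝ), u / v * ρ = u * ρ / v := fun u v => by ring
  refine ⟨?_, fun j => ?_, fun j => ?_, ?_⟩
  · rw [← e1]
    exact key J' _ (o1 J' le_rfl)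
  · rw [← e1]
    exact key j _ (o1 j j.2.le)
  · rw [← e1]
    exact key (i1 + j) _ (o2 (i1 + j) (Nat.le_add_right _ _)
      (Nat.add_le_add_left j.2.le _))
  · rw [← e1]
    exact key i1 _ (o2 i1 le_rfl (Nat.le_add_right _ _))

theorem prime_ineq {k : ℕ} {L ll θ MI MP N0 PC f0 Nb C2 c8 cs ρ JJ pw m' : ℝ} {Pb : Fin k → ℝ}
    (hL : 0 < L) (hll : 0 < ll) (hθ1 : θ < 1) (hN0 : 0 < N0) (hf0 : 0 < f0) (hNb : 0 ≤ Nb)
    (hC2 : 0 < C2) (hc8 : 0 < c8) (hcs : 0 < cs) (hρ : 0 < ρ) (hpw : 0 < pw)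
    (hm' : 0 ≤ m')
    (hMP : (1 - θ) / 4 * L ≤ MP) (hPs : c8 * ll * N0 ≤ PC)
    (hf : f0 ≤ 2 * (C2 * pw * ll / (ρ * L)))
    (hPb : ∀ i, Nb * (cs ^ 2 * JJ ^ 2) / (4 * f0) ≤ Pb i)
    (hMI : MI ≤ 2 * (1 - θ) * L)
    (hA : 128 * C2 / (c8 * cs ^ 2) * m' ≤ k * ρ * JJ ^ 2 / pw) :
    m' * MI * Nb ≤ ∑ i : Fin k, MP * (PC / N0) / (2 * L) * Pb i := by
  have hθ0 : 0 < 1 - θ := by linarith
  have h1 : (1 - θ) / 4 * L * (c8 * ll) / (2 * L) ≤ MP * (PC / N0) / (2 * L) := by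
    refine div_le_div_of_nonneg_right ?_ (by positivity)
    have h2 : c8 * ll ≤ PC / N0 := (le_div_iff₀ hN0).2 hPs
    exact mul_le_mul hMP h2 (by positivity) (le_trans (by positivity) hMP)
  have h2 : Nb * (cs ^ 2 * JJ ^ 2) * (ρ * L) / (8 * C2 * pw * ll) ≤
      Nb * (cs ^ 2 * JJ ^ 2) / (4 * f0) := by
    have h3 : f0 * (ρ * L) ≤ 2 * (C2 * pw * ll) := by
      have : f0 ≤ 2 * (C2 * pw * ll) / (ρ * L) := by
        rw [mul_div_assoc]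
        exact hf
      rwa [le_div_iff₀ (by positivity)] at this
    rw [div_le_div_iff₀ (by positivity) (by positivity)]
    have h4 : 0 ≤ Nb * (cs ^ 2 * JJ ^ 2) := by positivity
    calc Nb * (cs ^ 2 * JJ ^ 2) * (ρ * L) * (4 * f0) =
        Nb * (cs ^ 2 * JJ ^ 2) * (4 * (f0 * (ρ * L))) := by ring
      _ ≤ Nb * (cs ^ 2 * JJ ^ 2) * (4 * (2 * (C2 * pw * ll))) :=
          mul_le_mul_of_nonneg_left (by linarith) h4
      _ = _ := by ring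
  have h3 : ∀ i : Fin k, Nb * ((1 - θ) * c8 * cs ^ 2 * JJ ^ 2 * ρ * L / (64 * C2 * pw)) ≤
      MP * (PC / N0) / (2 * L) * Pb i := by
    intro i
    calc Nb * ((1 - θ) * c8 * cs ^ 2 * JJ ^ 2 * ρ * L / (64 * C2 * pw)) =
        ((1 - θ) / 4 * L * (c8 * ll) / (2 * L)) *
          (Nb * (cs ^ 2 * JJ ^ 2) * (ρ * L) / (8 * C2 * pw * ll)) := by
          field_simp
          ring
      _ ≤ MP * (PC / N0) / (2 * L) * Pb i := by
          have h4 : 0 ≤ (1 - θ) / 4 * L * (c8 * ll) / (2 * L) := by positivity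
          exact mul_le_mul h1 (h2.trans (hPb i)) (by positivity) (h4.trans h1)
  have h4 : (k : ℝ) * (Nb * ((1 - θ) * c8 * cs ^ 2 * JJ ^ 2 * ρ * L / (64 * C2 * pw))) ≤
      ∑ i : Fin k, MP * (PC / N0) / (2 * L) * Pb i := by
    have := Finset.sum_le_sum (s := (univ : Finset (Fin k))) fun i _ => h3 i
    rw [Finset.sum_const, Finset.card_univ, Fintype.card_fin, nsmul_eq_mul] at this
    exact this
  refine le_trans ?_ h4
  have h5 : 128 * C2 * m' * pw ≤ k * ρ * JJ ^ 2 * (c8 * cs ^ 2) := by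
    have h6 : 128 * C2 / (c8 * cs ^ 2) * m' = (128 * C2 * m') / (c8 * cs ^ 2) := by ring
    rw [h6, div_le_div_iff₀ (by positivity) hpw] at hA
    exact hA
  calc m' * MI * Nb ≤ m' * (2 * (1 - θ) * L) * Nb := by
        refine mul_le_mul_of_nonneg_right (mul_le_mul_of_nonneg_left hMI hm') hNb
    _ = (128 * C2 * m' * pw) * (Nb * (1 - θ) * L / (64 * C2 * pw)) := by
        field_simp
        ring
    _ ≤ (k * ρ * JJ ^ 2 * (c8 * cs ^ 2)) * (Nb * (1 - θ) * L / (64 * C2 * pw)) :=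
        mul_le_mul_of_nonneg_right h5 (by positivity)
    _ = _ := by ring

theorem Nb_ge {Y k J' J1 : ℕ} (R : F2 Y k J' J1) (hR : R.Ok) : R.f0 ^ k ≤ R.Nb := by
  unfold F2.Nb
  have hmem : (fun _ => none : Fin k → Option (Fin J')) ∈ adm k R.kb := by
    unfold LG.adm
    rw [Finset.mem_filter]
    refine ⟨Finset.mem_univ _, fun j => ?_⟩
    have : cls (fun _ => none : Fin k → Option (Fin J')) j = ∅ := by
      unfold cls
      rw [Finset.filter_eq_empty_iff]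
      intro p _
      simp
    rw [this]
    simp
  have h1 := Finset.single_le_sum (f := fun ψ : Fin k → Option (Fin J') =>
    ∏ i, evb R.f0 (fun j => R.cs ^ 2 * R.f j) (ψ i)) (s := adm k R.kb) (fun ψ _ => by
      refine Finset.prod_nonneg fun i _ => ?_
      cases ψ i with
      | none => exact hR.f0_nonneg
      | some j => exact mul_nonneg (sq_nonneg _) (hR.f_nonneg j)) hmem
  refine le_trans ?_ h1
  show R.f0 ^ k ≤ ∏ i : Fin k, R.f0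
  rw [Finset.prod_const, Finset.card_univ, Fintype.card_fin]

/-- Good positions give the event. -/
theorem good_hit {k J' J1 m m' : ℕ} (hm : m ≤ m') {CL eL : ℝ} {lo : Fin k → ℝ}
    (R : F2 (2 * ⌊CL⌋₊ + 1) k J' J1) (hw : ∀ i, R.w i = win ⌊CL⌋₊ (lo i) eL) {n : ℕ}
    (hG : R.Good (fun p n => ((n : ℤ) + offs ⌊CL⌋₊ p).natAbs.Prime) m' n) :
    Hit k m CL eL lo n := by
  obtain ⟨τ, s, hτ, hτw, hs, hsp, hall⟩ := hG
  refine ⟨fun i => offs ⌊CL⌋₊ (τ i), s, (offs_inj _).comp hτ, fun i => ?_, hm.trans hs, hsp, ?_⟩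
  · have := hτw i
    rw [hw] at this
    unfold win at this
    exact (Finset.mem_filter.1 this).2
  · intro h' hh' hp
    have h2 : h'.natAbs ≤ ⌊CL⌋₊ := by
      apply Nat.le_floor
      rw [Nat.cast_natAbs, Int.cast_abs]
      exact hh'
    obtain ⟨p, hp'⟩ := offs_surj ⌊CL⌋₊ (h := h') (by omega) (by omega)
    obtain ⟨i, hi⟩ := hall p (by
      show ((n : ℤ) + offs ⌊CL⌋₊ p).natAbs.Prime
      rw [hp']
      exact hp)
    exact ⟨i, by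
      show h' = offs ⌊CL⌋₊ (τ i)
      rw [← hi, hp']⟩

theorem fr2_pr {g : ℝ → ℝ} (hg : IsWt g) (hg1 : ∀ v, g v ≤ 1) {θ' : ℝ} (hθ'1 : θ' < 1)
    (hs : ∀ v, g v ≠ 0 → θ' < v ∧ v < 1 - (1 - θ') / 100)
    {ρ θ A c t1 cs : ℝ} {i1 u0 k J' J1 : ℕ} {r : ℕ → ℕ} {kb : Fin J' → ℕ} {kk : Fin J1 → ℕ}
    {x : ℝ} (hx : 1 < x) {Y : ℕ} {h : Fin Y → ℤ} {w : Fin k → Finset (Fin Y)}
    (hbig : ∀ n ∈ Nx θ x, ∀ p, x ^ ρ < (n : ℝ) + h p ∧
      Real.sqrt (Real.log x) < (n : ℝ) + h p)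
    (hhalf : ∀ n ∈ Nx θ x, ∀ p, (n : ℝ) / 2 ≤ (n : ℝ) + h p) :
    (fr2 g ρ θ A c t1 cs i1 u0 r kb kk x h w).Pr
      (fun p n => ((n : ℤ) + h p).natAbs.Prime) (Real.log x) where
  L_pos := Real.log_pos hx
  nup_le := by
    intro p n hn hne
    have hne' : nu g x ((n : ℤ) + h p).toNat ≠ 0 := hne
    obtain ⟨h1, h2, h3⟩ := nu_supp hs hx hne'
    have h4 : (0 : ℤ) < (n : ℤ) + h p := by
      have := h1.pos
      omega
    have h5 : ((n : ℤ) + h p).toNat = ((n : ℤ) + h p).natAbs := by omega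
    refine ⟨by rw [← h5]; exact h1, ?_⟩
    show nu g x ((n : ℤ) + h p).toNat ≤ 2 * Real.log x * (1 / (n : ℝ))
    have hqr : ((((n : ℤ) + h p).toNat : ℕ) : ℝ) = n + h p := by
      have : ((((n : ℤ) + h p).toNat : ℕ) : ℤ) = n + h p := Int.toNat_of_nonneg h4.le
      exact_mod_cast this
    have hqx : ((((n : ℤ) + h p).toNat : ℕ) : ℝ) ≤ x := by
      refine h3.le.trans ?_
      calc x ^ (1 - (1 - θ') / 100) ≤ x ^ (1 : ℝ) :=
            Real.rpow_le_rpow_of_exponent_le hx.le (by linarith)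
        _ = x := Real.rpow_one x
    have h6 := nu_le hg hg1 h1.pos hqx
    rw [hqr] at h6
    have hn0 : 0 < (n : ℝ) := by
      have hn' : n ∈ Ioc ⌊x ^ θ⌋₊ ⌊x⌋₊ := hn
      rw [Finset.mem_Ioc] at hn'
      exact_mod_cast lt_of_le_of_lt (Nat.zero_le _) hn'.1
    have hl : 0 < Real.log x := Real.log_pos hx
    calc nu g x ((n : ℤ) + h p).toNat ≤ Real.log x / ((n : ℝ) + h p) := h6
      _ ≤ Real.log x / ((n : ℝ) / 2) :=
          div_le_div_of_nonneg_left hl.le (by positivity) (hhalf n hn p)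
      _ = 2 * Real.log x * (1 / (n : ℝ)) := by
          field_simp
  mem := by
    intro p n hn hp
    obtain ⟨b1, b2⟩ := hbig n hn p
    obtain ⟨c1, c2⟩ := rough hx hp b1 b2
    refine ⟨?_, ?_⟩
    · show p ∈ Bs x h n
      unfold Bs
      exact Finset.mem_filter.2 ⟨Finset.mem_univ _, c1⟩
    · show Fb i1 (Dg ρ r x) (.mj : Lb J' J1) (sg ρ x (h p) n) = 1
      rw [c2]
      show ∏ i ∈ Ico i1 (Dg ρ r x).I, (Dg ρ r x).A i ∅ = 1
      exact Finset.prod_eq_one fun i _ => A_empty _ i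

end Pool.Agent.Helper1.LG2
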