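import Pool.Agent.Helper1.LG2.Defs
import Pool.Agent.Helper1.LG.Rng
import Pool.Agent.Helper1.LG.Mob

set_option autoImplicit false

/-!
LG2-M. Möbius coefficients of the words (`Mob2` in `LG2/Defs.lean`). Like LG-M (`LG/Mob.lean`, proved
on main: adapt it). Letters: `b0 = ∏_{i ∈ [J', I)} A_i` has type `(1, 1, lb b0)`, `mj` the same with
`i1`, `bs j = md D j = (1-a_j)⁻¹ ∏_{i∈[j,I)} A_i - a_j (1-a_j)⁻¹ ∏_{i∈(j,I)} A_i` type `(10, 1, lb (bs j))`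
(`1 - a_j ≥ 1/5` for `j < i1 + J1`), `ks j` the same with the factor `1/J1`.
-/

open Finset

namespace Pool.Agent.Helper1.LG2

open Pool.Agent.Helper1.LG

section

variable {ι : Type} [Fintype ι] [DecidableEq ι]

/-- The level of a mode. -/
theorem Sp_md {J : ℕ} {D : Dt ι} {t : ℝ} (h : Reg D J t) (s : ι → ℝ) (ρ : ℝ) (hρ : 0 ≤ ρ)
    (hs : ∀ p, 0 ≤ s p) (hs' : ∀ p, s p ≤ ρ / 2 ^ D.rg p) {j : ℕ} (hj' : j < J) :
    Sp s (fun S => md D j S) (∑ i ∈ Ico j D.I, (D.r i : ℝ) * (ρ / 2 ^ i)) := by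
  have hj : j < D.I := lt_of_lt_of_le hj' h.J_le
  have h0 : 0 ≤ (D.r j : ℝ) * (ρ / 2 ^ j) := by positivity
  have h1 : Sp s (fun S => D.A j S + -D.a j) ((D.r j : ℝ) * (ρ / 2 ^ j)) :=
    Sp.add (Sp.A D s ρ hρ hs' j) ((Sp.const s _).mono h0)
  have h2 := Sp.smul h1 (1 / (1 - D.a j))
  have h3 := Sp.mul hs h2 (Sp.prod hs (Ioo j D.I) (fun i => D.A i)
    (fun i => (D.r i : ℝ) * (ρ / 2 ^ i)) fun i _ => Sp.A D s ρ hρ hs' i)
  have h4 : ∑ i ∈ Ico j D.I, (D.r i : ℝ) * (ρ / 2 ^ i) = (D.r j : ℝ) * (ρ / 2 ^ j) +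
      ∑ i ∈ Ioo j D.I, (D.r i : ℝ) * (ρ / 2 ^ i) := by
    rw [← Finset.Ioo_insert_left hj, Finset.sum_insert (by simp)]
  rw [h4]
  convert h3 using 2 with S
  unfold md
  ring

/-- The word has the level of its letters. -/
theorem Sp_Fb {J' J1 i1 : ℕ} {D : Dt ι} {t : ℝ} (hJ : J' ≤ i1) (h : Reg D (i1 + J1) t)
    (s : ι → ℝ) (ρ : ℝ) (hρ : 0 ≤ ρ) (hs : ∀ p, 0 ≤ s p) (hs' : ∀ p, s p ≤ ρ / 2 ^ D.rg p)
    (l : Lb J' J1) : Sp s (Fb i1 D l) (lb i1 D ρ l) := by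
  cases l with
  | one => exact Sp.const s 1
  | b0 => exact Sp.prod hs _ _ _ fun i _ => Sp.A D s ρ hρ hs' i
  | bs j => exact Sp_md h s ρ hρ hs hs' (by have := j.2; omega)
  | mj => exact Sp.prod hs _ _ _ fun i _ => Sp.A D s ρ hρ hs' i
  | ks j => exact Sp.smul (Sp_md h s ρ hρ hs hs' (by have := j.2; omega)) (1 / (J1 : ℝ))

theorem prodA_le {J : ℕ} {D : Dt ι} {t : ℝ} (h : Reg D J t) (T : Finset ℕ) (S : Finset ι) :
    |∏ i ∈ T, D.A i S| ≤ 5 * 2 ^ S.card := by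
  obtain ⟨h3, h4⟩ := prod_A_le h T S
  rw [abs_of_nonneg h3]
  have h5 : (2 : ℝ) ^ ∑ i ∈ T, cnt D.rg i S ≤ 2 ^ S.card :=
    pow_le_pow_right₀ (by norm_num) (sum_cnt_le D.rg _ S)
  have h2 : (1 : ℝ) ≤ 2 ^ S.card := one_le_pow₀ (by norm_num)
  linarith

theorem md_le {J : ℕ} {D : Dt ι} {t : ℝ} (h : Reg D J t) {j : ℕ} (hj' : j < J) (S : Finset ι) :
    |md D j S| ≤ 5 * 2 ^ S.card := by
  have hj : j < D.I := lt_of_lt_of_le hj' h.J_le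
  obtain ⟨h3, h4⟩ := prod_A_le h (Ioo j D.I) S
  have ha := (h.a_le j hj).1
  have ha' := h.one_sub_a hj'
  obtain ⟨hA0, hA1, -, -⟩ := h.A_facts j S
  have hp : (1 : ℝ) ≤ 2 ^ cnt D.rg j S := one_le_pow₀ (by norm_num)
  have h7 : |(D.A j S - D.a j) / (1 - D.a j)| ≤ 5 * 2 ^ cnt D.rg j S := by
    rw [abs_div, abs_of_nonneg (show 0 ≤ 1 - D.a j by linarith), div_le_iff₀ (by linarith)]
    have h8 : |D.A j S - D.a j| ≤ 2 ^ cnt D.rg j S := by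
      rw [abs_le]
      constructor <;> linarith
    nlinarith
  have h9 : (2 : ℝ) ^ cnt D.rg j S * 2 ^ ∑ i ∈ Ioo j D.I, cnt D.rg i S ≤ 2 ^ S.card := by
    rw [← pow_add]
    apply pow_le_pow_right₀ (by norm_num)
    have h10 := sum_cnt_le D.rg (Ico j D.I) S
    rwa [← Finset.Ioo_insert_left hj, Finset.sum_insert (by simp)] at h10
  unfold md
  rw [abs_mul, abs_of_nonneg h3]
  calc |(D.A j S - D.a j) / (1 - D.a j)| * ∏ i ∈ Ioo j D.I, D.A i S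
      ≤ (5 * 2 ^ cnt D.rg j S) * 2 ^ ∑ i ∈ Ioo j D.I, cnt D.rg i S :=
        mul_le_mul h7 h4 h3 (by positivity)
    _ = 5 * (2 ^ cnt D.rg j S * 2 ^ ∑ i ∈ Ioo j D.I, cnt D.rg i S) := by ring
    _ ≤ 5 * 2 ^ S.card := by linarith

theorem Fb_le {J' J1 i1 : ℕ} {D : Dt ι} {t : ℝ} (hJ : J' ≤ i1) (hJ1 : 0 < J1)
    (h : Reg D (i1 + J1) t) (l : Lb J' J1) (S : Finset ι) : |Fb i1 D l S| ≤ 5 * 2 ^ S.card := by
  cases l with
  | one =>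
    show |(1 : ℝ)| ≤ _
    have h2 : (1 : ℝ) ≤ 2 ^ S.card := one_le_pow₀ (by norm_num)
    rw [abs_one]
    linarith
  | b0 => exact prodA_le h _ S
  | bs j => exact md_le h (by have := j.2; omega) S
  | mj => exact prodA_le h _ S
  | ks j =>
    show |(1 / (J1 : ℝ)) * md D (i1 + j) S| ≤ _
    have h1 := md_le h (j := i1 + j) (by have := j.2; omega) S
    have hJ' : (1 : ℝ) ≤ J1 := by exact_mod_cast hJ1
    have h6 : |1 / (J1 : ℝ)| ≤ 1 := by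
      rw [abs_of_nonneg (by positivity)]
      exact (div_le_one (by linarith)).mpr hJ'
    rw [abs_mul]
    calc |1 / (J1 : ℝ)| * |md D (i1 + j) S| ≤ 1 * (5 * 2 ^ S.card) :=
          mul_le_mul h6 h1 (abs_nonneg _) zero_le_one
      _ = 5 * 2 ^ S.card := one_mul _

theorem wb_le {J' J1 i1 : ℕ} {D : Dt ι} {t : ℝ} (hJ : J' ≤ i1) (hJ1 : 0 < J1)
    (h : Reg D (i1 + J1) t) (W : Fin 4 → Lb J' J1) (S : Finset ι) :
    |wb i1 D W S| ≤ 625 * 16 ^ S.card := by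
  unfold wb
  rw [Finset.abs_prod]
  calc ∏ l, |Fb i1 D (W l) S| ≤ ∏ _l : Fin 4, (5 * 2 ^ S.card : ℝ) :=
        Finset.prod_le_prod (fun _ _ => abs_nonneg _) fun l _ => Fb_le hJ hJ1 h (W l) S
    _ = 625 * 16 ^ S.card := by
        rw [Finset.prod_const, Finset.card_univ, Fintype.card_fin, mul_pow, ← pow_mul, mul_comm _ 4,
          pow_mul]
        norm_num

end

theorem mob2 : Mob2 := by
  intro ι _ _ D J' J1 i1 t hJ hJ1 h s ρ hρ hs hs' W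
  obtain ⟨μ, h1, h2⟩ := Sp.prod hs (Finset.univ : Finset (Fin 4)) (fun l => Fb i1 D (W l))
    (fun l => lb i1 D ρ (W l)) fun l _ => Sp_Fb hJ h s ρ hρ hs hs' (W l)
  exact ⟨μ, h1, moebius_le _ μ h1 (wb_le hJ hJ1 h W), h2⟩

end Pool.Agent.Helper1.LG2
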