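import Pool.Agent.Helper1.LG2.Defs
import Pool.Agent.Helper1.LG.Rng

set_option autoImplicit false

/-!
LG2-A. The facts on one position (`OnePos2` in `LG2/Defs.lean`). Like LG-A (`LG/OnePos.lean`, proved
on main: adapt it), with the letters of `Lb`: `b0 = ∏_{i ≥ J'} A_i`, `bs j = md D j`, `mj = ∏_{i ≥ i1} A_i`,
`ks j = (1/J1) md D (i1 + j)`, `Reg D (i1 + J1) t` (so `1 - a_i ≥ 1/5` for `i < i1 + J1`).

* `E ks j = 0`, `E ks i ks j = 0`, `E b0 bs j = 0` (the range `j < J'` only has the factor `A_j - a_j`),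
  `E bs i bs j = 0`.
* `E (bs j)² ≤ 25 · 1.001 · ∏_{i>j} (P_i + tt_i) ≤ 100 ∏_{i > j} P_i`, the same for `ks j` with `J1⁻²`.
* `Plow J' ≤ E b0² ≤ ∏_{i≥J'} (P_i + tt_i) ≤ 2 Plow J'` (`b0² ≥ 1` if all these ranges are empty).
* words `W ≠ blank`: for `i ≥ i1 + J1` every letter other than the blank has the factor `A_i`; for
  `i < i1 + J1` crude bounds `16^N`, `E 16^N ≤ exp 15`, at most four factors `5`.
* the quadratic form: as in LG-A, item 5, with the ranges `i ≥ i1` only: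
  `4 ∑_{k≥i1} 25 tt_k ∏_{i≥i1, i≠k} (P_i + 25 tt_i) ≤ 2000 t1 Plow i1` (`t1 ≤ 1/1000`).
-/

open Finset

namespace Pool.Agent.Helper1.LG2

open Pool.Agent.Helper1.LG (Dt Ex Reg tt Ar cnt Em Ar_zero Ar_eq_zero Ar_nonneg Ar_le Ex_eq_Em Em_factor Em_one
  Em_total_le Em_tail Em_empty Em_mono Em_add Em_smul a_eq tt_pos)

section OnePosAux

variable {ι : Type} [Fintype ι] [DecidableEq ι]

/-- The mean of a function of the number of points of one range. -/
noncomputable def En (D : Dt ι) (i : ℕ) (f : ℕ → ℝ) : ℝ :=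
  Em (univ.filter (fun p => D.rg p = i)) D.w (fun p => 1 - D.w p) (fun T => f T.card)

theorem Ex_prodr (D : Dt ι) (hI : ∀ p, D.rg p < D.I) (g : ℕ → ℕ → ℝ) :
    Ex D.w (fun S => ∏ i ∈ range D.I, g i (cnt D.rg i S)) = ∏ i ∈ range D.I, En D i (g i) := by
  rw [Ex_eq_Em]
  exact Em_factor D.rg D.I hI D.w (fun p => 1 - D.w p) (fun i T => g i T.card)

theorem En_one (D : Dt ι) (i : ℕ) : En D i (fun _ => 1) = 1 := Em_one _ _

theorem Ex_prods (D : Dt ι) (hI : ∀ p, D.rg p < D.I) (s : Finset ℕ) (hs : s ⊆ range D.I)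
    (g : ℕ → ℕ → ℝ) :
    Ex D.w (fun S => ∏ i ∈ s, g i (cnt D.rg i S)) = ∏ i ∈ s, En D i (g i) := by
  have h := Ex_prodr D hI (fun i N => if i ∈ s then g i N else 1)
  have e1 : ∀ S : Finset ι, ∏ i ∈ range D.I, (if i ∈ s then g i (cnt D.rg i S) else 1) =
      ∏ i ∈ s, g i (cnt D.rg i S) := by
    intro S
    rw [Finset.prod_ite_mem, Finset.inter_eq_right.2 hs]
  have e2 : ∏ i ∈ range D.I, En D i (fun N => if i ∈ s then g i N else 1) =
      ∏ i ∈ s, En D i (g i) := by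
    have e3 : ∏ i ∈ s, En D i (g i) = ∏ i ∈ range D.I, (if i ∈ s then En D i (g i) else 1) := by
      rw [Finset.prod_ite_mem, Finset.inter_eq_right.2 hs]
    rw [e3]
    refine Finset.prod_congr rfl fun i _ => ?_
    by_cases hi : i ∈ s
    · simp only [if_pos hi]
    · simp only [if_neg hi]
      exact En_one D i
  simp only [e1, e2] at h
  exact h

theorem Ex_mono {D : Dt ι} {J : ℕ} {t : ℝ} (h : Reg D J t) {f g : Finset ι → ℝ}
    (hfg : ∀ S, f S ≤ g S) : Ex D.w f ≤ Ex D.w g := by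
  rw [Ex_eq_Em, Ex_eq_Em]
  exact Em_mono univ (fun p _ => h.w_nonneg p) (fun p _ => by have := h.w_le p; linarith)
    (fun T _ => hfg T)

theorem Ex_smul (w : ι → ℝ) (c : ℝ) (f : Finset ι → ℝ) :
    Ex w (fun S => c * f S) = c * Ex w f := by
  rw [Ex_eq_Em, Ex_eq_Em, Em_smul]

theorem Ex_add (w : ι → ℝ) (f g : Finset ι → ℝ) :
    Ex w (fun S => f S + g S) = Ex w f + Ex w g := by
  rw [Ex_eq_Em, Ex_eq_Em, Ex_eq_Em, Em_add]

theorem Ex_sum {κ : Type} (w : ι → ℝ) (s : Finset κ) (f : κ → Finset ι → ℝ) :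
    Ex w (fun S => ∑ k ∈ s, f k S) = ∑ k ∈ s, Ex w (f k) := by
  unfold Ex
  rw [Finset.sum_comm]
  exact Finset.sum_congr rfl fun S _ => by rw [Finset.mul_sum]

theorem Ex_abs_le {D : Dt ι} {J : ℕ} {t : ℝ} (h : Reg D J t) {f g : Finset ι → ℝ}
    (hfg : ∀ S, |f S| ≤ g S) : |Ex D.w f| ≤ Ex D.w g := by
  rw [abs_le]
  constructor
  · have h1 : Ex D.w (fun S => (-1) * f S) ≤ Ex D.w g :=
      Ex_mono h fun S => by
        have := (abs_le.1 (hfg S)).1
        linarith
    rw [Ex_smul] at h1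
    linarith
  · exact Ex_mono h fun S => (abs_le.1 (hfg S)).2

theorem En_mono {D : Dt ι} {J : ℕ} {t : ℝ} (h : Reg D J t) (i : ℕ) {f g : ℕ → ℝ}
    (hfg : ∀ N, f N ≤ g N) : En D i f ≤ En D i g :=
  Em_mono _ (fun p _ => h.w_nonneg p) (fun p _ => by have := h.w_le p; linarith)
    (fun T _ => hfg T.card)

theorem En_nonneg {D : Dt ι} {J : ℕ} {t : ℝ} (h : Reg D J t) (i : ℕ) {f : ℕ → ℝ}
    (hf : ∀ N, 0 ≤ f N) : 0 ≤ En D i f := by
  unfold En Em
  refine Finset.sum_nonneg fun T hT => ?_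
  refine mul_nonneg (mul_nonneg ?_ ?_) (hf _)
  · exact Finset.prod_nonneg fun p _ => h.w_nonneg p
  · exact Finset.prod_nonneg fun p _ => by have := h.w_le p; linarith

theorem En_smul (D : Dt ι) (i : ℕ) (c : ℝ) (f : ℕ → ℝ) :
    En D i (fun N => c * f N) = c * En D i f := Em_smul _ _ _ _ _

theorem En_add (D : Dt ι) (i : ℕ) (f g : ℕ → ℝ) :
    En D i (fun N => f N + g N) = En D i f + En D i g := Em_add _ _ _ _ _

theorem En_ind (D : Dt ι) (i : ℕ) : En D i (fun N => if N = 0 then 1 else 0) = D.P0 i := by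
  unfold En Dt.P0
  rw [← Em_empty _ D.w]
  simp only [Finset.card_eq_zero]

theorem En_Ar (D : Dt ι) (i : ℕ) : En D i (fun N => Ar (D.r i) N) = D.a i := (a_eq D i).symm

theorem En_le {D : Dt ι} {J : ℕ} {t : ℝ} (h : Reg D J t) (i : ℕ) {f : ℕ → ℝ} {u c z : ℝ}
    (hc : 0 ≤ c) (hz : 0 ≤ z) (hz' : z ≤ 64) (h0 : f 0 ≤ u)
    (h1 : ∀ N, 1 ≤ N → N ≤ D.r i → f N ≤ 0) (h2 : ∀ N, D.r i < N → f N ≤ c * z ^ N) :
    En D i f ≤ u * D.P0 i + c * tt (D.r i) := by
  have e : En D i (fun N => u * (if N = 0 then 1 else 0) + c * (if D.r i < N then z ^ N else 0)) =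
      u * D.P0 i + c * En D i (fun N => if D.r i < N then z ^ N else 0) := by
    rw [En_add, En_smul, En_smul, En_ind]
  have i1 : En D i f ≤ En D i (fun N => u * (if N = 0 then 1 else 0) +
      c * (if D.r i < N then z ^ N else 0)) := by
    refine En_mono h i fun N => ?_
    rcases Nat.eq_zero_or_pos N with rfl | hN
    · simpa using h0
    · rw [if_neg (by omega), mul_zero, zero_add]
      split_ifs with hr
      · exact h2 N hr
      · rw [mul_zero]
        exact h1 N hN (by omega)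
  have i2 : En D i (fun N => if D.r i < N then z ^ N else 0) ≤ tt (D.r i) := by
    refine le_trans (Em_tail _ D.w (fun p _ => ⟨h.w_nonneg p, by have := h.w_le p; linarith⟩)
      (h.la_le i) hz (D.r i)) ?_
    unfold tt
    have hf : (0 : ℝ) < ((D.r i + 1).factorial : ℝ) := by exact_mod_cast Nat.factorial_pos _
    refine div_le_div_of_nonneg_right ?_ hf.le
    exact mul_le_mul (pow_le_pow_left₀ hz hz' _) (Real.exp_le_exp.2 hz') (Real.exp_pos _).le
      (by positivity)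
  rw [e] at i1
  have := mul_le_mul_of_nonneg_left i2 hc
  linarith

theorem En_pow_le {D : Dt ι} {J : ℕ} {t : ℝ} (h : Reg D J t) (i : ℕ) :
    En D i (fun N => (16 : ℝ) ^ N) ≤ Real.exp 15 := by
  have := Em_total_le (univ.filter (fun p => D.rg p = i)) D.w (fun p _ => h.w_nonneg p)
    (h.la_le i) (z := 16) (by norm_num)
  norm_num at this
  exact this

theorem tt_half {x : ℝ} (hx : x ≤ 1 / 2) : Real.exp x ≤ 2 := by
  refine le_trans (Real.exp_le_exp.2 hx) ?_
  have h1 : Real.exp (1 / 2) ^ 2 = Real.exp 1 := by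
    rw [← Real.exp_nat_mul]
    norm_num
  have h2 := Real.exp_one_lt_d9
  have h3 := Real.exp_pos (1 / 2)
  nlinarith

/-- Products of `P0 + c tt`. -/
theorem prod_P_le {D : Dt ι} {J : ℕ} {t : ℝ} (h : Reg D J t) (s : Finset ℕ) {c : ℝ}
    (hc : 0 ≤ c) : ∏ i ∈ s, (D.P0 i + c * tt (D.r i)) ≤
      (∏ i ∈ s, D.P0 i) * Real.exp (4 * c * ∑ i ∈ s, tt (D.r i)) := by
  rw [Finset.mul_sum, Real.exp_sum, ← Finset.prod_mul_distrib]
  refine Finset.prod_le_prod (fun i _ => ?_) fun i _ => ?_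
  · have h1 := h.P0_ge i
    have h2 := tt_pos (D.r i)
    positivity
  · have h1 := h.P0_ge i
    have h2 := tt_pos (D.r i)
    have h3 := Real.add_one_le_exp (4 * c * tt (D.r i))
    have h4 : 0 ≤ c * tt (D.r i) := by positivity
    calc D.P0 i + c * tt (D.r i) ≤ D.P0 i * (4 * c * tt (D.r i) + 1) := by nlinarith
      _ ≤ _ := mul_le_mul_of_nonneg_left h3 (by linarith)

theorem sum_tt_le {D : Dt ι} {J : ℕ} {t : ℝ} (h : Reg D J t) {s : Finset ℕ}
    (hs : s ⊆ range D.I) : ∑ i ∈ s, tt (D.r i) ≤ 1 / 1000 := by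
  refine le_trans (Finset.sum_le_sum_of_subset_of_nonneg hs fun i _ _ => (tt_pos _).le) ?_
  exact le_trans h.tail h.t_le

theorem prod_P_le' {D : Dt ι} {J : ℕ} {t : ℝ} (h : Reg D J t) {s : Finset ℕ}
    (hs : s ⊆ range D.I) :
    ∏ i ∈ s, (1 * D.P0 i + 1 * tt (D.r i)) ≤ 2 * ∏ i ∈ s, D.P0 i := by
  simp only [one_mul]
  have h1 := prod_P_le h s (c := 1) zero_le_one
  simp only [one_mul, mul_one] at h1
  have h2 : Real.exp (4 * ∑ i ∈ s, tt (D.r i)) ≤ 2 := tt_half (by
    have := sum_tt_le h hs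
    linarith)
  have h3 : 0 ≤ ∏ i ∈ s, D.P0 i := Finset.prod_nonneg fun i _ => by
    have := h.P0_ge i
    linarith
  calc _ ≤ _ := h1
    _ ≤ (∏ i ∈ s, D.P0 i) * 2 := mul_le_mul_of_nonneg_left h2 h3
    _ = _ := mul_comm _ _

/-- The factor of the basic mode `j` at the range `i`. -/
noncomputable def gm (D : Dt ι) (j i N : ℕ) : ℝ :=
  if i < j then 1 else if i = j then (Ar (D.r j) N - D.a j) / (1 - D.a j) else Ar (D.r i) N

theorem prod_split_at {j I : ℕ} (hj : j < I) (f : ℕ → ℝ) :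
    ∏ i ∈ range I, f i = (∏ i ∈ range j, f i) * (f j * ∏ i ∈ Ioo j I, f i) := by
  rw [← Finset.prod_range_mul_prod_Ico f hj.le, Finset.prod_eq_prod_Ico_succ_bot hj]
  have : Ico (j + 1) I = Ioo j I := by
    ext i
    rw [Finset.mem_Ico, Finset.mem_Ioo]
    omega
  rw [this]

theorem md_eq (D : Dt ι) {j : ℕ} (hj : j < D.I) (S : Finset ι) :
    md D j S = ∏ i ∈ range D.I, gm D j i (cnt D.rg i S) := by
  rw [prod_split_at hj]
  have h1 : ∏ i ∈ range j, gm D j i (cnt D.rg i S) = 1 := by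
    refine Finset.prod_eq_one fun i hi => ?_
    unfold gm
    rw [if_pos (Finset.mem_range.1 hi)]
  have h2 : gm D j j (cnt D.rg j S) = (D.A j S - D.a j) / (1 - D.a j) := by
    unfold gm Dt.A
    rw [if_neg (lt_irrefl _), if_pos rfl]
  have h3 : ∏ i ∈ Ioo j D.I, gm D j i (cnt D.rg i S) = ∏ i ∈ Ioo j D.I, D.A i S := by
    refine Finset.prod_congr rfl fun i hi => ?_
    rw [Finset.mem_Ioo] at hi
    unfold gm Dt.A
    rw [if_neg (by omega), if_neg (by omega)]
  rw [h1, h2, h3, one_mul]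
  rfl

theorem En_gm_self {D : Dt ι} {J : ℕ} {t : ℝ} (h : Reg D J t) {j : ℕ} (hj : j < J) :
    En D j (fun N => gm D j j N) = 0 := by
  have h1 : (fun N => gm D j j N) = fun N => (1 / (1 - D.a j)) * (Ar (D.r j) N + (-D.a j) * 1) := by
    funext N
    unfold gm
    rw [if_neg (lt_irrefl _), if_pos rfl]
    ring
  rw [h1, En_smul, En_add, En_Ar, En_smul, En_one]
  ring

theorem Ex_md {D : Dt ι} {J : ℕ} {t : ℝ} (h : Reg D J t) {j : ℕ} (hj : j < J) :
    Ex D.w (md D j) = 0 := by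
  have hI : j < D.I := lt_of_lt_of_le hj h.J_le
  have e : md D j = fun S => ∏ i ∈ range D.I, gm D j i (cnt D.rg i S) := funext fun S => md_eq D hI S
  rw [e, Ex_prodr D h.rg_lt (fun i N => gm D j i N)]
  exact Finset.prod_eq_zero (Finset.mem_range.2 hI) (En_gm_self h hj)

theorem Ex_md_md_lt {D : Dt ι} {J : ℕ} {t : ℝ} (h : Reg D J t) {i j : ℕ} (hij : i < j)
    (hj : j < J) : Ex D.w (fun S => md D i S * md D j S) = 0 := by
  have hI : j < D.I := lt_of_lt_of_le hj h.J_le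
  have hI' : i < D.I := hij.trans hI
  have e : (fun S => md D i S * md D j S) = fun S => ∏ k ∈ range D.I,
      (fun k N => gm D i k N * gm D j k N) k (cnt D.rg k S) := by
    funext S
    rw [md_eq D hI, md_eq D hI', ← Finset.prod_mul_distrib]
  rw [e]
  refine (Ex_prodr D h.rg_lt (fun k N => gm D i k N * gm D j k N)).trans ?_
  refine Finset.prod_eq_zero (Finset.mem_range.2 hI') ?_
  have e2 : (fun N => gm D i i N * gm D j i N) = fun N => gm D i i N := by
    funext N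
    have : gm D j i N = 1 := by
      unfold gm
      rw [if_pos hij]
    rw [this, mul_one]
  show En D i (fun N => gm D i i N * gm D j i N) = 0
  rw [e2]
  exact En_gm_self h (hij.trans hj)

theorem Ex_md_md {D : Dt ι} {J : ℕ} {t : ℝ} (h : Reg D J t) {i j : ℕ} (hij : i ≠ j)
    (hi : i < J) (hj : j < J) : Ex D.w (fun S => md D i S * md D j S) = 0 := by
  rcases Nat.lt_or_ge i j with hlt | hge
  · exact Ex_md_md_lt h hlt hj
  · have h1 := Ex_md_md_lt h (lt_of_le_of_ne hge (Ne.symm hij)) hi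
    rw [← h1]
    congr 1
    funext S
    rw [mul_comm]

theorem prod_Ico_A (D : Dt ι) {j : ℕ} (hj : j ≤ D.I) (S : Finset ι) :
    ∏ i ∈ Ico j D.I, D.A i S =
      ∏ i ∈ range D.I, (if i < j then 1 else Ar (D.r i) (cnt D.rg i S)) := by
  have h1 : ∏ i ∈ range j, (if i < j then 1 else Ar (D.r i) (cnt D.rg i S)) = 1 := by
    refine Finset.prod_eq_one fun i hi => ?_
    rw [if_pos (Finset.mem_range.1 hi)]
  rw [← Finset.prod_range_mul_prod_Ico (fun i => if i < j then 1 else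
    Ar (D.r i) (cnt D.rg i S)) hj, h1, one_mul]
  refine Finset.prod_congr rfl fun i hi => ?_
  rw [Finset.mem_Ico] at hi
  rw [if_neg (by omega)]
  rfl

theorem Ex_b0_md {D : Dt ι} {J : ℕ} {t : ℝ} (h : Reg D J t) {j J' : ℕ} (hj : j < J')
    (hJ : J' ≤ J) : Ex D.w (fun S => (∏ i ∈ Ico J' D.I, D.A i S) * md D j S) = 0 := by
  have hI : j < D.I := lt_of_lt_of_le (lt_of_lt_of_le hj hJ) h.J_le
  have hJI : J' ≤ D.I := hJ.trans h.J_le
  have e : (fun S => (∏ i ∈ Ico J' D.I, D.A i S) * md D j S) = fun S => ∏ k ∈ range D.I,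
      (fun k N => (if k < J' then 1 else Ar (D.r k) N) * gm D j k N) k (cnt D.rg k S) := by
    funext S
    rw [md_eq D hI, Finset.prod_mul_distrib, prod_Ico_A D hJI]
  rw [e]
  refine (Ex_prodr D h.rg_lt (fun k N => (if k < J' then 1 else Ar (D.r k) N) *
    gm D j k N)).trans ?_
  refine Finset.prod_eq_zero (Finset.mem_range.2 hI) ?_
  have e2 : (fun N => (if j < J' then 1 else Ar (D.r j) N) * gm D j j N) = fun N => gm D j j N := by
    funext N
    rw [if_pos hj, one_mul]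
  show En D j (fun N => (if j < J' then 1 else Ar (D.r j) N) * gm D j j N) = 0
  rw [e2]
  exact En_gm_self h (lt_of_lt_of_le hj hJ)

theorem En_A2_le {D : Dt ι} {J : ℕ} {t : ℝ} (h : Reg D J t) (i : ℕ) :
    En D i (fun N => Ar (D.r i) N ^ 2) ≤ 1 * D.P0 i + 1 * tt (D.r i) := by
  refine En_le h i (z := 4) zero_le_one (by norm_num) (by norm_num) ?_ ?_ ?_
  · show Ar (D.r i) 0 ^ 2 ≤ 1
    rw [Ar_zero]
    norm_num
  · intro N h1 h2
    show Ar (D.r i) N ^ 2 ≤ 0
    rw [Ar_eq_zero h1 h2]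
    norm_num
  · intro N _
    show Ar (D.r i) N ^ 2 ≤ 1 * 4 ^ N
    have := pow_le_pow_left₀ (Ar_nonneg (h.even i) N) (Ar_le (h.even i) N) 2
    calc _ ≤ ((2 : ℝ) ^ N) ^ 2 := this
      _ = 1 * 4 ^ N := by rw [← pow_mul, mul_comm N 2, pow_mul]; norm_num

theorem P0_le_En_A2 {D : Dt ι} {J : ℕ} {t : ℝ} (h : Reg D J t) (i : ℕ) :
    D.P0 i ≤ En D i (fun N => Ar (D.r i) N ^ 2) := by
  rw [← En_ind]
  refine En_mono h i fun N => ?_
  split_ifs with hN
  · subst hN
    rw [Ar_zero]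
    norm_num
  · positivity

theorem En_gm2_self {D : Dt ι} {J : ℕ} {t : ℝ} (h : Reg D J t) {j : ℕ} (hj : j < J) :
    En D j (fun N => gm D j j N ^ 2) ≤ 50 := by
  have h0 := h.one_sub_a hj
  have hI : j < D.I := lt_of_lt_of_le hj h.J_le
  have h1 : (fun N => gm D j j N ^ 2) = fun N => (1 / (1 - D.a j)) ^ 2 *
      (Ar (D.r j) N ^ 2 + ((-2 * D.a j) * Ar (D.r j) N + (D.a j) ^ 2 * 1)) := by
    funext N
    unfold gm
    rw [if_neg (lt_irrefl _), if_pos rfl]
    ring
  rw [h1, En_smul, En_add, En_add, En_smul, En_smul, En_Ar, En_one]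
  have h2 := En_A2_le h j
  have h3 := h.P0_le_one j
  have h4 := h.tt_le hI
  have h5 : En D j (fun N => Ar (D.r j) N ^ 2) + ((-2 * D.a j) * D.a j + D.a j ^ 2 * 1) ≤ 2 := by
    nlinarith [sq_nonneg (D.a j)]
  have h6 : (1 / (1 - D.a j)) ^ 2 ≤ 25 := by
    have h7 : 1 / (1 - D.a j) ≤ 5 := by
      rw [div_le_iff₀ (by linarith)]
      linarith
    have h8 : 0 ≤ 1 / (1 - D.a j) := by
      have : 0 < 1 - D.a j := by linarith
      positivity
    nlinarith
  calc _ ≤ (1 / (1 - D.a j)) ^ 2 * 2 := mul_le_mul_of_nonneg_left h5 (by positivity)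
    _ ≤ 25 * 2 := by linarith
    _ = 50 := by norm_num

theorem Ex_md_sq {D : Dt ι} {J : ℕ} {t : ℝ} (h : Reg D J t) {j : ℕ} (hj : j < J) :
    Ex D.w (fun S => md D j S ^ 2) ≤ 100 * ∏ i ∈ Ioo j D.I, D.P0 i := by
  have hI : j < D.I := lt_of_lt_of_le hj h.J_le
  have e : (fun S => md D j S ^ 2) = fun S => ∏ k ∈ range D.I,
      (fun k N => gm D j k N ^ 2) k (cnt D.rg k S) := by
    funext S
    rw [md_eq D hI, ← Finset.prod_pow]
  rw [e]
  refine le_trans (le_of_eq (Ex_prodr D h.rg_lt (fun k N => gm D j k N ^ 2))) ?_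
  rw [prod_split_at hI]
  have h1 : ∏ i ∈ range j, En D i (fun N => gm D j i N ^ 2) = 1 := by
    refine Finset.prod_eq_one fun i hi => ?_
    have : (fun N => gm D j i N ^ 2) = fun _ => 1 := by
      funext N
      unfold gm
      rw [if_pos (Finset.mem_range.1 hi), one_pow]
    rw [this, En_one]
  have h2 : ∏ i ∈ Ioo j D.I, En D i (fun N => gm D j i N ^ 2) ≤ 2 * ∏ i ∈ Ioo j D.I, D.P0 i := by
    refine le_trans ?_ (prod_P_le' h (fun i hi => ?_))
    · refine Finset.prod_le_prod (fun i _ => En_nonneg h i fun N => by positivity) fun i hi => ?_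
      rw [Finset.mem_Ioo] at hi
      have : (fun N => gm D j i N ^ 2) = fun N => Ar (D.r i) N ^ 2 := by
        funext N
        unfold gm
        rw [if_neg (by omega), if_neg (by omega)]
      rw [this]
      exact En_A2_le h i
    · rw [Finset.mem_Ioo] at hi
      exact Finset.mem_range.2 hi.2
  have h3 := En_gm2_self h hj
  have h4 : 0 ≤ ∏ i ∈ Ioo j D.I, En D i (fun N => gm D j i N ^ 2) :=
    Finset.prod_nonneg fun i _ => En_nonneg h i fun N => by positivity
  show (∏ i ∈ range j, En D i (fun N => gm D j i N ^ 2)) * (En D j (fun N => gm D j j N ^ 2) *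
    ∏ i ∈ Ioo j D.I, En D i (fun N => gm D j i N ^ 2)) ≤ _
  rw [h1, one_mul]
  calc _ ≤ 50 * ∏ i ∈ Ioo j D.I, En D i (fun N => gm D j i N ^ 2) :=
        mul_le_mul_of_nonneg_right h3 h4
    _ ≤ 50 * (2 * ∏ i ∈ Ioo j D.I, D.P0 i) := mul_le_mul_of_nonneg_left h2 (by norm_num)
    _ = _ := by ring

theorem Ex_b0_sq {D : Dt ι} {J : ℕ} {t : ℝ} (h : Reg D J t) {J' : ℕ} :
    D.Plow J' ≤ Ex D.w (fun S => (∏ i ∈ Ico J' D.I, D.A i S) ^ 2) ∧
      Ex D.w (fun S => (∏ i ∈ Ico J' D.I, D.A i S) ^ 2) ≤ 2 * D.Plow J' := by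
  have hs : Ico J' D.I ⊆ range D.I := fun i hi => by
    rw [Finset.mem_Ico] at hi
    exact Finset.mem_range.2 hi.2
  have e : (fun S => (∏ i ∈ Ico J' D.I, D.A i S) ^ 2) = fun S => ∏ k ∈ Ico J' D.I,
      (fun k N => Ar (D.r k) N ^ 2) k (cnt D.rg k S) := by
    funext S
    rw [← Finset.prod_pow]
    rfl
  have e' : Ex D.w (fun S => (∏ i ∈ Ico J' D.I, D.A i S) ^ 2) =
      ∏ k ∈ Ico J' D.I, En D k (fun N => Ar (D.r k) N ^ 2) := by
    rw [e]
    exact Ex_prods D h.rg_lt _ hs (fun k N => Ar (D.r k) N ^ 2)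
  rw [e']
  constructor
  · unfold Dt.Plow
    refine Finset.prod_le_prod (fun i _ => by have := h.P0_ge i; linarith) fun i _ => ?_
    exact P0_le_En_A2 h i
  · refine le_trans ?_ (prod_P_le' h hs)
    exact Finset.prod_le_prod (fun i _ => En_nonneg h i fun N => by positivity)
      fun i _ => En_A2_le h i

/-- The factor of a letter at the range `i`. -/
noncomputable def gl {J' J1 : ℕ} (i1 : ℕ) (D : Dt ι) : Lb J' J1 → ℕ → ℕ → ℝ
  | .one, _, _ => 1
  | .b0, i, N => if i < J' then 1 else Ar (D.r i) N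
  | .bs j, i, N => gm D j i N
  | .mj, i, N => if i < i1 then 1 else Ar (D.r i) N
  | .ks j, i, N => gm D (i1 + j) i N

theorem abs_gm_le {D : Dt ι} {J : ℕ} {t : ℝ} (h : Reg D J t) {j : ℕ} (hj : j < J) (i N : ℕ) :
    |gm D j i N| ≤ (if i = j then 5 else 1) * 2 ^ N := by
  have hp : (1 : ℝ) ≤ 2 ^ N := one_le_pow₀ (by norm_num)
  unfold gm
  split_ifs with h1 h2 h2
  · omega
  · rw [abs_one, one_mul]
    exact hp
  · have h3 := h.one_sub_a hj
    have h4 := (h.a_le j (lt_of_lt_of_le hj h.J_le)).1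
    have h5 := Ar_nonneg (h.even j) N
    have h6 := Ar_le (h.even j) N
    rw [abs_div, abs_of_pos (show 0 < 1 - D.a j by linarith), div_le_iff₀ (by linarith)]
    have h7 : |Ar (D.r j) N - D.a j| ≤ 2 ^ N := by
      rw [abs_le]
      constructor <;> linarith
    nlinarith
  · rw [abs_of_nonneg (Ar_nonneg (h.even i) N), one_mul]
    exact Ar_le (h.even i) N

theorem prod_gm_le {D : Dt ι} {J : ℕ} {t : ℝ} (h : Reg D J t) {j : ℕ} (hj : j < J)
    (s : Finset ℕ) (N : ℕ → ℕ) :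
    ∏ i ∈ s, |gm D j i (N i)| ≤ 5 * ∏ i ∈ s, (2 : ℝ) ^ N i := by
  calc _ ≤ ∏ i ∈ s, ((if i = j then (5 : ℝ) else 1) * 2 ^ N i) :=
        Finset.prod_le_prod (fun i _ => abs_nonneg _) fun i _ => abs_gm_le h hj i (N i)
    _ = (if j ∈ s then 5 else 1) * ∏ i ∈ s, (2 : ℝ) ^ N i := by
        rw [Finset.prod_mul_distrib, Finset.prod_ite_eq']
    _ ≤ _ := by
        refine mul_le_mul_of_nonneg_right ?_ (by positivity)
        split_ifs <;> norm_num

theorem prod_ind_le {D : Dt ι} {J : ℕ} {t : ℝ} (h : Reg D J t) (j : ℕ)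
    (s : Finset ℕ) (N : ℕ → ℕ) :
    ∏ i ∈ s, |(if i < j then 1 else Ar (D.r i) (N i))| ≤ 5 * ∏ i ∈ s, (2 : ℝ) ^ N i := by
  have h0 : 0 ≤ ∏ i ∈ s, (2 : ℝ) ^ N i := by positivity
  calc _ ≤ ∏ i ∈ s, (2 : ℝ) ^ N i := by
        refine Finset.prod_le_prod (fun i _ => abs_nonneg _) fun i _ => ?_
        split_ifs
        · rw [abs_one]
          exact one_le_pow₀ (by norm_num)
        · rw [abs_of_nonneg (Ar_nonneg (h.even i) _)]
          exact Ar_le (h.even i) _
    _ ≤ _ := by linarith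

theorem letter {D : Dt ι} {J' J1 i1 : ℕ} {t : ℝ} (h : Reg D (i1 + J1) t) (hJ : J' ≤ i1)
    (hJ1 : 0 < J1) (l : Lb J' J1) (S : Finset ι) :
    |Fb i1 D l S| ≤ 5 * (∏ i ∈ range (i1 + J1), (2 : ℝ) ^ cnt D.rg i S) *
      ∏ i ∈ Ico (i1 + J1) D.I, |gl i1 D l i (cnt D.rg i S)| := by
  have hI := h.J_le
  have key : |Fb i1 D l S| ≤ ∏ i ∈ range D.I, |gl i1 D l i (cnt D.rg i S)| := by
    rw [← Finset.abs_prod]
    rcases l with _ | _ | j | _ | j
    · simp [Fb, gl]
    · have := prod_Ico_A D (show J' ≤ D.I by omega) S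
      show |∏ i ∈ Ico J' D.I, D.A i S| ≤ _
      rw [this]
      exact le_refl _
    · show |md D j S| ≤ _
      rw [md_eq D (show (j : ℕ) < D.I by have := j.2; omega)]
      exact le_refl _
    · have := prod_Ico_A D (show i1 ≤ D.I by omega) S
      show |∏ i ∈ Ico i1 D.I, D.A i S| ≤ _
      rw [this]
      exact le_refl _
    · show |(1 / (J1 : ℝ)) * md D (i1 + j) S| ≤ _
      rw [md_eq D (show i1 + (j : ℕ) < D.I by have := j.2; omega), abs_mul]
      have h1 : |1 / (J1 : ℝ)| ≤ 1 := by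
        have h2 : (1 : ℝ) ≤ J1 := by exact_mod_cast hJ1
        rw [abs_of_nonneg (by positivity), div_le_one (by linarith)]
        exact h2
      calc _ ≤ 1 * |∏ i ∈ range D.I, gm D (i1 + j) i (cnt D.rg i S)| :=
            mul_le_mul_of_nonneg_right h1 (abs_nonneg _)
        _ = _ := by
            rw [one_mul]
            rfl
  refine le_trans key ?_
  rw [← Finset.prod_range_mul_prod_Ico _ hI]
  refine mul_le_mul_of_nonneg_right ?_ (Finset.prod_nonneg fun i _ => abs_nonneg _)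
  rcases l with _ | _ | j | _ | j
  · have h0 : ∏ i ∈ range (i1 + J1), (1 : ℝ) ≤ ∏ i ∈ range (i1 + J1), (2 : ℝ) ^ cnt D.rg i S :=
      Finset.prod_le_prod (fun i _ => zero_le_one) fun i _ => one_le_pow₀ (by norm_num)
    show ∏ i ∈ range (i1 + J1), |(1 : ℝ)| ≤ _
    rw [abs_one]
    have h1 : 0 ≤ ∏ i ∈ range (i1 + J1), (2 : ℝ) ^ cnt D.rg i S := by positivity
    linarith
  · exact prod_ind_le h J' _ (fun i => cnt D.rg i S)
  · exact prod_gm_le h (show (j : ℕ) < i1 + J1 by have := j.2; omega) _ (fun i => cnt D.rg i S)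
  · exact prod_ind_le h i1 _ (fun i => cnt D.rg i S)
  · exact prod_gm_le h (show i1 + (j : ℕ) < i1 + J1 by have := j.2; omega) _
      (fun i => cnt D.rg i S)

theorem gl_high {D : Dt ι} {J' J1 i1 : ℕ} (hJ : J' ≤ i1) {l : Lb J' J1} (hl : l ≠ .one)
    {i : ℕ} (hi : i1 + J1 ≤ i) (N : ℕ) : gl i1 D l i N = Ar (D.r i) N := by
  rcases l with _ | _ | j | _ | j
  · exact absurd rfl hl
  · show (if i < J' then 1 else Ar (D.r i) N) = _
    rw [if_neg (by omega)]
  · show gm D j i N = _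
    have := j.2
    unfold gm
    rw [if_neg (by omega), if_neg (by omega)]
  · show (if i < i1 then 1 else Ar (D.r i) N) = _
    rw [if_neg (by omega)]
  · show gm D (i1 + j) i N = _
    have := j.2
    unfold gm
    rw [if_neg (by omega), if_neg (by omega)]

theorem abs_gl_high {D : Dt ι} {J' J1 i1 : ℕ} {t : ℝ} (h : Reg D (i1 + J1) t) (hJ : J' ≤ i1)
    (l : Lb J' J1) {i : ℕ} (hi : i1 + J1 ≤ i) (N : ℕ) : |gl i1 D l i N| ≤ 2 ^ N := by
  by_cases hl : l = .one
  · subst hl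
    show |(1 : ℝ)| ≤ _
    rw [abs_one]
    exact one_le_pow₀ (by norm_num)
  · rw [gl_high hJ hl hi, abs_of_nonneg (Ar_nonneg (h.even i) N)]
    exact Ar_le (h.even i) N

/-- The bound for a word at a high range. -/
noncomputable def g4 (D : Dt ι) (i N : ℕ) : ℝ :=
  if N = 0 then 1 else if D.r i < N then 16 ^ N else 0

theorem word_high {D : Dt ι} {J' J1 i1 : ℕ} {t : ℝ} (h : Reg D (i1 + J1) t) (hJ : J' ≤ i1)
    (W : Fin 4 → Lb J' J1) (hW : W ≠ blank J' J1) {i : ℕ} (hi : i1 + J1 ≤ i) (N : ℕ) :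
    ∏ l, |gl i1 D (W l) i N| ≤ g4 D i N := by
  have hb : ∏ l, |gl i1 D (W l) i N| ≤ 16 ^ N := by
    calc _ ≤ ∏ _l : Fin 4, (2 : ℝ) ^ N :=
          Finset.prod_le_prod (fun l _ => abs_nonneg _) fun l _ => abs_gl_high h hJ (W l) hi N
      _ = 16 ^ N := by
          rw [Finset.prod_const, Finset.card_univ, Fintype.card_fin, ← pow_mul, mul_comm, pow_mul]
          norm_num
  unfold g4
  split_ifs with h1 h2
  · subst h1
    simpa using hb
  · exact hb
  · obtain ⟨l, hl⟩ : ∃ l, W l ≠ .one := by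
      by_contra hc
      push Not at hc
      exact hW (funext hc)
    refine le_of_eq (Finset.prod_eq_zero (Finset.mem_univ l) ?_)
    rw [gl_high hJ hl hi, Ar_eq_zero (by omega) (by omega), abs_zero]

theorem Ex_word {D : Dt ι} {J' J1 i1 : ℕ} {t : ℝ} (h : Reg D (i1 + J1) t) (hJ : J' ≤ i1)
    (hJ1 : 0 < J1) (W : Fin 4 → Lb J' J1) (hW : W ≠ blank J' J1) :
    |Ex D.w (wb i1 D W)| ≤ 10 ^ 5 * Real.exp (15 * ((i1 : ℝ) + J1)) * D.Plow (i1 + J1) := by
  have hI := h.J_le
  have hP : 0 ≤ D.Plow (i1 + J1) := Finset.prod_nonneg fun i _ => by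
    have := h.P0_ge i
    linarith
  have pt : ∀ S, |wb i1 D W S| ≤ 625 * ∏ i ∈ range D.I,
      (fun i N => if i < i1 + J1 then (16 : ℝ) ^ N else g4 D i N) i (cnt D.rg i S) := by
    intro S
    unfold wb
    rw [Finset.abs_prod]
    calc ∏ l, |Fb i1 D (W l) S| ≤ ∏ l, (5 * (∏ i ∈ range (i1 + J1), (2 : ℝ) ^ cnt D.rg i S) *
          ∏ i ∈ Ico (i1 + J1) D.I, |gl i1 D (W l) i (cnt D.rg i S)|) :=
          Finset.prod_le_prod (fun l _ => abs_nonneg _) fun l _ => letter h hJ hJ1 (W l) S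
      _ = 625 * ((∏ i ∈ range (i1 + J1), (16 : ℝ) ^ cnt D.rg i S) *
          ∏ i ∈ Ico (i1 + J1) D.I, ∏ l, |gl i1 D (W l) i (cnt D.rg i S)|) := by
          rw [Finset.prod_mul_distrib, Finset.prod_const, Finset.card_univ, Fintype.card_fin,
            Finset.prod_comm, mul_pow, ← Finset.prod_pow]
          have e : ∀ i, ((2 : ℝ) ^ cnt D.rg i S) ^ 4 = 16 ^ cnt D.rg i S := by
            intro i
            rw [← pow_mul, mul_comm, pow_mul]
            norm_num
          simp only [e]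
          norm_num
          ring
      _ ≤ 625 * ((∏ i ∈ range (i1 + J1), (16 : ℝ) ^ cnt D.rg i S) *
          ∏ i ∈ Ico (i1 + J1) D.I, g4 D i (cnt D.rg i S)) := by
          refine mul_le_mul_of_nonneg_left ?_ (by norm_num)
          refine mul_le_mul_of_nonneg_left ?_ (by positivity)
          refine Finset.prod_le_prod (fun i _ => Finset.prod_nonneg fun l _ => abs_nonneg _)
            fun i hi => ?_
          exact word_high h hJ W hW (Finset.mem_Ico.1 hi).1 _
      _ = _ := by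
          rw [← Finset.prod_range_mul_prod_Ico _ hI]
          congr 2
          · refine Finset.prod_congr rfl fun i hi => ?_
            show _ = if i < i1 + J1 then (16 : ℝ) ^ cnt D.rg i S else g4 D i (cnt D.rg i S)
            rw [if_pos (Finset.mem_range.1 hi)]
          · refine Finset.prod_congr rfl fun i hi => ?_
            show _ = if i < i1 + J1 then (16 : ℝ) ^ cnt D.rg i S else g4 D i (cnt D.rg i S)
            rw [if_neg (by have := (Finset.mem_Ico.1 hi).1; omega)]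
  have h1 := Ex_abs_le h pt
  have h1' := Ex_prodr D h.rg_lt (fun i N => if i < i1 + J1 then (16 : ℝ) ^ N else g4 D i N)
  rw [Ex_smul] at h1
  replace h1 := le_trans h1 (le_of_eq (congrArg (fun z => 625 * z) h1'))
  rw [← Finset.prod_range_mul_prod_Ico _ hI] at h1
  have h2 : ∏ i ∈ range (i1 + J1), En D i ((fun i N => if i < i1 + J1 then (16 : ℝ) ^ N
      else g4 D i N) i) ≤ Real.exp (15 * ((i1 : ℝ) + J1)) := by
    calc _ ≤ ∏ _i ∈ range (i1 + J1), Real.exp 15 := by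
          refine Finset.prod_le_prod (fun i _ => En_nonneg h i fun N => ?_) fun i hi => ?_
          · show (0 : ℝ) ≤ if i < i1 + J1 then (16 : ℝ) ^ N else g4 D i N
            unfold g4
            split_ifs <;> positivity
          · have : ((fun i N => if i < i1 + J1 then (16 : ℝ) ^ N else g4 D i N) i) =
                fun N => (16 : ℝ) ^ N := by
              funext N
              show (if i < i1 + J1 then (16 : ℝ) ^ N else g4 D i N) = _
              rw [if_pos (Finset.mem_range.1 hi)]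
            rw [this]
            exact En_pow_le h i
      _ = _ := by
          rw [Finset.prod_const, Finset.card_range, ← Real.exp_nat_mul]
          congr 1
          push_cast
          ring
  have hs : Ico (i1 + J1) D.I ⊆ range D.I := fun i hi =>
    Finset.mem_range.2 (Finset.mem_Ico.1 hi).2
  have h3 : ∏ i ∈ Ico (i1 + J1) D.I, En D i ((fun i N => if i < i1 + J1 then (16 : ℝ) ^ N
      else g4 D i N) i) ≤ 2 * D.Plow (i1 + J1) := by
    refine le_trans ?_ (prod_P_le' h hs)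
    refine Finset.prod_le_prod (fun i _ => En_nonneg h i fun N => ?_) fun i hi => ?_
    · show (0 : ℝ) ≤ if i < i1 + J1 then (16 : ℝ) ^ N else g4 D i N
      unfold g4
      split_ifs <;> positivity
    · have hi' := (Finset.mem_Ico.1 hi).1
      have : ((fun i N => if i < i1 + J1 then (16 : ℝ) ^ N else g4 D i N) i) =
          fun N => g4 D i N := by
        funext N
        show (if i < i1 + J1 then (16 : ℝ) ^ N else g4 D i N) = _
        rw [if_neg (by omega)]
      rw [this]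
      refine En_le h i (z := 16) zero_le_one (by norm_num) (by norm_num) ?_ ?_ ?_
      · show g4 D i 0 ≤ 1
        unfold g4
        rw [if_pos rfl]
      · intro N hN hN'
        show g4 D i N ≤ 0
        unfold g4
        rw [if_neg (by omega), if_neg (by omega)]
      · intro N hN
        show g4 D i N ≤ 1 * 16 ^ N
        unfold g4
        rw [if_neg (by omega), if_pos hN, one_mul]
  have h4 : 0 ≤ ∏ i ∈ Ico (i1 + J1) D.I, En D i ((fun i N => if i < i1 + J1 then (16 : ℝ) ^ N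
      else g4 D i N) i) := by
    refine Finset.prod_nonneg fun i _ => En_nonneg h i fun N => ?_
    show (0 : ℝ) ≤ if i < i1 + J1 then (16 : ℝ) ^ N else g4 D i N
    unfold g4
    split_ifs <;> positivity
  have h5 := mul_le_mul h2 h3 h4 (Real.exp_pos _).le
  have h6 : 0 ≤ Real.exp (15 * ((i1 : ℝ) + J1)) * D.Plow (i1 + J1) :=
    mul_nonneg (Real.exp_pos _).le hP
  calc _ ≤ _ := h1
    _ ≤ 625 * (Real.exp (15 * ((i1 : ℝ) + J1)) * (2 * D.Plow (i1 + J1))) :=
        mul_le_mul_of_nonneg_left h5 (by norm_num)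
    _ ≤ _ := by
        have : 0 ≤ 98750 * (Real.exp (15 * ((i1 : ℝ) + J1)) * D.Plow (i1 + J1)) := by positivity
        norm_num at this ⊢
        linarith

/-- The bound for the quadratic form at the range `i`. -/
noncomputable def gB (D : Dt ι) (i N : ℕ) : ℝ :=
  if N = 0 then 1 else if D.r i < N then 25 * 8 ^ N else 0

theorem gB_nonneg (D : Dt ι) (i N : ℕ) : 0 ≤ gB D i N := by
  unfold gB
  split_ifs <;> positivity

/-- The same with a factor for the event that the range `k` is not empty. -/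
noncomputable def gBk (D : Dt ι) (k i N : ℕ) : ℝ :=
  if i = k then (if N = 0 then 0 else gB D i N) else gB D i N

theorem gBk_nonneg (D : Dt ι) (k i N : ℕ) : 0 ≤ gBk D k i N := by
  unfold gBk
  split_ifs
  · exact le_refl 0
  · exact gB_nonneg D i N
  · exact gB_nonneg D i N

theorem En_gB_le {D : Dt ι} {J : ℕ} {t : ℝ} (h : Reg D J t) (i : ℕ) :
    En D i (fun N => gB D i N) ≤ D.P0 i + 25 * tt (D.r i) := by
  have := En_le h i (f := fun N => gB D i N) (u := 1) (c := 25) (z := 8) (by norm_num)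
    (by norm_num) (by norm_num) ?_ ?_ ?_
  · linarith
  · show gB D i 0 ≤ 1
    unfold gB
    rw [if_pos rfl]
  · intro N hN hN'
    show gB D i N ≤ 0
    unfold gB
    rw [if_neg (by omega), if_neg (by omega)]
  · intro N hN
    show gB D i N ≤ 25 * 8 ^ N
    unfold gB
    rw [if_neg (by omega), if_pos hN]

theorem En_gBk_le {D : Dt ι} {J : ℕ} {t : ℝ} (h : Reg D J t) (k : ℕ) :
    En D k (fun N => gBk D k k N) ≤ 25 * tt (D.r k) := by
  have := En_le h k (f := fun N => gBk D k k N) (u := 0) (c := 25) (z := 8) (by norm_num)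
    (by norm_num) (by norm_num) ?_ ?_ ?_
  · linarith
  · show gBk D k k 0 ≤ 0
    unfold gBk
    rw [if_pos rfl, if_pos rfl]
  · intro N hN hN'
    show gBk D k k N ≤ 0
    unfold gBk gB
    rw [if_pos rfl, if_neg (by omega), if_neg (by omega), if_neg (by omega)]
  · intro N hN
    show gBk D k k N ≤ 25 * 8 ^ N
    unfold gBk gB
    rw [if_pos rfl, if_neg (by omega), if_neg (by omega), if_pos hN]

theorem Ar_le_gB {D : Dt ι} {J : ℕ} {t : ℝ} (h : Reg D J t) (i N : ℕ) :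
    Ar (D.r i) N ≤ gB D i N := by
  unfold gB
  split_ifs with h1 h2
  · subst h1
    rw [Ar_zero]
  · refine le_trans (Ar_le (h.even i) N) ?_
    have h3 : (2 : ℝ) ^ N ≤ 8 ^ N := pow_le_pow_left₀ (by norm_num) (by norm_num) N
    have h4 : (0 : ℝ) < 8 ^ N := by positivity
    linarith
  · rw [Ar_eq_zero (by omega) (by omega)]

theorem Ar_gm_le_gB {D : Dt ι} {J : ℕ} {t : ℝ} (h : Reg D J t) {j : ℕ} (hj : j < J) (i N : ℕ) :
    Ar (D.r i) N * gm D j i N ^ 2 ≤ gB D i N := by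
  unfold gB
  split_ifs with h1 h2
  · subst h1
    rw [Ar_zero, one_mul]
    have : gm D j i 0 = 1 := by
      unfold gm
      split_ifs with h3 h4
      · rfl
      · rw [Ar_zero]
        have := h.one_sub_a hj
        exact div_self (by linarith)
      · exact Ar_zero _
    rw [this, one_pow]
  · have h3 := Ar_nonneg (h.even i) N
    have h4 := Ar_le (h.even i) N
    have h5 : |gm D j i N| ≤ 5 * 2 ^ N := by
      refine le_trans (abs_gm_le h hj i N) ?_
      refine mul_le_mul_of_nonneg_right ?_ (by positivity)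
      split_ifs <;> norm_num
    have h6 : gm D j i N ^ 2 ≤ (5 * 2 ^ N) ^ 2 := by
      rw [← sq_abs]
      exact pow_le_pow_left₀ (abs_nonneg _) h5 2
    calc _ ≤ 2 ^ N * (5 * 2 ^ N) ^ 2 := mul_le_mul h4 h6 (by positivity) (by positivity)
      _ = 25 * ((2 * 2 * 2) ^ N) := by
          rw [mul_pow (2 * 2 : ℝ) 2 N, mul_pow (2 : ℝ) 2 N]
          ring
      _ = 25 * 8 ^ N := by norm_num
  · rw [Ar_eq_zero (by omega) (by omega), zero_mul]

theorem md_Ico (D : Dt ι) {i1 j : ℕ} (hi : i1 ≤ j) (hj : j < D.I) (S : Finset ι) :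
    md D j S = ∏ i ∈ Ico i1 D.I, gm D j i (cnt D.rg i S) := by
  rw [md_eq D hj, ← Finset.prod_range_mul_prod_Ico _ (hi.trans hj.le), Finset.prod_eq_one, one_mul]
  intro i hi'
  have := Finset.mem_range.1 hi'
  unfold gm
  rw [if_pos (by omega)]

theorem quad_pt {D : Dt ι} {J' J1 i1 : ℕ} {t : ℝ} (h : Reg D (i1 + J1) t)
    (hJ1 : 0 < J1) (s : Finset (Fin J1)) (S : Finset ι) :
    Fb i1 D (.mj : Lb J' J1) S * (1 - ∑ j ∈ s, Fb i1 D (.ks j : Lb J' J1) S) ^ 2 ≤
      ((J1 : ℝ) - s.card) / J1 * ∏ i ∈ Ico i1 D.I, (if cnt D.rg i S = 0 then (1 : ℝ) else 0) +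
      4 * ∑ k ∈ Ico i1 D.I, ∏ i ∈ Ico i1 D.I, gBk D k i (cnt D.rg i S) := by
  have hI := h.J_le
  have hJ1' : (0 : ℝ) < J1 := by exact_mod_cast hJ1
  have hsc : (s.card : ℝ) ≤ J1 := by
    have := Finset.card_le_univ s
    rw [Fintype.card_fin] at this
    exact_mod_cast this
  have hx0 : 0 ≤ ((J1 : ℝ) - s.card) / J1 := div_nonneg (by linarith) hJ1'.le
  have hB0 : ∀ k, 0 ≤ ∏ i ∈ Ico i1 D.I, gBk D k i (cnt D.rg i S) := fun k =>
    Finset.prod_nonneg fun i _ => gBk_nonneg D k i _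
  show (∏ i ∈ Ico i1 D.I, D.A i S) *
    (1 - ∑ j ∈ s, (1 / (J1 : ℝ)) * md D (i1 + j) S) ^ 2 ≤ _
  by_cases hz : ∀ i ∈ Ico i1 D.I, cnt D.rg i S = 0
  · have e1 : ∏ i ∈ Ico i1 D.I, D.A i S = 1 := by
      refine Finset.prod_eq_one fun i hi => ?_
      unfold Dt.A
      rw [hz i hi, Ar_zero]
    have e2 : ∀ j : Fin J1, md D (i1 + j) S = 1 := by
      intro j
      have hj := j.2
      rw [md_Ico D (Nat.le_add_right i1 j) (by omega)]
      refine Finset.prod_eq_one fun i hi => ?_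
      rw [hz i hi]
      unfold gm
      split_ifs with h3 h4
      · rfl
      · rw [Ar_zero]
        have := h.one_sub_a (show i1 + (j : ℕ) < i1 + J1 by omega)
        exact div_self (by linarith)
      · exact Ar_zero _
    have e3 : ∏ i ∈ Ico i1 D.I, (if cnt D.rg i S = 0 then (1 : ℝ) else 0) = 1 :=
      Finset.prod_eq_one fun i hi => if_pos (hz i hi)
    have e4 : 1 - ∑ j ∈ s, (1 / (J1 : ℝ)) * md D (i1 + j) S = ((J1 : ℝ) - s.card) / J1 := by
      simp only [e2, mul_one, Finset.sum_const, nsmul_eq_mul]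
      field_simp
    rw [e1, e3, e4, one_mul, mul_one]
    have hx1 : ((J1 : ℝ) - s.card) / J1 ≤ 1 := by
      rw [div_le_one hJ1']
      have : (0 : ℝ) ≤ s.card := Nat.cast_nonneg _
      linarith
    have h5 : 0 ≤ ∑ k ∈ Ico i1 D.I, ∏ i ∈ Ico i1 D.I, gBk D k i (cnt D.rg i S) :=
      Finset.sum_nonneg fun k _ => hB0 k
    nlinarith
  · push Not at hz
    obtain ⟨k, hk, hk'⟩ := hz
    have f1 : 0 ≤ ((J1 : ℝ) - s.card) / J1 *
        ∏ i ∈ Ico i1 D.I, (if cnt D.rg i S = 0 then (1 : ℝ) else 0) := by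
      refine mul_nonneg hx0 (Finset.prod_nonneg fun i _ => ?_)
      split_ifs <;> norm_num
    set B := ∏ i ∈ Ico i1 D.I, gB D i (cnt D.rg i S) with hB
    have f2 : B ≤ ∑ k ∈ Ico i1 D.I, ∏ i ∈ Ico i1 D.I, gBk D k i (cnt D.rg i S) := by
      have : B = ∏ i ∈ Ico i1 D.I, gBk D k i (cnt D.rg i S) := by
        refine Finset.prod_congr rfl fun i _ => ?_
        unfold gBk
        split_ifs with h1 h2
        · subst h1
          exact absurd h2 hk'
        · rfl
        · rfl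
      rw [this]
      exact Finset.single_le_sum (f := fun k => ∏ i ∈ Ico i1 D.I, gBk D k i (cnt D.rg i S))
        (fun k _ => hB0 k) hk
    set M := ∏ i ∈ Ico i1 D.I, D.A i S with hM
    have hM0 : 0 ≤ M := Finset.prod_nonneg fun i _ => Ar_nonneg (h.even i) _
    have f3 : M ≤ B := Finset.prod_le_prod (fun i _ => Ar_nonneg (h.even i) _)
      fun i _ => Ar_le_gB h i _
    have f4 : ∀ j : Fin J1, M * md D (i1 + j) S ^ 2 ≤ B := by
      intro j
      have hj := j.2
      rw [md_Ico D (Nat.le_add_right i1 j) (by omega), ← Finset.prod_pow, hM,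
        ← Finset.prod_mul_distrib]
      refine Finset.prod_le_prod (fun i _ => ?_) fun i _ => ?_
      · exact mul_nonneg (Ar_nonneg (h.even i) _) (by positivity)
      · exact Ar_gm_le_gB h (show i1 + (j : ℕ) < i1 + J1 by omega) i _
    have hB1 : 0 ≤ B := Finset.prod_nonneg fun i _ => gB_nonneg D i _
    set G := ∑ j ∈ s, (1 / (J1 : ℝ)) * md D (i1 + j) S with hG
    have f5 : M * G ^ 2 ≤ B := by
      have g1 : G ^ 2 ≤ (s.card : ℝ) * ∑ j ∈ s, ((1 / (J1 : ℝ)) * md D (i1 + j) S) ^ 2 :=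
        sq_sum_le_card_mul_sum_sq
      have g2 : M * ∑ j ∈ s, ((1 / (J1 : ℝ)) * md D (i1 + j) S) ^ 2 ≤
          (s.card : ℝ) * ((1 / (J1 : ℝ)) ^ 2 * B) := by
        rw [Finset.mul_sum]
        calc _ ≤ ∑ _j ∈ s, ((1 / (J1 : ℝ)) ^ 2 * B) := by
              refine Finset.sum_le_sum fun j _ => ?_
              have := mul_le_mul_of_nonneg_left (f4 j) (show 0 ≤ (1 / (J1 : ℝ)) ^ 2 by positivity)
              calc _ = (1 / (J1 : ℝ)) ^ 2 * (M * md D (i1 + j) S ^ 2) := by ring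
                _ ≤ _ := this
          _ = _ := by rw [Finset.sum_const, nsmul_eq_mul]
      have hc0 : (0 : ℝ) ≤ s.card := Nat.cast_nonneg _
      calc M * G ^ 2 ≤ M * ((s.card : ℝ) * ∑ j ∈ s, ((1 / (J1 : ℝ)) * md D (i1 + j) S) ^ 2) :=
            mul_le_mul_of_nonneg_left g1 hM0
        _ = (s.card : ℝ) * (M * ∑ j ∈ s, ((1 / (J1 : ℝ)) * md D (i1 + j) S) ^ 2) := by ring
        _ ≤ (s.card : ℝ) * ((s.card : ℝ) * ((1 / (J1 : ℝ)) ^ 2 * B)) :=
            mul_le_mul_of_nonneg_left g2 hc0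
        _ = ((s.card : ℝ) / J1) ^ 2 * B := by ring
        _ ≤ 1 * B := by
            refine mul_le_mul_of_nonneg_right ?_ hB1
            refine pow_le_one₀ (by positivity) ?_
            rw [div_le_one hJ1']
            exact hsc
        _ = B := one_mul B
    have f6 : M * (1 - G) ^ 2 ≤ 2 * M + 2 * (M * G ^ 2) := by
      have : 0 ≤ M * (1 + G) ^ 2 := by positivity
      nlinarith
    linarith

theorem quad_le {D : Dt ι} {J' J1 i1 : ℕ} {t t1 : ℝ} (h : Reg D (i1 + J1) t)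
    (hJ1 : 0 < J1) (ht : ∑ i ∈ Ico i1 D.I, tt (D.r i) ≤ t1) (ht1 : t1 ≤ 1 / 1000)
    (s : Finset (Fin J1)) :
    Ex D.w (fun S => Fb i1 D (.mj : Lb J' J1) S *
      (1 - ∑ j ∈ s, Fb i1 D (.ks j : Lb J' J1) S) ^ 2) ≤
      D.Plow i1 * (((J1 : ℝ) - s.card) / J1 + 2000 * t1) := by
  have hs : Ico i1 D.I ⊆ range D.I := fun i hi => Finset.mem_range.2 (Finset.mem_Ico.1 hi).2
  refine le_trans (Ex_mono h (quad_pt (J' := J') h hJ1 s)) ?_
  rw [Ex_add, Ex_smul, Ex_smul, Ex_sum]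
  have e1 : Ex D.w (fun S => ∏ i ∈ Ico i1 D.I, (if cnt D.rg i S = 0 then (1 : ℝ) else 0)) =
      D.Plow i1 := by
    have := Ex_prods D h.rg_lt _ hs (fun _ N => if N = 0 then (1 : ℝ) else 0)
    refine this.trans ?_
    unfold Dt.Plow
    exact Finset.prod_congr rfl fun i _ => En_ind D i
  have hP : 0 ≤ D.Plow i1 := Finset.prod_nonneg fun i _ => by
    have := h.P0_ge i
    linarith
  have e2 : ∀ k ∈ Ico i1 D.I,
      Ex D.w (fun S => ∏ i ∈ Ico i1 D.I, gBk D k i (cnt D.rg i S)) ≤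
        tt (D.r k) * (200 * D.Plow i1) := by
    intro k hk
    have g0 := Ex_prods D h.rg_lt _ hs (fun i N => gBk D k i N)
    refine le_trans (le_of_eq g0) ?_
    rw [← Finset.mul_prod_erase _ _ hk]
    have g1 := En_gBk_le h k
    have g2 : ∏ i ∈ (Ico i1 D.I).erase k, En D i (fun N => gBk D k i N) ≤
        ∏ i ∈ (Ico i1 D.I).erase k, (D.P0 i + 25 * tt (D.r i)) := by
      refine Finset.prod_le_prod (fun i _ => En_nonneg h i fun N => gBk_nonneg D k i N)
        fun i hi => ?_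
      have hik : i ≠ k := (Finset.mem_erase.1 hi).1
      have : (fun N => gBk D k i N) = fun N => gB D i N := by
        funext N
        unfold gBk
        rw [if_neg hik]
      rw [this]
      exact En_gB_le h i
    have g3 : ∏ i ∈ (Ico i1 D.I).erase k, (D.P0 i + 25 * tt (D.r i)) ≤
        4 * ∏ i ∈ Ico i1 D.I, (D.P0 i + 25 * tt (D.r i)) := by
      rw [← Finset.mul_prod_erase (Ico i1 D.I) _ hk]
      have g4 : 0 ≤ ∏ i ∈ (Ico i1 D.I).erase k, (D.P0 i + 25 * tt (D.r i)) :=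
        Finset.prod_nonneg fun i _ => by
          have h1 := h.P0_ge i
          have h2 := tt_pos (D.r i)
          linarith
      have h1 := h.P0_ge k
      have h2 := tt_pos (D.r k)
      nlinarith
    have g5 := prod_P_le h (Ico i1 D.I) (c := 25) (by norm_num)
    have g6 : Real.exp (4 * 25 * ∑ i ∈ Ico i1 D.I, tt (D.r i)) ≤ 2 := tt_half (by linarith)
    have g7 : ∏ i ∈ Ico i1 D.I, (D.P0 i + 25 * tt (D.r i)) ≤ D.Plow i1 * 2 :=
      le_trans g5 (mul_le_mul_of_nonneg_left g6 hP)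
    have g8 : ∏ i ∈ (Ico i1 D.I).erase k, En D i (fun N => gBk D k i N) ≤ 8 * D.Plow i1 := by
      linarith
    have g9 : 0 ≤ ∏ i ∈ (Ico i1 D.I).erase k, En D i (fun N => gBk D k i N) :=
      Finset.prod_nonneg fun i _ => En_nonneg h i fun N => gBk_nonneg D k i N
    have hk0 := tt_pos (D.r k)
    calc _ ≤ (25 * tt (D.r k)) * (8 * D.Plow i1) := mul_le_mul g1 g8 g9 (by positivity)
      _ = _ := by ring
  have e3 : ∑ k ∈ Ico i1 D.I, Ex D.w (fun S => ∏ i ∈ Ico i1 D.I, gBk D k i (cnt D.rg i S)) ≤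
      t1 * (200 * D.Plow i1) := by
    calc _ ≤ ∑ k ∈ Ico i1 D.I, tt (D.r k) * (200 * D.Plow i1) := Finset.sum_le_sum e2
      _ = (∑ k ∈ Ico i1 D.I, tt (D.r k)) * (200 * D.Plow i1) := by rw [Finset.sum_mul]
      _ ≤ _ := mul_le_mul_of_nonneg_right ht (by positivity)
  have ht0 : 0 ≤ t1 := le_trans (Finset.sum_nonneg fun i _ => (tt_pos _).le) ht
  rw [e1]
  have e4 : 0 ≤ t1 * D.Plow i1 := mul_nonneg ht0 hP
  calc _ ≤ ((J1 : ℝ) - s.card) / J1 * D.Plow i1 + 4 * (t1 * (200 * D.Plow i1)) := by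
        linarith
    _ ≤ _ := by
        have : D.Plow i1 * (((J1 : ℝ) - s.card) / J1 + 2000 * t1) -
          (((J1 : ℝ) - s.card) / J1 * D.Plow i1 + 4 * (t1 * (200 * D.Plow i1))) =
          1200 * (t1 * D.Plow i1) := by ring
        linarith

end OnePosAux

theorem onePos2 : OnePos2 := by
  intro ι _ _ D J' J1 i1 t t1 hJ hJ1 h ht ht1
  have hJ1' : (0 : ℝ) < J1 := by exact_mod_cast hJ1
  have hI := h.J_le
  refine ⟨?_, ?_, ?_, ?_, ?_, ?_, ?_, ?_, ?_⟩
  · intro j
    have hj := j.2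
    have := Ex_smul D.w (1 / (J1 : ℝ)) (md D (i1 + j))
    rw [Ex_md h (show i1 + (j : ℕ) < i1 + J1 by omega), mul_zero] at this
    exact this
  · intro i j hij
    have hi := i.2
    have hj := j.2
    have hne : i1 + (i : ℕ) ≠ i1 + (j : ℕ) := by
      intro hc
      exact hij (Fin.ext (by omega))
    have h1 := Ex_md_md h hne (by omega) (by omega)
    have h2 := Ex_smul D.w ((1 / (J1 : ℝ)) ^ 2) (fun S => md D (i1 + i) S * md D (i1 + j) S)
    rw [h1, mul_zero] at h2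
    rw [← h2]
    congr 1
    funext S
    show (1 / (J1 : ℝ)) * md D (i1 + i) S * ((1 / (J1 : ℝ)) * md D (i1 + j) S) = _
    ring
  · intro j
    exact Ex_b0_md h j.2 (by omega)
  · intro i j hij
    have hi := i.2
    have hj := j.2
    exact Ex_md_md h (fun hc => hij (Fin.ext hc)) (by omega) (by omega)
  · intro j
    have hj := j.2
    have h1 := Ex_md_sq h (show i1 + (j : ℕ) < i1 + J1 by omega)
    have h2 := Ex_smul D.w ((1 / (J1 : ℝ)) ^ 2) (fun S => md D (i1 + j) S ^ 2)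
    have e : (fun S => Fb i1 D (.ks j : Lb J' J1) S ^ 2) =
        fun S => (1 / (J1 : ℝ)) ^ 2 * md D (i1 + j) S ^ 2 := by
      funext S
      show ((1 / (J1 : ℝ)) * md D (i1 + j) S) ^ 2 = _
      ring
    rw [e, h2]
    calc _ ≤ (1 / (J1 : ℝ)) ^ 2 * (100 * ∏ i ∈ Ioo (i1 + (j : ℕ)) D.I, D.P0 i) :=
          mul_le_mul_of_nonneg_left h1 (by positivity)
      _ = _ := by ring
  · intro j
    have hj := j.2
    exact Ex_md_sq h (by omega)
  · exact Ex_b0_sq h
  · exact fun W hW => Ex_word h hJ hJ1 W hW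
  · exact fun s => quad_le h hJ1 ht ht1 s

end Pool.Agent.Helper1.LG2
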