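import Pool.Agent.Helper1.LG2.Defs

set_option autoImplicit false

/-!
LG2 (helper1). Shifts of residues.
-/

open Finset

namespace Pool.Agent.Helper1.LG2

theorem per_mul {Q : ℤ → Prop} {P : ℕ} (hQ : ∀ a, Q (a + P) ↔ Q a) (k : ℤ) (a : ℤ) :
    Q (a + k * P) ↔ Q a := by
  have hnat : ∀ (n : ℕ) (a : ℤ), Q (a + n * P) ↔ Q a := by
    intro n
    induction n with
    | zero => intro a; simp
    | succ n ih =>
      intro a
      have h1 : a + ((n + 1 : ℕ) : ℤ) * P = (a + n * P) + P := by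
        push_cast
        ring
      rw [h1, hQ, ih]
  rcases Int.eq_nat_or_neg k with ⟨n, rfl | rfl⟩
  · exact hnat n a
  · have h := hnat n (a + -(n : ℤ) * P)
    have h1 : a + -(n : ℤ) * P + n * P = a := by ring
    rw [h1] at h
    exact h.symm

theorem per_emod {Q : ℤ → Prop} {P : ℕ} (hQ : ∀ a, Q (a + P) ↔ Q a) (a : ℤ) :
    Q (a % P) ↔ Q a := by
  have h := per_mul hQ (a / P) (a % P)
  have h1 : a % P + a / P * P = a := by
    rw [mul_comm]
    exact Int.emod_add_mul_ediv a P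
  rw [h1] at h
  exact h.symm

/-- The number of residues with a property is invariant under shifts. -/
theorem card_shift {P : ℕ} (hP : 0 < P) (Q : ℤ → Prop) [DecidablePred Q]
    (hQ : ∀ a, Q (a + P) ↔ Q a) (s : ℤ) :
    ((range P).filter (fun a : ℕ => Q ((a : ℤ) + s))).card =
      ((range P).filter (fun a : ℕ => Q (a : ℤ))).card := by
  have hPz : (0 : ℤ) < P := by exact_mod_cast hP
  have hcast : ∀ z : ℤ, (((z % P).toNat : ℕ) : ℤ) = z % P := fun z =>
    Int.toNat_of_nonneg (Int.emod_nonneg _ hPz.ne')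
  have hlt : ∀ z : ℤ, (z % P).toNat < P := by
    intro z
    have h1 := Int.emod_lt_of_pos z hPz
    have h2 := hcast z
    omega
  apply Finset.card_bij' (fun (a : ℕ) _ => (((a : ℤ) + s) % P).toNat)
    (fun (a : ℕ) _ => (((a : ℤ) - s) % P).toNat)
  · intro a ha
    rw [Finset.mem_filter, Finset.mem_range] at ha ⊢
    refine ⟨hlt _, ?_⟩
    rw [hcast, per_emod hQ]
    exact ha.2
  · intro a ha
    rw [Finset.mem_filter, Finset.mem_range] at ha ⊢
    refine ⟨hlt _, ?_⟩
    have h1 : Q (((((a : ℤ) - s) % P : ℤ) + s) % P) ↔ Q ((((a : ℤ) - s) % P : ℤ) + s) :=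
      per_emod hQ _
    rw [hcast, ← h1, Int.emod_add_emod, sub_add_cancel, per_emod hQ]
    exact ha.2
  · intro a ha
    rw [Finset.mem_filter, Finset.mem_range] at ha
    have h1 : ((((((a : ℤ) + s) % P).toNat : ℕ) : ℤ) - s) % P = a := by
      rw [hcast, Int.emod_sub_emod, add_sub_cancel_right]
      exact Int.emod_eq_of_lt (by positivity) (by exact_mod_cast ha.1)
    show (((((((a : ℤ) + s) % P).toNat : ℕ) : ℤ) - s) % P).toNat = a
    rw [h1]
    rfl
  · intro a ha
    rw [Finset.mem_filter, Finset.mem_range] at ha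
    have h1 : ((((((a : ℤ) - s) % P).toNat : ℕ) : ℤ) + s) % P = a := by
      rw [hcast, Int.emod_add_emod, sub_add_cancel]
      exact Int.emod_eq_of_lt (by positivity) (by exact_mod_cast ha.1)
    show (((((((a : ℤ) - s) % P).toNat : ℕ) : ℤ) + s) % P).toNat = a
    rw [h1]
    rfl

theorem gcd_per (x : ℝ) (h a : ℤ) :
    Int.gcd (a + (LG.Ps x : ℕ) + h) (LG.Ps x) = 1 ↔ Int.gcd (a + h) (LG.Ps x) = 1 := by
  have h1 : a + (LG.Ps x : ℕ) + h = a + h + (LG.Ps x : ℤ) := by ring
  rw [h1, Int.gcd_add_self_left]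

theorem Ps_pos (x : ℝ) : 0 < LG.Ps x := primorial_pos _

/-- Residues with a condition at the base position. -/
theorem card_base {Y : ℕ} (x : ℝ) (h : Fin Y → ℤ) (p : Fin Y) (U : Finset (Fin Y)) :
    ((range (LG.Ps x)).filter (fun a => insert p U ⊆ LG.Bs x h a)).card =
      ((LG.Om x).filter (fun a : ℕ => ∀ i : U,
        Int.gcd ((a : ℤ) + (h i.1 - h p)) (LG.Ps x) = 1)).card := by
  have hQ : ∀ a : ℤ, (Int.gcd (a + LG.Ps x) (LG.Ps x) = 1 ∧
      ∀ i : U, Int.gcd (a + LG.Ps x + (h i.1 - h p)) (LG.Ps x) = 1) ↔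
      (Int.gcd a (LG.Ps x) = 1 ∧ ∀ i : U, Int.gcd (a + (h i.1 - h p)) (LG.Ps x) = 1) := by
    intro a
    constructor
    · rintro ⟨h1, h2⟩
      refine ⟨?_, fun i => ?_⟩
      · rw [Int.gcd_add_self_left] at h1
        exact h1
      · exact (gcd_per x _ a).1 (h2 i)
    · rintro ⟨h1, h2⟩
      refine ⟨?_, fun i => ?_⟩
      · rw [Int.gcd_add_self_left]
        exact h1
      · exact (gcd_per x _ a).2 (h2 i)
  have hs := card_shift (Ps_pos x) (fun a : ℤ => Int.gcd a (LG.Ps x) = 1 ∧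
    ∀ i : U, Int.gcd (a + (h i.1 - h p)) (LG.Ps x) = 1) hQ (h p)
  have h1 : (range (LG.Ps x)).filter (fun a => insert p U ⊆ LG.Bs x h a) =
      (range (LG.Ps x)).filter (fun a : ℕ => Int.gcd ((a : ℤ) + h p) (LG.Ps x) = 1 ∧
        ∀ i : U, Int.gcd ((a : ℤ) + h p + (h i.1 - h p)) (LG.Ps x) = 1) := by
    apply Finset.filter_congr
    intro a _
    rw [Finset.insert_subset_iff]
    unfold LG.Bs
    constructor
    · rintro ⟨h2, h3⟩
      rw [Finset.mem_filter] at h2
      refine ⟨h2.2, fun i => ?_⟩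
      have h4 := h3 i.2
      rw [Finset.mem_filter] at h4
      have h5 : (a : ℤ) + h p + (h i.1 - h p) = a + h i.1 := by ring
      rw [h5]
      exact h4.2
    · rintro ⟨h2, h3⟩
      refine ⟨Finset.mem_filter.2 ⟨Finset.mem_univ _, h2⟩, ?_⟩
      intro i hi
      have h4 := h3 ⟨i, hi⟩
      have h5 : (a : ℤ) + h p + (h i - h p) = a + h i := by ring
      rw [h5] at h4
      exact Finset.mem_filter.2 ⟨Finset.mem_univ _, h4⟩
  rw [h1, hs]
  unfold LG.Om
  rw [Finset.filter_filter]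
  congr 1

theorem card_one {Y : ℕ} (x : ℝ) (h : Fin Y → ℤ) (p : Fin Y) :
    ((range (LG.Ps x)).filter (fun a => p ∈ LG.Bs x h a)).card = (LG.Om x).card := by
  have h1 := card_base x h p ∅
  have h2 : (range (LG.Ps x)).filter (fun a => insert p (∅ : Finset (Fin Y)) ⊆ LG.Bs x h a) =
      (range (LG.Ps x)).filter (fun a => p ∈ LG.Bs x h a) := by
    apply Finset.filter_congr
    intro a _
    rw [Finset.insert_subset_iff]
    simp
  rw [h2] at h1
  rw [h1]
  congr 1
  apply Finset.filter_true_of_mem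
  intro a _ i
  exact absurd i.2 (Finset.notMem_empty _)

end Pool.Agent.Helper1.LG2
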