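import Pool.Agent.Helper1.LG2.CrtI
import Pool.Agent.Helper1.LG.Transfer

set_option autoImplicit false

/-!
LG2-T. The transfer for all integers (`TransferI` in `LG2/Defs.lean`). The same scheme as LG-T
(`LG/Transfer.lean`, guide in its header; helper10 is proving it), but easier: no primes, no
Bombieri-Vinogradov, all classes allowed.

* For every class `c` modulo `d ≥ 1`, `d ≤ x^(1/4)`: `|∑_{n ∈ Nx θ x, n ≡ c (d)} 1/n - Mi θ x / d| ≤ 2/x^(1/2)`
  (compare `1/n` in blocks of length `d`; `n > x^θ - 1`, `θ ≥ 1/2`; see `sum_inv_class_le` in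
  Helper74/MT/BVAux.lean and Helper83/MT for similar lemmas).
* For `n` fixed the sum over tuples of subsets is a sum over colourings `c` of the large primes with
  `p ∣ n + h (c p)` on the support (the sets `sg (h i) n` are disjoint since
  `|h i - h j| ≤ (log x)² < p`), the indicator of the gcd conditions is the sum over `V ⊆ Q` (`Q` the
  primes `≤ √log x`) of `(-1)^|V| ∏_{p∈V} [∃ i, p ∣ n + h i]`, `R_p` the residues `a ∈ range p` with
  `∃ i, p ∣ a + h i`.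
* Main term `Mi · ∏_{p∈Q} (1 - |R_p|/p) · Eq ...`: the first product is `sI` by `crtI`.
* Error: the number of all `(V, r, c)` with nonzero coefficient, times coefficient, times `2/x^(1/2)`:
  all moduli are at most `Ps x · x^(1/50) ≤ x^(1/40)`, the total of the coefficients over a modulus `d` is
  at most `k^u0 (k u0)^{ω(d)}`, crude bound `∑_{d ≤ x^(1/40)} (k u0)^{ω(d)} ≤ x^(1/10)` for large `x`
  (`sum_powerset_le` in Helper74/MT/BVAux.lean).
-/

open Finset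

namespace Pool.Agent.Helper1.LG2

open Pool.Agent.Helper1.MT (supp cls pr PS lev Le)
open Pool.Agent.Helper1.LG (Eq sg Ps PL)
open Pool.Agent.Helper1.LG.Tr (Qx Qx_prime Ps_eq Pc rough_iff rs rs_lt rs_spec nT mem_nT
  coe_mem_nT Ac cond_iff sieve_sum card_classes Nf nf PL_mem mem_cls mem_supp mem_sg not_dvd_h
  prod_sum_cls Eq_expand)

namespace TrI

/-! ### The sum of `1/n` over a class -/

theorem count_class (a b d c : ℕ) (hd : 0 < d) (hab : a ≤ b) :
    |∑ n ∈ Ioc a b, ((if n ≡ c [MOD d] then (1 : ℝ) else 0) - 1 / (d : ℝ))| ≤ 1 := by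
  have hd' : (0 : ℝ) < d := by exact_mod_cast hd
  have h1 : ∑ n ∈ Ioc a b, ((if n ≡ c [MOD d] then (1 : ℝ) else 0) - 1 / (d : ℝ)) =
      (((Ioc a b).filter (fun n => n ≡ c [MOD d])).card : ℝ) - ((b : ℝ) - a) / d := by
    rw [Finset.sum_sub_distrib, Finset.sum_boole, Finset.sum_const, Nat.card_Ioc, nsmul_eq_mul,
      Nat.cast_sub hab]
    ring
  rw [h1]
  have h2 := Nat.Ioc_filter_modEq_card a b hd c
  set u : ℚ := ((b : ℚ) - c) / d with hu
  set v : ℚ := ((a : ℚ) - c) / d with hv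
  have h3 : v ≤ u := by
    rw [hu, hv]
    have h4 : (a : ℚ) ≤ b := by exact_mod_cast hab
    have h5 : (0 : ℚ) < d := by exact_mod_cast hd
    gcongr
  have h4 : ⌊v⌋ ≤ ⌊u⌋ := Int.floor_le_floor h3
  rw [max_eq_left (by omega)] at h2
  have h5 : (((Ioc a b).filter (fun n => n ≡ c [MOD d])).card : ℝ) = (⌊u⌋ : ℝ) - (⌊v⌋ : ℝ) := by
    exact_mod_cast h2
  have h6 : ((b : ℝ) - a) / d = ((u - v : ℚ) : ℝ) := by
    rw [hu, hv]
    push_cast
    field_simp
    ring
  have h7 : ((⌊u⌋ : ℚ) : ℝ) ≤ (u : ℝ) := by exact_mod_cast Int.floor_le u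
  have h8 : (u : ℝ) < ((⌊u⌋ : ℚ) : ℝ) + 1 := by exact_mod_cast Int.lt_floor_add_one u
  have h9 : ((⌊v⌋ : ℚ) : ℝ) ≤ (v : ℝ) := by exact_mod_cast Int.floor_le v
  have h10 : (v : ℝ) < ((⌊v⌋ : ℚ) : ℝ) + 1 := by exact_mod_cast Int.lt_floor_add_one v
  rw [h5, h6, abs_le]
  push_cast at h7 h8 h9 h10 ⊢
  constructor <;> linarith

theorem abel (a d c : ℕ) (hd : 0 < d) (b : ℕ) (hab : a + 1 ≤ b) :
    |∑ n ∈ Ioc a b, ((if n ≡ c [MOD d] then (1 : ℝ) else 0) - 1 / (d : ℝ)) *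
      (1 / (n : ℝ) - 1 / (b : ℝ))| ≤ 1 / ((a : ℝ) + 1) - 1 / (b : ℝ) := by
  induction b, hab using Nat.le_induction with
  | base =>
    have h1 : Ioc a (a + 1) = {a + 1} := by
      ext n
      simp only [mem_Ioc, mem_singleton]
      omega
    rw [h1, Finset.sum_singleton]
    push_cast
    simp
  | succ b hb ih =>
    have h1 : Ioc a (b + 1) = insert (b + 1) (Ioc a b) := by
      ext n
      simp only [mem_Ioc, mem_insert]
      omega
    have h2 : b + 1 ∉ Ioc a b := by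
      simp
    rw [h1, Finset.sum_insert h2, sub_self, mul_zero, zero_add]
    have h3 : ∑ n ∈ Ioc a b, ((if n ≡ c [MOD d] then (1 : ℝ) else 0) - 1 / (d : ℝ)) *
        (1 / (n : ℝ) - 1 / ((b + 1 : ℕ) : ℝ)) =
        ∑ n ∈ Ioc a b, ((if n ≡ c [MOD d] then (1 : ℝ) else 0) - 1 / (d : ℝ)) *
        (1 / (n : ℝ) - 1 / (b : ℝ)) +
        (∑ n ∈ Ioc a b, ((if n ≡ c [MOD d] then (1 : ℝ) else 0) - 1 / (d : ℝ))) *
          (1 / (b : ℝ) - 1 / ((b + 1 : ℕ) : ℝ)) := by
      rw [Finset.sum_mul, ← Finset.sum_add_distrib]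
      apply Finset.sum_congr rfl
      intro n _
      ring
    rw [h3]
    have hb0 : (0 : ℝ) < b := by exact_mod_cast (by omega : 0 < b)
    have h4 : 0 ≤ 1 / (b : ℝ) - 1 / ((b + 1 : ℕ) : ℝ) := by
      rw [sub_nonneg]
      apply one_div_le_one_div_of_le hb0
      push_cast
      linarith
    refine (abs_add_le _ _).trans ?_
    rw [abs_mul, abs_of_nonneg h4]
    have h5 := count_class a b d c hd (by omega)
    have h6 := mul_le_mul_of_nonneg_right h5 h4
    linarith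

theorem class_est (a b d c : ℕ) (hd : 0 < d) (hab : a ≤ b) :
    |∑ n ∈ (Ioc a b).filter (fun n => n ≡ c [MOD d]), 1 / (n : ℝ) -
      (1 / (d : ℝ)) * ∑ n ∈ Ioc a b, 1 / (n : ℝ)| ≤ 1 / ((a : ℝ) + 1) := by
  have h1 : ∑ n ∈ (Ioc a b).filter (fun n => n ≡ c [MOD d]), 1 / (n : ℝ) -
      (1 / (d : ℝ)) * ∑ n ∈ Ioc a b, 1 / (n : ℝ) =
      ∑ n ∈ Ioc a b, ((if n ≡ c [MOD d] then (1 : ℝ) else 0) - 1 / (d : ℝ)) * (1 / (n : ℝ)) := by
    rw [Finset.sum_filter, Finset.mul_sum, ← Finset.sum_sub_distrib]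
    apply Finset.sum_congr rfl
    intro n _
    split_ifs <;> ring
  rw [h1]
  rcases Nat.eq_or_lt_of_le hab with h | h
  · rw [h, Finset.Ioc_self, Finset.sum_empty, abs_zero]
    positivity
  · have h2 := abel a d c hd b h
    have h3 : ∑ n ∈ Ioc a b, ((if n ≡ c [MOD d] then (1 : ℝ) else 0) - 1 / (d : ℝ)) *
        (1 / (n : ℝ)) = ∑ n ∈ Ioc a b, ((if n ≡ c [MOD d] then (1 : ℝ) else 0) - 1 / (d : ℝ)) *
        (1 / (n : ℝ) - 1 / (b : ℝ)) +
        (∑ n ∈ Ioc a b, ((if n ≡ c [MOD d] then (1 : ℝ) else 0) - 1 / (d : ℝ))) *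
          (1 / (b : ℝ)) := by
      rw [Finset.sum_mul, ← Finset.sum_add_distrib]
      apply Finset.sum_congr rfl
      intro n _
      ring
    rw [h3]
    have h4 : (0 : ℝ) ≤ 1 / (b : ℝ) := by positivity
    refine (abs_add_le _ _).trans ?_
    rw [abs_mul, abs_of_nonneg h4]
    have h5 := count_class a b d c hd hab
    have h6 := mul_le_mul_of_nonneg_right h5 h4
    linarith

/-- The number of admissible residues. -/
def nI (A : ℕ → ℕ → Prop) [∀ p, DecidablePred (A p)] (p : ℕ) : ℕ :=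
  ((range p).filter (fun a => A p a)).card

/-- The sum over the `n` satisfying local conditions. -/
theorem local_sum (F : Finset ℕ) (M ε : ℝ)
    (hE : ∀ d c : ℕ, 0 < d → |∑ n ∈ F.filter (fun n => n ≡ c [MOD d]), 1 / (n : ℝ) -
          (1 / (d : ℝ)) * M| ≤ ε)
    (A : ℕ → ℕ → Prop) [∀ p, DecidablePred (A p)] (U : Finset ℕ) (hU : ∀ p ∈ U, p.Prime) :
    |∑ n ∈ F.filter (fun n => ∀ p ∈ U, A p (n % p)), 1 / (n : ℝ) -
      M * ∏ p ∈ U, ((nI A p : ℝ) / (p : ℝ))| ≤ (∏ p ∈ U, (nI A p : ℝ)) * ε := by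
  classical
  set d : ℕ := ∏ p ∈ U, p with hd
  have hd0 : 0 < d := prod_pos fun p hp => (hU p hp).pos
  set C : Finset ℕ := (range d).filter (fun a : ℕ => ∀ p ∈ U, A p (a % p)) with hC
  have hCcard : (C.card : ℝ) = ∏ p ∈ U, (nI A p : ℝ) := by
    rw [hC, hd, card_classes A U hU, Nat.cast_prod]
    rfl
  have h2 : ∑ n ∈ F.filter (fun n => ∀ p ∈ U, A p (n % p)), 1 / (n : ℝ) =
      ∑ a ∈ C, ∑ n ∈ F.filter (fun n => n ≡ a [MOD d]), 1 / (n : ℝ) := by
    rw [← Finset.sum_fiberwise_of_maps_to (t := C) (g := fun n => n % d)]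
    · apply Finset.sum_congr rfl
      intro a ha
      apply Finset.sum_congr _ (fun _ _ => rfl)
      ext n
      rw [hC, mem_filter, mem_range] at ha
      simp only [mem_filter]
      constructor
      · rintro ⟨⟨h3, _⟩, h5⟩
        refine ⟨h3, ?_⟩
        unfold Nat.ModEq
        rw [h5, Nat.mod_eq_of_lt ha.1]
      · rintro ⟨h3, h4⟩
        have h5 : n % d = a := by
          unfold Nat.ModEq at h4
          rw [h4, Nat.mod_eq_of_lt ha.1]
        refine ⟨⟨h3, ?_⟩, h5⟩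
        intro p hp
        have h6 : n % p = a % p := by
          rw [← h5, Nat.mod_mod_of_dvd n (dvd_prod_of_mem (fun q => q) hp)]
        rw [h6]
        exact ha.2 p hp
    · intro n hn
      rw [mem_filter] at hn
      rw [hC, mem_filter, mem_range]
      refine ⟨Nat.mod_lt _ hd0, ?_⟩
      intro p hp
      rw [Nat.mod_mod_of_dvd n (dvd_prod_of_mem (fun q => q) hp)]
      exact hn.2 p hp
  have h3 : M * ∏ p ∈ U, ((nI A p : ℝ) / (p : ℝ)) = ∑ a ∈ C, (1 / (d : ℝ)) * M := by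
    rw [Finset.sum_const, nsmul_eq_mul, hCcard, Finset.prod_div_distrib, hd, Nat.cast_prod]
    ring
  rw [h2, h3, ← Finset.sum_sub_distrib]
  refine (Finset.abs_sum_le_sum_abs _ _).trans ?_
  calc _ ≤ ∑ a ∈ C, ε := Finset.sum_le_sum fun a _ => hE d a hd0
    _ = _ := by rw [Finset.sum_const, nsmul_eq_mul, hCcard]

open Classical in
theorem nI_le {κ : Type} [Fintype κ] (h : κ → ℤ) {p : ℕ} (hp : 0 < p) :
    nI (Pc h) p ≤ Fintype.card κ := by
  unfold nI
  have h1 : (range p).filter (fun a => Pc h p a) ⊆ univ.image (fun i => rs p (h i)) := by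
    intro a ha
    rw [mem_filter, mem_range] at ha
    obtain ⟨h2, i, hi⟩ := ha
    rw [mem_image]
    exact ⟨i, mem_univ _, ((rs_spec hp (h i) h2).1 hi).symm⟩
  exact (Finset.card_le_card h1).trans Finset.card_image_le

open Classical in
theorem sI_eq {κ : Type} [Fintype κ] (x : ℝ) (h : κ → ℤ) :
    sI x h = ∑ V ∈ (Qx x).powerset, (-1 : ℝ) ^ V.card *
      ∏ p ∈ V, ((nI (Pc h) p : ℝ) / (p : ℝ)) := by
  have h1 : (((range (Ps x)).filter (fun a : ℕ =>
      ∀ i, Int.gcd ((a : ℤ) + h i) (Ps x) = 1)).card : ℝ) =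
      ∏ p ∈ Qx x, ((p : ℝ) - nI (Pc h) p) := by
    have h2 := crtI ⌊Real.sqrt (Real.log x)⌋₊ κ h
    have h3 : (range (Ps x)).filter (fun a : ℕ => ∀ i, Int.gcd ((a : ℤ) + h i) (Ps x) = 1) =
        (range (primorial ⌊Real.sqrt (Real.log x)⌋₊)).filter
          (fun a : ℕ => ∀ i, Int.gcd ((a : ℤ) + h i)
            (primorial ⌊Real.sqrt (Real.log x)⌋₊) = 1) := rfl
    rw [h3, h2, Nat.cast_prod]
    apply Finset.prod_congr rfl
    intro p hp
    have h4 : ((range p).filter (fun a : ℕ => ∀ i, ¬ (p : ℤ) ∣ (a : ℤ) + h i)).card +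
        nI (Pc h) p = p := by
      unfold nI
      have h5 := Finset.card_filter_add_card_filter_not
        (s := range p) (fun a : ℕ => ∀ i, ¬ (p : ℤ) ∣ (a : ℤ) + h i)
      rw [Finset.card_range] at h5
      have h6 : (range p).filter (fun a => Pc h p a) =
          (range p).filter (fun a : ℕ => ¬ ∀ i, ¬ (p : ℤ) ∣ (a : ℤ) + h i) := by
        apply Finset.filter_congr
        intro a _
        unfold Pc
        push Not
        exact Iff.rfl
      rw [h6]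
      exact h5
    have h7 : ((((range p).filter (fun a : ℕ => ∀ i, ¬ (p : ℤ) ∣ (a : ℤ) + h i)).card +
        nI (Pc h) p : ℕ) : ℝ) = (p : ℝ) := by rw [h4]
    rw [Nat.cast_add] at h7
    linarith
  unfold sI
  rw [h1, Ps_eq, Nat.cast_prod, ← Finset.prod_div_distrib]
  have h8 : ∀ p ∈ Qx x, ((p : ℝ) - nI (Pc h) p) / (p : ℝ) =
      1 + -((nI (Pc h) p : ℝ) / (p : ℝ)) := by
    intro p hp
    have hpp : p.Prime := Qx_prime hp
    have h9 : (0 : ℝ) < p := by exact_mod_cast hpp.pos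
    field_simp
    ring
  rw [Finset.prod_congr rfl h8, Finset.prod_one_add]
  apply Finset.sum_congr rfl
  intro V _
  rw [← Finset.prod_const, ← Finset.prod_mul_distrib]
  apply Finset.prod_congr rfl
  intro p _
  ring

open Classical in
theorem nI_Ac_small {κ : Type} {ρ x : ℝ} (h : κ → ℤ)
    (c : PL ρ x → Option κ) {p : ℕ} (hp : p ∈ Qx x) : nI (Ac h c) p = nI (Pc h) p := by
  unfold nI
  congr 1
  apply Finset.filter_congr
  intro a _
  unfold Ac
  constructor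
  · rintro (h1 | h1)
    · exact h1.2
    · exact absurd hp h1.1
  · intro h1
    exact Or.inl ⟨hp, h1⟩

open Classical in
theorem nI_Ac_large {κ : Type} [Fintype κ] [DecidableEq κ] {ρ x : ℝ} (h : κ → ℤ)
    (hdis : ∀ p ∈ Qx x, p ∉ PL ρ x)
    (c : PL ρ x → Option κ) {p : ℕ} (hx : 0 < x) (hp : p ∈ nT (supp c)) :
    nI (Ac h c) p = 1 := by
  rw [mem_nT] at hp
  obtain ⟨hp', hs⟩ := hp
  rw [mem_supp] at hs
  have hpp := (PL_mem hx hp').1
  cases hc : c ⟨p, hp'⟩ with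
  | none => exact absurd hc hs
  | some i =>
    unfold nI
    rw [Finset.card_eq_one]
    refine ⟨rs p (h i), ?_⟩
    ext a
    rw [mem_filter, mem_range, mem_singleton]
    constructor
    · rintro ⟨ha, hA⟩
      rcases hA with hA | ⟨_, j, ⟨hj, hj'⟩, h3⟩
      · exact absurd hp' (hdis _ hA.1)
      · rw [hc, Option.some.injEq] at hj'
        rw [← hj'] at h3
        exact (rs_spec hpp.pos (h i) ha).1 h3
    · intro ha
      have h1 : a < p := by
        rw [ha]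
        exact rs_lt hpp.pos _
      have h2 : (p : ℤ) ∣ (a : ℤ) + h i := (rs_spec hpp.pos (h i) h1).2 ha
      exact ⟨h1, Or.inr ⟨fun hq => hdis p hq hp', i, ⟨hp', hc⟩, h2⟩⟩

open Classical in
/-- The estimate for one colouring. -/
theorem one_col {κ : Type} [Fintype κ] [DecidableEq κ] {x ρ : ℝ}
    (hx : 1 < x) (F : Finset ℕ) (M ε : ℝ) (hε : 0 ≤ ε)
    (hE : ∀ d c : ℕ, 0 < d → |∑ n ∈ F.filter (fun n => n ≡ c [MOD d]), 1 / (n : ℝ) -
          (1 / (d : ℝ)) * M| ≤ ε)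
    (h : κ → ℤ) (hdis : ∀ p ∈ Qx x, p ∉ PL ρ x) (c : PL ρ x → Option κ) :
    |∑ n ∈ F.filter (fun n : ℕ => (∀ i, Int.gcd ((n : ℤ) + h i) (Ps x) = 1) ∧
        ∀ i, cls c i ⊆ sg ρ x (h i) n), 1 / (n : ℝ) -
      M * sI x h * ∏ p ∈ supp c, wi ρ x p| ≤
      ∑ V ∈ (Qx x).powerset, (Fintype.card κ : ℝ) ^ V.card * ε := by
  have hx0 : 0 < x := by linarith
  have h1 : ∑ n ∈ F.filter (fun n : ℕ => (∀ i, Int.gcd ((n : ℤ) + h i) (Ps x) = 1) ∧
        ∀ i, cls c i ⊆ sg ρ x (h i) n), 1 / (n : ℝ) =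
      ∑ V ∈ (Qx x).powerset, (-1 : ℝ) ^ V.card *
        ∑ n ∈ F.filter (fun n => ∀ p ∈ V ∪ nT (supp c), Ac h c p (n % p)), 1 / (n : ℝ) := by
    have h2 : F.filter (fun n : ℕ => (∀ i, Int.gcd ((n : ℤ) + h i) (Ps x) = 1) ∧
        ∀ i, cls c i ⊆ sg ρ x (h i) n) = F.filter (fun n : ℕ =>
          (∀ p ∈ Qx x, ¬ Pc h p (n % p)) ∧ ∀ i, cls c i ⊆ sg ρ x (h i) n) := by
      apply Finset.filter_congr
      intro n _
      refine and_congr_left fun _ => ?_
      exact rough_iff x h n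
    rw [h2, sieve_sum F (fun n : ℕ => 1 / (n : ℝ)) (Qx x) (Pc h)
      (fun n => ∀ i, cls c i ⊆ sg ρ x (h i) n)]
    apply Finset.sum_congr rfl
    intro V hV
    rw [mem_powerset] at hV
    congr 1
    apply Finset.sum_congr _ (fun _ _ => rfl)
    apply Finset.filter_congr
    intro n _
    exact (cond_iff h hdis c hV n).symm
  have hdj : ∀ V ⊆ Qx x, Disjoint V (nT (supp c)) := by
    intro V hV
    rw [Finset.disjoint_left]
    intro p hp hp'
    rw [mem_nT] at hp'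
    exact hdis p (hV hp) hp'.1
  have h2 : M * sI x h * ∏ p ∈ supp c, wi ρ x p =
      ∑ V ∈ (Qx x).powerset, (-1 : ℝ) ^ V.card *
        (M * ∏ p ∈ V ∪ nT (supp c), ((nI (Ac h c) p : ℝ) / (p : ℝ))) := by
    rw [sI_eq, Finset.mul_sum, Finset.sum_mul]
    apply Finset.sum_congr rfl
    intro V hV
    rw [mem_powerset] at hV
    rw [Finset.prod_union (hdj V hV)]
    have h3 : ∏ p ∈ V, ((nI (Ac h c) p : ℝ) / (p : ℝ)) =
        ∏ p ∈ V, ((nI (Pc h) p : ℝ) / (p : ℝ)) :=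
      Finset.prod_congr rfl fun p hp => by rw [nI_Ac_small h c (hV hp)]
    have h4 : ∏ p ∈ nT (supp c), ((nI (Ac h c) p : ℝ) / (p : ℝ)) =
        ∏ p ∈ supp c, wi ρ x p := by
      have h5 : ∏ p ∈ nT (supp c), ((nI (Ac h c) p : ℝ) / (p : ℝ)) =
          ∏ p ∈ nT (supp c), (1 / (p : ℝ)) :=
        Finset.prod_congr rfl fun p hp => by
          rw [nI_Ac_large h hdis c hx0 hp, Nat.cast_one]
      rw [h5]
      unfold nT
      rw [Finset.prod_map]
      rfl
    rw [h3, h4]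
    ring
  rw [h1, h2, ← Finset.sum_sub_distrib]
  refine (Finset.abs_sum_le_sum_abs _ _).trans ?_
  apply Finset.sum_le_sum
  intro V hV
  rw [mem_powerset] at hV
  rw [← mul_sub, abs_mul, abs_pow, abs_neg, abs_one, one_pow, one_mul]
  have hprime : ∀ p ∈ V ∪ nT (supp c), p.Prime := by
    intro p hp
    rw [mem_union] at hp
    rcases hp with hp | hp
    · exact Qx_prime (hV hp)
    · rw [mem_nT] at hp
      exact (PL_mem hx0 hp.1).1
  have h3 := local_sum F M ε hE (Ac h c) (V ∪ nT (supp c)) hprime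
  refine h3.trans ?_
  apply mul_le_mul_of_nonneg_right _ hε
  rw [Finset.prod_union (hdj V hV)]
  have h4 : ∏ p ∈ nT (supp c), (nI (Ac h c) p : ℝ) = 1 := by
    apply Finset.prod_eq_one
    intro p hp
    rw [nI_Ac_large h hdis c hx0 hp, Nat.cast_one]
  rw [h4, mul_one, ← Finset.prod_const]
  apply Finset.prod_le_prod
  · intro p _
    exact Nat.cast_nonneg _
  · intro p hp
    rw [nI_Ac_small h c (hV hp)]
    exact_mod_cast nI_le h (Qx_prime (hV hp)).pos

/-- The sum of the powers over the sets of primes of bounded product. -/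
theorem pow_sum (K : ℕ) (A : ℝ) : ∃ X : ℝ, 3 ≤ X ∧ ∀ x : ℝ, X ≤ x →
    ∑ U ∈ (PS (lev x) 1).powerset.filter (fun U => ∏ p ∈ U, p ≤ lev x ^ 2),
      (K : ℝ) ^ U.card * (1 / x ^ (1 / 2 : ℝ)) ≤ 1 / Real.log x ^ A := by
  obtain ⟨C, hC, hM⟩ := Pool.Agent.Helper44.sum_primesUpTo_bounds
  have hlo := isLittleO_log_rpow_rpow_atTop ((K : ℝ) + A) (show (0 : ℝ) < 1 / 4 by norm_num)
  have hev := hlo.def (show (0 : ℝ) < 1 / Real.exp (K * C) by positivity)
  rw [Filter.eventually_atTop] at hev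
  obtain ⟨X1, hX1⟩ := hev
  refine ⟨max X1 3, le_max_right _ _, ?_⟩
  intro x hx
  have hxX : X1 ≤ x := (le_max_left _ _).trans hx
  have hx3 : 3 ≤ x := (le_max_right _ _).trans hx
  have hx0 : 0 < x := by linarith
  have hL : 0 < Real.log x := Real.log_pos (by linarith)
  have h1 := hX1 x hxX
  have hpos1 : 0 < Real.log x ^ ((K : ℝ) + A) := Real.rpow_pos_of_pos hL _
  have hpos2 : 0 < x ^ (1 / 4 : ℝ) := Real.rpow_pos_of_pos hx0 _
  rw [Real.norm_of_nonneg hpos1.le, Real.norm_of_nonneg hpos2.le] at h1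
  have h2 : Real.exp (K * C) * Real.log x ^ ((K : ℝ) + A) ≤ x ^ (1 / 4 : ℝ) := by
    have h3 : 0 < Real.exp (K * C) := Real.exp_pos _
    rw [one_div, ← div_eq_inv_mul, le_div_iff₀ h3] at h1
    linarith
  have hlev : (lev x : ℝ) ≤ x ^ (1 / 81 : ℝ) := Nat.floor_le (Real.rpow_nonneg hx0.le _)
  have hlevx : (lev x : ℝ) ≤ x := by
    refine hlev.trans ?_
    conv_rhs => rw [← Real.rpow_one x]
    exact Real.rpow_le_rpow_of_exponent_le (by linarith) (by norm_num)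
  have h4 := Pool.Agent.Helper74.MT.sum_powerset_le hM (lev x) 1 x (by linarith) hlevx K
    (Nat.cast_nonneg _)
  have h5 : ∑ U ∈ (PS (lev x) 1).powerset.filter (fun U => ∏ p ∈ U, p ≤ lev x ^ 2),
      (K : ℝ) ^ U.card ≤ (lev x : ℝ) ^ 2 * (Real.exp (K * C) * Real.log x ^ (K : ℝ)) := by
    calc _ ≤ ∑ U ∈ (PS (lev x) 1).powerset.filter (fun U => ∏ p ∈ U, p ≤ lev x ^ 2),
          (lev x : ℝ) ^ 2 * ((K : ℝ) ^ U.card / ((∏ p ∈ U, p : ℕ) : ℝ)) := by
          apply Finset.sum_le_sum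
          intro U hU
          rw [mem_filter, mem_powerset] at hU
          have h6 : (0 : ℝ) < ((∏ p ∈ U, p : ℕ) : ℝ) := by
            have h7 : 0 < ∏ p ∈ U, p := by
              apply Finset.prod_pos
              intro p hp
              have h8 := hU.1 hp
              unfold PS at h8
              rw [mem_filter] at h8
              exact h8.2.1.pos
            exact_mod_cast h7
          have h7 : ((∏ p ∈ U, p : ℕ) : ℝ) ≤ (lev x : ℝ) ^ 2 := by exact_mod_cast hU.2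
          rw [mul_div_assoc', le_div_iff₀ h6, mul_comm]
          exact mul_le_mul_of_nonneg_right h7 (by positivity)
      _ ≤ ∑ U ∈ (PS (lev x) 1).powerset,
          (lev x : ℝ) ^ 2 * ((K : ℝ) ^ U.card / ((∏ p ∈ U, p : ℕ) : ℝ)) := by
          apply Finset.sum_le_sum_of_subset_of_nonneg (Finset.filter_subset _ _)
          intro U _ _
          positivity
      _ ≤ _ := by
          rw [← Finset.mul_sum]
          exact mul_le_mul_of_nonneg_left h4 (by positivity)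
  rw [← Finset.sum_mul, mul_one_div]
  have hA0 : 0 < Real.log x ^ A := Real.rpow_pos_of_pos hL _
  have hh0 : 0 < x ^ (1 / 2 : ℝ) := Real.rpow_pos_of_pos hx0 _
  rw [div_le_div_iff₀ hh0 hA0, one_mul]
  calc _ ≤ ((lev x : ℝ) ^ 2 * (Real.exp (K * C) * Real.log x ^ (K : ℝ))) * Real.log x ^ A :=
        mul_le_mul_of_nonneg_right h5 hA0.le
    _ = (lev x : ℝ) ^ 2 * (Real.exp (K * C) * Real.log x ^ ((K : ℝ) + A)) := by
        rw [Real.rpow_add hL]
        ring
    _ ≤ (x ^ (1 / 81 : ℝ)) ^ 2 * x ^ (1 / 4 : ℝ) := by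
        apply mul_le_mul (pow_le_pow_left₀ (Nat.cast_nonneg _) hlev 2) h2 (by positivity)
          (by positivity)
    _ = x ^ ((1 / 81 : ℝ) * 2 + 1 / 4) := by
        rw [Real.rpow_add hx0, Real.rpow_mul hx0.le]
        norm_num
    _ ≤ x ^ (1 / 2 : ℝ) := Real.rpow_le_rpow_of_exponent_le (by linarith) (by norm_num)

end TrI

theorem transferI : TransferI := by
  classical
  intro k u0 ρ θ A hρ hρ1 hθ hθ1 hA
  obtain ⟨XB, hXB, hB⟩ := TrI.pow_sum ((k + 1) * (u0 + 1)) (A + 1)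
  refine ⟨max XB (max (Real.exp 1000000) (Real.exp (((k : ℝ) + 1) ^ u0))),
    le_max_of_le_left hXB, ?_⟩
  intro x hx κ _ _ hκ h hinj hh μ hμ hμ'
  have hxB : XB ≤ x := (le_max_left _ _).trans hx
  have hx2 : Real.exp 1000000 ≤ x := ((le_max_left _ _).trans (le_max_right _ _)).trans hx
  have hx3 : Real.exp (((k : ℝ) + 1) ^ u0) ≤ x :=
    ((le_max_right _ _).trans (le_max_right _ _)).trans hx
  have hN := nf hρ hρ1 hx2
  have hx1 := hN.x_gt
  have hx0 : 0 < x := by linarith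
  have hβ := hB x hxB
  have hL : ((k : ℝ) + 1) ^ u0 ≤ Real.log x := by
    rw [Real.le_log_iff_exp_le hx0]
    exact hx3
  have hL0 : 0 < Real.log x := by
    have := hN.log_ge
    linarith
  have hε : 0 ≤ 1 / x ^ (1 / 2 : ℝ) := by positivity
  have hE : ∀ d c : ℕ, 0 < d → |∑ n ∈ (Nx θ x).filter (fun n => n ≡ c [MOD d]), 1 / (n : ℝ) -
      (1 / (d : ℝ)) * Mi θ x| ≤ 1 / x ^ (1 / 2 : ℝ) := by
    intro d c hd
    have h1 : ⌊x ^ θ⌋₊ ≤ ⌊x⌋₊ := by
      apply Nat.floor_le_floor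
      conv_rhs => rw [← Real.rpow_one x]
      exact Real.rpow_le_rpow_of_exponent_le hx1.le hθ1.le
    refine (TrI.class_est ⌊x ^ θ⌋₊ ⌊x⌋₊ d c hd h1).trans ?_
    apply one_div_le_one_div_of_le (Real.rpow_pos_of_pos hx0 _)
    have h2 : x ^ θ < (⌊x ^ θ⌋₊ : ℝ) + 1 := Nat.lt_floor_add_one _
    have h3 : x ^ (1 / 2 : ℝ) ≤ x ^ θ := Real.rpow_le_rpow_of_exponent_le hx1.le hθ
    linarith
  have hdisj : ∀ (n : ℕ) (i j : κ), i ≠ j → Disjoint (sg ρ x (h i) n) (sg ρ x (h j) n) := by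
    intro n i j hij
    rw [Finset.disjoint_left]
    intro p hp hp'
    rw [mem_sg] at hp hp'
    have h1 : ((p : ℕ) : ℤ) ∣ h i - h j := by
      have h2 := dvd_sub hp hp'
      have h3 : (n : ℤ) + h i - ((n : ℤ) + h j) = h i - h j := by ring
      rwa [h3] at h2
    refine not_dvd_h hx0 (sub_ne_zero.2 fun he => hij (hinj he)) ?_ p.2 h1
    push_cast
    refine (abs_sub _ _).trans ?_
    have h2 := hh i
    have h3 := hh j
    linarith
  set F : (PL ρ x → Option κ) → ℝ := fun c => ∏ i, μ i (cls c i) with hF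
  have h1 : ∑ n ∈ (Nx θ x).filter (fun n : ℕ => ∀ i, Int.gcd ((n : ℤ) + h i) (Ps x) = 1),
        1 / (n : ℝ) * ∏ i, ∑ S ∈ (sg ρ x (h i) n).powerset, μ i S =
      ∑ c : PL ρ x → Option κ, F c *
        ∑ n ∈ (Nx θ x).filter (fun n : ℕ => (∀ i, Int.gcd ((n : ℤ) + h i) (Ps x) = 1) ∧
          ∀ i, cls c i ⊆ sg ρ x (h i) n), 1 / (n : ℝ) := by
    have h2 : ∀ n ∈ (Nx θ x).filter
        (fun n : ℕ => ∀ i, Int.gcd ((n : ℤ) + h i) (Ps x) = 1),
        1 / (n : ℝ) * ∏ i, ∑ S ∈ (sg ρ x (h i) n).powerset, μ i S =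
        ∑ c : PL ρ x → Option κ,
          F c * (if (∀ i, cls c i ⊆ sg ρ x (h i) n) then 1 / (n : ℝ) else 0) := by
      intro n _
      rw [prod_sum_cls (fun i => sg ρ x (h i) n) (hdisj n) μ, Finset.sum_filter,
        Finset.mul_sum]
      apply Finset.sum_congr rfl
      intro c _
      by_cases h3 : ∀ i, cls c i ⊆ sg ρ x (h i) n
      · rw [if_pos h3, if_pos h3, mul_comm]
      · rw [if_neg h3, if_neg h3, mul_zero, mul_zero]
    rw [Finset.sum_congr rfl h2, Finset.sum_comm]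
    apply Finset.sum_congr rfl
    intro c _
    rw [← Finset.mul_sum, ← Finset.sum_filter, Finset.filter_filter]
  rw [h1, Eq_expand, Finset.mul_sum, ← Finset.sum_sub_distrib]
  have h2 : ∀ c : PL ρ x → Option κ, F c *
        ∑ n ∈ (Nx θ x).filter (fun n : ℕ => (∀ i, Int.gcd ((n : ℤ) + h i) (Ps x) = 1) ∧
          ∀ i, cls c i ⊆ sg ρ x (h i) n), 1 / (n : ℝ) -
      Mi θ x * sI x h * ((∏ i, μ i (cls c i)) * ∏ p ∈ supp c, wi ρ x p) =
      F c * (∑ n ∈ (Nx θ x).filter (fun n : ℕ =>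
          (∀ i, Int.gcd ((n : ℤ) + h i) (Ps x) = 1) ∧
          ∀ i, cls c i ⊆ sg ρ x (h i) n), 1 / (n : ℝ) -
        Mi θ x * sI x h * ∏ p ∈ supp c, wi ρ x p) := by
    intro c
    simp only [hF]
    ring
  rw [Finset.sum_congr rfl (fun c _ => h2 c)]
  refine (Finset.abs_sum_le_sum_abs _ _).trans ?_
  have h3 : ∀ c : PL ρ x → Option κ, |F c * (∑ n ∈ (Nx θ x).filter (fun n : ℕ =>
          (∀ i, Int.gcd ((n : ℤ) + h i) (Ps x) = 1) ∧
          ∀ i, cls c i ⊆ sg ρ x (h i) n), 1 / (n : ℝ) -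
        Mi θ x * sI x h * ∏ p ∈ supp c, wi ρ x p)| ≤
      |∏ i, μ i (cls c i)| * ∑ V ∈ (Qx x).powerset, (Fintype.card κ : ℝ) ^ V.card *
        (fun _ : ℕ => 1 / x ^ (1 / 2 : ℝ)) (∏ p ∈ V ∪ nT (supp c), p) := by
    intro c
    rw [abs_mul]
    apply mul_le_mul_of_nonneg_left _ (abs_nonneg _)
    exact TrI.one_col hx1 (Nx θ x) (Mi θ x) _ hε hE h hN.dis c
  refine (Finset.sum_le_sum fun c _ => h3 c).trans ?_
  refine (Pool.Agent.Helper1.LG.Tr.total hN hκ (Er := fun _ => 1 / x ^ (1 / 2 : ℝ))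
    (fun _ => hε) hβ μ hμ hμ').trans ?_
  rw [Real.rpow_add hL0, Real.rpow_one, mul_one_div, div_le_div_iff₀ (by positivity) (by positivity)]
  have h4 : 0 < Real.log x ^ A := Real.rpow_pos_of_pos hL0 _
  nlinarith

end Pool.Agent.Helper1.LG2
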