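import Pool.Agent.Helper1.LG.KeyEst
import Pool.Agent.Helper1.LG.Main
import Pool.Agent.Helper1.LG2.OnePos2
import Pool.Agent.Helper1.LG2.Excl2
import Pool.Agent.Helper1.LG2.Mob2
import Pool.Agent.Helper1.LG2.TransferI
import Pool.Agent.Helper1.LG2.Shift

set_option autoImplicit false

/-!
LG2 (helper1). The key estimates for integers and for primes.
-/

open Finset

namespace Pool.Agent.Helper1.LG2

open Pool.Agent.Helper1.MT (supp cls pr PS lev)
open Pool.Agent.Helper18.BV (wt IsWt)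
open Pool.Agent.Helper1.LG (Dt Ex Eq Reg tt PL wl Ps sg Bs Om nu Mn ev SS adm avg dn)

theorem wb_blank {ι : Type} [Fintype ι] [DecidableEq ι] {J' J1 : ℕ} (i1 : ℕ) (D : Dt ι)
    (S : Finset ι) : wb i1 D (blank J' J1) S = 1 := by
  unfold wb blank
  simp [Fb]

/-- Products over all positions and over the positions of the letters. -/
theorem prod_UW2 {Y J' J1 : ℕ} (W : Fin Y → Fin 4 → Lb J' J1)
    (f : Fin Y → (Fin 4 → Lb J' J1) → ℝ) (hf : ∀ i, f i (blank J' J1) = 1) :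
    ∏ i, f i (W i) = ∏ i : UW2 W, f i.1 (W i.1) := by
  rw [Finset.prod_coe_sort (UW2 W) (fun i => f i (W i))]
  symm
  apply Finset.prod_subset (Finset.subset_univ _)
  intro i _ hi
  unfold UW2 at hi
  rw [Finset.mem_filter, not_and, not_not] at hi
  rw [hi (Finset.mem_univ _), hf]

theorem sum_UW2 {Y J' J1 : ℕ} (W : Fin Y → Fin 4 → Lb J' J1) (f : (Fin 4 → Lb J' J1) → ℝ)
    (hf : f (blank J' J1) = 0) :
    ∑ i, f (W i) = ∑ i : UW2 W, f (W i.1) := by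
  rw [Finset.sum_coe_sort (UW2 W) (fun i => f (W i))]
  symm
  apply Finset.sum_subset (Finset.subset_univ _)
  intro i _ hi
  unfold UW2 at hi
  rw [Finset.mem_filter, not_and, not_not] at hi
  rw [hi (Finset.mem_univ _), hf]

theorem Mi_nonneg (θ x : ℝ) : 0 ≤ Mi θ x :=
  Finset.sum_nonneg fun n _ => by positivity

/-- Regularity of the data, and the facts used in the key estimates. -/
theorem reg_of {ρ t : ℝ} {J : ℕ} {r : ℕ → ℕ} (hρ : 0 < ρ) (hρ1 : ρ ≤ 1 / 100) (hJ : 0 < J)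
    (ht : t ≤ 1 / 1000) (hr : ∀ i, Even (r i)) (htail : ∀ I : ℕ, ∑ i ∈ range I, tt (r i) ≤ t)
    (u0 : ℕ) : ∃ X0 : ℝ, 3 ≤ X0 ∧ ∀ x : ℝ, X0 ≤ x → Reg (Dg ρ r x) J t ∧
      (∀ p : PL ρ x, (u0 : ℝ) * wl ρ x p ≤ 1 / 4) ∧ ∑ p, wl ρ x p ^ 2 ≤ 4 / Real.log x ^ 2 ∧
      ∑ p, wl ρ x p ^ 2 ≤ 1 ∧
      (∀ p : PL ρ x, Real.log ((p : ℕ) : ℝ) / Real.log x ≤ ρ / 2 ^ (Dg ρ r x).rg p) ∧
      1 ≤ Real.log x := by
  obtain ⟨X1, hX1, h1⟩ := LG.mf1 ρ 0 J hρ hρ1 hJ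
  refine ⟨max X1 (Real.exp (8 * u0 + 3)), hX1.trans (le_max_left _ _), ?_⟩
  intro x hx
  have hx1 : X1 ≤ x := (le_max_left _ _).trans hx
  have hx3 : Real.exp (8 * u0 + 3) ≤ x := (le_max_right _ _).trans hx
  have hx0 : 0 < x := by linarith
  have hL : 8 * (u0 : ℝ) + 3 ≤ Real.log x := by
    rw [← Real.log_exp (8 * (u0 : ℝ) + 3)]
    exact Real.log_le_log (Real.exp_pos _) hx3
  have hu0 : (0 : ℝ) ≤ u0 := Nat.cast_nonneg _
  have hL0 : 0 < Real.log x := by linarith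
  obtain ⟨a1, a2, a3, a4, a5, a6, a7⟩ := h1 x hx1
  have hL2 : 0 < Real.log x ^ 2 := by positivity
  have hw14 : 2 / Real.log x ^ 2 ≤ 1 / 4 := by
    rw [div_le_iff₀ hL2]
    nlinarith
  refine ⟨?_, ?_, a6, ?_, a7, by linarith⟩
  · exact
    { w_nonneg := fun p => (a1 p).1
      w_le := fun p => (a1 p).2.trans hw14
      rg_lt := a2
      la_le := a3
      la_ge := a4
      J_pos := hJ
      J_le := a5
      even := hr
      tail := htail _
      t_le := ht }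
  · intro p
    have b2 := (a1 p).2
    have b4 : (u0 : ℝ) * (2 / Real.log x ^ 2) ≤ 1 / 4 := by
      rw [mul_div_assoc', div_le_iff₀ hL2]
      nlinarith
    exact (mul_le_mul_of_nonneg_left b2 hu0).trans b4
  · refine a6.trans ?_
    rw [div_le_one hL2]
    nlinarith

theorem keyI (ρ θ t A : ℝ) (J' J1 i1 u0 : ℕ) (r : ℕ → ℕ) (hρ : 0 < ρ) (hρ1 : ρ ≤ 1 / 100)
    (hθ : 1 / 2 ≤ θ) (hθ1 : θ < 1) (hA : 0 < A) (hJ' : J' ≤ i1) (hJ1 : 0 < J1)
    (ht : t ≤ 1 / 1000) (hr : ∀ i, Even (r i)) (htail : ∀ I : ℕ, ∑ i ∈ range I, tt (r i) ≤ t) :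
    ∃ c X0 : ℝ, 0 < c ∧ 3 ≤ X0 ∧ ∀ x : ℝ, X0 ≤ x → ∀ (Y : ℕ) (h : Fin Y → ℤ),
      Function.Injective h → (∀ i, 2 * |(h i : ℝ)| ≤ Real.log x ^ 2) →
      ∀ W : Fin Y → Fin 4 → Lb J' J1, (UW2 W).card ≤ u0 →
      ∑ i, ∑ l, lb i1 (Dg ρ r x) ρ (W i l) ≤ 1 / 50 →
      |∑ n ∈ (Nx θ x).filter (fun n => UW2 W ⊆ Bs x h n),
          1 / (n : ℝ) * ∏ i, ∏ l, Fb i1 (Dg ρ r x) (W i l) (sg ρ x (h i) n) -
        Mi θ x * dn (range (Ps x)) (Bs x h) (UW2 W) *
          ∏ i, Ex (wl ρ x) (wb i1 (Dg ρ r x) (W i))| ≤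
        1 / Real.log x ^ A + (c / Real.log x ^ 2) * Mi θ x *
          dn (range (Ps x)) (Bs x h) (UW2 W) * (Dg ρ r x).Plow (i1 + J1) ^ (UW2 W).card := by
  obtain ⟨cX, hcX, hX⟩ := excl2 J' J1 i1 u0 hJ' hJ1
  obtain ⟨X1, hX1, h1⟩ := reg_of hρ hρ1 (J := i1 + J1) (by omega) ht hr htail u0
  obtain ⟨X2, hX2, h2⟩ := transferI (10 ^ 4) u0 ρ θ A hρ hρ1 hθ hθ1 hA
  refine ⟨4 * cX, max X1 X2, by positivity, hX1.trans (le_max_left _ _), ?_⟩
  intro x hx
  have hx1 : X1 ≤ x := (le_max_left _ _).trans hx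
  have hx2 : X2 ≤ x := (le_max_right _ _).trans hx
  obtain ⟨hreg, b1, b2, b3, b4, b5⟩ := h1 x hx1
  have hL0 : 0 < Real.log x := by linarith
  intro Y h hinj hh W hWu hlev
  have hmob := fun i : UW2 W => mob2 _ (Dg ρ r x) J' J1 i1 t hJ' hJ1 hreg
    (fun p : PL ρ x => Real.log ((p : ℕ) : ℝ) / Real.log x) ρ hρ.le
    (fun p => div_nonneg (Real.log_natCast_nonneg _) hL0.le) b4 (W i.1)
  choose μ hμ1 hμ2 hμ3 using hmob
  have hcard : Fintype.card (UW2 W) = (UW2 W).card := Fintype.card_coe _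
  have htr := h2 x hx2 (UW2 W) (by rw [hcard]; exact hWu) (fun i => h i.1)
    (fun i j hij => Subtype.ext (hinj hij)) (fun i => hh i.1) μ (by
      intro i S
      refine (hμ2 i S).trans ?_
      have b1 : (32 : ℝ) ^ S.card ≤ (10 ^ 4) ^ S.card :=
        pow_le_pow_left₀ (by norm_num) (by norm_num) _
      calc (10 : ℝ) ^ 4 * 32 ^ S.card ≤ 10 ^ 4 * (10 ^ 4) ^ S.card :=
            mul_le_mul_of_nonneg_left b1 (by norm_num)
        _ = (((10 ^ 4 : ℕ)) : ℝ) ^ (S.card + 1) := by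
            push_cast
            ring) (by
      intro S hS
      have c1 : ∀ i : UW2 W, ∑ p ∈ S i, Real.log ((p : ℕ) : ℝ) ≤
          Real.log x * ∑ l, lb i1 (Dg ρ r x) ρ (W i.1 l) := by
        intro i
        have c2 := hμ3 i (S i) (hS i)
        rw [← Finset.sum_div, div_le_iff₀ hL0] at c2
        rw [mul_comm]
        exact c2
      calc ∑ i, ∑ p ∈ S i, Real.log ((p : ℕ) : ℝ) ≤
          ∑ i : UW2 W, Real.log x * ∑ l, lb i1 (Dg ρ r x) ρ (W i.1 l) :=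
            Finset.sum_le_sum fun i _ => c1 i
        _ = Real.log x * ∑ i, ∑ l, lb i1 (Dg ρ r x) ρ (W i l) := by
            rw [← Finset.mul_sum, sum_UW2 W (fun V => ∑ l, lb i1 (Dg ρ r x) ρ (V l))]
            simp [blank, lb]
        _ ≤ Real.log x * (1 / 50) := mul_le_mul_of_nonneg_left hlev hL0.le
        _ = Real.log x / 50 := by ring)
  have e1 : ∀ (i : UW2 W) (S : Finset (PL ρ x)), ∑ S' ∈ S.powerset, μ i S' =
      wb i1 (Dg ρ r x) (W i.1) S := fun i S => (hμ1 i S).symm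
  simp only [e1] at htr
  have e2 : (Nx θ x).filter (fun n : ℕ => ∀ i : UW2 W,
      Int.gcd ((n : ℤ) + h i.1) (Ps x) = 1) =
      (Nx θ x).filter (fun n => UW2 W ⊆ Bs x h n) := by
    apply Finset.filter_congr
    intro n _
    constructor
    · intro hn i hi
      unfold Bs
      rw [Finset.mem_filter]
      exact ⟨Finset.mem_univ _, hn ⟨i, hi⟩⟩
    · intro hn i
      have := hn i.2
      unfold Bs at this
      rw [Finset.mem_filter] at this
      exact this.2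
  have e3 : ∀ n : ℕ, ∏ i, ∏ l, Fb i1 (Dg ρ r x) (W i l) (sg ρ x (h i) n) =
      ∏ i : UW2 W, wb i1 (Dg ρ r x) (W i.1) (sg ρ x (h i.1) n) := by
    intro n
    exact prod_UW2 W (fun i V => wb i1 (Dg ρ r x) V (sg ρ x (h i) n)) (fun i => wb_blank _ _ _)
  have e4 : sI x (fun i : UW2 W => h i.1) = dn (range (Ps x)) (Bs x h) (UW2 W) := by
    unfold sI dn
    rw [Finset.card_range]
    congr 2
    apply congrArg
    apply Finset.filter_congr
    intro n _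
    constructor
    · intro hn i hi
      unfold Bs
      rw [Finset.mem_filter]
      exact ⟨Finset.mem_univ _, hn ⟨i, hi⟩⟩
    · intro hn i
      have := hn i.2
      unfold Bs at this
      rw [Finset.mem_filter] at this
      exact this.2
  have e5 : ∏ i, Ex (wl ρ x) (wb i1 (Dg ρ r x) (W i)) =
      ∏ i : UW2 W, Ex (wl ρ x) (wb i1 (Dg ρ r x) (W i.1)) := by
    refine prod_UW2 W (fun i V => Ex (wl ρ x) (wb i1 (Dg ρ r x) V)) (fun i => ?_)
    have : wb i1 (Dg ρ r x) (blank J' J1) = fun _ => 1 := funext fun S => wb_blank _ _ _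
    rw [this, LG.Ex_one]
  rw [e2, e4] at htr
  simp only [e3]
  rw [e5]
  have hwi : ∀ p, 0 ≤ wi ρ x p ∧ |wi ρ x p - (Dg ρ r x).w p| ≤ (Dg ρ r x).w p ^ 2 := by
    intro p
    have hpm := p.2
    unfold PL at hpm
    rw [Finset.mem_filter] at hpm
    have hp2 : (2 : ℝ) ≤ ((p : ℕ) : ℝ) := by exact_mod_cast hpm.2.1.two_le
    show 0 ≤ wi ρ x p ∧ |wi ρ x p - wl ρ x p| ≤ wl ρ x p ^ 2
    unfold wi wl
    have hp1 : 0 < ((p : ℕ) : ℝ) - 1 := by linarith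
    have hp0 : 0 < ((p : ℕ) : ℝ) := by linarith
    refine ⟨by positivity, ?_⟩
    have c1 : 1 / ((p : ℕ) : ℝ) - 1 / (((p : ℕ) : ℝ) - 1) =
        -(1 / (((p : ℕ) : ℝ) * (((p : ℕ) : ℝ) - 1))) := by
      field_simp
      ring
    rw [c1, abs_neg, abs_of_pos (by positivity), one_div_pow]
    apply one_div_le_one_div_of_le (by positivity)
    rw [sq]
    exact mul_le_mul_of_nonneg_right (by linarith) hp1.le
  have hex := hX _ (Dg ρ r x) t hreg (wi ρ x) hwi (UW2 W) (by rw [hcard]; exact hWu) (by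
    intro p
    rw [hcard]
    have c1 : ((UW2 W).card : ℝ) ≤ u0 := by exact_mod_cast hWu
    exact (mul_le_mul_of_nonneg_right c1 (hreg.w_nonneg p)).trans (b1 p)) b3
    (fun i => W i.1) (fun i => by
    have := i.2
    unfold UW2 at this
    rw [Finset.mem_filter] at this
    exact this.2)
  rw [hcard] at hex
  have hM := Mi_nonneg θ x
  have hd := LG.dn_nonneg (range (Ps x)) (Bs x h) (UW2 W)
  have hP := LG.Plow_nonneg hreg (i1 + J1)
  set S0 := ∑ n ∈ (Nx θ x).filter (fun n => UW2 W ⊆ Bs x h n),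
    1 / (n : ℝ) * ∏ i : UW2 W, wb i1 (Dg ρ r x) (W i.1) (sg ρ x (h i.1) n) with hS0
  set Q0 := Eq (UW2 W) (wi ρ x) (fun σ => ∏ i : UW2 W, wb i1 (Dg ρ r x) (W i.1) (cls σ i))
    with hQ0
  set E0 := ∏ i : UW2 W, Ex (wl ρ x) (wb i1 (Dg ρ r x) (W i.1)) with hE0
  have hex' : |Q0 - E0| ≤ cX * (4 / Real.log x ^ 2) *
      (Dg ρ r x).Plow (i1 + J1) ^ (UW2 W).card := by
    refine hex.trans ?_
    refine mul_le_mul_of_nonneg_right ?_ (pow_nonneg hP _)
    exact mul_le_mul_of_nonneg_left b2 hcX.le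
  have hMd : 0 ≤ Mi θ x * dn (range (Ps x)) (Bs x h) (UW2 W) := mul_nonneg hM hd
  calc |S0 - Mi θ x * dn (range (Ps x)) (Bs x h) (UW2 W) * E0|
      = |(S0 - Mi θ x * dn (range (Ps x)) (Bs x h) (UW2 W) * Q0) +
          Mi θ x * dn (range (Ps x)) (Bs x h) (UW2 W) * (Q0 - E0)| := by congr 1; ring
    _ ≤ |S0 - Mi θ x * dn (range (Ps x)) (Bs x h) (UW2 W) * Q0| +
          |Mi θ x * dn (range (Ps x)) (Bs x h) (UW2 W) * (Q0 - E0)| := abs_add_le _ _
    _ ≤ 1 / Real.log x ^ A + Mi θ x * dn (range (Ps x)) (Bs x h) (UW2 W) *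
          (cX * (4 / Real.log x ^ 2) * (Dg ρ r x).Plow (i1 + J1) ^ (UW2 W).card) := by
        refine add_le_add htr ?_
        rw [abs_mul, abs_of_nonneg hMd]
        exact mul_le_mul_of_nonneg_left hex' hMd
    _ = _ := by ring

end Pool.Agent.Helper1.LG2
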