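import Pool.Agent.Helper1.LG2.Key2

set_option autoImplicit false

/-!
LG2 (helper1). The key estimate for primes at a base position.
-/

open Finset Filter

namespace Pool.Agent.Helper1.LG2

open Pool.Agent.Helper1.MT (supp cls pr PS lev)
open Pool.Agent.Helper18.BV (wt IsWt)
open Pool.Agent.Helper1.LG (Dt Ex Eq Reg tt PL wl Ps sg Bs Om nu Mn ev SS adm avg dn sP)

theorem nu_supp {g : ℝ → ℝ} {θ' : ℝ} (hs : ∀ v, g v ≠ 0 → θ' < v ∧ v < 1 - (1 - θ') / 100)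
    {x : ℝ} (hx : 1 < x) {n : ℕ} (h : nu g x n ≠ 0) :
    n.Prime ∧ x ^ θ' < n ∧ (n : ℝ) < x ^ (1 - (1 - θ') / 100) := by
  have hlog : 0 < Real.log x := Real.log_pos hx
  have hx0 : 0 < x := by linarith
  unfold nu at h
  have hp : n.Prime := by
    by_contra hc
    rw [if_neg hc] at h
    exact h rfl
  rw [if_pos hp] at h
  have h0 : wt g x n ≠ 0 := right_ne_zero_of_mul h
  unfold wt at h0
  have h1 : g (Real.log n / Real.log x) ≠ 0 := fun h2 => h0 (by rw [h2, zero_div])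
  have hn : (0 : ℝ) < n := by exact_mod_cast hp.pos
  obtain ⟨h3, h4⟩ := hs _ h1
  rw [lt_div_iff₀ hlog, ← Real.log_rpow hx0] at h3
  rw [div_lt_iff₀ hlog, ← Real.log_rpow hx0] at h4
  exact ⟨hp, (Real.log_lt_log_iff (Real.rpow_pos_of_pos hx0 _) hn).1 h3,
    (Real.log_lt_log_iff hn (Real.rpow_pos_of_pos hx0 _)).1 h4⟩

/-- The shift by the base position. -/
theorem shift_sum {g : ℝ → ℝ} {θ θ' : ℝ} (hs : ∀ v, g v ≠ 0 → θ' < v ∧ v < 1 - (1 - θ') / 100)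
    {x : ℝ} (hx : 1 < x) {H : ℝ}
    (hb1 : x ^ θ + H + 1 ≤ x ^ θ') (hb2 : x ^ (1 - (1 - θ') / 100) + H + 1 ≤ x)
    {hp : ℤ} (hH : |(hp : ℝ)| ≤ H) (Q : ℕ → Prop) [DecidablePred Q] (f : ℕ → ℝ) :
    ∑ n ∈ (Nx θ x).filter (fun n : ℕ => Q ((n : ℤ) + hp).toNat),
      nu g x ((n : ℤ) + hp).toNat * f ((n : ℤ) + hp).toNat =
    ∑ n ∈ (Icc 1 ⌊x⌋₊).filter Q, nu g x n * f n := by
  have hx0 : 0 < x := by linarith
  have hHl := abs_le.1 hH
  have hxθ : 0 ≤ x ^ θ := Real.rpow_nonneg hx0.le _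
  apply Finset.sum_bij_ne_zero (fun (n : ℕ) _ _ => ((n : ℤ) + hp).toNat)
  · intro n hn hne
    rw [Finset.mem_filter] at hn ⊢
    obtain ⟨h1, h2, h3⟩ := nu_supp hs hx (left_ne_zero_of_mul hne)
    refine ⟨Finset.mem_Icc.2 ⟨h1.one_le, Nat.le_floor ?_⟩, hn.2⟩
    linarith [abs_nonneg (hp : ℝ)]
  · intro n hn hne m hm hme h
    obtain ⟨h1, _, _⟩ := nu_supp hs hx (left_ne_zero_of_mul hne)
    have h2 := h1.pos
    have h' : ((n : ℤ) + hp).toNat = ((m : ℤ) + hp).toNat := h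
    omega
  · intro n hn hne
    rw [Finset.mem_filter, Finset.mem_Icc] at hn
    obtain ⟨h1, h2, h3⟩ := nu_supp hs hx (left_ne_zero_of_mul hne)
    have h4 : (0 : ℝ) < (n : ℝ) - hp := by linarith
    have h5 : (0 : ℤ) < (n : ℤ) - hp := by exact_mod_cast h4
    have h6 : (((n : ℤ) - hp).toNat : ℤ) = n - hp := Int.toNat_of_nonneg h5.le
    have h6r : ((((n : ℤ) - hp).toNat : ℕ) : ℝ) = n - hp := by exact_mod_cast h6
    have h7 : ((((n : ℤ) - hp).toNat : ℕ) : ℤ) + hp = n := by rw [h6]; ring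
    have h8 : (((((n : ℤ) - hp).toNat : ℕ) : ℤ) + hp).toNat = n := by rw [h7]; simp
    refine ⟨((n : ℤ) - hp).toNat, ?_, ?_, h8⟩
    · rw [Finset.mem_filter, h8]
      refine ⟨?_, hn.2⟩
      unfold Nx
      rw [Finset.mem_Ioc]
      constructor
      · rw [Nat.floor_lt hxθ, h6r]
        linarith
      · apply Nat.le_floor
        rw [h6r]
        linarith
    · rw [h8]
      exact hne
  · intro n _ _
    rfl

theorem ev_shift {θ θ' : ℝ} (hθ0 : 0 < θ) (h : θ < θ') (h' : θ' < 1) : ∀ᶠ x : ℝ in atTop,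
    x ^ θ + Real.log x ^ 2 + 1 ≤ x ^ θ' ∧
    x ^ (1 - (1 - θ') / 100) + Real.log x ^ 2 + 1 ≤ x ∧ Real.log x ^ 2 + 1 ≤ x ^ θ := by
  have key : ∀ a b : ℝ, 0 ≤ a → a < b → ∀ᶠ x : ℝ in atTop,
      x ^ a + Real.log x ^ 2 + 1 ≤ x ^ b := by
    intro a b ha hab
    have hb : 0 < b := by linarith
    have h1 : ∀ᶠ x : ℝ in atTop, |Real.log x| ≤ (1 / 2) * |x ^ (b / 2 : ℝ)| := by
      have := (isLittleO_log_rpow_atTop (show (0 : ℝ) < b / 2 by linarith)).bound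
        (show (0 : ℝ) < 1 / 2 by norm_num)
      simpa using this
    have h2 : ∀ᶠ x : ℝ in atTop, 4 ≤ x ^ (b - a) :=
      (tendsto_rpow_atTop (by linarith)).eventually_ge_atTop 4
    have h3 : ∀ᶠ x : ℝ in atTop, 4 ≤ x ^ b := (tendsto_rpow_atTop hb).eventually_ge_atTop 4
    filter_upwards [h1, h2, h3, eventually_gt_atTop 1] with x a1 a2 a3 a4
    have hx0 : 0 < x := by linarith
    have hs : 0 < x ^ (b / 2 : ℝ) := Real.rpow_pos_of_pos hx0 _
    have hl : 0 ≤ Real.log x := Real.log_nonneg a4.le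
    rw [abs_of_nonneg hl, abs_of_pos hs] at a1
    have b1 : Real.log x ^ 2 ≤ x ^ b / 4 := by
      have : x ^ b = (x ^ (b / 2 : ℝ)) ^ 2 := by
        rw [← Real.rpow_natCast, ← Real.rpow_mul hx0.le]
        congr 1
        push_cast
        ring
      rw [this]
      nlinarith
    have b2 : x ^ b = x ^ a * x ^ (b - a) := by
      rw [← Real.rpow_add hx0]
      congr 1
      ring
    have b3 : 0 < x ^ a := Real.rpow_pos_of_pos hx0 _
    nlinarith
  have h1 := key θ θ' hθ0.le h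
  have h2 := key (1 - (1 - θ') / 100) 1 (by linarith) (by linarith)
  have h3 := key 0 θ le_rfl hθ0
  filter_upwards [h1, h2, h3] with x a1 a2 a3
  rw [Real.rpow_one] at a2
  rw [Real.rpow_zero] at a3
  exact ⟨a1, a2, by linarith⟩

theorem keyP {g : ℝ → ℝ} (hg : IsWt g) {θ' : ℝ}
    (hs : ∀ v, g v ≠ 0 → θ' < v ∧ v < 1 - (1 - θ') / 100)
    (ρ θ t A : ℝ) (J' J1 i1 u0 : ℕ) (r : ℕ → ℕ) (hρ : 0 < ρ) (hρ1 : ρ ≤ 1 / 100)
    (hθ : 1 / 2 ≤ θ) (hθθ : θ < θ') (hθ1 : θ' < 1) (hA : 0 < A) (hJ' : J' ≤ i1) (hJ1 : 0 < J1)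
    (ht : t ≤ 1 / 1000) (hr : ∀ i, Even (r i)) (htail : ∀ I : ℕ, ∑ i ∈ range I, tt (r i) ≤ t) :
    ∃ c X0 : ℝ, 0 < c ∧ 3 ≤ X0 ∧ ∀ x : ℝ, X0 ≤ x → ∀ (Y : ℕ) (h : Fin Y → ℤ),
      Function.Injective h → (∀ i, 4 * |(h i : ℝ)| ≤ Real.log x ^ 2) → ∀ p : Fin Y,
      ∀ W : Fin Y → Fin 4 → Lb J' J1, W p = blank J' J1 → (UW2 W).card ≤ u0 →
      ∑ i, ∑ l, lb i1 (Dg ρ r x) ρ (W i l) ≤ 1 / 50 →
      |∑ n ∈ (Nx θ x).filter (fun n => UW2 W ⊆ Bs x h n),
          nu g x ((n : ℤ) + h p).toNat *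
            ∏ i, ∏ l, Fb i1 (Dg ρ r x) (W i l) (sg ρ x (h i) n) -
        Mn g x * (((range (Ps x)).filter (fun a => insert p (UW2 W) ⊆ Bs x h a)).card /
          ((Om x).card : ℝ)) *
          ∏ i, Ex (wl ρ x) (wb i1 (Dg ρ r x) (W i))| ≤
        1 / Real.log x ^ A + (c / Real.log x ^ 2) * Mn g x *
          (((range (Ps x)).filter (fun a => insert p (UW2 W) ⊆ Bs x h a)).card /
          ((Om x).card : ℝ)) * (Dg ρ r x).Plow (i1 + J1) ^ (UW2 W).card := by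
  obtain ⟨cX, hcX, hX⟩ := excl2 J' J1 i1 u0 hJ' hJ1
  obtain ⟨X1, hX1, h1⟩ := reg_of hρ hρ1 (J := i1 + J1) (by omega) ht hr htail u0
  obtain ⟨X2, hX2, h2⟩ := LG.transfer g hg (10 ^ 4) u0 ρ A hρ hρ1 hA
  obtain ⟨X3, hX3⟩ := eventually_atTop.1 (ev_shift (by linarith) hθθ hθ1)
  refine ⟨4 * cX, max (max X1 X2) X3, by positivity,
    hX1.trans ((le_max_left _ _).trans (le_max_left _ _)), ?_⟩
  intro x hx
  have hx1 : X1 ≤ x := ((le_max_left _ _).trans (le_max_left _ _)).trans hx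
  have hx2 : X2 ≤ x := ((le_max_right _ _).trans (le_max_left _ _)).trans hx
  obtain ⟨hb1, hb2, hb3⟩ := hX3 x ((le_max_right _ _).trans hx)
  obtain ⟨hreg, b1, b2, b3, b4, b5⟩ := h1 x hx1
  have hx3' : 1 < x := by linarith
  have hL0 : 0 < Real.log x := by linarith
  intro Y h hinj hh p W hWp hWu hlev
  have hpU : ∀ i : UW2 W, i.1 ≠ p := by
    intro i hi
    have := i.2
    unfold UW2 at this
    rw [Finset.mem_filter] at this
    exact this.2 (by rw [hi, hWp])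
  have hmob := fun i : UW2 W => mob2 _ (Dg ρ r x) J' J1 i1 t hJ' hJ1 hreg
    (fun p : PL ρ x => Real.log ((p : ℕ) : ℝ) / Real.log x) ρ hρ.le
    (fun p => div_nonneg (Real.log_natCast_nonneg _) hL0.le) b4 (W i.1)
  choose μ hμ1 hμ2 hμ3 using hmob
  have hcard : Fintype.card (UW2 W) = (UW2 W).card := Fintype.card_coe _
  have htr := h2 x hx2 (UW2 W) (by rw [hcard]; exact hWu) (fun i => h i.1 - h p)
    (fun i j hij => Subtype.ext (hinj (by simpa using hij))) (fun i => by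
      refine ⟨sub_ne_zero.2 fun h0 => hpU i (hinj h0), ?_⟩
      push_cast
      have c1 := hh i.1
      have c2 := hh p
      have c3 : |(h i.1 : ℝ) - h p| ≤ |(h i.1 : ℝ)| + |(h p : ℝ)| := abs_sub _ _
      linarith) μ (by
      intro i S
      refine (hμ2 i S).trans ?_
      have b1 : (32 : ℝ) ^ S.card ≤ (10 ^ 4) ^ S.card :=
        pow_le_pow_left₀ (by norm_num) (by norm_num) _
      calc (10 : ℝ) ^ 4 * 32 ^ S.card ≤ 10 ^ 4 * (10 ^ 4) ^ S.card :=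
            mul_le_mul_of_nonneg_left b1 (by norm_num)
        _ = (((10 ^ 4 : ℕ)) : ℝ) ^ (S.card + 1) := by
            push_cast
            ring) (by
      intro S hS
      have c1 : ∀ i : UW2 W, ∑ p ∈ S i, Real.log ((p : ℕ) : ℝ) ≤
          Real.log x * ∑ l, lb i1 (Dg ρ r x) ρ (W i.1 l) := by
        intro i
        have c2 := hμ3 i (S i) (hS i)
        rw [← Finset.sum_div, div_le_iff₀ hL0] at c2
        rw [mul_comm]
        exact c2
      calc ∑ i, ∑ p ∈ S i, Real.log ((p : ℕ) : ℝ) ≤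
          ∑ i : UW2 W, Real.log x * ∑ l, lb i1 (Dg ρ r x) ρ (W i.1 l) :=
            Finset.sum_le_sum fun i _ => c1 i
        _ = Real.log x * ∑ i, ∑ l, lb i1 (Dg ρ r x) ρ (W i l) := by
            rw [← Finset.mul_sum, sum_UW2 W (fun V => ∑ l, lb i1 (Dg ρ r x) ρ (V l))]
            simp [blank, lb]
        _ ≤ Real.log x * (1 / 50) := mul_le_mul_of_nonneg_left hlev hL0.le
        _ = Real.log x / 50 := by ring)
  have e1 : ∀ (i : UW2 W) (S : Finset (PL ρ x)), ∑ S' ∈ S.powerset, μ i S' =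
      wb i1 (Dg ρ r x) (W i.1) S := fun i S => (hμ1 i S).symm
  simp only [e1] at htr
  -- change of variables
  have hHp : |(h p : ℝ)| ≤ Real.log x ^ 2 := by
    have := hh p
    have := abs_nonneg (h p : ℝ)
    linarith
  have hcast : ∀ n ∈ Nx θ x, ((((n : ℤ) + h p).toNat : ℕ) : ℤ) = n + h p := by
    intro n hn
    unfold Nx at hn
    rw [Finset.mem_Ioc] at hn
    apply Int.toNat_of_nonneg
    have c1 : x ^ θ < n := (Nat.floor_lt (Real.rpow_nonneg (by linarith) _)).1 hn.1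
    have c2 := (abs_le.1 hHp).1
    have c3 : (0 : ℝ) ≤ (n : ℝ) + h p := by linarith
    exact_mod_cast c3
  have hsgeq : ∀ n ∈ Nx θ x, ∀ i : UW2 W,
      sg ρ x (h i.1) n = sg ρ x (h i.1 - h p) ((n : ℤ) + h p).toNat := by
    intro n hn i
    unfold sg
    rw [hcast n hn]
    have c1 : (n : ℤ) + h p + (h i.1 - h p) = n + h i.1 := by ring
    rw [c1]
  have hfil : (Nx θ x).filter (fun n => UW2 W ⊆ Bs x h n) =
      (Nx θ x).filter (fun n : ℕ => ∀ i : UW2 W,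
        Int.gcd (((((n : ℤ) + h p).toNat : ℕ) : ℤ) + (h i.1 - h p)) (Ps x) = 1) := by
    apply Finset.filter_congr
    intro n hn
    rw [hcast n hn]
    constructor
    · intro hn i
      have c0 := hn i.2
      unfold Bs at c0
      rw [Finset.mem_filter] at c0
      have c1 : (n : ℤ) + h p + (h i.1 - h p) = n + h i.1 := by ring
      rw [c1]
      exact c0.2
    · intro hn i hi
      have c0 := hn ⟨i, hi⟩
      have c1 : (n : ℤ) + h p + (h i - h p) = n + h i := by ring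
      rw [c1] at c0
      unfold Bs
      exact Finset.mem_filter.2 ⟨Finset.mem_univ _, c0⟩
  have e3 : ∀ n : ℕ, ∏ i, ∏ l, Fb i1 (Dg ρ r x) (W i l) (sg ρ x (h i) n) =
      ∏ i : UW2 W, wb i1 (Dg ρ r x) (W i.1) (sg ρ x (h i.1) n) := by
    intro n
    exact prod_UW2 W (fun i V => wb i1 (Dg ρ r x) V (sg ρ x (h i) n)) (fun i => wb_blank _ _ _)
  have hsum : ∑ n ∈ (Nx θ x).filter (fun n => UW2 W ⊆ Bs x h n),
      nu g x ((n : ℤ) + h p).toNat *
        ∏ i, ∏ l, Fb i1 (Dg ρ r x) (W i l) (sg ρ x (h i) n) =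
      ∑ n ∈ (Icc 1 ⌊x⌋₊).filter (fun n : ℕ => ∀ i : UW2 W,
        Int.gcd ((n : ℤ) + (h i.1 - h p)) (Ps x) = 1),
        nu g x n * ∏ i : UW2 W, wb i1 (Dg ρ r x) (W i.1) (sg ρ x (h i.1 - h p) n) := by
    rw [← shift_sum hs hx3' hb1 hb2 hHp (fun n : ℕ => ∀ i : UW2 W,
        Int.gcd ((n : ℤ) + (h i.1 - h p)) (Ps x) = 1)
      (fun n => ∏ i : UW2 W, wb i1 (Dg ρ r x) (W i.1) (sg ρ x (h i.1 - h p) n)), hfil]
    refine Finset.sum_congr rfl fun n hn => ?_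
    rw [e3]
    congr 1
    refine Finset.prod_congr rfl fun i _ => ?_
    rw [hsgeq n (Finset.mem_filter.1 hn).1 i]
  have e4 : sP x (fun i : UW2 W => h i.1 - h p) =
      ((range (Ps x)).filter (fun a => insert p (UW2 W) ⊆ Bs x h a)).card /
          ((Om x).card : ℝ) := by
    unfold LG.sP
    rw [card_base]
  have e5 : ∏ i, Ex (wl ρ x) (wb i1 (Dg ρ r x) (W i)) =
      ∏ i : UW2 W, Ex (wl ρ x) (wb i1 (Dg ρ r x) (W i.1)) := by
    refine prod_UW2 W (fun i V => Ex (wl ρ x) (wb i1 (Dg ρ r x) V)) (fun i => ?_)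
    have : wb i1 (Dg ρ r x) (blank J' J1) = fun _ => 1 := funext fun S => wb_blank _ _ _
    rw [this, LG.Ex_one]
  rw [e4] at htr
  rw [hsum, e5]
  have hex := hX _ (Dg ρ r x) t hreg (wl ρ x) (fun p => ⟨hreg.w_nonneg p, by
      show |wl ρ x p - wl ρ x p| ≤ _
      rw [sub_self, abs_zero]
      exact sq_nonneg _⟩) (UW2 W) (by rw [hcard]; exact hWu) (by
    intro p
    rw [hcard]
    have c1 : ((UW2 W).card : ℝ) ≤ u0 := by exact_mod_cast hWu
    exact (mul_le_mul_of_nonneg_right c1 (hreg.w_nonneg p)).trans (b1 p)) b3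
    (fun i => W i.1) (fun i => by
    have := i.2
    unfold UW2 at this
    rw [Finset.mem_filter] at this
    exact this.2)
  rw [hcard] at hex
  have hM := LG.Mn_nonneg hg x
  have hd : 0 ≤ ((range (Ps x)).filter (fun a => insert p (UW2 W) ⊆ Bs x h a)).card /
          ((Om x).card : ℝ) := by positivity
  have hP := LG.Plow_nonneg hreg (i1 + J1)
  set d0 : ℝ := ((range (Ps x)).filter (fun a => insert p (UW2 W) ⊆ Bs x h a)).card /
          ((Om x).card : ℝ) with hd0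
  set S0 := ∑ n ∈ (Icc 1 ⌊x⌋₊).filter (fun n : ℕ => ∀ i : UW2 W,
        Int.gcd ((n : ℤ) + (h i.1 - h p)) (Ps x) = 1),
        nu g x n * ∏ i : UW2 W, wb i1 (Dg ρ r x) (W i.1) (sg ρ x (h i.1 - h p) n) with hS0
  set Q0 := Eq (UW2 W) (wl ρ x) (fun σ => ∏ i : UW2 W, wb i1 (Dg ρ r x) (W i.1) (cls σ i))
    with hQ0
  set E0 := ∏ i : UW2 W, Ex (wl ρ x) (wb i1 (Dg ρ r x) (W i.1)) with hE0
  have hex' : |Q0 - E0| ≤ cX * (4 / Real.log x ^ 2) *
      (Dg ρ r x).Plow (i1 + J1) ^ (UW2 W).card := by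
    refine hex.trans ?_
    refine mul_le_mul_of_nonneg_right ?_ (pow_nonneg hP _)
    exact mul_le_mul_of_nonneg_left b2 hcX.le
  have hMd : 0 ≤ Mn g x * d0 := mul_nonneg hM hd
  calc |S0 - Mn g x * d0 * E0|
      = |(S0 - Mn g x * d0 * Q0) + Mn g x * d0 * (Q0 - E0)| := by congr 1; ring
    _ ≤ |S0 - Mn g x * d0 * Q0| + |Mn g x * d0 * (Q0 - E0)| := abs_add_le _ _
    _ ≤ 1 / Real.log x ^ A + Mn g x * d0 *
          (cX * (4 / Real.log x ^ 2) * (Dg ρ r x).Plow (i1 + J1) ^ (UW2 W).card) := by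
        refine add_le_add htr ?_
        rw [abs_mul, abs_of_nonneg hMd]
        exact mul_le_mul_of_nonneg_left hex' hMd
    _ = _ := by ring

end Pool.Agent.Helper1.LG2
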