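import Pool.Agent.Helper1.LG2.Defs
import Pool.Agent.Helper1.LG.Comb
import Pool.Agent.Helper1.LG.SumOne

set_option autoImplicit false

/-!
LG2-S1. The sum of the squares (`SumOne2` in `LG2/Defs.lean`). Compare LG-C2 (`LG/SumOne.lean`, proved).

Expand: `∑_τ ∑_{ψ,ψ' ∈ adm k kb} ∑_{φ,φ' ∈ adm Y kk, supported off rgt τ} (-1)^.. cs^.. ∑_{n, U ⊆ B n} μ n ∏ v`,
`τ` injective with `τ i ∈ w i`, words `W p = ![lbo (ψ i), lbo (ψ' i), .one, .one]` if `p = τ i`,
`![lko (φ p), lko (φ' p), .one, .one]` otherwise, `U = UW2 W = rgt τ ∪ supp φ ∪ supp φ'`, of size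
`k + |supp φ ∪ supp φ'| ≤ u0`, level `≤ 2 (k lv b0 + ∑ kb lv bs + ∑ kk lv ks) ≤ 1/50`. Apply `est`.
Main term: `∏ E (W p) = 0` unless `ψ = ψ'` (`b1`, `b2`, `b3`) and `φ = φ'` (`mean1`, `mean2`, `orth`); then it is
`∏_i evb f0 f (ψ i) ∏_p ev e (φ p)`, with `cs^(2 |supp ψ|)` this is the summand of `Nb · SS`:
`∑_τ dn(..)` becomes `avg ∑_{τ ∈ TT w (B a)} Nb SS kk e (B a \ rgt τ)`.
Error: at most `Y^k` tuples `τ` and `NN` quadruples (`cs ≤ 1`): `ε1 Y^k NN`; and
`ε2 MI avg ∑_{τ ∈ TT (B a)} (card adm)² Plow^k ∑_{φ,φ' ⊆ B a} Plow^{|supp φ ∪ supp φ'|}`,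
`card TT ≤ |B a|^k`, `comb` with `q = 2`.
-/

open Finset

namespace Pool.Agent.Helper1.LG2

open Pool.Agent.Helper1.MT (supp cls)
open Pool.Agent.Helper1.LG (Asg ev SS adm avg dn)

namespace S1

variable {Y k J' J1 : ℕ}

/-- The letters of a pair of assignments. -/
noncomputable def Lw (τ : Fin k → Fin Y) (x : Asg k J' × Asg Y J1) : Fin Y → Lb J' J1 :=
  Function.extend τ (fun i => lbo (x.1 i)) (fun p => lko (x.2 p))

/-- The word. -/
noncomputable def Ww (τ : Fin k → Fin Y) (x y : Asg k J' × Asg Y J1) : Fin Y → Fin 4 → Lb J' J1 :=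
  fun p => ![Lw τ x p, Lw τ y p, .one, .one]

theorem mem_rgt {τ : Fin k → Fin Y} {p : Fin Y} : p ∈ rgt τ ↔ ∃ i, τ i = p := by
  simp [rgt]

theorem Lw_in {τ : Fin k → Fin Y} (hτ : Function.Injective τ) (x : Asg k J' × Asg Y J1)
    (i : Fin k) : Lw τ x (τ i) = lbo (x.1 i) := hτ.extend_apply _ _ i

theorem Lw_out {τ : Fin k → Fin Y} (x : Asg k J' × Asg Y J1) {p : Fin Y} (hp : p ∉ rgt τ) :
    Lw τ x p = lko (x.2 p) := by
  unfold Lw
  rw [Function.extend_apply']
  exact fun h => hp (mem_rgt.2 h)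

theorem mem_supp {n J : ℕ} {φ : Asg n J} {p : Fin n} : p ∈ supp φ ↔ φ p ≠ none := by
  simp [supp]

theorem lko_one (o : Option (Fin J1)) : (lko o : Lb J' J1) = .one ↔ o = none := by
  cases o with
  | none => simp [lko]
  | some j => simp [lko]

theorem lbo_ne (o : Option (Fin J')) : (lbo o : Lb J' J1) ≠ .one := by
  cases o with
  | none => simp [lbo]
  | some j => simp [lbo]

theorem UW_Ww {τ : Fin k → Fin Y} (hτ : Function.Injective τ) (x y : Asg k J' × Asg Y J1) :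
    UW2 (Ww τ x y) = rgt τ ∪ (supp x.2 ∪ supp y.2) := by
  ext p
  unfold UW2
  simp only [mem_filter, mem_univ, true_and, mem_union, mem_supp]
  constructor
  · intro h
    by_contra hc
    push Not at hc
    apply h
    funext l
    have h1 := Lw_out x hc.1
    have h2 := Lw_out y hc.1
    rw [hc.2.1] at h1
    rw [hc.2.2] at h2
    unfold Ww blank
    fin_cases l <;> simp [h1, h2, lko]
  · intro h heq
    have h0 := congrFun heq 0
    have h1 := congrFun heq 1
    unfold Ww blank at h0 h1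
    simp only [Matrix.cons_val_zero, Matrix.cons_val_one] at h0 h1
    by_cases hp : p ∈ rgt τ
    · obtain ⟨i, rfl⟩ := mem_rgt.1 hp
      rw [Lw_in hτ] at h0
      exact lbo_ne _ h0
    · rw [Lw_out x hp, lko_one] at h0
      rw [Lw_out y hp, lko_one] at h1
      rcases h with h | h | h
      · exact hp h
      · exact h h0
      · exact h h1

/-- Products over the positions. -/
theorem prod_split {τ : Fin k → Fin Y} (hτ : Function.Injective τ) {x y : Asg k J' × Asg Y J1}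
    (hx : Disjoint (supp x.2) (rgt τ)) (hy : Disjoint (supp y.2) (rgt τ))
    (F : Fin Y → Lb J' J1 → Lb J' J1 → ℝ) (hF : ∀ p, F p .one .one = 1) :
    ∏ p, F p (Lw τ x p) (Lw τ y p) =
      (∏ i, F (τ i) (lbo (x.1 i)) (lbo (y.1 i))) * ∏ p, F p (lko (x.2 p)) (lko (y.2 p)) := by
  classical
  have h1 : ∏ i, F (τ i) (lbo (x.1 i)) (lbo (y.1 i)) =
      ∏ p, if p ∈ rgt τ then F p (Lw τ x p) (Lw τ y p) else 1 := by
    rw [← prod_filter]
    have h2 : univ.filter (fun p => p ∈ rgt τ) = univ.image τ := by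
      ext p
      simp [rgt]
    rw [h2, prod_image (fun a _ b _ h => hτ h)]
    refine prod_congr rfl (fun i _ => ?_)
    rw [Lw_in hτ, Lw_in hτ]
  rw [h1, ← prod_mul_distrib]
  refine prod_congr rfl (fun p _ => ?_)
  by_cases hp : p ∈ rgt τ
  · have h3 : x.2 p = none := by
      by_contra hc
      exact (disjoint_left.1 hx) (mem_supp.2 hc) hp
    have h4 : y.2 p = none := by
      by_contra hc
      exact (disjoint_left.1 hy) (mem_supp.2 hc) hp
    rw [if_pos hp, h3, h4]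
    simp only [lko]
    rw [hF, mul_one]
  · rw [if_neg hp, one_mul, Lw_out x hp, Lw_out y hp]

/-- Sums over the positions. -/
theorem sum_split {τ : Fin k → Fin Y} (hτ : Function.Injective τ) {x : Asg k J' × Asg Y J1}
    (hx : Disjoint (supp x.2) (rgt τ)) (G : Lb J' J1 → ℝ) (hG : G .one = 0) :
    ∑ p, G (Lw τ x p) = (∑ i, G (lbo (x.1 i))) + ∑ p, G (lko (x.2 p)) := by
  classical
  have h1 : ∑ i, G (lbo (x.1 i)) = ∑ p, if p ∈ rgt τ then G (Lw τ x p) else 0 := by
    rw [← sum_filter]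
    have h2 : univ.filter (fun p => p ∈ rgt τ) = univ.image τ := by
      ext p
      simp [rgt]
    rw [h2, sum_image (fun a _ b _ h => hτ h)]
    refine sum_congr rfl (fun i _ => ?_)
    rw [Lw_in hτ]
  rw [h1, ← sum_add_distrib]
  refine sum_congr rfl (fun p _ => ?_)
  by_cases hp : p ∈ rgt τ
  · have h3 : x.2 p = none := by
      by_contra hc
      exact (disjoint_left.1 hx) (mem_supp.2 hc) hp
    rw [if_pos hp, h3]
    simp only [lko]
    rw [hG, add_zero]
  · rw [if_neg hp, zero_add, Lw_out x hp]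

theorem card_supp_le {n J : ℕ} {K : Fin J → ℕ} {φ : Asg n J} (h : φ ∈ adm n K) :
    (supp φ).card ≤ ∑ j, K j := Pool.Agent.Helper1.LG.SumOneAux.card_supp_le h

theorem sum_some {n J : ℕ} {K : Fin J → ℕ} {φ : Asg n J} (h : φ ∈ adm n K) (a : ℝ) (b : Fin J → ℝ)
    (ha : 0 ≤ a) (hb : ∀ j, 0 ≤ b j) :
    ∑ i, (match φ i with | none => a | some j => b j) ≤ n * a + ∑ j, (K j : ℝ) * b j := by
  have hadm := h
  unfold adm at h
  simp only [mem_filter, mem_univ, true_and] at h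
  have h2 : ∀ i, (match φ i with | none => a | some j => b j) ≤
      a + ∑ j, if φ i = some j then b j else 0 := by
    intro i
    cases hi : φ i with
    | none => simp
    | some j =>
      simp only [Option.some.injEq]
      rw [Finset.sum_ite_eq]
      simp only [mem_univ, if_true]
      linarith
  calc ∑ i, (match φ i with | none => a | some j => b j)
      ≤ ∑ i : Fin n, (a + ∑ j, if φ i = some j then b j else 0) := sum_le_sum (fun i _ => h2 i)
    _ = n * a + ∑ j, ∑ i, if φ i = some j then b j else 0 := by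
        rw [sum_add_distrib, sum_const, card_univ, Fintype.card_fin, nsmul_eq_mul, sum_comm]
    _ = n * a + ∑ j, ((cls φ j).card : ℝ) * b j := by
        congr 1
        refine sum_congr rfl (fun j _ => ?_)
        rw [← sum_filter, sum_const, nsmul_eq_mul]
        rfl
    _ ≤ n * a + ∑ j, (K j : ℝ) * b j := by
        refine add_le_add le_rfl (sum_le_sum (fun j _ => ?_))
        exact mul_le_mul_of_nonneg_right (by exact_mod_cast h j) (hb _)

theorem level_le {R : F2 Y k J' J1} (hR : R.Ok) {τ : Fin k → Fin Y} (hτ : Function.Injective τ)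
    {x : Asg k J' × Asg Y J1} (hx : Disjoint (supp x.2) (rgt τ)) (hx1 : x.1 ∈ adm k R.kb)
    (hx2 : x.2 ∈ adm Y R.kk) :
    ∑ p, R.lv (Lw τ x p) ≤ k * R.lv .b0 + ∑ j, (R.kb j : ℝ) * R.lv (.bs j) +
      ∑ j, (R.kk j : ℝ) * R.lv (.ks j) := by
  rw [sum_split hτ hx R.lv hR.lv_one]
  have h1 := sum_some hx1 (R.lv .b0) (fun j => R.lv (.bs j)) (hR.lv_nonneg _)
    (fun j => hR.lv_nonneg _)
  have h2 := sum_some hx2 0 (fun j => R.lv (.ks j)) le_rfl (fun j => hR.lv_nonneg _)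
  have h3 : ∑ i, R.lv (lbo (x.1 i)) =
      ∑ i, (match x.1 i with | none => R.lv .b0 | some j => R.lv (.bs j)) := by
    refine sum_congr rfl (fun i _ => ?_)
    cases x.1 i <;> rfl
  have h4 : ∑ i, R.lv (lko (x.2 i)) =
      ∑ i, (match x.2 i with | none => 0 | some j => R.lv (.ks j)) := by
    refine sum_congr rfl (fun i _ => ?_)
    cases x.2 i with
    | none => exact hR.lv_one
    | some j => rfl
  rw [h3, h4]
  rw [mul_zero, zero_add] at h2
  exact add_le_add h1 h2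

theorem sum_Ww (τ : Fin k → Fin Y) (x y : Asg k J' × Asg Y J1) (G : Lb J' J1 → ℝ)
    (hG : G .one = 0) :
    ∑ p, ∑ l, G (Ww τ x y p l) = (∑ p, G (Lw τ x p)) + ∑ p, G (Lw τ y p) := by
  rw [← sum_add_distrib]
  refine sum_congr rfl (fun p _ => ?_)
  rw [Fin.sum_univ_four]
  unfold Ww
  simp [hG]

theorem prod_Ww (τ : Fin k → Fin Y) (x y : Asg k J' × Asg Y J1) (v : Fin Y → Lb J' J1 → ℝ)
    (hv : ∀ p, v p .one = 1) :
    ∏ p, ∏ l, v p (Ww τ x y p l) = (∏ p, v p (Lw τ x p)) * ∏ p, v p (Lw τ y p) := by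
  rw [← prod_mul_distrib]
  refine prod_congr rfl (fun p _ => ?_)
  rw [Fin.prod_univ_four]
  unfold Ww
  simp [hv]

theorem prod_one {τ : Fin k → Fin Y} (hτ : Function.Injective τ) {x : Asg k J' × Asg Y J1}
    (hx : Disjoint (supp x.2) (rgt τ)) (v : Fin Y → Lb J' J1 → ℝ) (hv : ∀ p, v p .one = 1) :
    ∏ p, v p (Lw τ x p) = (∏ i, v (τ i) (lbo (x.1 i))) * ∏ p, v p (lko (x.2 p)) :=
  prod_split hτ hx hx (fun p l _ => v p l) hv

/-- The sign and the powers of `cs`. -/
noncomputable def sx (cs : ℝ) (x : Asg k J' × Asg Y J1) : ℝ :=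
  (-1) ^ (supp x.2).card * cs ^ (supp x.1).card

theorem abs_sx {cs : ℝ} (h0 : 0 ≤ cs) (h1 : cs ≤ 1) (x : Asg k J' × Asg Y J1) :
    |sx cs x| ≤ 1 := by
  unfold sx
  rw [abs_mul, abs_pow, abs_neg, abs_one, one_pow, one_mul, abs_of_nonneg (pow_nonneg h0 _)]
  exact pow_le_one₀ h0 h1

/-- The weight of a tuple. -/
theorem gt_eq (kb : Fin J' → ℕ) (kk : Fin J1 → ℕ) (cs : ℝ) {τ : Fin k → Fin Y}
    (hτ : Function.Injective τ) (B : Finset (Fin Y)) (v : Fin Y → Lb J' J1 → ℝ)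
    (hv : ∀ p, v p .one = 1) :
    gt kb kk cs τ B v = ∑ x ∈ adm k kb ×ˢ adm Y kk,
      if supp x.2 ⊆ B \ rgt τ then sx cs x * ∏ p, v p (Lw τ x p) else 0 := by
  unfold gt
  rw [sum_product]
  refine sum_congr rfl (fun ψ _ => ?_)
  rw [sum_filter]
  refine sum_congr rfl (fun φ _ => ?_)
  by_cases h : supp φ ⊆ B \ rgt τ
  · have hd : Disjoint (supp ((ψ, φ) : Asg k J' × Asg Y J1).2) (rgt τ) := by
      rw [disjoint_left]
      intro p hp
      exact (mem_sdiff.1 (h hp)).2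
    rw [if_pos h, if_pos h, prod_one hτ hd v hv]
    unfold sx
    ring
  · rw [if_neg h, if_neg h]

theorem gt_sq (kb : Fin J' → ℕ) (kk : Fin J1 → ℕ) (cs : ℝ) {τ : Fin k → Fin Y}
    (hτ : Function.Injective τ) (B : Finset (Fin Y)) (v : Fin Y → Lb J' J1 → ℝ)
    (hv : ∀ p, v p .one = 1) :
    (if rgt τ ⊆ B then gt kb kk cs τ B v ^ 2 else 0) =
      ∑ x ∈ adm k kb ×ˢ adm Y kk, ∑ y ∈ adm k kb ×ˢ adm Y kk,
        if Disjoint (supp x.2) (rgt τ) ∧ Disjoint (supp y.2) (rgt τ) then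
          (if UW2 (Ww τ x y) ⊆ B then (sx cs x * sx cs y) * ∏ p, ∏ l, v p (Ww τ x y p l) else 0)
        else 0 := by
  classical
  by_cases hB : rgt τ ⊆ B
  · rw [if_pos hB, sq, gt_eq kb kk cs hτ B v hv, sum_mul_sum]
    refine sum_congr rfl (fun x _ => sum_congr rfl (fun y _ => ?_))
    rw [UW_Ww hτ, prod_Ww τ x y v hv]
    have key : ∀ z : Asg k J' × Asg Y J1,
        supp z.2 ⊆ B \ rgt τ ↔ Disjoint (supp z.2) (rgt τ) ∧ supp z.2 ⊆ B := by
      intro z
      rw [subset_sdiff, and_comm]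
    by_cases hx : supp x.2 ⊆ B \ rgt τ
    · by_cases hy : supp y.2 ⊆ B \ rgt τ
      · have h1 := (key x).1 hx
        have h2 := (key y).1 hy
        rw [if_pos hx, if_pos hy, if_pos ⟨h1.1, h2.1⟩,
          if_pos (union_subset hB (union_subset h1.2 h2.2))]
        ring
      · rw [if_neg hy, mul_zero]
        split_ifs with h1 h2
        · exact absurd ((key y).2 ⟨h1.2, (subset_union_right.trans subset_union_right).trans h2⟩) hy
        · rfl
        · rfl
    · rw [if_neg hx, zero_mul]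
      split_ifs with h1 h2
      · exact absurd ((key x).2 ⟨h1.1, (subset_union_left.trans subset_union_right).trans h2⟩) hx
      · rfl
      · rfl
  · rw [if_neg hB]
    symm
    refine sum_eq_zero (fun x _ => sum_eq_zero (fun y _ => ?_))
    rw [UW_Ww hτ]
    rw [if_neg (fun h => hB (subset_union_left.trans h))]
    split_ifs <;> rfl

theorem mem_TT {w : Fin k → Finset (Fin Y)} {B : Finset (Fin Y)} {τ : Fin k → Fin Y} :
    τ ∈ TT w B ↔ Function.Injective τ ∧ ∀ i, τ i ∈ w i ∧ τ i ∈ B := by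
  unfold TT
  simp

/-- Sums over the tuples. -/
theorem sum_TT (w : Fin k → Finset (Fin Y)) (B : Finset (Fin Y)) (f : (Fin k → Fin Y) → ℝ) :
    ∑ τ ∈ TT w B, f τ = ∑ τ ∈ TT w univ, if rgt τ ⊆ B then f τ else 0 := by
  rw [← sum_filter]
  refine sum_congr ?_ (fun _ _ => rfl)
  ext τ
  rw [mem_filter, mem_TT, mem_TT]
  constructor
  · rintro ⟨h1, h2⟩
    refine ⟨⟨h1, fun i => ⟨(h2 i).1, mem_univ _⟩⟩, ?_⟩
    intro p hp
    obtain ⟨i, rfl⟩ := mem_rgt.1 hp
    exact (h2 i).2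
  · rintro ⟨⟨h1, h2⟩, h3⟩
    exact ⟨h1, fun i => ⟨(h2 i).1, h3 (mem_rgt.2 ⟨i, rfl⟩)⟩⟩

theorem card_TT_le (w : Fin k → Finset (Fin Y)) (B : Finset (Fin Y)) :
    (TT w B).card ≤ B.card ^ k := by
  have h1 : TT w B ⊆ Fintype.piFinset (fun _ : Fin k => B) := by
    intro τ hτ
    rw [mem_TT] at hτ
    rw [Fintype.mem_piFinset]
    exact fun i => (hτ.2 i).2
  refine (card_le_card h1).trans ?_
  rw [Fintype.card_piFinset]
  simp

theorem card_rgt {τ : Fin k → Fin Y} (hτ : Function.Injective τ) : (rgt τ).card = k := by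
  unfold rgt
  rw [card_image_of_injective _ hτ, card_univ, Fintype.card_fin]

/-- The product of the expectations. -/
theorem prod_E {R : F2 Y k J' J1} (hR : R.Ok) {τ : Fin k → Fin Y} (hτ : Function.Injective τ)
    {x y : Asg k J' × Asg Y J1} (hx : Disjoint (supp x.2) (rgt τ))
    (hy : Disjoint (supp y.2) (rgt τ)) :
    ∏ p, R.E (Ww τ x y p) = if x = y then
      (∏ i, evb R.f0 R.f (x.1 i)) * ∏ p, ev R.e (x.2 p) else 0 := by
  have hbl : (![Lb.one, Lb.one, Lb.one, Lb.one] : Fin 4 → Lb J' J1) = blank J' J1 := by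
    funext l
    fin_cases l <;> rfl
  have h1 := prod_split hτ hx hy (fun _ l l' => R.E ![l, l', .one, .one]) (by
    intro p
    simp only [hbl, hR.E_blank])
  unfold Ww
  rw [h1]
  by_cases h : x = y
  · subst h
    rw [if_pos rfl]
    congr 1
    · refine prod_congr rfl (fun i _ => ?_)
      cases x.1 i with
      | none => exact hR.b5
      | some j => exact hR.b4 j
    · refine prod_congr rfl (fun p _ => ?_)
      cases x.2 p with
      | none => simp only [lko, hbl, hR.E_blank, ev]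
      | some j => exact hR.sq j
  · rw [if_neg h]
    by_cases h2 : x.1 = y.1
    · have h3 : x.2 ≠ y.2 := fun h3 => h (Prod.ext h2 h3)
      obtain ⟨p, hp⟩ : ∃ p, x.2 p ≠ y.2 p := by
        by_contra hc
        push Not at hc
        exact h3 (funext hc)
      rw [prod_eq_zero (i := p) (f := fun p => R.E ![lko (x.2 p), lko (y.2 p), .one, .one])
        (mem_univ p), mul_zero]
      cases ha : x.2 p with
      | none =>
        cases hb : y.2 p with
        | none => exact absurd (ha.trans hb.symm) hp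
        | some j => exact hR.mean2 j
      | some j =>
        cases hb : y.2 p with
        | none => exact hR.mean1 j
        | some j' =>
          refine hR.orth j j' (fun hjk => hp ?_)
          rw [ha, hb, hjk]
    · obtain ⟨i, hi⟩ : ∃ i, x.1 i ≠ y.1 i := by
        by_contra hc
        push Not at hc
        exact h2 (funext hc)
      rw [prod_eq_zero (i := i) (f := fun i => R.E ![lbo (x.1 i), lbo (y.1 i), .one, .one])
        (mem_univ i), zero_mul]
      cases ha : x.1 i with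
      | none =>
        cases hb : y.1 i with
        | none => exact absurd (ha.trans hb.symm) hi
        | some j => exact hR.b1 j
      | some j =>
        cases hb : y.1 i with
        | none => exact hR.b2 j
        | some j' =>
          refine hR.b3 j j' (fun hjk => hi ?_)
          rw [ha, hb, hjk]

/-- The bound for pairs of assignments. -/
theorem pair_bound {J : ℕ} (K : Fin J → ℕ) (B : Finset (Fin Y)) (P : ℝ) (hP : 0 ≤ P) :
    ∑ φ ∈ adm Y K, ∑ ψ ∈ adm Y K,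
      (if supp φ ⊆ B ∧ supp ψ ⊆ B then P ^ (supp φ ∪ supp ψ).card else 0) ≤
      (1 + ((J : ℝ) + 1) ^ 2 * P) ^ B.card := by
  have h2 := (Pool.Agent.Helper1.LG.comb Y J K).2 2 P hP B
  rw [Pool.Agent.Helper1.LG.SumOneAux.sum_fin_two] at h2
  refine le_trans (le_of_eq ?_) h2
  rw [sum_filter]
  refine sum_congr rfl (fun φ _ => ?_)
  by_cases ha : supp φ ⊆ B
  · rw [if_pos ha, sum_filter]
    refine sum_congr rfl (fun ψ _ => ?_)
    by_cases hb : supp ψ ⊆ B
    · rw [if_pos hb, if_pos ⟨ha, hb⟩]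
      congr 2
      ext i
      simp only [mem_filter, mem_univ, true_and, mem_union, mem_supp, Fin.exists_fin_two,
        Matrix.cons_val_zero, Matrix.cons_val_one]
    · rw [if_neg hb, if_neg (fun hc => hb hc.2)]
  · rw [if_neg ha]
    refine sum_eq_zero (fun ψ _ => ?_)
    rw [if_neg (fun hc => ha hc.1)]

end S1

namespace S1

variable {Y k J' J1 : ℕ}

theorem avg_sum {α : Type} (Ω : Finset ℕ) (T : Finset α) (f : α → ℕ → ℝ) :
    avg Ω (fun a => ∑ t ∈ T, f t a) = ∑ t ∈ T, avg Ω (f t) := by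
  unfold avg
  rw [sum_comm, sum_div]

theorem avg_mul (Ω : Finset ℕ) (c : ℝ) (f : ℕ → ℝ) :
    avg Ω (fun a => c * f a) = c * avg Ω f := by
  unfold avg
  rw [← mul_sum, mul_div_assoc]

/-- Expansion of the sum of the squares. -/
theorem expand {R : F2 Y k J' J1} (hR : R.Ok) :
    ∑ n ∈ R.F, R.μ n * ∑ τ ∈ TT R.w (R.B n), R.g τ n ^ 2 =
      ∑ τ ∈ TT R.w univ, ∑ x ∈ adm k R.kb ×ˢ adm Y R.kk, ∑ y ∈ adm k R.kb ×ˢ adm Y R.kk,
        if Disjoint (supp x.2) (rgt τ) ∧ Disjoint (supp y.2) (rgt τ) then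
          (sx R.cs x * sx R.cs y) * ∑ n ∈ R.F.filter (fun n => UW2 (Ww τ x y) ⊆ R.B n),
            R.μ n * ∏ p, ∏ l, R.v n p (Ww τ x y p l)
        else 0 := by
  classical
  have h1 : ∀ n ∈ R.F, R.μ n * ∑ τ ∈ TT R.w (R.B n), R.g τ n ^ 2 =
      ∑ τ ∈ TT R.w univ, ∑ x ∈ adm k R.kb ×ˢ adm Y R.kk, ∑ y ∈ adm k R.kb ×ˢ adm Y R.kk,
        if Disjoint (supp x.2) (rgt τ) ∧ Disjoint (supp y.2) (rgt τ) then
          (sx R.cs x * sx R.cs y) * (if UW2 (Ww τ x y) ⊆ R.B n then
            R.μ n * ∏ p, ∏ l, R.v n p (Ww τ x y p l) else 0)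
        else 0 := by
    intro n _
    rw [sum_TT, mul_sum]
    refine sum_congr rfl (fun τ hτ => ?_)
    have hinj := (mem_TT.1 hτ).1
    unfold F2.g
    rw [gt_sq R.kb R.kk R.cs hinj (R.B n) (R.v n) (hR.v_one n), mul_sum]
    refine sum_congr rfl (fun x _ => ?_)
    rw [mul_sum]
    refine sum_congr rfl (fun y _ => ?_)
    split_ifs
    · ring
    · ring
    · ring
  rw [sum_congr rfl h1, sum_comm]
  refine sum_congr rfl (fun τ _ => ?_)
  rw [sum_comm]
  refine sum_congr rfl (fun x _ => ?_)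
  rw [sum_comm]
  refine sum_congr rfl (fun y _ => ?_)
  by_cases h2 : Disjoint (supp x.2) (rgt τ) ∧ Disjoint (supp y.2) (rgt τ)
  · simp only [if_pos h2]
    rw [← mul_sum, sum_filter]
  · simp only [if_neg h2]
    exact sum_const_zero

theorem cs_prod {R : F2 Y k J' J1} (x : Asg k J' × Asg Y J1) :
    sx R.cs x * sx R.cs x * ∏ i, evb R.f0 R.f (x.1 i) =
      ∏ i, evb R.f0 (fun j => R.cs ^ 2 * R.f j) (x.1 i) := by
  have h1 : sx R.cs x * sx R.cs x = ∏ i, (if x.1 i = none then (1 : ℝ) else R.cs ^ 2) := by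
    unfold sx
    have h2 : (-1 : ℝ) ^ (supp x.2).card * (-1) ^ (supp x.2).card = 1 := by
      rw [← pow_add, Even.neg_one_pow ⟨_, rfl⟩]
    have h3 : ∏ i, (if x.1 i = none then (1 : ℝ) else R.cs ^ 2) =
        (R.cs ^ 2) ^ (supp x.1).card := by
      rw [prod_ite, prod_const_one, one_mul, prod_const]
      rfl
    rw [h3]
    calc (-1 : ℝ) ^ (supp x.2).card * R.cs ^ (supp x.1).card *
          ((-1) ^ (supp x.2).card * R.cs ^ (supp x.1).card) =
        ((-1 : ℝ) ^ (supp x.2).card * (-1) ^ (supp x.2).card) *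
          (R.cs ^ (supp x.1).card * R.cs ^ (supp x.1).card) := by ring
      _ = (R.cs ^ 2) ^ (supp x.1).card := by
          rw [h2, one_mul, ← pow_add, ← pow_mul]
          congr 1
          ring
  rw [h1, ← prod_mul_distrib]
  refine prod_congr rfl (fun i _ => ?_)
  cases x.1 i with
  | none => simp [evb]
  | some j => simp [evb]

/-- The sum over the killing assignments. -/
theorem SS_eq (kk : Fin J1 → ℕ) (e : Fin J1 → ℝ) (Ω : Finset ℕ) (B : ℕ → Finset (Fin Y))
    (τ : Fin k → Fin Y) :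
    avg Ω (fun a => if rgt τ ⊆ B a then SS kk e (B a \ rgt τ) else 0) =
      ∑ φ ∈ adm Y kk, if Disjoint (supp φ) (rgt τ) then
        dn Ω B (rgt τ ∪ supp φ) * ∏ p, ev e (φ p) else 0 := by
  have h1 : ∀ a, (if rgt τ ⊆ B a then SS kk e (B a \ rgt τ) else 0) =
      ∑ φ ∈ adm Y kk, if Disjoint (supp φ) (rgt τ) then
        (∏ p, ev e (φ p)) * (if rgt τ ∪ supp φ ⊆ B a then 1 else 0) else 0 := by
    intro a
    by_cases h2 : rgt τ ⊆ B a
    · rw [if_pos h2]
      unfold SS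
      rw [sum_filter]
      refine sum_congr rfl (fun φ _ => ?_)
      by_cases h3 : supp φ ⊆ B a \ rgt τ
      · rw [subset_sdiff] at h3
        rw [if_pos (subset_sdiff.2 h3), if_pos h3.2, if_pos (union_subset h2 h3.1), mul_one]
      · rw [if_neg h3]
        split_ifs with h4 h5
        · exact absurd (subset_sdiff.2 ⟨subset_union_right.trans h5, h4⟩) h3
        · rw [mul_zero]
        · rfl
    · rw [if_neg h2]
      symm
      refine sum_eq_zero (fun φ _ => ?_)
      rw [if_neg (fun h => h2 (subset_union_left.trans h)), mul_zero]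
      split_ifs <;> rfl
  simp only [h1]
  rw [avg_sum]
  refine sum_congr rfl (fun φ _ => ?_)
  by_cases h3 : Disjoint (supp φ) (rgt τ)
  · simp only [if_pos h3]
    rw [avg_mul, Pool.Agent.Helper1.LG.SumOneAux.dn_eq, mul_comm]
  · simp only [if_neg h3]
    unfold avg
    rw [sum_const_zero, zero_div]

/-- The main term. -/
theorem main_term {R : F2 Y k J' J1} (hR : R.Ok) (M : ℝ) :
    ∑ τ ∈ TT R.w univ, ∑ x ∈ adm k R.kb ×ˢ adm Y R.kk, ∑ y ∈ adm k R.kb ×ˢ adm Y R.kk,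
        (if Disjoint (supp x.2) (rgt τ) ∧ Disjoint (supp y.2) (rgt τ) then
          (sx R.cs x * sx R.cs y) * (M * dn R.Ω R.B (UW2 (Ww τ x y)) *
            ∏ p, R.E (Ww τ x y p)) else 0) =
      M * avg R.Ω (fun a => ∑ τ ∈ TT R.w (R.B a), R.Nb * SS R.kk R.e (R.B a \ rgt τ)) := by
  classical
  have h0 : avg R.Ω (fun a => ∑ τ ∈ TT R.w (R.B a), R.Nb * SS R.kk R.e (R.B a \ rgt τ)) =
      ∑ τ ∈ TT R.w univ, R.Nb * ∑ φ ∈ adm Y R.kk, (if Disjoint (supp φ) (rgt τ) then
        dn R.Ω R.B (rgt τ ∪ supp φ) * ∏ p, ev R.e (φ p) else 0) := by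
    have h1 : (fun a => ∑ τ ∈ TT R.w (R.B a), R.Nb * SS R.kk R.e (R.B a \ rgt τ)) =
        fun a => ∑ τ ∈ TT R.w univ,
          R.Nb * (if rgt τ ⊆ R.B a then SS R.kk R.e (R.B a \ rgt τ) else 0) := by
      funext a
      rw [sum_TT]
      refine sum_congr rfl (fun τ _ => ?_)
      split_ifs
      · rfl
      · rw [mul_zero]
    rw [h1, avg_sum]
    refine sum_congr rfl (fun τ _ => ?_)
    rw [avg_mul, SS_eq]
  rw [h0, mul_sum]
  refine sum_congr rfl (fun τ hτ => ?_)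
  have hinj := (mem_TT.1 hτ).1
  have h2 : ∀ x ∈ adm k R.kb ×ˢ adm Y R.kk, ∑ y ∈ adm k R.kb ×ˢ adm Y R.kk,
        (if Disjoint (supp x.2) (rgt τ) ∧ Disjoint (supp y.2) (rgt τ) then
          (sx R.cs x * sx R.cs y) * (M * dn R.Ω R.B (UW2 (Ww τ x y)) *
            ∏ p, R.E (Ww τ x y p)) else 0) =
      (∏ i, evb R.f0 (fun j => R.cs ^ 2 * R.f j) (x.1 i)) *
        (M * (if Disjoint (supp x.2) (rgt τ) then
          dn R.Ω R.B (rgt τ ∪ supp x.2) * ∏ p, ev R.e (x.2 p) else 0)) := by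
    intro x hx
    rw [sum_eq_single_of_mem x hx]
    · by_cases hd : Disjoint (supp x.2) (rgt τ)
      · rw [if_pos ⟨hd, hd⟩, if_pos hd, prod_E hR hinj hd hd, if_pos rfl, UW_Ww hinj, union_self,
          ← cs_prod x]
        ring
      · rw [if_neg (fun h => hd h.1), if_neg hd, mul_zero, mul_zero]
    · intro y _ hne
      split_ifs with h3
      · rw [prod_E hR hinj h3.1 h3.2, if_neg (fun hc => hne hc.symm)]
        ring
      · rfl
  rw [sum_congr rfl h2, sum_product]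
  unfold F2.Nb
  rw [sum_mul, mul_sum]
  refine sum_congr rfl (fun ψ _ => ?_)
  dsimp only
  rw [← mul_sum, ← mul_sum]
  ring

theorem card_U {τ : Fin k → Fin Y} (hτ : Function.Injective τ) {x y : Asg k J' × Asg Y J1}
    (hx : Disjoint (supp x.2) (rgt τ)) (hy : Disjoint (supp y.2) (rgt τ)) :
    (UW2 (Ww τ x y)).card = k + (supp x.2 ∪ supp y.2).card := by
  rw [UW_Ww hτ, card_union_of_disjoint, card_rgt hτ]
  rw [disjoint_union_right]
  exact ⟨hx.symm, hy.symm⟩

/-- The sum of the densities. -/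
theorem err_sum {R : F2 Y k J' J1} (hR : R.Ok) :
    ∑ τ ∈ TT R.w univ, ∑ x ∈ adm k R.kb ×ˢ adm Y R.kk, ∑ y ∈ adm k R.kb ×ˢ adm Y R.kk,
        (if Disjoint (supp x.2) (rgt τ) ∧ Disjoint (supp y.2) (rgt τ) then
          dn R.Ω R.B (UW2 (Ww τ x y)) * R.Plow ^ (UW2 (Ww τ x y)).card else 0) ≤
      avg R.Ω (fun a => ((R.B a).card * R.Plow) ^ k * R.Xa a) := by
  classical
  have hP := hR.Plow_nonneg
  have h1 : ∑ τ ∈ TT R.w univ, ∑ x ∈ adm k R.kb ×ˢ adm Y R.kk, ∑ y ∈ adm k R.kb ×ˢ adm Y R.kk,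
        (if Disjoint (supp x.2) (rgt τ) ∧ Disjoint (supp y.2) (rgt τ) then
          dn R.Ω R.B (UW2 (Ww τ x y)) * R.Plow ^ (UW2 (Ww τ x y)).card else 0) =
      avg R.Ω (fun a => ∑ τ ∈ TT R.w univ, ∑ x ∈ adm k R.kb ×ˢ adm Y R.kk,
        ∑ y ∈ adm k R.kb ×ˢ adm Y R.kk,
        (if Disjoint (supp x.2) (rgt τ) ∧ Disjoint (supp y.2) (rgt τ) then
          (if UW2 (Ww τ x y) ⊆ R.B a then R.Plow ^ (UW2 (Ww τ x y)).card else 0) else 0)) := by
    rw [avg_sum]
    refine sum_congr rfl (fun τ _ => ?_)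
    rw [avg_sum]
    refine sum_congr rfl (fun x _ => ?_)
    rw [avg_sum]
    refine sum_congr rfl (fun y _ => ?_)
    by_cases h3 : Disjoint (supp x.2) (rgt τ) ∧ Disjoint (supp y.2) (rgt τ)
    · simp only [if_pos h3]
      rw [Pool.Agent.Helper1.LG.SumOneAux.dn_eq, mul_comm, ← avg_mul]
      congr 1
      funext a
      split_ifs
      · rw [mul_one]
      · rw [mul_zero]
    · simp only [if_neg h3]
      unfold avg
      rw [sum_const_zero, zero_div]
  rw [h1]
  refine Pool.Agent.Helper1.LG.SumOneAux.avg_mono _ _ _ (fun a _ => ?_)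
  have h4 : ∀ τ ∈ TT R.w univ, ∑ x ∈ adm k R.kb ×ˢ adm Y R.kk, ∑ y ∈ adm k R.kb ×ˢ adm Y R.kk,
        (if Disjoint (supp x.2) (rgt τ) ∧ Disjoint (supp y.2) (rgt τ) then
          (if UW2 (Ww τ x y) ⊆ R.B a then R.Plow ^ (UW2 (Ww τ x y)).card else 0) else 0) ≤
      if rgt τ ⊆ R.B a then R.Plow ^ k * R.Xa a else 0 := by
    intro τ hτ
    have hinj := (mem_TT.1 hτ).1
    by_cases h5 : rgt τ ⊆ R.B a
    · rw [if_pos h5]
      have h6 : ∀ x y : Asg k J' × Asg Y J1,
          (if Disjoint (supp x.2) (rgt τ) ∧ Disjoint (supp y.2) (rgt τ) then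
          (if UW2 (Ww τ x y) ⊆ R.B a then R.Plow ^ (UW2 (Ww τ x y)).card else 0) else 0) ≤
          R.Plow ^ k * (if supp x.2 ⊆ R.B a ∧ supp y.2 ⊆ R.B a then
            R.Plow ^ (supp x.2 ∪ supp y.2).card else 0) := by
        intro x y
        split_ifs with h7 h8 h9 h9 h9
        · rw [card_U hinj h7.1 h7.2, pow_add]
        · exfalso
          rw [UW_Ww hinj] at h8
          exact h9 ⟨(subset_union_left.trans subset_union_right).trans h8,
            (subset_union_right.trans subset_union_right).trans h8⟩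
        · positivity
        · rw [mul_zero]
        · positivity
        · rw [mul_zero]
      calc _ ≤ ∑ x ∈ adm k R.kb ×ˢ adm Y R.kk, ∑ y ∈ adm k R.kb ×ˢ adm Y R.kk,
            R.Plow ^ k * (if supp x.2 ⊆ R.B a ∧ supp y.2 ⊆ R.B a then
            R.Plow ^ (supp x.2 ∪ supp y.2).card else 0) :=
            sum_le_sum (fun x _ => sum_le_sum (fun y _ => h6 x y))
        _ = R.Plow ^ k * (((adm k R.kb).card : ℝ) ^ 2 * ∑ φ ∈ adm Y R.kk, ∑ ψ ∈ adm Y R.kk,
            (if supp φ ⊆ R.B a ∧ supp ψ ⊆ R.B a then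
              R.Plow ^ (supp φ ∪ supp ψ).card else 0)) := by
            have h10 : ∀ x : Asg k J' × Asg Y J1, ∑ y ∈ adm k R.kb ×ˢ adm Y R.kk,
                R.Plow ^ k * (if supp x.2 ⊆ R.B a ∧ supp y.2 ⊆ R.B a then
                R.Plow ^ (supp x.2 ∪ supp y.2).card else 0) =
                R.Plow ^ k * (((adm k R.kb).card : ℝ) * ∑ ψ ∈ adm Y R.kk,
                  (if supp x.2 ⊆ R.B a ∧ supp ψ ⊆ R.B a then
                    R.Plow ^ (supp x.2 ∪ supp ψ).card else 0)) := by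
              intro x
              rw [← mul_sum, sum_product]
              simp only [sum_const, nsmul_eq_mul]
            rw [sum_congr rfl (fun x _ => h10 x), ← mul_sum, ← mul_sum, sum_product]
            simp only [sum_const, nsmul_eq_mul]
            ring
        _ ≤ R.Plow ^ k * (((adm k R.kb).card : ℝ) ^ 2 *
            (1 + ((J1 : ℝ) + 1) ^ 2 * R.Plow) ^ (R.B a).card) := by
            refine mul_le_mul_of_nonneg_left ?_ (pow_nonneg hP _)
            refine mul_le_mul_of_nonneg_left (pair_bound R.kk (R.B a) R.Plow hP) (by positivity)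
        _ = R.Plow ^ k * R.Xa a := by
            unfold F2.Xa
            ring
    · rw [if_neg h5]
      refine le_of_eq (sum_eq_zero (fun x _ => sum_eq_zero (fun y _ => ?_)))
      rw [UW_Ww hinj, if_neg (fun h => h5 (subset_union_left.trans h))]
      split_ifs <;> rfl
  refine (sum_le_sum h4).trans ?_
  rw [← sum_TT R.w (R.B a) (fun _ => R.Plow ^ k * R.Xa a), sum_const, nsmul_eq_mul]
  have h5 : ((TT R.w (R.B a)).card : ℝ) ≤ ((R.B a).card : ℝ) ^ k := by
    exact_mod_cast card_TT_le R.w (R.B a)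
  have h6 : 0 ≤ R.Xa a := by
    unfold F2.Xa
    positivity
  calc ((TT R.w (R.B a)).card : ℝ) * (R.Plow ^ k * R.Xa a)
      ≤ ((R.B a).card : ℝ) ^ k * (R.Plow ^ k * R.Xa a) :=
        mul_le_mul_of_nonneg_right h5 (mul_nonneg (pow_nonneg hP _) h6)
    _ = ((R.B a).card * R.Plow) ^ k * R.Xa a := by
        rw [mul_pow]
        ring

end S1

open S1 in
theorem sumOne2 : SumOne2 := by
  classical
  intro Y k J' J1 R hR
  rw [expand hR, ← main_term hR R.MI, ← sum_sub_distrib]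
  have h2M := mul_nonneg hR.e2_nonneg hR.MI_nonneg
  have key : ∀ τ ∈ TT R.w univ, ∀ x ∈ adm k R.kb ×ˢ adm Y R.kk, ∀ y ∈ adm k R.kb ×ˢ adm Y R.kk,
      |(if Disjoint (supp x.2) (rgt τ) ∧ Disjoint (supp y.2) (rgt τ) then
          (sx R.cs x * sx R.cs y) * ∑ n ∈ R.F.filter (fun n => UW2 (Ww τ x y) ⊆ R.B n),
            R.μ n * ∏ p, ∏ l, R.v n p (Ww τ x y p l)
        else 0) -
        (if Disjoint (supp x.2) (rgt τ) ∧ Disjoint (supp y.2) (rgt τ) then
          (sx R.cs x * sx R.cs y) * (R.MI * dn R.Ω R.B (UW2 (Ww τ x y)) *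
            ∏ p, R.E (Ww τ x y p)) else 0)| ≤
        R.ε1 + R.ε2 * R.MI * (if Disjoint (supp x.2) (rgt τ) ∧ Disjoint (supp y.2) (rgt τ) then
          dn R.Ω R.B (UW2 (Ww τ x y)) * R.Plow ^ (UW2 (Ww τ x y)).card else 0) := by
    intro τ hτ x hx y hy
    have hinj := (mem_TT.1 hτ).1
    rw [mem_product] at hx hy
    by_cases h3 : Disjoint (supp x.2) (rgt τ) ∧ Disjoint (supp y.2) (rgt τ)
    · rw [if_pos h3, if_pos h3, if_pos h3, ← mul_sub, abs_mul, abs_mul]
      have hcard : (UW2 (Ww τ x y)).card ≤ R.u0 := by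
        rw [card_U hinj h3.1 h3.2]
        have h4 := card_union_le (supp x.2) (supp y.2)
        have h5 := card_supp_le hx.2
        have h6 := card_supp_le hy.2
        have h7 := hR.u0_ge
        omega
      have hlev : ∑ p, ∑ l, R.lv (Ww τ x y p l) ≤ 1 / 50 := by
        rw [sum_Ww τ x y R.lv hR.lv_one]
        have h4 := level_le hR hinj h3.1 hx.1 hx.2
        have h5 := level_le hR hinj h3.2 hy.1 hy.2
        have h6 := hR.lev4
        have h7 := hR.lv_nonneg .mj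
        have h8 : 0 ≤ (k : ℝ) * R.lv .b0 + ∑ j, (R.kb j : ℝ) * R.lv (.bs j) +
            ∑ j, (R.kk j : ℝ) * R.lv (.ks j) := by
          have h9 := hR.lv_nonneg .b0
          have h10 : 0 ≤ ∑ j, (R.kb j : ℝ) * R.lv (.bs j) :=
            sum_nonneg (fun j _ => mul_nonneg (Nat.cast_nonneg _) (hR.lv_nonneg _))
          have h11 : 0 ≤ ∑ j, (R.kk j : ℝ) * R.lv (.ks j) :=
            sum_nonneg (fun j _ => mul_nonneg (Nat.cast_nonneg _) (hR.lv_nonneg _))
          positivity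
        linarith
      have h4 := hR.est (Ww τ x y) hcard hlev
      have h5 := abs_sx (x := x) hR.cs_nonneg hR.cs_le
      have h6 := abs_sx (x := y) hR.cs_nonneg hR.cs_le
      have h7 : |sx R.cs x| * |sx R.cs y| ≤ 1 := by
        have h8 := abs_nonneg (sx R.cs x)
        have h9 := abs_nonneg (sx R.cs y)
        nlinarith
      have h8 : 0 ≤ |sx R.cs x| * |sx R.cs y| := by positivity
      calc _ ≤ 1 * |∑ n ∈ R.F.filter (fun n => UW2 (Ww τ x y) ⊆ R.B n),
            R.μ n * ∏ p, ∏ l, R.v n p (Ww τ x y p l) -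
            R.MI * dn R.Ω R.B (UW2 (Ww τ x y)) * ∏ p, R.E (Ww τ x y p)| :=
            mul_le_mul_of_nonneg_right h7 (abs_nonneg _)
        _ ≤ _ := by
            rw [one_mul]
            refine h4.trans (le_of_eq ?_)
            ring
    · rw [if_neg h3, if_neg h3, if_neg h3, sub_zero, abs_zero, mul_zero, add_zero]
      exact hR.e1_nonneg
  have h4 : ∀ τ ∈ TT R.w univ, |(∑ x ∈ adm k R.kb ×ˢ adm Y R.kk, ∑ y ∈ adm k R.kb ×ˢ adm Y R.kk,
        if Disjoint (supp x.2) (rgt τ) ∧ Disjoint (supp y.2) (rgt τ) then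
          (sx R.cs x * sx R.cs y) * ∑ n ∈ R.F.filter (fun n => UW2 (Ww τ x y) ⊆ R.B n),
            R.μ n * ∏ p, ∏ l, R.v n p (Ww τ x y p l)
        else 0) - ∑ x ∈ adm k R.kb ×ˢ adm Y R.kk, ∑ y ∈ adm k R.kb ×ˢ adm Y R.kk,
        (if Disjoint (supp x.2) (rgt τ) ∧ Disjoint (supp y.2) (rgt τ) then
          (sx R.cs x * sx R.cs y) * (R.MI * dn R.Ω R.B (UW2 (Ww τ x y)) *
            ∏ p, R.E (Ww τ x y p)) else 0)| ≤
      ∑ x ∈ adm k R.kb ×ˢ adm Y R.kk, ∑ y ∈ adm k R.kb ×ˢ adm Y R.kk,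
        (R.ε1 + R.ε2 * R.MI * (if Disjoint (supp x.2) (rgt τ) ∧ Disjoint (supp y.2) (rgt τ) then
          dn R.Ω R.B (UW2 (Ww τ x y)) * R.Plow ^ (UW2 (Ww τ x y)).card else 0)) := by
    intro τ hτ
    rw [← sum_sub_distrib]
    refine (abs_sum_le_sum_abs _ _).trans (sum_le_sum (fun x hx => ?_))
    rw [← sum_sub_distrib]
    exact (abs_sum_le_sum_abs _ _).trans (sum_le_sum (fun y hy => key τ hτ x hx y hy))
  refine (abs_sum_le_sum_abs _ _).trans ((sum_le_sum h4).trans ?_)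
  have h5 : ∑ τ ∈ TT R.w univ, ∑ x ∈ adm k R.kb ×ˢ adm Y R.kk,
      ∑ y ∈ adm k R.kb ×ˢ adm Y R.kk,
        (R.ε1 + R.ε2 * R.MI * (if Disjoint (supp x.2) (rgt τ) ∧ Disjoint (supp y.2) (rgt τ) then
          dn R.Ω R.B (UW2 (Ww τ x y)) * R.Plow ^ (UW2 (Ww τ x y)).card else 0)) =
      R.ε1 * (TT R.w univ).card * R.NN + R.ε2 * R.MI *
        ∑ τ ∈ TT R.w univ, ∑ x ∈ adm k R.kb ×ˢ adm Y R.kk, ∑ y ∈ adm k R.kb ×ˢ adm Y R.kk,
        (if Disjoint (supp x.2) (rgt τ) ∧ Disjoint (supp y.2) (rgt τ) then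
          dn R.Ω R.B (UW2 (Ww τ x y)) * R.Plow ^ (UW2 (Ww τ x y)).card else 0) := by
    simp only [sum_add_distrib, sum_const, nsmul_eq_mul, mul_sum, card_product, F2.NN]
    push_cast
    ring
  rw [h5]
  have h6 : ((TT R.w univ).card : ℝ) ≤ (Y : ℝ) ^ k := by
    have := card_TT_le R.w (univ : Finset (Fin Y))
    rw [card_univ, Fintype.card_fin] at this
    exact_mod_cast this
  have h7 : 0 ≤ R.NN := by
    unfold F2.NN
    positivity
  refine add_le_add ?_ (mul_le_mul_of_nonneg_left (err_sum hR) h2M)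
  exact mul_le_mul_of_nonneg_right (mul_le_mul_of_nonneg_left h6 hR.e1_nonneg) h7

end Pool.Agent.Helper1.LG2
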